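import Mathlib

set_option autoImplicit false

namespace Pool.Agent.Work.MP_f1d084_lc

open FirstOrder

/-- The tuples `a` and `b` satisfy the same first-order formulas in the language with one binary
relation symbol `≤`. For `P = Q` this says that the map `a i ↦ b i` is elementary. -/
def SameType {P Q : Type} [LE P] [LE Q] {n : ℕ} (a : Fin n → P) (b : Fin n → Q) : Prop :=
  ∀ φ : Language.order.Formula (Fin n),
    (letI := Language.orderStructure P; φ.Realize a) ↔
      (letI := Language.orderStructure Q; φ.Realize b)

/-- Every elementary map between finite subsets extends to an automorphism. -/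
def ElemHomog (P : Type) [LE P] : Prop :=
  ∀ (n : ℕ) (a b : Fin n → P), SameType a b → ∃ f : P ≃o P, ∀ i, f (a i) = b i

/-- Codes of binary relations on `ℕ`. -/
abbrev Code : Type := ℕ → ℕ → Bool

/-- `ℕ` with the binary relation coded by `R`. -/
def OfCode (_ : Code) : Type := ℕ

instance (R : Code) : LE (OfCode R) := ⟨fun a b => R a b = true⟩

/-- The code of a partial order. -/
def IsPO (R : Code) : Prop :=
  (∀ a : OfCode R, a ≤ a) ∧ (∀ a b : OfCode R, a ≤ b → b ≤ a → a = b) ∧
    ∀ a b c : OfCode R, a ≤ b → b ≤ c → a ≤ c

/-- The codes of the elementarily homogeneous partial orders on `ℕ`. -/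
def EH : Set Code := {R | IsPO R ∧ ElemHomog (OfCode R)}

section basic

variable {P Q T : Type} [LE P] [LE Q] [LE T]

theorem SameType.refl {n : ℕ} (a : Fin n → P) : SameType a a := fun _ => Iff.rfl

theorem SameType.symm {n : ℕ} {a : Fin n → P} {b : Fin n → Q} (h : SameType a b) :
    SameType b a := fun φ => (h φ).symm

theorem SameType.trans {n : ℕ} {a : Fin n → P} {b : Fin n → Q} {c : Fin n → T}
    (h : SameType a b) (h' : SameType b c) : SameType a c := fun φ => (h φ).trans (h' φ)

theorem SameType.relabel {n m : ℕ} {a : Fin n → P} {b : Fin n → Q} (h : SameType a b)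
    (g : Fin m → Fin n) : SameType (fun i => a (g i)) (fun i => b (g i)) := by
  intro φ
  have := h (φ.relabel g)
  rw [@Language.Formula.realize_relabel, @Language.Formula.realize_relabel] at this
  exact this

theorem SameType.of_iso {n : ℕ} (f : P ≃o Q) (a : Fin n → P) : SameType a (fun i => f (a i)) := by
  let _ := Language.orderStructure P
  let _ := Language.orderStructure Q
  have : Language.order.OrderedStructure P := ⟨fun _ => Iff.rfl⟩
  have : Language.order.OrderedStructure Q := ⟨fun _ => Iff.rfl⟩
  intro φ
  exact (Language.StrongHomClass.realize_formula f φ).symm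

theorem SameType.iff_le {n : ℕ} {a : Fin n → P} {b : Fin n → Q} (h : SameType a b) (i j : Fin n) :
    a i ≤ a j ↔ b i ≤ b j := by
  let _ := Language.orderStructure P
  let _ := Language.orderStructure Q
  have : Language.order.OrderedStructure P := ⟨fun _ => Iff.rfl⟩
  have : Language.order.OrderedStructure Q := ⟨fun _ => Iff.rfl⟩
  have := h (Language.Relations.formula₂ (Language.IsOrdered.leSymb : Language.order.Relations 2)
    (Language.Term.var i) (Language.Term.var j))
  simpa [Language.Formula.realize_rel₂] using this

theorem SameType.iff_eq {n : ℕ} {a : Fin n → P} {b : Fin n → Q} (h : SameType a b) (i j : Fin n) :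
    a i = a j ↔ b i = b j := by
  let _ := Language.orderStructure P
  let _ := Language.orderStructure Q
  have := h (Language.Term.equal (Language.Term.var i) (Language.Term.var j))
  simpa [Language.Formula.realize_equal] using this

end basic

end Pool.Agent.Work.MP_f1d084_lc
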