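import Mathlib
import Pool.Agent.Work.MP_f1d084_lc.Defs

set_option autoImplicit false

namespace Pool.Agent.Work.MP_f1d084_lc

open FirstOrder

/-- A property of assignments in all ordered sets which is given by one first-order formula. -/
def IsFO {α : Type} (Q : ∀ (P : Type) [LE P], (α → P) → Prop) : Prop :=
  ∃ φ : Language.order.Formula α, ∀ (P : Type) [LE P] (v : α → P),
    (let _ := Language.orderStructure P; φ.Realize v) ↔ Q P v

theorem IsFO.iff {n : ℕ} {Q : ∀ (P : Type) [LE P], (Fin n → P) → Prop} (h : IsFO Q) {P T : Type}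
    [LE P] [LE T] {a : Fin n → P} {b : Fin n → T} (hab : SameType a b) : Q P a ↔ Q T b := by
  obtain ⟨φ, hφ⟩ := h
  rw [← hφ P a, ← hφ T b]
  exact hab φ

theorem isFO_le {α : Type} (i j : α) : IsFO (fun (P : Type) [LE P] (v : α → P) => v i ≤ v j) := by
  refine ⟨Language.Relations.formula₂ (Language.IsOrdered.leSymb : Language.order.Relations 2)
    (Language.Term.var i) (Language.Term.var j), ?_⟩
  intro P _ v
  let _ := Language.orderStructure P
  have : Language.order.OrderedStructure P := ⟨fun _ => Iff.rfl⟩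
  simp [Language.Formula.realize_rel₂]

theorem isFO_true {α : Type} : IsFO (fun (P : Type) [LE P] (_ : α → P) => True) :=
  ⟨⊤, fun P _ v => by simp⟩

theorem IsFO.not {α : Type} {Q : ∀ (P : Type) [LE P], (α → P) → Prop} (h : IsFO Q) :
    IsFO (fun (P : Type) [LE P] (v : α → P) => ¬ Q P v) := by
  obtain ⟨φ, hφ⟩ := h
  refine ⟨φ.not, fun P _ v => ?_⟩
  let _ := Language.orderStructure P
  exact Language.Formula.realize_not.trans (not_congr (hφ P v))

theorem IsFO.imp {α : Type} {Q Q' : ∀ (P : Type) [LE P], (α → P) → Prop} (h : IsFO Q)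
    (h' : IsFO Q') : IsFO (fun (P : Type) [LE P] (v : α → P) => Q P v → Q' P v) := by
  obtain ⟨φ, hφ⟩ := h
  obtain ⟨φ', hφ'⟩ := h'
  refine ⟨φ.imp φ', fun P _ v => ?_⟩
  let _ := Language.orderStructure P
  exact Language.Formula.realize_imp.trans (imp_congr (hφ P v) (hφ' P v))

theorem IsFO.and {α : Type} {Q Q' : ∀ (P : Type) [LE P], (α → P) → Prop} (h : IsFO Q)
    (h' : IsFO Q') : IsFO (fun (P : Type) [LE P] (v : α → P) => Q P v ∧ Q' P v) := by
  obtain ⟨φ, hφ⟩ := h
  obtain ⟨φ', hφ'⟩ := h'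
  refine ⟨φ ⊓ φ', fun P _ v => ?_⟩
  let _ := Language.orderStructure P
  exact Language.Formula.realize_inf.trans (and_congr (hφ P v) (hφ' P v))

theorem IsFO.ex {α : Type} {Q : ∀ (P : Type) [LE P], (α ⊕ Unit → P) → Prop} (h : IsFO Q) :
    IsFO (fun (P : Type) [LE P] (v : α → P) => ∃ x : P, Q P (Sum.elim v fun _ => x)) := by
  obtain ⟨φ, hφ⟩ := h
  refine ⟨φ.iExs Unit, fun P _ v => ?_⟩
  let _ := Language.orderStructure P
  refine Language.Formula.realize_iExs.trans ?_
  constructor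
  · rintro ⟨i, hi⟩
    refine ⟨i (), (hφ P _).mp ?_⟩
    convert hi using 1
  · rintro ⟨x, hx⟩
    exact ⟨fun _ => x, (hφ P _).mpr hx⟩

theorem IsFO.all {α : Type} {Q : ∀ (P : Type) [LE P], (α ⊕ Unit → P) → Prop} (h : IsFO Q) :
    IsFO (fun (P : Type) [LE P] (v : α → P) => ∀ x : P, Q P (Sum.elim v fun _ => x)) := by
  obtain ⟨φ, hφ⟩ := h
  refine ⟨φ.iAlls Unit, fun P _ v => ?_⟩
  let _ := Language.orderStructure P
  refine Language.Formula.realize_iAlls.trans ?_
  constructor
  · intro hi x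
    exact (hφ P _).mp (hi fun _ => x)
  · intro hx i
    refine (hφ P _).mpr ?_
    exact hx (i ())

theorem IsFO.relabel {α β : Type} {Q : ∀ (P : Type) [LE P], (α → P) → Prop} (h : IsFO Q)
    (g : α → β) : IsFO (fun (P : Type) [LE P] (v : β → P) => Q P (fun i => v (g i))) := by
  obtain ⟨φ, hφ⟩ := h
  refine ⟨φ.relabel g, fun P _ v => ?_⟩
  let _ := Language.orderStructure P
  exact Language.Formula.realize_relabel.trans (hφ P _)

/-- Strictly below, for a relation `≤`. -/
theorem isFO_lt {α : Type} (i j : α) :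
    IsFO (fun (P : Type) [LE P] (v : α → P) => v i ≤ v j ∧ ¬ v j ≤ v i) :=
  (isFO_le i j).and (isFO_le j i).not

end Pool.Agent.Work.MP_f1d084_lc
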