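import Mathlib
import Pool.Agent.Work.MP_f1d084_lc.Tool

set_option autoImplicit false

namespace Pool.Agent.Work.MP_f1d084_lc

open FirstOrder

theorem IsFO.exs {α β : Type} [Finite β] {Q : ∀ (P : Type) [LE P], (α ⊕ β → P) → Prop}
    (h : IsFO Q) :
    IsFO (fun (P : Type) [LE P] (v : α → P) => ∃ x : β → P, Q P (Sum.elim v x)) := by
  obtain ⟨φ, hφ⟩ := h
  refine ⟨φ.iExs β, fun P _ v => ?_⟩
  let _ := Language.orderStructure P
  refine Language.Formula.realize_iExs.trans ?_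
  exact exists_congr fun i => hφ P _

theorem IsFO.forall_fin {α : Type} (n : ℕ) {Q : Fin n → ∀ (P : Type) [LE P], (α → P) → Prop}
    (h : ∀ i, IsFO (Q i)) :
    IsFO (fun (P : Type) [LE P] (v : α → P) => ∀ i, Q i P v) := by
  induction n with
  | zero =>
    obtain ⟨φ, hφ⟩ := isFO_true (α := α)
    exact ⟨φ, fun P _ v => (hφ P v).trans (by simp)⟩
  | succ n ih =>
    obtain ⟨φ, hφ⟩ := (h 0).and (ih fun i => h i.succ)
    exact ⟨φ, fun P _ v => (hφ P v).trans (Fin.forall_fin_succ (P := fun i => Q i P v)).symm⟩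

theorem IsFO.congr {α : Type} {Q Q' : ∀ (P : Type) [LE P], (α → P) → Prop} (h : IsFO Q)
    (hQ : ∀ (P : Type) [LE P] (v : α → P), Q P v ↔ Q' P v) : IsFO Q' := by
  obtain ⟨φ, hφ⟩ := h
  exact ⟨φ, fun P _ v => (hφ P v).trans (hQ P v)⟩

/-- `u` is minimal. -/
def mn (P : Type) [LE P] (u : P) : Prop := ∀ w : P, w ≤ u → u ≤ w

theorem isFO_mn {α : Type} (i : α) : IsFO (fun (P : Type) [LE P] (v : α → P) => mn P (v i)) :=
  IsFO.all (Q := fun P _ v => v (Sum.inr ()) ≤ v (Sum.inl i) → v (Sum.inl i) ≤ v (Sum.inr ()))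
    ((isFO_le _ _).imp (isFO_le _ _))

/-- `u` is not minimal and the elements above `u` form a chain. -/
def mk (P : Type) [LE P] (u : P) : Prop :=
  ¬ mn P u ∧ ∀ a : P, ∀ b : P, u ≤ a → u ≤ b → ¬ a ≤ b → b ≤ a

theorem isFO_mk {α : Type} (i : α) : IsFO (fun (P : Type) [LE P] (v : α → P) => mk P (v i)) := by
  refine (isFO_mn i).not.and (IsFO.all (Q := fun P _ v => ∀ b : P, v (Sum.inl i) ≤
    v (Sum.inr ()) → v (Sum.inl i) ≤ b → ¬ v (Sum.inr ()) ≤ b → b ≤ v (Sum.inr ())) ?_)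
  exact IsFO.all (Q := fun P _ v => v (Sum.inl (Sum.inl i)) ≤
    v (Sum.inl (Sum.inr ())) → v (Sum.inl (Sum.inl i)) ≤ v (Sum.inr ()) →
      ¬ v (Sum.inl (Sum.inr ())) ≤ v (Sum.inr ()) → v (Sum.inr ()) ≤ v (Sum.inl (Sum.inr ())))
    ((isFO_le _ _).imp ((isFO_le _ _).imp ((isFO_le _ _).not.imp (isFO_le _ _))))

/-- `u` is a node: neither minimal nor a mark. -/
def nd (P : Type) [LE P] (u : P) : Prop := ¬ mn P u ∧ ¬ mk P u

theorem isFO_nd {α : Type} (i : α) : IsFO (fun (P : Type) [LE P] (v : α → P) => nd P (v i)) :=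
  (isFO_mn i).not.and (isFO_mk i).not

/-- `w` covers `u`. -/
def cvr (P : Type) [LE P] (u w : P) : Prop :=
  (u ≤ w ∧ ¬ w ≤ u) ∧ ∀ z : P, u ≤ z → z ≤ w → ¬ z ≤ u → w ≤ z

theorem isFO_cvr {α : Type} (i j : α) :
    IsFO (fun (P : Type) [LE P] (v : α → P) => cvr P (v i) (v j)) :=
  (isFO_lt i j).and (IsFO.all (Q := fun P _ v => v (Sum.inl i) ≤ v (Sum.inr ()) →
    v (Sum.inr ()) ≤ v (Sum.inl j) → ¬ v (Sum.inr ()) ≤ v (Sum.inl i) →
      v (Sum.inl j) ≤ v (Sum.inr ()))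
    ((isFO_le _ _).imp ((isFO_le _ _).imp ((isFO_le _ _).not.imp (isFO_le _ _)))))

/-- `u` is the node with the list of coordinates `l`. -/
def Co (P : Type) [LE P] : List P → P → Prop
  | [], _ => False
  | [x], u => nd P u ∧ (mn P x ∧ x ≤ u) ∧ ∀ y : P, mn P y → y ≤ u → y ≤ x
  | x :: x' :: l, u => nd P u ∧ (mn P x ∧ x ≤ u) ∧ ∃ w : P, Co P (x' :: l) w ∧ w ≤ u ∧ ¬ x ≤ w ∧
      ∀ y : P, mn P y → y ≤ u → ¬ y ≤ x → y ≤ w

theorem isFO_false {α : Type} : IsFO (fun (P : Type) [LE P] (_ : α → P) => False) :=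
  (isFO_true (α := α)).not.congr (by simp)

theorem isFO_Co {α : Type} (I : List α) (i : α) :
    IsFO (fun (P : Type) [LE P] (v : α → P) => Co P (I.map v) (v i)) := by
  suffices H : ∀ (n : ℕ) {α : Type} (I : List α) (i : α), I.length ≤ n →
      IsFO (fun (P : Type) [LE P] (v : α → P) => Co P (I.map v) (v i)) from
    H I.length I i le_rfl
  intro n
  induction n with
  | zero =>
    intro α I i hI
    have : I = [] := List.eq_nil_of_length_eq_zero (by omega)
    subst this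
    exact isFO_false
  | succ n ih =>
    intro α I i hI
    match I, hI with
    | [], _ => exact isFO_false
    | [x], _ =>
      refine (isFO_nd i).and (((isFO_mn x).and (isFO_le x i)).and ?_)
      exact IsFO.all (Q := fun P _ v => mn P (v (Sum.inr ())) → v (Sum.inr ()) ≤ v (Sum.inl i) →
        v (Sum.inr ()) ≤ v (Sum.inl x)) ((isFO_mn _).imp ((isFO_le _ _).imp (isFO_le _ _)))
    | x :: x' :: l, hI =>
      refine (isFO_nd i).and (((isFO_mn x).and (isFO_le x i)).and ?_)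
      refine IsFO.ex (Q := fun P _ v => Co P ((x' :: l).map fun j => v (Sum.inl j))
        (v (Sum.inr ())) ∧ v (Sum.inr ()) ≤ v (Sum.inl i) ∧ ¬ v (Sum.inl x) ≤ v (Sum.inr ()) ∧
        ∀ y : P, mn P y → y ≤ v (Sum.inl i) → ¬ y ≤ v (Sum.inl x) → y ≤ v (Sum.inr ())) ?_
      refine IsFO.and ?_ ((isFO_le _ _).and ((isFO_le _ _).not.and ?_))
      · have h1 := ih (α := α ⊕ Unit) ((x' :: l).map Sum.inl) (Sum.inr ()) (by
          simp only [List.length_map, List.length_cons] at hI ⊢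
          omega)
        refine h1.congr fun P _ v => ?_
        rw [List.map_map]
        rfl
      · exact IsFO.all (Q := fun P _ v => mn P (v (Sum.inr ())) → v (Sum.inr ()) ≤
          v (Sum.inl (Sum.inl i)) → ¬ v (Sum.inr ()) ≤ v (Sum.inl (Sum.inl x)) →
          v (Sum.inr ()) ≤ v (Sum.inl (Sum.inr ())))
          ((isFO_mn _).imp ((isFO_le _ _).imp ((isFO_le _ _).not.imp (isFO_le _ _))))

/-- `a` is the `k`-th element of the chain above the node with the list of coordinates `l`. -/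
def Dk : ℕ → ∀ (P : Type) [LE P], List P → P → Prop
  | 0 => fun P _ l a => Co P l a
  | k + 1 => fun P _ l a => ∃ w : P, Dk k P l w ∧ mk P a ∧ cvr P w a

theorem isFO_Dk (k : ℕ) : ∀ {α : Type} (I : List α) (i : α),
    IsFO (fun (P : Type) [LE P] (v : α → P) => Dk k P (I.map v) (v i)) := by
  induction k with
  | zero => intro α I i; exact isFO_Co I i
  | succ k ih =>
    intro α I i
    refine IsFO.ex (Q := fun P _ v => Dk k P (I.map fun j => v (Sum.inl j)) (v (Sum.inr ())) ∧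
      mk P (v (Sum.inl i)) ∧ cvr P (v (Sum.inr ())) (v (Sum.inl i))) ?_
    refine IsFO.and ?_ ((isFO_mk _).and (isFO_cvr _ _))
    have h1 := ih (α := α ⊕ Unit) (I.map Sum.inl) (Sum.inr ())
    refine h1.congr fun P _ v => ?_
    rw [List.map_map]
    rfl

/-- A maximal element is reached in `k` covering steps. -/
def upk : ℕ → ∀ (P : Type) [LE P], P → Prop
  | 0 => fun P _ u => ∀ w : P, u ≤ w → w ≤ u
  | k + 1 => fun P _ u => ∃ w : P, cvr P u w ∧ upk k P w

theorem isFO_upk (k : ℕ) : ∀ {α : Type} (i : α),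
    IsFO (fun (P : Type) [LE P] (v : α → P) => upk k P (v i)) := by
  induction k with
  | zero =>
    intro α i
    exact IsFO.all (Q := fun P _ v => v (Sum.inl i) ≤ v (Sum.inr ()) → v (Sum.inr ()) ≤
      v (Sum.inl i)) ((isFO_le _ _).imp (isFO_le _ _))
  | succ k ih =>
    intro α i
    exact IsFO.ex (Q := fun P _ v => cvr P (v (Sum.inl i)) (v (Sum.inr ())) ∧
      upk k P (v (Sum.inr ()))) ((isFO_cvr _ _).and (ih _))

/-- The code of the node with the list of coordinates `l` is `c`. -/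
def cde (c : ℕ) (P : Type) [LE P] (l : List P) : Prop := ∃ u : P, Dk 1 P l u ∧ upk c P u

theorem isFO_cde (c : ℕ) {α : Type} (I : List α) :
    IsFO (fun (P : Type) [LE P] (v : α → P) => cde c P (I.map v)) := by
  refine IsFO.ex (Q := fun P _ v => Dk 1 P (I.map fun j => v (Sum.inl j)) (v (Sum.inr ())) ∧
      upk c P (v (Sum.inr ()))) ?_
  refine IsFO.and ?_ (isFO_upk _ _)
  have h1 := isFO_Dk 1 (α := α ⊕ Unit) (I.map Sum.inl) (Sum.inr ())
  refine h1.congr fun P _ v => ?_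
  rw [List.map_map]
  rfl

end Pool.Agent.Work.MP_f1d084_lc
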