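import Mathlib
import Pool.Agent.Work.MP_f1d084_lc.Grp1

set_option autoImplicit false

namespace Pool.Agent.Work.MP_f1d084_lc

open FirstOrder

/-- Underlying set of the poset attached to the colouring `c` of the injective tuples:
`base x` for `x : ℕ`, and above every injective nonempty list `s` a chain `nod s 0 < nod s 1 <
... < nod s (c s + 1)`. -/
inductive GE (c : List ℕ → ℕ) : Type
  | base (x : ℕ) : GE c
  | nod (s : List ℕ) (k : ℕ) (h : s.Nodup ∧ s ≠ [] ∧ k ≤ c s + 1) : GE c

variable {c : List ℕ → ℕ}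

open GE

/-- The order relation. -/
def gle : GE c → GE c → Prop
  | base x, base y => x = y
  | base x, nod s _ _ => x ∈ s
  | nod s k _, nod t m _ => (s = t ∧ k ≤ m) ∨ (k = 0 ∧ s <:+ t)
  | nod _ _ _, base _ => False

instance : PartialOrder (GE c) where
  le := gle
  le_refl a := by
    cases a with
    | base x => rfl
    | nod s k h => exact Or.inl ⟨rfl, le_rfl⟩
  le_trans a b d h1 h2 := by
    cases a with
    | base x =>
      cases b with
      | base y =>
        have h1' : x = y := h1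
        subst h1'
        exact h2
      | nod t m h =>
        cases d with
        | base z => exact absurd h2 id
        | nod u n h' =>
          have h1' : x ∈ t := h1
          change x ∈ u
          rcases h2 with ⟨h3, -⟩ | ⟨-, h3⟩
          · exact h3 ▸ h1'
          · exact h3.subset h1'
    | nod s k h =>
      cases b with
      | base y => exact absurd h1 id
      | nod t m h' =>
        cases d with
        | base z => exact absurd h2 id
        | nod u n h'' =>
          change (s = u ∧ k ≤ n) ∨ (k = 0 ∧ s <:+ u)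
          rcases h1 with ⟨rfl, h3⟩ | ⟨h3, h4⟩
          · rcases h2 with ⟨rfl, h5⟩ | ⟨h5, h6⟩
            · exact Or.inl ⟨rfl, h3.trans h5⟩
            · exact Or.inr ⟨by omega, h6⟩
          · rcases h2 with ⟨rfl, h5⟩ | ⟨h5, h6⟩
            · exact Or.inr ⟨h3, h4⟩
            · exact Or.inr ⟨h3, h4.trans h6⟩
  le_antisymm a b h1 h2 := by
    cases a with
    | base x =>
      cases b with
      | base y =>
        have h1' : x = y := h1
        rw [h1']
      | nod t m h => exact absurd h2 id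
    | nod s k h =>
      cases b with
      | base y => exact absurd h1 id
      | nod t m h' =>
        have hst : s = t := by
          rcases h1 with ⟨h3, -⟩ | ⟨-, h3⟩
          · exact h3
          · rcases h2 with ⟨h4, -⟩ | ⟨-, h4⟩
            · exact h4.symm
            · exact h3.eq_of_length (le_antisymm h3.length_le h4.length_le)
        subst hst
        have hkm : k = m := by
          rcases h1 with ⟨-, h3⟩ | ⟨h3, -⟩ <;> rcases h2 with ⟨-, h4⟩ | ⟨h4, -⟩ <;> omega
        subst hkm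
        rfl

theorem g_bb (x y : ℕ) : (base x : GE c) ≤ base y ↔ x = y := Iff.rfl

theorem g_bn (x : ℕ) (s : List ℕ) (k : ℕ) (h) : (base x : GE c) ≤ nod s k h ↔ x ∈ s := Iff.rfl

theorem g_nn (s t : List ℕ) (k m : ℕ) (h h') : (nod s k h : GE c) ≤ nod t m h' ↔
    (s = t ∧ k ≤ m) ∨ (k = 0 ∧ s <:+ t) := Iff.rfl

theorem g_nb (x : ℕ) (s : List ℕ) (k : ℕ) (h) : ¬ (nod s k h : GE c) ≤ base x := id

theorem g_mn_base (x : ℕ) : mn (GE c) (base x) := by
  intro w hw
  cases w with
  | base y =>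
    have : y = x := hw
    rw [this]
  | nod s k h => exact absurd hw (g_nb _ _ _ _)

theorem g_mn_nod (s : List ℕ) (k : ℕ) (h) : ¬ mn (GE c) (nod s k h) := by
  intro hm
  obtain ⟨x, hx⟩ := List.exists_mem_of_ne_nil s h.2.1
  exact g_nb _ _ _ _ (hm (base x) ((g_bn _ _ _ _).mpr hx))

theorem g_mn_iff (u : GE c) : mn (GE c) u ↔ ∃ x, u = base x := by
  cases u with
  | base x => exact iff_of_true (g_mn_base x) ⟨x, rfl⟩
  | nod s k h => exact iff_of_false (g_mn_nod s k h) (by rintro ⟨x, hx⟩; cases hx)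

theorem exists_fresh (s : List ℕ) : ∃ x y : ℕ, x ∉ s ∧ y ∉ s ∧ x ≠ y := by
  obtain ⟨x, hx⟩ := Infinite.exists_notMem_finset s.toFinset
  obtain ⟨y, hy⟩ := Infinite.exists_notMem_finset (insert x s.toFinset)
  refine ⟨x, y, by simpa using hx, ?_, ?_⟩
  · intro h; apply hy; simp [h]
  · rintro rfl; apply hy; simp

theorem g_mk_nod (s : List ℕ) (k : ℕ) (h) : mk (GE c) (nod s k h) ↔ k ≠ 0 := by
  constructor
  · rintro ⟨-, h1⟩ rfl
    obtain ⟨x, y, hx, hy, hxy⟩ := exists_fresh s
    have hx' : (x :: s).Nodup ∧ (x :: s) ≠ [] ∧ 0 ≤ c (x :: s) + 1 :=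
      ⟨List.nodup_cons.mpr ⟨hx, h.1⟩, by simp, Nat.zero_le _⟩
    have hy' : (y :: s).Nodup ∧ (y :: s) ≠ [] ∧ 0 ≤ c (y :: s) + 1 :=
      ⟨List.nodup_cons.mpr ⟨hy, h.1⟩, by simp, Nat.zero_le _⟩
    have hlen : ∀ z w : ℕ, (z :: s) <:+ (w :: s) → z = w := by
      intro z w hzw
      have := hzw.eq_of_length (by simp)
      exact (List.cons.inj this).1
    have h2 : ¬ (nod (x :: s) 0 hx' : GE c) ≤ nod (y :: s) 0 hy' := by
      rw [g_nn]
      rintro (⟨h3, -⟩ | ⟨-, h3⟩)
      · exact hxy (List.cons.inj h3).1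
      · exact hxy (hlen _ _ h3)
    have h3 := h1 (nod (x :: s) 0 hx') (nod (y :: s) 0 hy')
      ((g_nn _ _ _ _ _ _).mpr (Or.inr ⟨rfl, List.suffix_cons x s⟩))
      ((g_nn _ _ _ _ _ _).mpr (Or.inr ⟨rfl, List.suffix_cons y s⟩)) h2
    rw [g_nn] at h3
    rcases h3 with ⟨h4, -⟩ | ⟨-, h4⟩
    · exact hxy (List.cons.inj h4).1.symm
    · exact hxy (hlen _ _ h4).symm
  · intro hk
    refine ⟨g_mn_nod _ _ _, ?_⟩
    intro a b ha hb hab
    cases a with
    | base x => exact absurd ha (g_nb _ _ _ _)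
    | nod t m h' =>
      cases b with
      | base x => exact absurd hb (g_nb _ _ _ _)
      | nod u n h'' =>
        rw [g_nn] at ha hb
        rcases ha with ⟨rfl, ha⟩ | ⟨ha, -⟩
        · rcases hb with ⟨rfl, hb⟩ | ⟨hb, -⟩
          · rw [g_nn]
            left
            refine ⟨rfl, ?_⟩
            by_contra h3
            apply hab
            rw [g_nn]
            left
            exact ⟨rfl, by omega⟩
          · exact absurd hb hk
        · exact absurd ha hk

theorem g_nd_iff (u : GE c) : nd (GE c) u ↔ ∃ s h, u = nod s 0 h := by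
  cases u with
  | base x =>
    exact iff_of_false (fun h => h.1 (g_mn_base x)) (by rintro ⟨s, h, hx⟩; cases hx)
  | nod s k h =>
    constructor
    · rintro ⟨-, h2⟩
      rw [g_mk_nod, not_not] at h2
      subst h2
      exact ⟨s, h, rfl⟩
    · rintro ⟨t, h', ht⟩
      injection ht with h1 h2
      subst h1 h2
      exact ⟨g_mn_nod _ _ _, by rw [g_mk_nod]; simp⟩

theorem nodup_all_eq (t : List ℕ) (x : ℕ) (h : t.Nodup) (hx : x ∈ t) (hall : ∀ y ∈ t, y = x) :
    t = [x] := by
  match t, h, hx, hall with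
  | [], _, hx, _ => simp at hx
  | [y], _, _, hall => rw [hall y (by simp)]
  | y :: z :: l, h, _, hall =>
    exfalso
    have h1 := hall y (by simp)
    have h2 := hall z (by simp)
    rw [h1, h2] at h
    simp at h

theorem g_Co_iff (l : List (GE c)) : ∀ u : GE c,
    Co (GE c) l u ↔ ∃ s h, l = s.map base ∧ u = nod s 0 h := by
  induction l with
  | nil =>
    intro u
    refine iff_of_false id ?_
    rintro ⟨s, h, h1, -⟩
    have : s = [] := by simpa using h1.symm
    exact h.2.1 this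
  | cons x l ih =>
    intro u
    cases l with
    | nil =>
      constructor
      · rintro ⟨h1, ⟨h2, h3⟩, h4⟩
        obtain ⟨t, ht, rfl⟩ := (g_nd_iff u).mp h1
        obtain ⟨x0, rfl⟩ := (g_mn_iff x).mp h2
        rw [g_bn] at h3
        have : t = [x0] := nodup_all_eq t x0 ht.1 h3 fun y hy =>
          (g_bb _ _).mp (h4 (base y) (g_mn_base y) ((g_bn _ _ _ _).mpr hy))
        subst this
        exact ⟨[x0], ht, rfl, rfl⟩
      · rintro ⟨s, h, h1, rfl⟩
        match s, h, h1 with
        | [x0], h, h1 =>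
          have hx : x = base x0 := by simpa using h1
          subst hx
          refine ⟨(g_nd_iff _).mpr ⟨_, _, rfl⟩, ⟨g_mn_base _, by simp [g_bn]⟩, ?_⟩
          intro y hy hy'
          obtain ⟨y0, rfl⟩ := (g_mn_iff y).mp hy
          rw [g_bn] at hy'
          rw [g_bb]
          simpa using hy'
    | cons x' l =>
      constructor
      · rintro ⟨h1, ⟨h2, h3⟩, w, h4, h5, h6, h7⟩
        obtain ⟨t, ht, rfl⟩ := (g_nd_iff u).mp h1
        obtain ⟨x0, rfl⟩ := (g_mn_iff x).mp h2
        obtain ⟨s', hs', h8, rfl⟩ := (ih w).mp h4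
        rw [g_bn] at h3 h6
        have h5' : s' <:+ t := by
          rcases (g_nn _ _ _ _ _ _).mp h5 with ⟨h, -⟩ | ⟨-, h⟩
          · rw [h]
          · exact h
        obtain ⟨r, hr⟩ := h5'
        have hnd : (r ++ s').Nodup := by rw [hr]; exact ht.1
        have hr2 : r = [x0] := by
          apply nodup_all_eq r x0 (List.nodup_append.mp hnd).1
          · rw [← hr, List.mem_append] at h3
            exact h3.resolve_right h6
          · intro y hy
            by_contra hne
            have h9 := h7 (base y) (g_mn_base y) ((g_bn _ _ _ _).mpr (by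
              rw [← hr]; exact List.mem_append_left _ hy)) (fun h => hne ((g_bb _ _).mp h))
            rw [g_bn] at h9
            exact (List.disjoint_of_nodup_append hnd) hy h9
        subst hr2
        subst hr
        exact ⟨[x0] ++ s', ht, by simp [h8], rfl⟩
      · rintro ⟨s, h, h1, rfl⟩
        match s, h, h1 with
        | x0 :: x1 :: s', h, h1 =>
          simp only [List.map_cons, List.cons.injEq] at h1
          obtain ⟨rfl, rfl, rfl⟩ := h1
          have hs' : (x1 :: s').Nodup ∧ (x1 :: s') ≠ [] ∧ 0 ≤ c (x1 :: s') + 1 :=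
            ⟨(List.nodup_cons.mp h.1).2, by simp, Nat.zero_le _⟩
          refine ⟨(g_nd_iff _).mpr ⟨_, _, rfl⟩, ⟨g_mn_base _, by simp [g_bn]⟩,
            nod (x1 :: s') 0 hs', (ih _).mpr ⟨_, hs', rfl, rfl⟩, ?_, ?_, ?_⟩
          · rw [g_nn]
            exact Or.inr ⟨rfl, List.suffix_cons _ _⟩
          · rw [g_bn]
            exact (List.nodup_cons.mp h.1).1
          · intro y hy hy' hyx
            obtain ⟨y0, rfl⟩ := (g_mn_iff y).mp hy
            rw [g_bn] at hy' ⊢
            rw [g_bb] at hyx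
            exact (List.mem_cons.mp hy').resolve_left hyx

theorem g_cvr_nod (s : List ℕ) (k : ℕ) (h) (a : GE c) (ha : mk (GE c) a)
    (hc : cvr (GE c) (nod s k h) a) : ∃ h', a = nod s (k + 1) h' := by
  obtain ⟨⟨h1, h2⟩, h3⟩ := hc
  cases a with
  | base x => exact absurd h1 (g_nb _ _ _ _)
  | nod t m h' =>
    rw [g_mk_nod] at ha
    rcases (g_nn _ _ _ _ _ _).mp h1 with ⟨rfl, h4⟩ | ⟨rfl, h4⟩
    · have h5 : k < m := by
        rcases h4.lt_or_eq with h5 | h5
        · exact h5
        · exfalso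
          apply h2
          rw [g_nn]
          exact Or.inl ⟨rfl, h5.ge⟩
      have h6 : m = k + 1 := by
        by_contra h6
        have h7 := h3 (nod s (k + 1) ⟨h.1, h.2.1, by have := h'.2.2; omega⟩)
          ((g_nn _ _ _ _ _ _).mpr (Or.inl ⟨rfl, by omega⟩))
          ((g_nn _ _ _ _ _ _).mpr (Or.inl ⟨rfl, by omega⟩)) (by
            rw [g_nn]
            rintro (⟨-, h8⟩ | ⟨h8, -⟩) <;> omega)
        rw [g_nn] at h7
        rcases h7 with ⟨-, h8⟩ | ⟨h8, -⟩ <;> omega
      subst h6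
      exact ⟨h', rfl⟩
    · by_cases hst : s = t
      · subst hst
        have h6 : m = 1 := by
          by_contra h6
          have h7 := h3 (nod s 1 ⟨h.1, h.2.1, by omega⟩)
            ((g_nn _ _ _ _ _ _).mpr (Or.inl ⟨rfl, by omega⟩))
            ((g_nn _ _ _ _ _ _).mpr (Or.inl ⟨rfl, by omega⟩)) (by
              rw [g_nn]
              rintro (⟨-, h8⟩ | ⟨h8, -⟩) <;> omega)
          rw [g_nn] at h7
          rcases h7 with ⟨-, h8⟩ | ⟨h8, -⟩ <;> omega
        subst h6
        exact ⟨h', rfl⟩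
      · exfalso
        have h7 := h3 (nod t 0 ⟨h'.1, h'.2.1, Nat.zero_le _⟩)
          ((g_nn _ _ _ _ _ _).mpr (Or.inr ⟨rfl, h4⟩))
          ((g_nn _ _ _ _ _ _).mpr (Or.inl ⟨rfl, Nat.zero_le _⟩)) (by
            rw [g_nn]
            rintro (⟨h8, -⟩ | ⟨-, h8⟩)
            · exact hst h8.symm
            · exact hst (h4.eq_of_length (le_antisymm h4.length_le h8.length_le)))
        rw [g_nn] at h7
        rcases h7 with ⟨-, h8⟩ | ⟨h8, -⟩ <;> omega

theorem g_cvr_succ (s : List ℕ) (k : ℕ) (h) (h') :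
    cvr (GE c) (nod s k h) (nod s (k + 1) h') := by
  refine ⟨⟨(g_nn _ _ _ _ _ _).mpr (Or.inl ⟨rfl, Nat.le_succ _⟩), ?_⟩, ?_⟩
  · rw [g_nn]
    rintro (⟨-, h1⟩ | ⟨h1, -⟩) <;> omega
  · intro z h1 h2 h3
    cases z with
    | base x => exact absurd h1 (g_nb _ _ _ _)
    | nod t m ht =>
      rw [g_nn] at h1 h2 h3 ⊢
      push Not at h3
      rcases h1 with ⟨rfl, h4⟩ | ⟨rfl, h4⟩
      · left
        refine ⟨rfl, ?_⟩
        rcases h4.lt_or_eq with h5 | h5
        · exact h5
        · exact absurd (h3.1 rfl) (by omega)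
      · rcases h2 with ⟨rfl, h5⟩ | ⟨rfl, h5⟩
        · left
          refine ⟨rfl, ?_⟩
          have := h3.1 rfl
          omega
        · exact absurd h5 (h3.2 rfl)

theorem g_Dk_iff (k : ℕ) : ∀ (l : List (GE c)) (a : GE c),
    Dk k (GE c) l a ↔ ∃ s h, l = s.map base ∧ a = nod s k h := by
  induction k with
  | zero => intro l a; exact g_Co_iff l a
  | succ k ih =>
    intro l a
    constructor
    · rintro ⟨w, h1, h2, h3⟩
      obtain ⟨s, h, h4, rfl⟩ := (ih l w).mp h1
      obtain ⟨h', rfl⟩ := g_cvr_nod s k h a h2 h3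
      exact ⟨s, h', h4, rfl⟩
    · rintro ⟨s, h, h4, rfl⟩
      have h' : s.Nodup ∧ s ≠ [] ∧ k ≤ c s + 1 := ⟨h.1, h.2.1, by have := h.2.2; omega⟩
      exact ⟨nod s k h', (ih _ _).mpr ⟨s, h', h4, rfl⟩, (g_mk_nod _ _ _).mpr (Nat.succ_ne_zero k),
        g_cvr_succ _ _ _ _⟩

theorem g_upk_iff (j : ℕ) : ∀ (s : List ℕ) (k : ℕ) (h) (_ : k ≠ 0),
    upk j (GE c) (nod s k h) ↔ j + k = c s + 1 := by
  induction j with
  | zero =>
    intro s k h hk
    constructor
    · intro h1
      by_contra h2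
      have h3 : k < c s + 1 := by have := h.2.2; omega
      have h4 := h1 (nod s (k + 1) ⟨h.1, h.2.1, h3⟩)
        ((g_nn _ _ _ _ _ _).mpr (Or.inl ⟨rfl, by omega⟩))
      rw [g_nn] at h4
      rcases h4 with ⟨-, h5⟩ | ⟨h5, -⟩ <;> omega
    · intro h1 w hw
      cases w with
      | base x => exact absurd hw (g_nb _ _ _ _)
      | nod t m ht =>
        rcases (g_nn _ _ _ _ _ _).mp hw with ⟨rfl, h4⟩ | ⟨h4, -⟩
        · rw [g_nn]
          left
          exact ⟨rfl, by have := ht.2.2; omega⟩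
        · exact absurd h4 hk
  | succ j ih =>
    intro s k h hk
    constructor
    · rintro ⟨w, h1, h2⟩
      have hmw : mk (GE c) w := by
        cases w with
        | base x => exact absurd h1.1.1 (g_nb _ _ _ _)
        | nod t m ht =>
          rw [g_mk_nod]
          rintro rfl
          rcases (g_nn _ _ _ _ _ _).mp h1.1.1 with ⟨-, h4⟩ | ⟨h4, -⟩
          · omega
          · exact hk h4
      obtain ⟨h', rfl⟩ := g_cvr_nod s k h w hmw h1
      rw [ih _ _ _ (Nat.succ_ne_zero k)] at h2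
      omega
    · intro h1
      have h' : s.Nodup ∧ s ≠ [] ∧ k + 1 ≤ c s + 1 := ⟨h.1, h.2.1, by omega⟩
      refine ⟨nod s (k + 1) h', g_cvr_succ _ _ _ _, ?_⟩
      rw [ih _ _ _ (Nat.succ_ne_zero k)]
      omega

theorem g_cde_iff (j : ℕ) (l : List (GE c)) :
    cde j (GE c) l ↔ ∃ s : List ℕ, (s.Nodup ∧ s ≠ []) ∧ l = s.map base ∧ j = c s := by
  constructor
  · rintro ⟨u, h1, h2⟩
    obtain ⟨s, h, h3, rfl⟩ := (g_Dk_iff 1 l u).mp h1
    rw [g_upk_iff _ _ _ _ one_ne_zero] at h2
    exact ⟨s, ⟨h.1, h.2.1⟩, h3, by omega⟩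
  · rintro ⟨s, h, h3, rfl⟩
    have h' : s.Nodup ∧ s ≠ [] ∧ 1 ≤ c s + 1 := ⟨h.1, h.2, by omega⟩
    refine ⟨nod s 1 h', (g_Dk_iff 1 l _).mpr ⟨s, h', h3, rfl⟩, ?_⟩
    rw [g_upk_iff _ _ _ _ one_ne_zero]

end Pool.Agent.Work.MP_f1d084_lc
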