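import Mathlib
import Pool.Agent.Work.MP_f1d084_lc.Grp2

set_option autoImplicit false

namespace Pool.Agent.Work.MP_f1d084_lc

open FirstOrder

variable {c : List ℕ → ℕ}

open GE

/-- Permutations which preserve the colouring. -/
def Pres (c : List ℕ → ℕ) (g : Equiv.Perm ℕ) : Prop :=
  ∀ s : List ℕ, s.Nodup → s ≠ [] → c (s.map g) = c s

theorem Pres.symm {g : Equiv.Perm ℕ} (h : Pres c g) : Pres c g.symm := by
  intro s h1 h2
  have h3 := h (s.map g.symm) (h1.map g.symm.injective) (by simpa using h2)
  rw [List.map_map] at h3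
  have h4 : (g ∘ g.symm : ℕ → ℕ) = id := by funext x; simp
  rw [h4, List.map_id] at h3
  exact h3.symm

theorem Pres.nod {g : Equiv.Perm ℕ} (h : Pres c g) {s : List ℕ} {k : ℕ}
    (hs : s.Nodup ∧ s ≠ [] ∧ k ≤ c s + 1) :
    (s.map g).Nodup ∧ s.map g ≠ [] ∧ k ≤ c (s.map g) + 1 :=
  ⟨hs.1.map g.injective, by simpa using hs.2.1, by rw [h s hs.1 hs.2.1]; exact hs.2.2⟩

/-- The action of a colour preserving permutation on the poset. -/
def gact (g : Equiv.Perm ℕ) (h : Pres c g) : GE c → GE c
  | base x => base (g x)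
  | nod s k hs => nod (s.map g) k (h.nod hs)

theorem nod_congr {s t : List ℕ} {k m : ℕ} {h} {h'} (h1 : s = t) (h2 : k = m) :
    (nod s k h : GE c) = nod t m h' := by
  subst h1 h2
  rfl

/-- The automorphism induced by a colour preserving permutation. -/
def gIso (g : Equiv.Perm ℕ) (h : Pres c g) : GE c ≃o GE c where
  toFun := gact g h
  invFun := gact g.symm h.symm
  left_inv a := by
    cases a with
    | base x => simp [gact]
    | nod s k hs =>
      refine nod_congr ?_ rfl
      rw [List.map_map]
      have h4 : (g.symm ∘ g : ℕ → ℕ) = id := by funext x; simp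
      rw [h4, List.map_id]
  right_inv a := by
    cases a with
    | base x => simp [gact]
    | nod s k hs =>
      refine nod_congr ?_ rfl
      rw [List.map_map]
      have h4 : (g ∘ g.symm : ℕ → ℕ) = id := by funext x; simp
      rw [h4, List.map_id]
  map_rel_iff' := by
    intro a b
    have hsuf : ∀ s t : List ℕ, s.map g <:+ t.map g ↔ s <:+ t := by
      intro s t
      constructor
      · intro h1
        have h2 := h1.map g.symm
        rw [List.map_map, List.map_map] at h2
        have h4 : (g.symm ∘ g : ℕ → ℕ) = id := by funext x; simp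
        rwa [h4, List.map_id, List.map_id] at h2
      · intro h1
        exact h1.map g
    cases a with
    | base x =>
      cases b with
      | base y =>
        change base (g x) ≤ base (g y) ↔ _
        rw [g_bb, g_bb, g.injective.eq_iff]
      | nod t m ht =>
        change base (g x) ≤ nod (t.map g) m _ ↔ _
        rw [g_bn, g_bn]
        exact List.mem_map_of_injective g.injective
    | nod s k hs =>
      cases b with
      | base y => exact iff_of_false (g_nb _ _ _ _) (g_nb _ _ _ _)
      | nod t m ht =>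
        change nod (s.map g) k _ ≤ nod (t.map g) m _ ↔ _
        rw [g_nn, g_nn, hsuf, (List.map_injective_iff.mpr g.injective).eq_iff]

/-- The coordinates of an element. -/
def crd : GE c → List ℕ
  | base x => [x]
  | nod s _ _ => s

theorem exists_index (L : List ℕ) (l : List ℕ) (h : ∀ x ∈ l, x ∈ L) :
    ∃ I : List (Fin L.length), I.map L.get = l := by
  induction l with
  | nil => exact ⟨[], rfl⟩
  | cons x l ih =>
    obtain ⟨I, hI⟩ := ih fun y hy => h y (List.mem_cons_of_mem _ hy)
    obtain ⟨j, hj⟩ := List.get_of_mem (h x List.mem_cons_self)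
    exact ⟨j :: I, by rw [List.map_cons, hI, hj]⟩

/-- One formula determines an element from its coordinates. -/
theorem g_shape (L : List ℕ) (a : GE c) (hL : ∀ x ∈ crd a, x ∈ L) :
    ∃ Q : ∀ (P : Type) [LE P], (Fin L.length ⊕ Unit → P) → Prop, IsFO Q ∧
      Q (GE c) (Sum.elim (fun j => base (L.get j)) (fun _ => a)) ∧
      ∀ (b : GE c) (g : Equiv.Perm ℕ) (hg : Pres c g),
        Q (GE c) (Sum.elim (fun j => base (g (L.get j))) (fun _ => b)) → b = gact g hg a := by
  cases a with
  | base x =>
    obtain ⟨j, hj⟩ := List.get_of_mem (hL x (by simp [crd]))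
    refine ⟨fun P _ v => v (Sum.inr ()) ≤ v (Sum.inl j) ∧ v (Sum.inl j) ≤ v (Sum.inr ()),
      (isFO_le _ _).and (isFO_le _ _), ?_, ?_⟩
    · simp only [Sum.elim_inl, Sum.elim_inr, hj]
      exact ⟨le_rfl, le_rfl⟩
    · intro b g hg h
      simp only [Sum.elim_inl, Sum.elim_inr, hj] at h
      exact le_antisymm h.1 h.2
  | nod s k hs =>
    obtain ⟨I, hI⟩ := exists_index L s hL
    refine ⟨fun P _ v => Dk k P ((I.map Sum.inl).map v) (v (Sum.inr ())), isFO_Dk k _ _, ?_, ?_⟩
    · refine (g_Dk_iff k _ _).mpr ⟨s, hs, ?_, rfl⟩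
      rw [List.map_map]
      have h3 : s.map (base : ℕ → GE c) = (I.map L.get).map base := by rw [hI]
      rw [h3, List.map_map]
      rfl
    · intro b g hg h
      obtain ⟨t, ht, h1, h2⟩ := (g_Dk_iff k _ _).mp h
      simp only [Sum.elim_inr] at h2
      rw [h2]
      refine nod_congr ?_ rfl
      rw [List.map_map] at h1
      have h3 : (I.map ((Sum.elim (fun j => (base (g (L.get j)) : GE c)) fun _ : Unit => b) ∘ Sum.inl)) =
          (s.map g).map base := by
        rw [← hI, List.map_map, List.map_map]
        rfl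
      rw [h3] at h1
      exact ((List.map_injective_iff.mpr fun x y h => by injection h) h1).symm

/-- The colouring separates the orbits of the group. -/
def Sep (G : Subgroup (Equiv.Perm ℕ)) (c : List ℕ → ℕ) : Prop :=
  (∀ g ∈ G, Pres c g) ∧ ∀ s t : List ℕ, s.Nodup → s ≠ [] → t.Nodup → t ≠ [] → c s = c t →
    ∃ g ∈ G, t = s.map g

theorem g_elemHomog (G : Subgroup (Equiv.Perm ℕ)) (hc : Sep G c) : ElemHomog (GE c) := by
  classical
  intro n a b hab
  rcases Nat.eq_zero_or_pos n with rfl | hn
  · exact ⟨OrderIso.refl _, fun i => i.elim0⟩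
  set L : List ℕ := ((List.finRange n).flatMap fun i => crd (a i)).dedup with hL
  have hLmem : ∀ i, ∀ x ∈ crd (a i), x ∈ L := by
    intro i x hx
    rw [hL, List.mem_dedup, List.mem_flatMap]
    exact ⟨i, List.mem_finRange i, hx⟩
  have hLnd : L.Nodup := List.nodup_dedup _
  have hLne : L ≠ [] := by
    obtain ⟨x, hx⟩ : ∃ x, x ∈ crd (a ⟨0, hn⟩) := by
      cases a ⟨0, hn⟩ with
      | base x => exact ⟨x, by simp [crd]⟩
      | nod s k h => exact List.exists_mem_of_ne_nil s h.2.1
    exact List.ne_nil_of_mem (hLmem _ x hx)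
  choose Q hQ1 hQ2 hQ3 using fun i => g_shape L (a i) (hLmem i)
  have hfo : IsFO (fun (P : Type) [LE P] (v : Fin n → P) => ∃ x : Fin L.length → P,
      (cde (c L) P ((List.finRange L.length).map fun j => x j)) ∧
      ∀ i, Q i P (Sum.elim x fun _ => v i)) := by
    refine IsFO.exs (Q := fun P _ v => (cde (c L) P ((List.finRange L.length).map fun j =>
      v (Sum.inr j))) ∧ ∀ i, Q i P (Sum.elim (fun j => v (Sum.inr j)) fun _ => v (Sum.inl i))) ?_
    refine IsFO.and ?_ ?_
    · refine (isFO_cde (c L) ((List.finRange L.length).map Sum.inr)).congr fun P _ v => ?_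
      rw [List.map_map]
      rfl
    · refine IsFO.forall_fin n fun i => ?_
      refine ((hQ1 i).relabel (Sum.elim (fun j => Sum.inr j) fun _ => Sum.inl i)).congr
        fun P _ v => ?_
      have : (fun z : Fin L.length ⊕ Unit => v (Sum.elim (fun j => Sum.inr j)
          (fun _ => Sum.inl i) z)) =
          Sum.elim (fun j => v (Sum.inr j)) (fun _ => v (Sum.inl i)) := by
        funext z
        rcases z with z | z <;> rfl
      rw [this]
  have h1 := (hfo.iff hab).mp ⟨fun j => base (L.get j), by
    rw [g_cde_iff]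
    refine ⟨L, ⟨hLnd, hLne⟩, ?_, rfl⟩
    have : (List.finRange L.length).map (fun j => (base (L.get j) : GE c)) =
        ((List.finRange L.length).map L.get).map base := by
      rw [List.map_map]
      rfl
    rw [this, List.map_get_finRange], hQ2⟩
  obtain ⟨x, h2, h3⟩ := h1
  rw [g_cde_iff] at h2
  obtain ⟨t, ⟨ht1, ht2⟩, h4, h5⟩ := h2
  obtain ⟨g, hg, h6⟩ := hc.2 L t hLnd hLne ht1 ht2 h5
  have h7 : x = fun j => base (g (L.get j)) := by
    have h8 : (List.finRange L.length).map x =
        (List.finRange L.length).map fun j => base (g (L.get j)) := by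
      have h9 : (List.finRange L.length).map (fun j => (base (g (L.get j)) : GE c)) =
          (((List.finRange L.length).map L.get).map g).map base := by
        rw [List.map_map, List.map_map]
        rfl
      rw [h9, List.map_get_finRange, ← h6]
      exact h4
    funext j
    exact (List.map_inj_left.mp h8) j (List.mem_finRange j)
  refine ⟨gIso g (hc.1 g hg), fun i => ?_⟩
  have h8 := h3 i
  rw [h7] at h8
  exact (hQ3 i (b i) g (hc.1 g hg) h8).symm

/-- An automorphism permutes the minimal elements. -/
theorem g_base (f : GE c ≃o GE c) : ∃ g : Equiv.Perm ℕ, ∀ x, f (base x) = base (g x) := by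
  have h1 : ∀ f : GE c ≃o GE c, ∀ x, ∃ y, f (base x) = base y := by
    intro f x
    have h := SameType.of_iso f (fun _ : Fin 1 => (base x : GE c))
    have h2 := ((isFO_mn (0 : Fin 1)).iff h).mp (g_mn_base x)
    exact (g_mn_iff _).mp h2
  choose g hg using h1 f
  choose g' hg' using h1 f.symm
  refine ⟨⟨g, g', fun x => ?_, fun x => ?_⟩, hg⟩
  · have h2 := hg' (g x)
    rw [← hg, OrderIso.symm_apply_apply] at h2
    injection h2 with h2
    exact h2.symm
  · have h2 := hg (g' x)
    rw [← hg', OrderIso.apply_symm_apply] at h2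
    injection h2 with h2
    exact h2.symm

theorem g_dk (f : GE c ≃o GE c) (g : Equiv.Perm ℕ) (hf : ∀ x, f (base x) = base (g x))
    (s : List ℕ) (k : ℕ) (h) : ∃ h', f (nod s k h) = nod (s.map g) k h' := by
  let a : Fin (s.length + 1) → GE c := Fin.cons (nod s k h) fun j => base (s.get j)
  have h1 := SameType.of_iso f a
  have h2 := isFO_Dk k ((List.finRange s.length).map Fin.succ) (0 : Fin (s.length + 1))
  have e1 : ((List.finRange s.length).map Fin.succ).map a = s.map base := by
    rw [List.map_map]
    have : (a ∘ Fin.succ) = base ∘ s.get := by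
      funext j
      rfl
    rw [this, ← List.map_map, List.map_get_finRange]
  have e2 : ((List.finRange s.length).map Fin.succ).map (fun i => f (a i)) =
      (s.map g).map base := by
    have : (fun i => f (a i)) = f ∘ a := rfl
    rw [this, ← List.map_map, e1, List.map_map, List.map_map]
    apply List.map_congr_left
    intro x _
    exact hf x
  have h3 := (h2.iff h1).mp (by
    rw [e1]
    exact (g_Dk_iff _ _ _).mpr ⟨s, h, rfl, rfl⟩)
  rw [e2, g_Dk_iff] at h3
  obtain ⟨t, ht, h4, h5⟩ := h3
  have h6 : s.map g = t := (List.map_injective_iff.mpr fun x y h => by injection h) h4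
  subst h6
  exact ⟨ht, h5⟩

theorem g_pres (f : GE c ≃o GE c) (g : Equiv.Perm ℕ) (hf : ∀ x, f (base x) = base (g x)) :
    Pres c g := by
  intro s h1 h2
  let a : Fin s.length → GE c := fun j => base (s.get j)
  have h3 := SameType.of_iso f a
  have h4 := isFO_cde (c s) (List.finRange s.length)
  have e1 : (List.finRange s.length).map a = s.map base := by
    have : a = base ∘ s.get := rfl
    rw [this, ← List.map_map, List.map_get_finRange]
  have e2 : (List.finRange s.length).map (fun i => f (a i)) = (s.map g).map base := by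
    have : (fun i => f (a i)) = f ∘ a := rfl
    rw [this, ← List.map_map, e1, List.map_map, List.map_map]
    apply List.map_congr_left
    intro x _
    exact hf x
  have h5 := (h4.iff h3).mp (by
    rw [e1]
    exact (g_cde_iff _ _).mpr ⟨s, ⟨h1, h2⟩, rfl, rfl⟩)
  rw [e2, g_cde_iff] at h5
  obtain ⟨t, ht, h6, h7⟩ := h5
  have h8 : s.map g = t := (List.map_injective_iff.mpr fun x y h => by injection h) h6
  subst h8
  exact h7.symm

theorem g_eq (f : GE c ≃o GE c) (g : Equiv.Perm ℕ) (hf : ∀ x, f (base x) = base (g x)) :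
    f = gIso g (g_pres f g hf) := by
  ext a
  cases a with
  | base x => exact hf x
  | nod s k h =>
    obtain ⟨h', h1⟩ := g_dk f g hf s k h
    rw [h1]
    rfl

/-- A colouring which separates the orbits of a closed group. -/
theorem exists_sep (G : Subgroup (Equiv.Perm ℕ)) : ∃ c : List ℕ → ℕ, Sep G c := by
  classical
  let r : Setoid (List ℕ) :=
    { r := fun s t => ∃ g ∈ G, t = s.map g
      iseqv := ⟨fun s => ⟨1, G.one_mem, by simp⟩, fun {s t} ⟨g, hg, h⟩ => ⟨g⁻¹, G.inv_mem hg, by
        rw [h, List.map_map]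
        have h4 : ((g⁻¹ : Equiv.Perm ℕ) ∘ g : ℕ → ℕ) = id := by funext x; simp
        rw [h4, List.map_id]⟩, fun {s t u} ⟨g, hg, h⟩ ⟨g', hg', h'⟩ => ⟨g' * g,
          G.mul_mem hg' hg, by rw [h', h, List.map_map]; rfl⟩⟩ }
  have : Countable (Quotient r) := Quotient.countable
  obtain ⟨e, he⟩ := exists_injective_nat (Quotient r)
  refine ⟨fun s => e (Quotient.mk r s), ?_, ?_⟩
  · intro g hg s _ _
    exact congrArg e (Quotient.sound ((Setoid.symm' r) ⟨g, hg, rfl⟩))
  · intro s t _ _ _ _ h
    exact Quotient.exact (he h)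

theorem base_inj : Function.Injective (base : ℕ → GE c) := fun x y h => by injection h

instance : Countable (GE c) := by
  have : Function.Injective (fun a : GE c => match a with
    | base x => (Sum.inl x : ℕ ⊕ (List ℕ × ℕ))
    | nod s k _ => Sum.inr (s, k)) := by
    intro a b h
    cases a with
    | base x =>
      cases b with
      | base y => simp only [Sum.inl.injEq] at h; rw [h]
      | nod t m h' => simp at h
    | nod s k h' =>
      cases b with
      | base y => simp at h
      | nod t m h'' =>
        simp only [Sum.inr.injEq, Prod.mk.injEq] at h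
        exact nod_congr h.1 h.2
  exact this.countable

instance : Infinite (GE c) := Infinite.of_injective _ base_inj

theorem g_mem (G : Subgroup (Equiv.Perm ℕ))
    (hG : ∀ σ : Equiv.Perm ℕ, (∀ F : Finset ℕ, ∃ g ∈ G, ∀ x ∈ F, g x = σ x) → σ ∈ G)
    (hc : Sep G c) (σ : Equiv.Perm ℕ) (hσ : Pres c σ) : σ ∈ G := by
  refine hG σ fun F => ?_
  by_cases hF : F.toList = []
  · refine ⟨1, G.one_mem, fun x hx => ?_⟩
    rw [Finset.toList_eq_nil] at hF
    subst hF
    simp at hx
  · obtain ⟨g, hg, h1⟩ := hc.2 F.toList (F.toList.map σ) F.nodup_toList hF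
      (F.nodup_toList.map σ.injective) (by simpa using hF) (hσ _ F.nodup_toList hF).symm
    refine ⟨g, hg, fun x hx => ?_⟩
    exact ((List.map_inj_left.mp h1) x (Finset.mem_toList.mpr hx)).symm

/-- The automorphism group of the poset. -/
noncomputable def gEquiv (G : Subgroup (Equiv.Perm ℕ))
    (hG : ∀ σ : Equiv.Perm ℕ, (∀ F : Finset ℕ, ∃ g ∈ G, ∀ x ∈ F, g x = σ x) → σ ∈ G)
    (hc : Sep G c) : (GE c ≃o GE c) ≃* G where
  toFun f := ⟨Classical.choose (g_base f),
    g_mem G hG hc _ (g_pres f _ (Classical.choose_spec (g_base f)))⟩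
  invFun g := gIso g.1 (hc.1 g.1 g.2)
  left_inv f := (g_eq f _ (Classical.choose_spec (g_base f))).symm
  right_inv g := by
    ext x
    have h := Classical.choose_spec (g_base (gIso g.1 (hc.1 g.1 g.2))) x
    exact (base_inj h).symm
  map_mul' f f' := by
    ext x
    have h := Classical.choose_spec (g_base (f * f')) x
    have h1 := Classical.choose_spec (g_base f)
    have h2 := Classical.choose_spec (g_base f') x
    have h3 : (f * f') (base x) = f (f' (base x)) := rfl
    rw [h3, h2, h1] at h
    exact (base_inj h).symm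

theorem g_main (G : Subgroup (Equiv.Perm ℕ))
    (hG : ∀ σ : Equiv.Perm ℕ, (∀ F : Finset ℕ, ∃ g ∈ G, ∀ x ∈ F, g x = σ x) → σ ∈ G)
    (c : List ℕ → ℕ) (hc : Sep G c) :
    ∃ (P : Type) (_ : PartialOrder P), Countable P ∧ Infinite P ∧ ElemHomog P ∧
      ∃ (ι : ℕ → P) (φ : (P ≃o P) ≃* G), Function.Injective ι ∧ (∀ p, IsMin p ↔ ∃ x, ι x = p) ∧
        (∀ f x, f (ι x) = ι ((φ f : Equiv.Perm ℕ) x)) ∧
        ∀ p, ∃ F : Finset ℕ, ∀ f : P ≃o P, (∀ x ∈ F, f (ι x) = ι x) → f p = p := by
  refine ⟨GE c, inferInstance, inferInstance, inferInstance, g_elemHomog G hc, base,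
    gEquiv G hG hc, base_inj, ?_, ?_, ?_⟩
  · intro p
    have h := g_mn_iff p
    constructor
    · intro h1
      obtain ⟨x, hx⟩ := h.mp fun w hw => h1 hw
      exact ⟨x, hx.symm⟩
    · rintro ⟨x, rfl⟩ w hw
      exact g_mn_base x w hw
  · intro f x
    exact Classical.choose_spec (g_base f) x
  · intro p
    cases p with
    | base x => exact ⟨{x}, fun f hf => hf x (by simp)⟩
    | nod s k h =>
      refine ⟨s.toFinset, fun f hf => ?_⟩
      obtain ⟨g, hg⟩ := g_base f
      obtain ⟨h', h1⟩ := g_dk f g hg s k h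
      rw [h1]
      refine nod_congr ?_ rfl
      have h2 : s.map g = s.map id := by
        apply List.map_congr_left
        intro x hx
        have h3 := hf x (by simpa using hx)
        rw [hg] at h3
        exact base_inj h3
      rw [h2, List.map_id]

end Pool.Agent.Work.MP_f1d084_lc
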