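import Mathlib
import Pool.Agent.Work.MP_f1d084_lc.Defs

set_option autoImplicit false

namespace Pool.Agent.Work.MP_f1d084_lc

open FirstOrder

/-- Back and forth between two countable sets. -/
theorem back_forth_equiv {P Q : Type} [Countable P] [Countable Q] [Nonempty P] [Nonempty Q]
    (E : List (P × Q) → Prop)
    (hforth : ∀ l, E l → ∀ p, ∃ q, E ((p, q) :: l))
    (hback : ∀ l, E l → ∀ q, ∃ p, E ((p, q) :: l))
    (heq : ∀ l, E l → ∀ x ∈ l, ∀ y ∈ l, (x.1 = y.1 ↔ x.2 = y.2))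
    (l0 : List (P × Q)) (h0 : E l0) : ∃ f : P ≃ Q, (∀ x ∈ l0, f x.1 = x.2) ∧
      ∀ p p', ∃ l, E l ∧ (p, f p) ∈ l ∧ (p', f p') ∈ l := by
  classical
  obtain ⟨eP, heP⟩ := exists_surjective_nat P
  obtain ⟨eQ, heQ⟩ := exists_surjective_nat Q
  choose F hF using hforth
  choose B hB using hback
  let step : ℕ → {l // E l} → {l // E l} := fun k l =>
    let l1 : {l // E l} := ⟨(eP k, F l.1 l.2 (eP k)) :: l.1, hF l.1 l.2 (eP k)⟩
    ⟨(B l1.1 l1.2 (eQ k), eQ k) :: l1.1, hB l1.1 l1.2 (eQ k)⟩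
  let s : ℕ → {l // E l} := fun n => Nat.rec ⟨l0, h0⟩ (fun k l => step k l) n
  have hs : ∀ k, s (k + 1) = step k (s k) := fun k => rfl
  have hsub : ∀ k, (s k).1 ⊆ (s (k + 1)).1 := by
    intro k x hx
    rw [hs]
    exact List.mem_cons_of_mem _ (List.mem_cons_of_mem _ hx)
  have hmono : ∀ k m, k ≤ m → (s k).1 ⊆ (s m).1 := by
    intro k m hkm
    induction hkm with
    | refl => exact fun _ h => h
    | step _ ih => exact fun x hx => hsub _ (ih hx)
  have hP : ∀ p, ∃ q k, (p, q) ∈ (s k).1 := by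
    intro p
    obtain ⟨k, rfl⟩ := heP p
    refine ⟨F (s k).1 (s k).2 (eP k), k + 1, ?_⟩
    rw [hs]
    exact List.mem_cons_of_mem _ List.mem_cons_self
  have hQ : ∀ q, ∃ p k, (p, q) ∈ (s k).1 := by
    intro q
    obtain ⟨k, rfl⟩ := heQ q
    refine ⟨B ((eP k, F (s k).1 (s k).2 (eP k)) :: (s k).1) (hF (s k).1 (s k).2 (eP k)) (eQ k),
      k + 1, ?_⟩
    rw [hs]
    exact List.mem_cons_self
  choose f kf hf using hP
  choose g kg hg using hQ
  have hcomp : ∀ {p q p' q' k k'}, (p, q) ∈ (s k).1 → (p', q') ∈ (s k').1 →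
      (p = p' ↔ q = q') := by
    intro p q p' q' k k' h h'
    have h1 := hmono k (max k k') (le_max_left _ _) h
    have h2 := hmono k' (max k k') (le_max_right _ _) h'
    exact heq _ (s (max k k')).2 _ h1 _ h2
  refine ⟨{ toFun := f, invFun := g, left_inv := ?_, right_inv := ?_}, ?_, ?_⟩
  · intro p
    exact (hcomp (hg (f p)) (hf p)).mpr rfl
  · intro q
    exact (hcomp (hf (g q)) (hg q)).mp rfl
  · intro x hx
    have h1 : (x.1, x.2) ∈ (s 0).1 := hx
    exact (hcomp (k' := 0) (hf x.1) h1).mp rfl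
  · intro p p'
    exact ⟨_, (s (max (kf p) (kf p'))).2, hmono _ _ (le_max_left _ _) (hf p),
      hmono _ _ (le_max_right _ _) (hf p')⟩

/-- Back and forth between two countable ordered sets. -/
theorem back_forth {P Q : Type} [Countable P] [Countable Q] [Nonempty P] [Nonempty Q]
    [LE P] [LE Q] (E : List (P × Q) → Prop)
    (hforth : ∀ l, E l → ∀ p, ∃ q, E ((p, q) :: l))
    (hback : ∀ l, E l → ∀ q, ∃ p, E ((p, q) :: l))
    (hle : ∀ l, E l → ∀ x ∈ l, ∀ y ∈ l, (x.1 ≤ y.1 ↔ x.2 ≤ y.2))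
    (heq : ∀ l, E l → ∀ x ∈ l, ∀ y ∈ l, (x.1 = y.1 ↔ x.2 = y.2))
    (l0 : List (P × Q)) (h0 : E l0) : ∃ f : P ≃o Q, ∀ x ∈ l0, f x.1 = x.2 := by
  obtain ⟨f, hf, hf'⟩ := back_forth_equiv E hforth hback heq l0 h0
  refine ⟨⟨f, ?_⟩, hf⟩
  intro p p'
  obtain ⟨l, hl, h1, h2⟩ := hf' p p'
  exact (hle l hl _ h1 _ h2).symm

/-- Tuples of a list of pairs. -/
def SameTypeL {P Q : Type} [LE P] [LE Q] (l : List (P × Q)) : Prop :=
  SameType (fun i : Fin l.length => (l.get i).1) (fun i : Fin l.length => (l.get i).2)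

section ext

variable {P Q : Type} [LE P] [LE Q]

theorem sameTypeL_le (l : List (P × Q)) (h : SameTypeL l) (x : P × Q) (hx : x ∈ l) (y : P × Q)
    (hy : y ∈ l) : x.1 ≤ y.1 ↔ x.2 ≤ y.2 := by
  obtain ⟨i, rfl⟩ := List.get_of_mem hx
  obtain ⟨j, rfl⟩ := List.get_of_mem hy
  exact SameType.iff_le h i j

theorem sameTypeL_eq (l : List (P × Q)) (h : SameTypeL l) (x : P × Q) (hx : x ∈ l) (y : P × Q)
    (hy : y ∈ l) : x.1 = y.1 ↔ x.2 = y.2 := by
  obtain ⟨i, rfl⟩ := List.get_of_mem hx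
  obtain ⟨j, rfl⟩ := List.get_of_mem hy
  exact SameType.iff_eq h i j

/-- The extension property of pairs of tuples of the same type. -/
def ExtProp (P Q : Type) [LE P] [LE Q] : Prop :=
  ∀ (n : ℕ) (a : Fin n → P) (b : Fin n → Q), SameType a b → ∀ c : P, ∃ d : Q,
    SameType (Fin.cons c a : Fin (n + 1) → P) (Fin.cons d b : Fin (n + 1) → Q)

theorem cons_get (l : List (P × Q)) (p : P) (q : Q) :
    (fun i : Fin ((p, q) :: l).length => (((p, q) :: l).get i).1) =
      (Fin.cons p (fun i : Fin l.length => (l.get i).1) : Fin (l.length + 1) → P) ∧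
    (fun i : Fin ((p, q) :: l).length => (((p, q) :: l).get i).2) =
      (Fin.cons q (fun i : Fin l.length => (l.get i).2) : Fin (l.length + 1) → Q) := by
  constructor <;>
  · funext i
    refine Fin.cases ?_ (fun i => ?_) i
    · rfl
    · rfl

theorem iso_of_ext [Countable P] [Countable Q] [Nonempty P] [Nonempty Q] (h1 : ExtProp P Q)
    (h2 : ExtProp Q P) (l : List (P × Q)) (h : SameTypeL l) :
    ∃ f : P ≃o Q, ∀ x ∈ l, f x.1 = x.2 := by
  refine back_forth SameTypeL ?_ ?_ sameTypeL_le sameTypeL_eq l h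
  · intro l hl p
    obtain ⟨q, hq⟩ := h1 _ _ _ hl p
    refine ⟨q, ?_⟩
    unfold SameTypeL
    rw [(cons_get l p q).1, (cons_get l p q).2]
    exact hq
  · intro l hl q
    obtain ⟨p, hp⟩ := h2 _ _ _ hl.symm q
    refine ⟨p, ?_⟩
    unfold SameTypeL
    rw [(cons_get l p q).1, (cons_get l p q).2]
    exact hp.symm

theorem iso_of_ext_tuple [Countable P] [Countable Q] [Nonempty P] [Nonempty Q] (h1 : ExtProp P Q)
    (h2 : ExtProp Q P) {n : ℕ} (a : Fin n → P) (b : Fin n → Q) (h : SameType a b) :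
    ∃ f : P ≃o Q, ∀ i, f (a i) = b i := by
  set l : List (P × Q) := List.ofFn (fun i => (a i, b i)) with hl
  have hlen : l.length = n := by simp [hl]
  have hget : ∀ i : Fin l.length, l.get i = (a (i.cast hlen), b (i.cast hlen)) := by
    intro i
    rw [List.get_eq_getElem, ← List.getElem_ofFn (f := fun i => (a i, b i))]
    rfl
  obtain ⟨f, hf⟩ := iso_of_ext h1 h2 l (by
    unfold SameTypeL
    have := h.relabel (fun i : Fin l.length => i.cast hlen)
    convert this using 2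
    · rw [hget]
    · rw [hget])
  refine ⟨f, fun i => hf (a i, b i) ?_⟩
  rw [hl, List.mem_ofFn]
  exact ⟨i, rfl⟩

end ext

theorem ElemHomog.ext {P : Type} [LE P] (h : ElemHomog P) : ExtProp P P := by
  intro n a b hab c
  obtain ⟨f, hf⟩ := h n a b hab
  refine ⟨f c, ?_⟩
  have := SameType.of_iso f (Fin.cons c a : Fin (n + 1) → P)
  convert this using 1
  funext i
  refine Fin.cases ?_ (fun i => ?_) i
  · rfl
  · simp [hf]

theorem elemHomog_iff {P : Type} [LE P] [Countable P] [Nonempty P] :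
    ElemHomog P ↔ ExtProp P P := by
  refine ⟨ElemHomog.ext, fun h n a b hab => iso_of_ext_tuple h h a b hab⟩

/-- Elementary homogeneity is invariant under isomorphism. -/
theorem ElemHomog.of_iso {P Q : Type} [LE P] [LE Q] (e : P ≃o Q) (h : ElemHomog P) :
    ElemHomog Q := by
  intro n a b hab
  have h1 := SameType.of_iso e.symm a
  have h2 := SameType.of_iso e.symm b
  obtain ⟨f, hf⟩ := h n _ _ (h1.symm.trans (hab.trans h2))
  refine ⟨e.symm.trans (f.trans e), fun i => ?_⟩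
  simp [hf]

end Pool.Agent.Work.MP_f1d084_lc
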