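import Mathlib
import Pool.Agent.Work.MP_f1d084_lc.BackForth
import Pool.Agent.Work.MP_f1d084_lc.Tool

set_option autoImplicit false

namespace Pool.Agent.Work.MP_f1d084_lc

open FirstOrder

/-- A colouring of the rationals by `ℕ`, every colour class is dense. -/
noncomputable def col (q : ℚ) : ℕ := (-padicValRat 2 q).toNat

theorem col_dense (a b : ℚ) (h : a < b) (n : ℕ) : ∃ q, a < q ∧ q < b ∧ col q = n := by
  have hd : 0 < b - a := sub_pos.mpr h
  obtain ⟨m, hm⟩ := pow_unbounded_of_one_lt (2 / (b - a)) (by norm_num : (1 : ℚ) < 3)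
  have hm' : 2 < (b - a) * 3 ^ m := by
    rw [div_lt_iff₀ hd] at hm
    linarith
  set M : ℚ := 2 ^ n * 3 ^ m with hM
  have hM0 : 0 < M := by positivity
  have hM2 : 2 < (b - a) * M := by
    have h1 : (1 : ℚ) ≤ 2 ^ n := one_le_pow₀ (by norm_num)
    have h2 : (b - a) * 3 ^ m ≤ (b - a) * M := by
      rw [hM]
      have h3 : 0 ≤ (b - a) * 3 ^ m := by positivity
      nlinarith
    linarith
  obtain ⟨N, hN1, hN2, hN3⟩ : ∃ N : ℤ, a * M < N ∧ (N : ℚ) < b * M ∧ N % 2 = 1 := by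
    have h1 := Int.lt_floor_add_one (a * M)
    have h2 := Int.floor_le (a * M)
    rcases Int.emod_two_eq_zero_or_one (⌊a * M⌋ + 1) with h3 | h3
    · refine ⟨⌊a * M⌋ + 2, ?_, ?_, by omega⟩
      · push_cast; linarith
      · push_cast; linarith
    · refine ⟨⌊a * M⌋ + 1, ?_, ?_, h3⟩
      · push_cast; linarith
      · push_cast; linarith
  refine ⟨N / M, ?_, ?_, ?_⟩
  · rw [lt_div_iff₀ hM0]; exact hN1
  · rw [div_lt_iff₀ hM0]; exact hN2
  · have hN0 : N ≠ 0 := by rintro rfl; simp at hN3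
    have h1 : padicValRat 2 (N : ℚ) = 0 := by
      rw [padicValRat.of_int]
      norm_cast
      rw [padicValInt.eq_zero_iff]
      right; right
      intro h4
      omega
    have h2 : padicValRat 2 M = n := by
      rw [hM, padicValRat.mul (by positivity) (by positivity),
        padicValRat.pow (q := (2 : ℚ)), padicValRat.pow (q := (3 : ℚ))]
      have h3 : padicValRat 2 (2 : ℚ) = 1 := by
        have := padicValRat.self (p := 2) (by norm_num)
        exact_mod_cast this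
      have h4 : padicValRat 2 (3 : ℚ) = 0 := by
        have : ((3 : ℕ) : ℚ) = 3 := by norm_num
        rw [← this, padicValRat.of_nat]
        norm_cast
        rw [padicValNat.eq_zero_iff]
        right; right
        norm_num
      rw [h3, h4]; simp
    unfold col
    rw [padicValRat.div (by exact_mod_cast hN0) hM0.ne', h1, h2]
    simp

/-- Exchange `2 k` and `2 k + 1` when `x k = 1`. -/
def sw (x : ℕ → Bool) (j : ℕ) : ℕ :=
  if x (j / 2) = true then (if j % 2 = 0 then j + 1 else j - 1) else j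

theorem sw_sw (x : ℕ → Bool) (j : ℕ) : sw x (sw x j) = j := by
  unfold sw
  by_cases h : x (j / 2) = true
  · rw [if_pos h]
    by_cases h2 : j % 2 = 0
    · rw [if_pos h2, show (j + 1) / 2 = j / 2 by omega, if_pos h, if_neg (by omega)]
      omega
    · rw [if_neg h2, show (j - 1) / 2 = j / 2 by omega, if_pos h, if_pos (by omega)]
      omega
  · rw [if_neg h, if_neg h]

theorem sw_inj (x : ℕ → Bool) : Function.Injective (sw x) := fun i j h => by
  rw [← sw_sw x i, h, sw_sw]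

/-- Underlying set of the linear order which codes `s`: `inl ⟨j, e⟩` is the `e`-th element of a
block with `j + 2` elements, `inr (i, y)` an element of the `i`-th dense piece. -/
@[ext] structure Lin (s : ℕ → ℕ → Bool) : Type where
  /-- the index of the copy -/
  idx : ℚ
  /-- the position in the copy -/
  pc : (Σ j : ℕ, Fin (j + 2)) ⊕ (ℕ × ℚ)

/-- The rank of the piece. -/
def rk (x : ℕ → Bool) : (Σ j : ℕ, Fin (j + 2)) ⊕ (ℕ × ℚ) → ℕ
  | .inl u => 2 * sw x u.1
  | .inr u => 2 * u.1 + 1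

/-- The coordinate in the piece. -/
def inner : (Σ j : ℕ, Fin (j + 2)) ⊕ (ℕ × ℚ) → ℚ
  | .inl u => ((u.2 : ℕ) : ℚ)
  | .inr u => u.2

/-- The key which defines the order. -/
noncomputable def key (s : ℕ → ℕ → Bool) (a : Lin s) : ℚ ×ₗ (ℕ ×ₗ ℚ) :=
  toLex (a.idx, toLex (rk (s (col a.idx)) a.pc, inner a.pc))

theorem pc_inj (x : ℕ → Bool) (u v : (Σ j : ℕ, Fin (j + 2)) ⊕ (ℕ × ℚ)) (h1 : rk x u = rk x v)
    (h2 : inner u = inner v) : u = v := by
  rcases u with ⟨j, e⟩ | ⟨i, y⟩ <;> rcases v with ⟨j', e'⟩ | ⟨i', y'⟩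
  · simp only [rk, inner] at h1 h2
    have h3 : j = j' := sw_inj x (by omega)
    subst h3
    have h4 : e = e' := Fin.ext (by exact_mod_cast h2)
    rw [h4]
  · simp only [rk] at h1; omega
  · simp only [rk] at h1; omega
  · simp only [rk, inner] at h1 h2
    have h3 : i = i' := by omega
    rw [h3, h2]

theorem key_injective (s : ℕ → ℕ → Bool) : Function.Injective (key s) := by
  rintro ⟨q, u⟩ ⟨q', u'⟩ h
  simp only [key] at h
  have h' := toLex.injective h
  rw [Prod.mk.injEq] at h'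
  obtain ⟨rfl, h2⟩ := h'
  have h3 := toLex.injective h2
  rw [Prod.mk.injEq] at h3
  rw [pc_inj _ _ _ h3.1 h3.2]

noncomputable instance (s : ℕ → ℕ → Bool) : LinearOrder (Lin s) :=
  LinearOrder.lift' (key s) (key_injective s)

variable {s t : ℕ → ℕ → Bool}

theorem lin_le_iff (a b : Lin s) : a ≤ b ↔ a.idx < b.idx ∨ (a.idx = b.idx ∧
    (rk (s (col a.idx)) a.pc < rk (s (col b.idx)) b.pc ∨
      (rk (s (col a.idx)) a.pc = rk (s (col b.idx)) b.pc ∧ inner a.pc ≤ inner b.pc))) := by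
  change key s a ≤ key s b ↔ _
  unfold key
  rw [Prod.Lex.toLex_le_toLex, Prod.Lex.toLex_le_toLex]

theorem lin_lt_iff (a b : Lin s) : a < b ↔ a.idx < b.idx ∨ (a.idx = b.idx ∧
    (rk (s (col a.idx)) a.pc < rk (s (col b.idx)) b.pc ∨
      (rk (s (col a.idx)) a.pc = rk (s (col b.idx)) b.pc ∧ inner a.pc < inner b.pc))) := by
  change key s a < key s b ↔ _
  unfold key
  rw [Prod.Lex.toLex_lt_toLex, Prod.Lex.toLex_lt_toLex]

/-- `v` covers `u` -/
def cov (P : Type) [LE P] (u v : P) : Prop := (u ≤ v ∧ ¬ v ≤ u) ∧ ∀ w : P, ¬ w ≤ u → v ≤ w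

theorem isFO_cov {α : Type} (i j : α) :
    IsFO (fun (P : Type) [LE P] (v : α → P) => cov P (v i) (v j)) :=
  (isFO_lt i j).and (IsFO.all (Q := fun P _ v => ¬ v (Sum.inr ()) ≤ v (Sum.inl i) →
    v (Sum.inl j) ≤ v (Sum.inr ())) ((isFO_le _ _).not.imp (isFO_le _ _)))

/-- Exactly `e` elements can be reached by passing to immediate predecessors. -/
def pre : ℕ → ∀ (P : Type) [LE P], P → Prop
  | 0 => fun P _ u => ∀ w : P, ¬ cov P w u
  | e + 1 => fun P _ u => ∃ w : P, cov P w u ∧ pre e P w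

/-- Exactly `e` elements can be reached by passing to immediate successors. -/
def suc : ℕ → ∀ (P : Type) [LE P], P → Prop
  | 0 => fun P _ u => ∀ w : P, ¬ cov P u w
  | e + 1 => fun P _ u => ∃ w : P, cov P u w ∧ suc e P w

theorem isFO_pre (e : ℕ) : ∀ {α : Type} (i : α),
    IsFO (fun (P : Type) [LE P] (v : α → P) => pre e P (v i)) := by
  induction e with
  | zero =>
    intro α i
    exact IsFO.all (Q := fun P _ v => ¬ cov P (v (Sum.inr ())) (v (Sum.inl i))) (isFO_cov _ _).not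
  | succ e ih =>
    intro α i
    exact IsFO.ex (Q := fun P _ v => cov P (v (Sum.inr ())) (v (Sum.inl i)) ∧
      pre e P (v (Sum.inr ()))) ((isFO_cov _ _).and (ih _))

theorem isFO_suc (e : ℕ) : ∀ {α : Type} (i : α),
    IsFO (fun (P : Type) [LE P] (v : α → P) => suc e P (v i)) := by
  induction e with
  | zero =>
    intro α i
    exact IsFO.all (Q := fun P _ v => ¬ cov P (v (Sum.inl i)) (v (Sum.inr ()))) (isFO_cov _ _).not
  | succ e ih =>
    intro α i
    exact IsFO.ex (Q := fun P _ v => cov P (v (Sum.inl i)) (v (Sum.inr ())) ∧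
      suc e P (v (Sum.inr ()))) ((isFO_cov _ _).and (ih _))

/-- `u` is the first element of a block with `j + 2` elements. -/
def fst (j : ℕ) (P : Type) [LE P] (u : P) : Prop := pre 0 P u ∧ suc (j + 1) P u

theorem isFO_fst (j : ℕ) {α : Type} (i : α) :
    IsFO (fun (P : Type) [LE P] (v : α → P) => fst j P (v i)) :=
  (isFO_pre 0 i).and (isFO_suc (j + 1) i)

/-- At most one block with two elements starts between `u` and `v`. -/
def sc (P : Type) [LE P] (u v : P) : Prop :=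
  ∀ a b : P, (¬ (u ≤ a ∧ a ≤ v) → (v ≤ a ∧ a ≤ u)) → (¬ (u ≤ b ∧ b ≤ v) → (v ≤ b ∧ b ≤ u)) →
    fst 0 P a → fst 0 P b → (a ≤ b ∧ b ≤ a)

theorem isFO_sc {α : Type} (i j : α) :
    IsFO (fun (P : Type) [LE P] (v : α → P) => sc P (v i) (v j)) := by
  refine IsFO.all (Q := fun P _ v => ∀ b : P, (¬ (v (Sum.inl i) ≤ v (Sum.inr ()) ∧
    v (Sum.inr ()) ≤ v (Sum.inl j)) → (v (Sum.inl j) ≤ v (Sum.inr ()) ∧ v (Sum.inr ()) ≤
      v (Sum.inl i))) → (¬ (v (Sum.inl i) ≤ b ∧ b ≤ v (Sum.inl j)) → (v (Sum.inl j) ≤ b ∧ b ≤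
      v (Sum.inl i))) → fst 0 P (v (Sum.inr ())) → fst 0 P b → (v (Sum.inr ()) ≤ b ∧
      b ≤ v (Sum.inr ()))) ?_
  refine IsFO.all (Q := fun P _ v => (¬ (v (Sum.inl (Sum.inl i)) ≤ v (Sum.inl (Sum.inr ())) ∧
    v (Sum.inl (Sum.inr ())) ≤ v (Sum.inl (Sum.inl j))) → (v (Sum.inl (Sum.inl j)) ≤
      v (Sum.inl (Sum.inr ())) ∧ v (Sum.inl (Sum.inr ())) ≤ v (Sum.inl (Sum.inl i)))) →
    (¬ (v (Sum.inl (Sum.inl i)) ≤ v (Sum.inr ()) ∧
    v (Sum.inr ()) ≤ v (Sum.inl (Sum.inl j))) → (v (Sum.inl (Sum.inl j)) ≤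
      v (Sum.inr ()) ∧ v (Sum.inr ()) ≤ v (Sum.inl (Sum.inl i)))) →
      fst 0 P (v (Sum.inl (Sum.inr ()))) → fst 0 P (v (Sum.inr ())) →
      (v (Sum.inl (Sum.inr ())) ≤ v (Sum.inr ()) ∧ v (Sum.inr ()) ≤ v (Sum.inl (Sum.inr ())))) ?_
  exact (((isFO_le _ _).and (isFO_le _ _)).not.imp ((isFO_le _ _).and (isFO_le _ _))).imp
    ((((isFO_le _ _).and (isFO_le _ _)).not.imp ((isFO_le _ _).and (isFO_le _ _))).imp
      ((isFO_fst 0 _).imp ((isFO_fst 0 _).imp ((isFO_le _ _).and (isFO_le _ _)))))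

/-- The block with `j + 2` elements in the copy of `u` starts below `u`. -/
def blw (j : ℕ) (P : Type) [LE P] (u : P) : Prop := ∃ a : P, (sc P u a ∧ fst j P a) ∧ a ≤ u

theorem isFO_blw (j : ℕ) {α : Type} (i : α) :
    IsFO (fun (P : Type) [LE P] (v : α → P) => blw j P (v i)) :=
  IsFO.ex (Q := fun P _ v => (sc P (v (Sum.inl i)) (v (Sum.inr ())) ∧ fst j P (v (Sum.inr ()))) ∧
    v (Sum.inr ()) ≤ v (Sum.inl i)) (((isFO_sc _ _).and (isFO_fst j _)).and (isFO_le _ _))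

/-- The `k`-th digit of the real coded by the copy of `u` is `1`. -/
def lbit (k : ℕ) (P : Type) [LE P] (u : P) : Prop :=
  ∃ a : P, (sc P u a ∧ fst (2 * k) P a) ∧ ∃ b : P, (sc P u b ∧ fst (2 * k + 1) P b) ∧ b ≤ a

theorem isFO_lbit (k : ℕ) {α : Type} (i : α) :
    IsFO (fun (P : Type) [LE P] (v : α → P) => lbit k P (v i)) := by
  refine IsFO.ex (Q := fun P _ v => (sc P (v (Sum.inl i)) (v (Sum.inr ())) ∧
    fst (2 * k) P (v (Sum.inr ()))) ∧ ∃ b : P, (sc P (v (Sum.inl i)) b ∧ fst (2 * k + 1) P b) ∧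
      b ≤ v (Sum.inr ())) (((isFO_sc _ _).and (isFO_fst _ _)).and ?_)
  exact IsFO.ex (Q := fun P _ v => (sc P (v (Sum.inl (Sum.inl i))) (v (Sum.inr ())) ∧
    fst (2 * k + 1) P (v (Sum.inr ()))) ∧ v (Sum.inr ()) ≤ v (Sum.inl (Sum.inr ())))
    (((isFO_sc _ _).and (isFO_fst _ _)).and (isFO_le _ _))

end Pool.Agent.Work.MP_f1d084_lc
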