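import Mathlib

set_option autoImplicit false

namespace Pool.Agent.Work.MP_f1d084_lc

/-- Codes of the structures on `ℕ` in the relational language whose relation symbols are indexed
by `I`, the symbol `i` having arity `ar i`. -/
abbrev Str {I : Type} (ar : I → ℕ) : Type := (i : I) → (Fin (ar i) → ℕ) → Bool

section

variable {I : Type} {ar : I → ℕ}

/-- `g` is an isomorphism from the structure coded by `M` onto the structure coded by `N`. -/
def IsIso (M N : Str ar) (g : Equiv.Perm ℕ) : Prop :=
  ∀ (i : I) (x : Fin (ar i) → ℕ), N i (fun j => g (x j)) = M i x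

/-- The structure coded by `M` is ultrahomogeneous: every isomorphism `a j ↦ b j` between finite
substructures extends to an automorphism. -/
def UH (M : Str ar) : Prop :=
  ∀ (n : ℕ) (a b : Fin n → ℕ), (∀ j k, a j = a k ↔ b j = b k) →
    (∀ (i : I) (h : Fin (ar i) → Fin n), M i (fun j => a (h j)) = M i (fun j => b (h j))) →
      ∃ g : Equiv.Perm ℕ, IsIso M M g ∧ ∀ j, g (a j) = b j

/-- The positions at which the first `n` relations (in the enumeration `e`) can be evaluated. -/
abbrev Pos (e : I → ℕ) (ar : I → ℕ) (n : ℕ) : Type :=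
  Σ i : {i : I // e i < n}, (Fin (ar i.1) → Fin n)

theorem pos_finite (e : I → ℕ) (he : Function.Injective e) (n : ℕ) : Finite (Pos e ar n) := by
  have h1 : Finite {i : I // e i < n} := by
    refine Finite.of_injective (fun i : {i : I // e i < n} => (⟨e i.1, i.2⟩ : Fin n)) ?_
    intro i j hij
    apply Subtype.ext
    apply he
    simpa using hij
  infer_instance

theorem exists_enc (e : I → ℕ) (he : Function.Injective e) (ar : I → ℕ) :
    ∃ enc : (Σ n, (Pos e ar n → Bool)) → ℕ, Function.Injective enc := by
  have h : ∀ n, Countable (Pos e ar n → Bool) := by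
    intro n
    have := pos_finite (ar := ar) e he n
    infer_instance
  exact exists_injective_nat _

/-- The truth values of the first `s.length` relations on the entries of the list `s`. -/
def vals (e : I → ℕ) (M : Str ar) (s : List ℕ) : Pos e ar s.length → Bool :=
  fun p => M p.1.1 (fun j => s.getD (p.2 j).1 0)

theorem vals_eq_iff (e : I → ℕ) (M N : Str ar) (s t : List ℕ) :
    (⟨s.length, vals e M s⟩ : Σ n, (Pos e ar n → Bool)) = ⟨t.length, vals e N t⟩ ↔
      s.length = t.length ∧ ∀ i, e i < s.length → ∀ h : Fin (ar i) → Fin s.length,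
        M i (fun j => s.getD (h j).1 0) = N i (fun j => t.getD (h j).1 0) := by
  have key : ∀ (n m : ℕ) (v : Pos e ar n → Bool) (w : Pos e ar m → Bool)
      (A B : (i : I) → (Fin (ar i) → ℕ) → Bool), (∀ p, v p = A p.1.1 (fun j => (p.2 j).1)) →
      (∀ p, w p = B p.1.1 (fun j => (p.2 j).1)) →
      ((⟨n, v⟩ : Σ n, (Pos e ar n → Bool)) = ⟨m, w⟩ ↔ n = m ∧ ∀ i, e i < n →
        ∀ h : Fin (ar i) → Fin n, A i (fun j => (h j).1) = B i (fun j => (h j).1)) := by
    intro n m v w A B hA hB
    constructor
    · intro h
      obtain ⟨rfl, h2⟩ := Sigma.mk.inj_iff.mp h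
      have h2 := eq_of_heq h2
      subst h2
      refine ⟨rfl, fun i hi h => ?_⟩
      rw [← hA ⟨⟨i, hi⟩, h⟩, ← hB ⟨⟨i, hi⟩, h⟩]
    · rintro ⟨rfl, h2⟩
      have h3 : v = w := by
        funext p
        rw [hA, hB]
        exact h2 p.1.1 p.1.2 p.2
      rw [h3]
  exact key s.length t.length (vals e M s) (vals e N t) (fun i x => M i (fun j => s.getD (x j) 0))
    (fun i x => N i (fun j => t.getD (x j) 0)) (fun _ => rfl) (fun _ => rfl)

/-- For every countable relational language there are colourings of the lists of natural numbers,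
depending continuously on the structure, which code the truth values of the first `s.length`
relations on the entries of `s`. -/
theorem exists_colr [Countable I] (ar : I → ℕ) : ∃ (e : I → ℕ) (c : Str ar → List ℕ → ℕ),
    (∀ s, Continuous fun M => c M s) ∧
    ∀ M N s t, c M s = c N t ↔ s.length = t.length ∧
      ∀ i, e i < s.length → ∀ h : Fin (ar i) → Fin s.length,
        M i (fun j => s.getD (h j).1 0) = N i (fun j => t.getD (h j).1 0) := by
  obtain ⟨e, he⟩ := exists_injective_nat I
  obtain ⟨enc, henc⟩ := exists_enc e he ar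
  refine ⟨e, fun M s => enc ⟨s.length, vals e M s⟩, ?_, ?_⟩
  · intro s
    have := pos_finite (ar := ar) e he s.length
    have h1 : Continuous fun M : Str ar => vals e M s := by
      refine continuous_pi fun p => ?_
      exact (continuous_apply _).comp (continuous_apply p.1.1)
    have h2 : Continuous fun v : Pos e ar s.length → Bool => enc ⟨s.length, v⟩ :=
      continuous_of_discreteTopology
    exact h2.comp h1
  · intro M N s t
    rw [henc.eq_iff]
    exact vals_eq_iff e M N s t

end

end Pool.Agent.Work.MP_f1d084_lc
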