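import Mathlib
import Pool.Agent.Work.MP_f1d084_lc.BackForth

set_option autoImplicit false

namespace Pool.Agent.Work.MP_f1d084_lc

open FirstOrder

instance (R : Code) : Countable (OfCode R) := inferInstanceAs (Countable ℕ)

instance (R : Code) : Nonempty (OfCode R) := inferInstanceAs (Nonempty ℕ)

/-- The first-order structure on `ℕ` of a code. -/
@[reducible] def strOf (R : Code) : Language.order.Structure ℕ :=
  Language.orderStructure (OfCode R)

theorem term_eq {α : Type} (t : Language.order.Term α) : ∃ i, t = Language.Term.var i := by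
  cases t with
  | var i => exact ⟨i, rfl⟩
  | func f _ => exact f.elim

theorem relMap_iff (R : Code) (x : Fin 2 → ℕ) :
    @Language.Structure.RelMap Language.order ℕ (strOf R) 2 Language.orderRel.le x ↔
      R (x 0) (x 1) = true := Iff.rfl

theorem meas_bounded {α : Type} {n : ℕ} (φ : Language.order.BoundedFormula α n) :
    ∀ (v : α → ℕ) (xs : Fin n → ℕ),
      MeasurableSet {R : Code | @Language.BoundedFormula.Realize _ ℕ (strOf R) α n φ v xs} := by
  induction φ with
  | falsum => intro v xs; simp [Language.BoundedFormula.Realize]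
  | equal t₁ t₂ =>
    intro v xs
    obtain ⟨i, rfl⟩ := term_eq t₁
    obtain ⟨j, rfl⟩ := term_eq t₂
    simp only [Language.BoundedFormula.Realize, Language.Term.realize_var]
    exact MeasurableSet.const _
  | rel r ts =>
    intro v xs
    cases r
    obtain ⟨i, hi⟩ := term_eq (ts 0)
    obtain ⟨j, hj⟩ := term_eq (ts 1)
    have : {R : Code | @Language.BoundedFormula.Realize _ ℕ (strOf R) α _
        (Language.BoundedFormula.rel Language.orderRel.le ts) v xs} =
        {R : Code | R (Sum.elim v xs i) (Sum.elim v xs j) = true} := by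
      ext R
      have h1 : @Language.BoundedFormula.Realize _ ℕ (strOf R) α _
          (Language.BoundedFormula.rel Language.orderRel.le ts) v xs ↔
          R (@Language.Term.realize _ ℕ (strOf R) _ (Sum.elim v xs) (ts 0))
            (@Language.Term.realize _ ℕ (strOf R) _ (Sum.elim v xs) (ts 1)) = true := relMap_iff R _
      rw [hi, hj] at h1
      exact h1
    rw [this]
    have hm : Measurable (fun R : Code => R (Sum.elim v xs i) (Sum.elim v xs j)) :=
      (measurable_pi_apply _).comp (measurable_pi_apply _)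
    exact hm (measurableSet_singleton true)
  | imp f₁ f₂ ih₁ ih₂ =>
    intro v xs
    have : {R : Code | @Language.BoundedFormula.Realize _ ℕ (strOf R) α _ (f₁.imp f₂) v xs} =
        {R : Code | @Language.BoundedFormula.Realize _ ℕ (strOf R) α _ f₁ v xs}ᶜ ∪
        {R : Code | @Language.BoundedFormula.Realize _ ℕ (strOf R) α _ f₂ v xs} := by
      ext R
      simp only [Set.mem_ofPred_eq, Language.BoundedFormula.Realize, Set.mem_union,
        Set.mem_compl_iff]
      tauto
    rw [this]
    exact (ih₁ v xs).compl.union (ih₂ v xs)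
  | all f ih =>
    intro v xs
    have : {R : Code | @Language.BoundedFormula.Realize _ ℕ (strOf R) α _ f.all v xs} =
        ⋂ x : ℕ, {R : Code | @Language.BoundedFormula.Realize _ ℕ (strOf R) α _ f v
          (Fin.snoc xs x)} := by
      ext R
      simp only [Set.mem_ofPred_eq, Language.BoundedFormula.Realize, Set.mem_iInter]
    rw [this]
    exact MeasurableSet.iInter fun x => ih v _

theorem meas_formula {n : ℕ} (φ : Language.order.Formula (Fin n)) (v : Fin n → ℕ) :
    MeasurableSet {R : Code | @Language.Formula.Realize _ ℕ (strOf R) _ φ v} :=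
  meas_bounded φ v _

theorem meas_sameType {n : ℕ} (a b : Fin n → ℕ) :
    MeasurableSet {R : Code | @SameType (OfCode R) (OfCode R) _ _ n a b} := by
  have : {R : Code | @SameType (OfCode R) (OfCode R) _ _ n a b} =
      ⋂ φ : Language.order.Formula (Fin n),
        ({R : Code | @Language.Formula.Realize _ ℕ (strOf R) _ φ a} ∩
          {R : Code | @Language.Formula.Realize _ ℕ (strOf R) _ φ b}) ∪
        ({R : Code | @Language.Formula.Realize _ ℕ (strOf R) _ φ a}ᶜ ∩
          {R : Code | @Language.Formula.Realize _ ℕ (strOf R) _ φ b}ᶜ) := by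
    ext R
    simp only [Set.mem_ofPred_eq, SameType, Set.mem_iInter, Set.mem_union, Set.mem_inter_iff,
      Set.mem_compl_iff]
    refine forall_congr' fun φ => ?_
    exact iff_iff_and_or_not_and_not
  rw [this]
  refine MeasurableSet.iInter fun φ => ?_
  have h1 := meas_formula φ a
  have h2 := meas_formula φ b
  exact (h1.inter h2).union (h1.compl.inter h2.compl)

theorem meas_isPO : MeasurableSet {R : Code | IsPO R} := by
  have hm : ∀ a b : ℕ, MeasurableSet {R : Code | R a b = true} := by
    intro a b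
    have h : Measurable (fun R : Code => R a b) :=
      (measurable_pi_apply b).comp (measurable_pi_apply a)
    exact h (measurableSet_singleton true)
  have : {R : Code | IsPO R} = (⋂ a : ℕ, {R : Code | R a a = true}) ∩
      ((⋂ a : ℕ, ⋂ b : ℕ, {R : Code | R a b = true}ᶜ ∪ ({R : Code | R b a = true}ᶜ ∪
        {_R : Code | a = b})) ∩
      (⋂ a : ℕ, ⋂ b : ℕ, ⋂ c : ℕ, {R : Code | R a b = true}ᶜ ∪ ({R : Code | R b c = true}ᶜ ∪
        {R : Code | R a c = true}))) := by
    ext R
    simp only [Set.mem_ofPred_eq, Set.mem_iInter, Set.mem_union, Set.mem_inter_iff,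
      Set.mem_compl_iff, ← imp_iff_not_or]
    exact Iff.rfl
  rw [this]
  refine (MeasurableSet.iInter fun a => hm a a).inter
    ((MeasurableSet.iInter fun a => MeasurableSet.iInter fun b => ?_).inter
      (MeasurableSet.iInter fun a => MeasurableSet.iInter fun b => MeasurableSet.iInter fun c => ?_))
  · exact (hm a b).compl.union ((hm b a).compl.union (MeasurableSet.const _))
  · exact (hm a b).compl.union ((hm b c).compl.union (hm a c))

/-- The class of codes of elementarily homogeneous posets is Borel. -/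
theorem measurableSet_EH : MeasurableSet EH := by
  have : EH = {R : Code | IsPO R} ∩ ⋂ (n : ℕ), ⋂ (a : Fin n → ℕ), ⋂ (b : Fin n → ℕ),
      {R : Code | @SameType (OfCode R) (OfCode R) _ _ n a b}ᶜ ∪ ⋂ (c : ℕ), ⋃ (d : ℕ),
        {R : Code | @SameType (OfCode R) (OfCode R) _ _ (n + 1)
          (Fin.cons c a : Fin (n + 1) → ℕ) (Fin.cons d b : Fin (n + 1) → ℕ)} := by
    ext R
    simp only [EH, Set.mem_ofPred_eq, Set.mem_iInter, Set.mem_union, Set.mem_inter_iff,
      Set.mem_compl_iff, ← imp_iff_not_or, Set.mem_iUnion, elemHomog_iff]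
    exact Iff.rfl
  rw [this]
  refine meas_isPO.inter (MeasurableSet.iInter fun n => MeasurableSet.iInter fun a =>
    MeasurableSet.iInter fun b => ?_)
  exact (meas_sameType a b).compl.union (MeasurableSet.iInter fun c => MeasurableSet.iUnion
    fun d => meas_sameType _ _)

/-- The complete type of a tuple, as a set of formulas. -/
def typeSet {P : Type} [LE P] (x : Σ n, Fin n → P) : Set (Σ m, Language.order.Formula (Fin m)) :=
  {y | ∃ h : y.1 = x.1, (let _ := Language.orderStructure P; y.2.Realize fun i => x.2 (i.cast h))}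

theorem typeSet_eq_iff {P Q : Type} [LE P] [LE Q] (x : Σ n, Fin n → P) (y : Σ n, Fin n → Q) :
    typeSet x = typeSet y ↔ ∃ h : x.1 = y.1, SameType x.2 (fun i => y.2 (i.cast h)) := by
  obtain ⟨n, a⟩ := x
  obtain ⟨m, b⟩ := y
  constructor
  · intro h
    have h1 : (⟨n, ⊤⟩ : Σ m, Language.order.Formula (Fin m)) ∈ typeSet (⟨n, a⟩ : Σ n, Fin n → P) :=
      ⟨rfl, by simp⟩
    rw [h] at h1
    obtain ⟨h2, -⟩ := h1
    have h2' : n = m := h2
    subst h2'
    refine ⟨rfl, fun φ => ?_⟩
    have h3 := Set.ext_iff.mp h ⟨n, φ⟩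
    constructor
    · intro h4
      exact (h3.mp ⟨rfl, h4⟩).2
    · intro h4
      exact (h3.mpr ⟨rfl, h4⟩).2
  · rintro ⟨h, h1⟩
    have h' : n = m := h
    subst h'
    ext ⟨k, φ⟩
    constructor
    · rintro ⟨h2, h3⟩
      have h2' : k = n := h2
      subst h2'
      exact ⟨rfl, (h1 φ).mp h3⟩
    · rintro ⟨h2, h3⟩
      have h2' : k = n := h2
      subst h2'
      exact ⟨rfl, (h1 φ).mpr h3⟩

/-- Elementarily homogeneous structures which realise the same types are isomorphic. -/
theorem iso_of_types {P Q : Type} [LE P] [LE Q] [Countable P] [Countable Q] [Nonempty P]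
    [Nonempty Q] (hP : ElemHomog P) (hQ : ElemHomog Q)
    (h : Set.range (typeSet (P := P)) = Set.range (typeSet (P := Q))) : Nonempty (P ≃o Q) := by
  have key : ∀ {P Q : Type} [LE P] [LE Q], ElemHomog Q →
      Set.range (typeSet (P := P)) ⊆ Set.range (typeSet (P := Q)) → ExtProp P Q := by
    intro P Q _ _ hQ h n a b hab c
    have h1 : typeSet (⟨n + 1, (Fin.cons c a : Fin (n + 1) → P)⟩ : Σ n, Fin n → P) ∈
        Set.range (typeSet (P := Q)) := h ⟨_, rfl⟩
    obtain ⟨⟨m, b'⟩, hb'⟩ := h1
    rw [typeSet_eq_iff] at hb'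
    obtain ⟨hm, hb'⟩ := hb'
    have hm' : m = n + 1 := hm
    subst hm'
    have h2 : SameType (fun i : Fin n => b' i.succ) a := hb'.relabel Fin.succ
    obtain ⟨f, hf⟩ := hQ n _ _ (h2.trans hab)
    refine ⟨f (b' 0), ?_⟩
    have h3 := SameType.of_iso f b'
    have h4 : (fun i => f (b' i)) = (Fin.cons (f (b' 0)) b : Fin (n + 1) → Q) := by
      funext i
      refine Fin.cases ?_ (fun i => ?_) i
      · rfl
      · exact hf i
    rw [h4] at h3
    exact hb'.symm.trans h3
  have h0 : SameType (fun i : Fin 0 => (i.elim0 : P)) (fun i : Fin 0 => (i.elim0 : Q)) := by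
    have h1 : typeSet (⟨0, fun i => i.elim0⟩ : Σ n, Fin n → P) ∈
        Set.range (typeSet (P := Q)) := by
      rw [← h]; exact ⟨_, rfl⟩
    obtain ⟨⟨m, b'⟩, hb'⟩ := h1
    rw [typeSet_eq_iff] at hb'
    obtain ⟨hm, hb'⟩ := hb'
    have hm' : m = 0 := hm
    subst hm'
    have h2 : b' = fun i : Fin 0 => (i.elim0 : Q) := funext fun i => i.elim0
    rw [h2] at hb'
    exact hb'.symm
  obtain ⟨f, -⟩ := iso_of_ext_tuple (key hQ h.subset) (key hP h.symm.subset) _ _ h0
  exact ⟨f⟩

theorem types_of_iso {P Q : Type} [LE P] [LE Q] (f : P ≃o Q) :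
    Set.range (typeSet (P := P)) = Set.range (typeSet (P := Q)) := by
  have key : ∀ {P Q : Type} [LE P] [LE Q], (P ≃o Q) →
      Set.range (typeSet (P := P)) ⊆ Set.range (typeSet (P := Q)) := by
    rintro P Q _ _ f _ ⟨⟨n, a⟩, rfl⟩
    refine ⟨⟨n, fun i => f (a i)⟩, ?_⟩
    rw [typeSet_eq_iff]
    exact ⟨rfl, (SameType.of_iso f a).symm⟩
  exact Set.Subset.antisymm (key f) (key f.symm)

/-- An enumeration of the tuples. -/
theorem exists_tuples : ∃ e : ℕ → Σ n, Fin n → ℕ, Function.Surjective e :=
  exists_surjective_nat _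

instance : Countable (Σ m, Language.order.Formula (Fin m)) := by
  have : ∀ m, Countable (Language.order.Formula (Fin m)) := fun m => inferInstance
  infer_instance

theorem exists_formulas : ∃ e : ℕ → Σ m, Language.order.Formula (Fin m), Function.Surjective e :=
  haveI : Nonempty (Σ m, Language.order.Formula (Fin m)) := ⟨⟨0, ⊤⟩⟩
  exists_surjective_nat _

/-- Isomorphism of elementarily homogeneous posets is Borel reducible to equality of countable
sets of reals. -/
theorem upper : ∃ f : Code → (ℕ → ℕ → Bool), Measurable f ∧ ∀ R ∈ EH, ∀ S ∈ EH,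
    (Nonempty (OfCode R ≃o OfCode S) ↔ Set.range (f R) = Set.range (f S)) := by
  classical
  obtain ⟨e, he⟩ := exists_tuples
  obtain ⟨c, hc⟩ := exists_formulas
  let f : Code → (ℕ → ℕ → Bool) := fun R j k => decide (c k ∈ @typeSet (OfCode R) _ (e j))
  have hf : ∀ R, Set.range (f R) = (fun s : Set (Σ m, Language.order.Formula (Fin m)) =>
      fun k => decide (c k ∈ s)) '' Set.range (@typeSet (OfCode R) _) := by
    intro R
    ext y
    constructor
    · rintro ⟨j, rfl⟩
      exact ⟨_, ⟨e j, rfl⟩, rfl⟩
    · rintro ⟨_, ⟨x, rfl⟩, rfl⟩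
      obtain ⟨j, hj⟩ := he x
      exact ⟨j, by simp only [f, hj]⟩
  have hinj : Function.Injective (fun s : Set (Σ m, Language.order.Formula (Fin m)) =>
      fun k => decide (c k ∈ s)) := by
    intro s t hst
    ext x
    obtain ⟨k, rfl⟩ := hc x
    have := congrFun hst k
    simpa using this
  refine ⟨f, ?_, ?_⟩
  · refine measurable_pi_iff.mpr fun j => measurable_pi_iff.mpr fun k => ?_
    apply measurable_to_bool
    rcases hej : e j with ⟨n, a⟩
    rcases hck : c k with ⟨m, φ⟩
    have : (fun R : Code => f R j k) ⁻¹' {true} =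
        {R : Code | (⟨m, φ⟩ : Σ m, Language.order.Formula (Fin m)) ∈
          @typeSet (OfCode R) _ (⟨n, a⟩ : Σ n, Fin n → ℕ)} := by
      ext R
      simp only [Set.mem_preimage, f, hej, hck, Set.mem_singleton_iff, decide_eq_true_eq,
        Set.mem_ofPred_eq]
    rw [this]
    by_cases h : m = n
    · subst h
      have : {R : Code | (⟨m, φ⟩ : Σ m, Language.order.Formula (Fin m)) ∈
          @typeSet (OfCode R) _ (⟨m, a⟩ : Σ n, Fin n → ℕ)} =
          {R : Code | @Language.Formula.Realize _ ℕ (strOf R) _ φ a} := by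
        ext R
        constructor
        · rintro ⟨_, h⟩
          exact h
        · intro h
          exact ⟨rfl, h⟩
      rw [this]
      exact meas_formula φ a
    · have : {R : Code | (⟨m, φ⟩ : Σ m, Language.order.Formula (Fin m)) ∈
          @typeSet (OfCode R) _ (⟨n, a⟩ : Σ n, Fin n → ℕ)} = ∅ := by
        ext R
        simp only [Set.mem_ofPred_eq, Set.mem_empty_iff_false, iff_false]
        rintro ⟨h', -⟩
        exact h h'
      rw [this]
      exact MeasurableSet.empty
  · intro R hR S hS
    rw [hf R, hf S, (Set.image_injective.mpr hinj).eq_iff]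
    exact ⟨fun ⟨g⟩ => types_of_iso g, fun h => iso_of_types hR.2 hS.2 h⟩

end Pool.Agent.Work.MP_f1d084_lc
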