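import Mathlib
import Pool.Agent.Work.MP_f1d084_lc.Upper
import Pool.Agent.Work.MP_f1d084_lc.Uni1

set_option autoImplicit false

namespace Pool.Agent.Work.MP_f1d084_lc

open FirstOrder

/-- The relation symbols of the expansion by all first-order definable relations. -/
abbrev FoI : Type := Σ n, Language.order.Formula (Fin n)

/-- The arities of the symbols. -/
abbrev foAr (p : FoI) : ℕ := p.1

open Classical in
/-- The expansion by all first-order definable relations. -/
noncomputable def morl (R : Code) : Str foAr := fun p x =>
  decide (@Language.Formula.Realize _ ℕ (strOf R) _ p.2 x)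

theorem measurable_morl : Measurable morl := by
  classical
  refine measurable_pi_lambda _ fun p => measurable_pi_lambda _ fun x => ?_
  refine measurable_to_bool ?_
  have : (fun R : Code => morl R p x) ⁻¹' {true} =
      {R : Code | @Language.Formula.Realize _ ℕ (strOf R) _ p.2 x} := by
    ext R
    simp only [Set.mem_preimage, Set.mem_singleton_iff, Set.mem_ofPred_eq, morl,
      decide_eq_true_eq]
  rw [this]
  exact meas_formula p.2 x

/-- A permutation which preserves the relations, as an isomorphism. -/
def permIso {R S : Code} (g : Equiv.Perm ℕ) (h : ∀ a b, S (g a) (g b) = R a b) :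
    OfCode R ≃o OfCode S where
  toEquiv := g
  map_rel_iff' := by
    intro a b
    exact Bool.eq_iff_iff.mp (h a b)

theorem isIso_morl_iff (R S : Code) (g : Equiv.Perm ℕ) :
    IsIso (morl R) (morl S) g ↔ ∀ a b, S (g a) (g b) = R a b := by
  classical
  constructor
  · intro h a b
    have h1 := h ⟨2, Language.Relations.formula₂
      (Language.IsOrdered.leSymb : Language.order.Relations 2)
      (Language.Term.var 0) (Language.Term.var 1)⟩ ![a, b]
    have h2 : ∀ (T : Code) (x : Fin 2 → ℕ), (morl T ⟨2, Language.Relations.formula₂
        (Language.IsOrdered.leSymb : Language.order.Relations 2)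
        (Language.Term.var 0) (Language.Term.var 1)⟩ x = true) ↔ T (x 0) (x 1) = true := by
      intro T x
      have h3 : (@Language.Formula.Realize _ ℕ (strOf T) _ (Language.Relations.formula₂
          (Language.IsOrdered.leSymb : Language.order.Relations 2)
          (Language.Term.var (0 : Fin 2)) (Language.Term.var 1)) x) ↔
          T (x 0) (x 1) = true := by
        let _ := strOf T
        rw [Language.Formula.realize_rel₂]
        exact Iff.rfl
      rw [← h3]
      simp [morl]
    have h4 := h2 S (fun j => g (![a, b] j))
    have h5 := h2 R ![a, b]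
    rw [h1] at h4
    have h6 : S (g a) (g b) = true ↔ R a b = true := h4.symm.trans h5
    exact Bool.eq_iff_iff.mpr h6
  · intro h p x
    have h1 := SameType.of_iso (permIso g h) (P := OfCode R) (Q := OfCode S) (n := p.1) x
    exact decide_eq_decide.mpr (h1 p.2).symm

theorem uh_morl_iff (R : Code) : UH (morl R) ↔ ElemHomog (OfCode R) := by
  classical
  constructor
  · intro h n a b hab
    obtain ⟨g, hg1, hg2⟩ := h n a b (fun j k => hab.iff_eq j k) (by
      intro p x
      have h1 := hab.relabel x
      exact decide_eq_decide.mpr (h1 p.2))
    exact ⟨permIso g ((isIso_morl_iff R R g).mp hg1), hg2⟩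
  · intro h n a b _ h2
    have hab : @SameType (OfCode R) (OfCode R) _ _ n a b := by
      intro φ
      exact decide_eq_decide.mp (h2 ⟨n, φ⟩ id)
    obtain ⟨f, hf⟩ := h n a b hab
    refine ⟨f.toEquiv, (isIso_morl_iff R R f.toEquiv).mpr fun x y => ?_, hf⟩
    exact Bool.eq_iff_iff.mpr (f.le_iff_le (x := x) (y := y))

instance : Countable FoI := by
  have := exists_formulas
  obtain ⟨e, he⟩ := this
  exact he.countable

end Pool.Agent.Work.MP_f1d084_lc
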