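import Mathlib

set_option autoImplicit false

namespace Pool.Agent.Work.MP_f1d084_lc

/-- A map extended by a new last element. -/
def ext {m n : ℕ} (f : Fin m → Fin n) : Fin (m + 1) → Fin (n + 1) :=
  Fin.snoc (fun i => (f i).castSucc) (Fin.last n)

theorem ext_castSucc {m n : ℕ} (f : Fin m → Fin n) (i : Fin m) :
    ext f i.castSucc = (f i).castSucc := by
  simp [ext]

theorem ext_last {m n : ℕ} (f : Fin m → Fin n) : ext f (Fin.last m) = Fin.last n := by
  simp [ext]

/-- The tuple `a` followed by `x`. -/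
def snc {P : Type} {n : ℕ} (a : Fin n → P) (x : P) : Fin (n + 1) → P := Fin.snoc a x

theorem snc_castSucc {P : Type} {n : ℕ} (a : Fin n → P) (x : P) (i : Fin n) :
    snc a x i.castSucc = a i := by
  simp [snc]

theorem snc_last {P : Type} {n : ℕ} (a : Fin n → P) (x : P) : snc a x (Fin.last n) = x := by
  simp [snc]

theorem snc_init {P : Type} {n : ℕ} (b : Fin (n + 1) → P) :
    snc (fun i => b i.castSucc) (b (Fin.last n)) = b := by
  funext i
  refine Fin.lastCases ?_ (fun i => ?_) i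
  · rw [snc_last]
  · rw [snc_castSucc]

theorem snc_ext {P : Type} {m n : ℕ} (a : Fin n → P) (x : P) (f : Fin m → Fin n) :
    (fun i => snc a x (ext f i)) = snc (fun i => a (f i)) x := by
  funext i
  refine Fin.lastCases ?_ (fun i => ?_) i
  · rw [ext_last, snc_last, snc_last]
  · rw [ext_castSucc, snc_castSucc, snc_castSucc]

theorem map_snc {P Q : Type} {n : ℕ} (g : P → Q) (a : Fin n → P) (x : P) :
    (fun i => g (snc a x i)) = snc (fun i => g (a i)) (g x) := by
  funext i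
  refine Fin.lastCases ?_ (fun i => ?_) i
  · rw [snc_last, snc_last]
  · rw [snc_castSucc, snc_castSucc]

theorem snc_comp_castSucc {P : Type} {n : ℕ} (a : Fin n → P) (x : P) :
    (fun i : Fin n => snc a x i.castSucc) = a := by
  funext i
  rw [snc_castSucc]

section lim

variable {X : ℕ → Type} (act : ∀ m n : ℕ, (Fin m → Fin n) → X n → X m)

/-- The limit of an amalgamation class in a presheaf on finite sets. -/
theorem exists_limit
    (hcomp : ∀ l m n (f : Fin l → Fin m) (g : Fin m → Fin n) (x : X n),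
      act l m f (act m n g x) = act l n (fun i => g (f i)) x)
    (hid : ∀ n (x : X n), act n n (fun i => i) x = x)
    (S : ∀ n, Set (X n)) (hc : ∀ n, (S n).Countable) (h0 : (S 0).Subsingleton)
    (h1 : (S 1).Nonempty)
    (hact : ∀ m n (f : Fin m → Fin n), ∀ x ∈ S n, act m n f x ∈ S m)
    (ham : ∀ m n (f : Fin m → Fin n), ∀ p ∈ S n, ∀ q ∈ S (m + 1),
      act m (m + 1) Fin.castSucc q = act m n f p →
        ∃ p' ∈ S (n + 1), act n (n + 1) Fin.castSucc p' = p ∧ act (m + 1) (n + 1) (ext f) p' = q) :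
    ∃ τ : ∀ n : ℕ, (Fin n → ℕ) → X n, (∀ n (a : Fin n → ℕ), τ n a ∈ S n) ∧
      (∀ m n (f : Fin m → Fin n) (a : Fin n → ℕ),
        act m n f (τ n a) = τ m (fun i => a (f i))) ∧
      ∀ n (a : Fin n → ℕ), ∀ q ∈ S (n + 1), act n (n + 1) Fin.castSucc q = τ n a →
        ∃ x : ℕ, τ (n + 1) (snc a x) = q := by
  classical
  obtain ⟨q0, hq0⟩ := h1
  have hcS : ∀ n, Countable (S n) := fun n => (hc n).to_subtype
  have hne : Nonempty (Σ m : ℕ, (Fin m → ℕ) × S (m + 1)) := ⟨⟨0, Fin.elim0, ⟨q0, hq0⟩⟩⟩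
  obtain ⟨e, he⟩ := exists_surjective_nat (Σ m : ℕ, (Fin m → ℕ) × S (m + 1))
  have hstep : ∀ (n : ℕ) (p : S n), ∃ p' : S (n + 1),
      act n (n + 1) Fin.castSucc p'.1 = p.1 ∧
      ∀ (m : ℕ) (a : Fin m → ℕ) (q : S (m + 1)), e n.unpair.1 = ⟨m, a, q⟩ →
        ∀ h : ∀ i, a i < n, act m (m + 1) Fin.castSucc q.1 = act m n (fun i => ⟨a i, h i⟩) p.1 →
          act (m + 1) (n + 1) (ext fun i => ⟨a i, h i⟩) p'.1 = q.1 := by
    intro n p
    rcases hen : e n.unpair.1 with ⟨m, a, q⟩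
    by_cases hgood : ∃ h : ∀ i, a i < n,
        act m (m + 1) Fin.castSucc q.1 = act m n (fun i => ⟨a i, h i⟩) p.1
    · obtain ⟨h, hq⟩ := hgood
      obtain ⟨p', hp', h2, h3⟩ := ham m n (fun i => ⟨a i, h i⟩) p.1 p.2 q.1 q.2 hq
      refine ⟨⟨p', hp'⟩, h2, ?_⟩
      intro m' a' q' heq h' _
      cases heq
      exact h3
    · obtain ⟨p', hp', h2, h3⟩ := ham 0 n Fin.elim0 p.1 p.2 q0 hq0
        (h0 (hact 0 1 _ q0 hq0) (hact 0 n _ p.1 p.2))
      refine ⟨⟨p', hp'⟩, h2, ?_⟩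
      intro m' a' q' heq h' h5
      cases heq
      exact absurd ⟨h', h5⟩ hgood
  choose step hs1 hs2 using hstep
  let p0 : S 0 := ⟨act 0 1 Fin.elim0 q0, hact 0 1 _ q0 hq0⟩
  let P : ∀ n : ℕ, S n := fun n => Nat.rec p0 (fun k p => step k p) n
  have hP : ∀ n, P (n + 1) = step n (P n) := fun n => rfl
  have hres : ∀ (n d : ℕ), act n (n + d) (fun i => ⟨i.1, by omega⟩) (P (n + d)).1 = (P n).1 := by
    intro n d
    induction d with
    | zero => exact hid n _
    | succ d ih =>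
      rw [← ih]
      have h2 : act (n + d) (n + d + 1) Fin.castSucc (P (n + d + 1)).1 = (P (n + d)).1 := by
        rw [hP]
        exact hs1 _ _
      rw [← h2, hcomp]
      rfl
  have hwd : ∀ (m : ℕ) (a : Fin m → ℕ) (n n' : ℕ) (h : ∀ i, a i < n) (h' : ∀ i, a i < n'),
      n ≤ n' → act m n (fun i => ⟨a i, h i⟩) (P n).1 = act m n' (fun i => ⟨a i, h' i⟩) (P n').1 := by
    intro m a n n' h h' hnn
    obtain ⟨d, rfl⟩ := Nat.exists_eq_add_of_le hnn
    rw [← hres n d, hcomp]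
  let N : ∀ m : ℕ, (Fin m → ℕ) → ℕ := fun m a => (Finset.univ.sup a) + 1
  have hN : ∀ (m : ℕ) (a : Fin m → ℕ) (i : Fin m), a i < N m a := by
    intro m a i
    exact Nat.lt_succ_of_le (Finset.le_sup (f := a) (Finset.mem_univ i))
  let τ : ∀ m : ℕ, (Fin m → ℕ) → X m := fun m a => act m (N m a) (fun i => ⟨a i, hN m a i⟩) (P (N m a)).1
  have hτ : ∀ (m : ℕ) (a : Fin m → ℕ) (n : ℕ) (h : ∀ i, a i < n),
      τ m a = act m n (fun i => ⟨a i, h i⟩) (P n).1 := by
    intro m a n h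
    have h1 : ∀ i, a i < max n (N m a) := fun i => lt_of_lt_of_le (h i) (le_max_left _ _)
    rw [hwd m a n _ h h1 (le_max_left _ _)]
    exact hwd m a _ _ (hN m a) h1 (le_max_right _ _)
  refine ⟨τ, fun m a => hact _ _ _ _ (P (N m a)).2, ?_, ?_⟩
  · intro m n f a
    rw [hτ m (fun i => a (f i)) (N n a) (fun i => hN n a (f i))]
    exact hcomp _ _ _ _ _ _
  · intro n a q hq hqa
    obtain ⟨k, hk⟩ := he ⟨n, a, ⟨q, hq⟩⟩
    let M := Nat.pair k (N n a)
    have hM : N n a ≤ M := Nat.right_le_pair _ _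
    have haM : ∀ i, a i < M := fun i => lt_of_lt_of_le (hN n a i) hM
    refine ⟨M, ?_⟩
    have hlt : ∀ i, snc a M i < M + 1 := by
      intro i
      refine Fin.lastCases ?_ (fun i => ?_) i
      · rw [snc_last]
        omega
      · rw [snc_castSucc]
        exact (haM i).trans (Nat.lt_succ_self _)
    rw [hτ (n + 1) (snc a M) (M + 1) hlt, hP]
    have h5 := hs2 M (P M) n a ⟨q, hq⟩ (by rw [← hk, Nat.unpair_pair]) haM
      (by rw [hqa, hτ n a M haM])
    have h6 : (fun i => (⟨snc a M i, hlt i⟩ : Fin (M + 1))) =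
        ext fun i => (⟨a i, haM i⟩ : Fin M) := by
      funext i
      refine Fin.lastCases ?_ (fun i => ?_) i
      · apply Fin.ext
        simp [snc_last, ext_last]
      · apply Fin.ext
        simp [snc_castSucc, ext_castSucc]
    rw [h6]
    exact h5

end lim

end Pool.Agent.Work.MP_f1d084_lc
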