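import Mathlib
import Pool.Agent.Work.MP_f1d084_lc.Grp1
import Pool.Agent.Work.MP_f1d084_lc.Upper
import Pool.Agent.Work.MP_f1d084_lc.Lim

set_option autoImplicit false

namespace Pool.Agent.Work.MP_f1d084_lc

open FirstOrder

/-- The possible types of depth `k` of `n`-tuples in ordered sets: a type of depth `0` is a
relation on the indices, a type of depth `k + 1` is a set of types of depth `k` of
`(n + 1)`-tuples. -/
def TT : ℕ → ℕ → Type
  | 0, n => Fin n → Fin n → Prop
  | k + 1, n => Set (TT k (n + 1))

/-- The extensions allowed by a type of depth `k + 1`. -/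
def hasT {k n : ℕ} (t : TT (k + 1) n) : Set (TT k (n + 1)) := t

theorem hasT_inj {k n : ℕ} {s t : TT (k + 1) n} (h : hasT s = hasT t) : s = t := h

/-- The type of depth `k` of the tuple `a`: for `k = 0` the induced order, for `k + 1` the set of
the types of depth `k` of the extensions of `a` by one more point. -/
def tpk {P : Type} [LE P] : (k n : ℕ) → (Fin n → P) → TT k n
  | 0, _, a => (fun i j => a i ≤ a j : Fin _ → Fin _ → Prop)
  | k + 1, n, a => ({t | ∃ x, tpk k (n + 1) (snc a x) = t} : Set (TT k (n + 1)))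

/-- Substitution in types. -/
def subT : (k m n : ℕ) → (Fin m → Fin n) → TT k n → TT k m
  | 0, _, _, f, t => (fun i j => t (f i) (f j) : Fin _ → Fin _ → Prop)
  | k + 1, m, n, f, t =>
    (Set.image (subT k (m + 1) (n + 1) (ext f)) t : Set (TT k (m + 1)))

theorem subT_tpk {P : Type} [LE P] (k : ℕ) : ∀ (m n : ℕ) (f : Fin m → Fin n) (a : Fin n → P),
    subT k m n f (tpk k n a) = tpk k m fun i => a (f i) := by
  induction k with
  | zero => intro m n f a; rfl
  | succ k ih =>
    intro m n f a
    refine Set.ext fun t => ?_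
    constructor
    · rintro ⟨s, ⟨x, rfl⟩, rfl⟩
      refine ⟨x, ?_⟩
      rw [ih, snc_ext]
    · rintro ⟨x, rfl⟩
      refine ⟨_, ⟨x, rfl⟩, ?_⟩
      rw [ih, snc_ext]

theorem ext_comp {l m n : ℕ} (f : Fin l → Fin m) (g : Fin m → Fin n) :
    (fun i => ext g (ext f i)) = ext fun i => g (f i) := by
  funext i
  refine Fin.lastCases ?_ (fun i => ?_) i
  · rw [ext_last, ext_last, ext_last]
  · rw [ext_castSucc, ext_castSucc, ext_castSucc]

theorem ext_id (n : ℕ) : ext (fun i : Fin n => i) = fun i => i := by
  funext i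
  refine Fin.lastCases ?_ (fun i => ?_) i
  · rw [ext_last]
  · rw [ext_castSucc]

theorem subT_comp (k : ℕ) : ∀ (l m n : ℕ) (f : Fin l → Fin m) (g : Fin m → Fin n) (t : TT k n),
    subT k l m f (subT k m n g t) = subT k l n (fun i => g (f i)) t := by
  induction k with
  | zero => intro l m n f g t; rfl
  | succ k ih =>
    intro l m n f g t
    refine Set.ext fun s => ?_
    constructor
    · rintro ⟨_, ⟨r, hr, rfl⟩, rfl⟩
      refine ⟨r, hr, ?_⟩
      rw [ih, ext_comp]
    · rintro ⟨r, hr, rfl⟩
      refine ⟨_, ⟨r, hr, rfl⟩, ?_⟩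
      rw [ih, ext_comp]

theorem subT_id (k : ℕ) : ∀ (n : ℕ) (t : TT k n), subT k n n (fun i => i) t = t := by
  induction k with
  | zero => intro n t; rfl
  | succ k ih =>
    intro n t
    refine Set.ext fun s => ?_
    constructor
    · rintro ⟨r, hr, rfl⟩
      rw [ext_id, ih]
      exact hr
    · intro hs
      refine ⟨s, hs, ?_⟩
      rw [ext_id, ih]

theorem finite_TT (k : ℕ) : ∀ n, Finite (TT k n) := by
  induction k with
  | zero =>
    intro n
    exact inferInstanceAs (Finite (Fin n → Fin n → Prop))
  | succ k ih =>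
    intro n
    have := ih (n + 1)
    exact inferInstanceAs (Finite (Set (TT k (n + 1))))

theorem IsFO.finset_all {α ι : Type} {Q : ι → ∀ (P : Type) [LE P], (α → P) → Prop}
    (h : ∀ i, IsFO (Q i)) (s : Finset ι) :
    IsFO (fun (P : Type) [LE P] (v : α → P) => ∀ i ∈ s, Q i P v) := by
  classical
  induction s using Finset.induction_on with
  | empty => exact isFO_true.congr fun P _ v => by simp
  | insert i s _ ih => exact ((h i).and ih).congr fun P _ v => by simp

theorem IsFO.fin_all {α ι : Type} [Finite ι] {Q : ι → ∀ (P : Type) [LE P], (α → P) → Prop}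
    (h : ∀ i, IsFO (Q i)) : IsFO (fun (P : Type) [LE P] (v : α → P) => ∀ i, Q i P v) := by
  have := Fintype.ofFinite ι
  exact (IsFO.finset_all h Finset.univ).congr fun P _ v => by simp

/-- The types of finite depth are first-order properties. -/
theorem isFO_tpk (k : ℕ) : ∀ (n : ℕ) (t : TT k n),
    IsFO (fun (P : Type) [LE P] (v : Fin n → P) => tpk k n v = t) := by
  classical
  induction k with
  | zero =>
    intro n t
    have h : ∀ i j : Fin n, IsFO (fun (P : Type) [LE P] (v : Fin n → P) =>
        (v i ≤ v j ↔ t i j)) := by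
      intro i j
      by_cases ht : t i j
      · exact (isFO_le i j).congr fun P _ v => by simp [ht]
      · exact (isFO_le i j).not.congr fun P _ v => by simp [ht]
    refine (IsFO.fin_all fun i => IsFO.fin_all fun j => h i j).congr fun P _ v => ?_
    constructor
    · intro h
      exact funext fun i => funext fun j => propext (h i j)
    · intro h i j
      exact Iff.of_eq (congrFun (congrFun h i) j)
  | succ k ih =>
    intro n t
    have := finite_TT k (n + 1)
    have h : ∀ s : TT k (n + 1), IsFO (fun (P : Type) [LE P] (v : Fin n → P) =>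
        ((∃ x, tpk k (n + 1) (snc v x) = s) ↔ Set.Mem (t : Set (TT k (n + 1))) s)) := by
      intro s
      have h1 : IsFO (fun (P : Type) [LE P] (v : Fin n → P) =>
          ∃ x, tpk k (n + 1) (snc v x) = s) := by
        have h2 := ((ih (n + 1) s).relabel (snc (fun i : Fin n => Sum.inl i)
          (Sum.inr () : Fin n ⊕ Unit))).ex
        refine h2.congr fun P _ v => exists_congr fun x => ?_
        rw [map_snc]
        rfl
      by_cases ht : Set.Mem (t : Set (TT k (n + 1))) s
      · exact h1.congr fun P _ v => by simp [ht]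
      · exact h1.not.congr fun P _ v => by simp [ht]
    refine (IsFO.fin_all fun s => h s).congr fun P _ v => ?_
    constructor
    · intro h
      exact Set.ext fun s => h s
    · intro h s
      have h3 := Set.ext_iff.mp h s
      exact h3

theorem tpk_mono {P Q : Type} [LE P] [LE Q] [Nonempty P] {k n : ℕ} {a : Fin n → P} {b : Fin n → Q}
    (h : tpk (k + 1) n a = tpk (k + 1) n b) : tpk k n a = tpk k n b := by
  obtain ⟨x⟩ := ‹Nonempty P›
  have h1 : tpk k (n + 1) (snc a x) ∈ hasT (tpk (k + 1) n a) := ⟨x, rfl⟩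
  rw [h] at h1
  obtain ⟨y, hy⟩ := h1
  have h2 := congrArg (subT k n (n + 1) Fin.castSucc) hy
  rw [subT_tpk, subT_tpk, snc_comp_castSucc, snc_comp_castSucc] at h2
  exact h2.symm

theorem tpk_le {P Q : Type} [LE P] [LE Q] [Nonempty P] {k l n : ℕ} (hkl : k ≤ l) {a : Fin n → P}
    {b : Fin n → Q} (h : tpk l n a = tpk l n b) : tpk k n a = tpk k n b := by
  induction hkl with
  | refl => exact h
  | step _ ih => exact ih (tpk_mono h)

/-- Formulas cannot distinguish tuples with the same type of a sufficiently large depth. -/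
theorem exists_depth {α : Type} {m : ℕ} (φ : Language.order.BoundedFormula α m) :
    ∀ (N : ℕ) (ρ : α → Fin N) (σ : Fin m → Fin N), ∃ k, ∀ (P Q : Type) [PartialOrder P]
      [PartialOrder Q] [Nonempty P] [Nonempty Q] (c : Fin N → P) (d : Fin N → Q),
      tpk k N c = tpk k N d →
        ((let _ := Language.orderStructure P; φ.Realize (fun i => c (ρ i)) (fun i => c (σ i))) ↔
          (let _ := Language.orderStructure Q; φ.Realize (fun i => d (ρ i)) (fun i => d (σ i)))) := by
  induction φ with
  | falsum => intro N ρ σ; exact ⟨0, fun P Q _ _ _ _ c d _ => Iff.rfl⟩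
  | equal t₁ t₂ =>
    intro N ρ σ
    obtain ⟨i, rfl⟩ := term_eq t₁
    obtain ⟨j, rfl⟩ := term_eq t₂
    refine ⟨0, fun P Q _ _ _ _ c d h => ?_⟩
    have h1 : ∀ i j, (c i ≤ c j ↔ d i ≤ d j) := fun i j => Iff.of_eq (congrFun (congrFun h i) j)
    have h2 : ∀ i j, (c i = c j ↔ d i = d j) := by
      intro i j
      rw [le_antisymm_iff, le_antisymm_iff, h1, h1]
    have h3 : ∀ (R : Type) [PartialOrder R] (e : Fin N → R) (i : α ⊕ Fin _),
        Sum.elim (fun i => e (ρ i)) (fun i => e (σ i)) i = e (Sum.elim ρ σ i) := by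
      intro R _ e i
      cases i <;> rfl
    show (Sum.elim (fun i => c (ρ i)) (fun i => c (σ i)) i =
      Sum.elim (fun i => c (ρ i)) (fun i => c (σ i)) j) ↔
      (Sum.elim (fun i => d (ρ i)) (fun i => d (σ i)) i =
      Sum.elim (fun i => d (ρ i)) (fun i => d (σ i)) j)
    rw [h3, h3, h3, h3]
    exact h2 _ _
  | rel r ts =>
    intro N ρ σ
    cases r
    obtain ⟨i, hi⟩ := term_eq (ts 0)
    obtain ⟨j, hj⟩ := term_eq (ts 1)
    refine ⟨0, fun P Q _ _ _ _ c d h => ?_⟩
    have h1 : ∀ i j, (c i ≤ c j ↔ d i ≤ d j) := fun i j => Iff.of_eq (congrFun (congrFun h i) j)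
    have h3 : ∀ (R : Type) [PartialOrder R] (e : Fin N → R) (i : α ⊕ Fin _),
        Sum.elim (fun i => e (ρ i)) (fun i => e (σ i)) i = e (Sum.elim ρ σ i) := by
      intro R _ e i
      cases i <;> rfl
    have h4 : ∀ (R : Type) [PartialOrder R] (e : Fin N → R),
        ((let _ := Language.orderStructure R;
          (Language.BoundedFormula.rel Language.orderRel.le ts).Realize
            (fun i => e (ρ i)) (fun i => e (σ i))) ↔ e (Sum.elim ρ σ i) ≤ e (Sum.elim ρ σ j)) := by
      intro R _ e
      let _ := Language.orderStructure R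
      have h5 : ((Language.BoundedFormula.rel Language.orderRel.le ts).Realize
          (fun i => e (ρ i)) (fun i => e (σ i))) ↔
          (ts 0).realize (Sum.elim (fun i => e (ρ i)) (fun i => e (σ i))) ≤
            (ts 1).realize (Sum.elim (fun i => e (ρ i)) (fun i => e (σ i))) := Iff.rfl
      rw [hi, hj] at h5
      have h6 := h3 R e i
      have h7 := h3 R e j
      exact h5.trans (by
        show Sum.elim (fun i => e (ρ i)) (fun i => e (σ i)) i ≤
          Sum.elim (fun i => e (ρ i)) (fun i => e (σ i)) j ↔ _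
        rw [h6, h7])
    exact (h4 P c).trans ((h1 _ _).trans (h4 Q d).symm)
  | imp f₁ f₂ ih₁ ih₂ =>
    intro N ρ σ
    obtain ⟨k, hk⟩ := ih₁ N ρ σ
    obtain ⟨l, hl⟩ := ih₂ N ρ σ
    refine ⟨max k l, fun P Q _ _ _ _ c d h => ?_⟩
    exact imp_congr (hk P Q c d (tpk_le (le_max_left _ _) h))
      (hl P Q c d (tpk_le (le_max_right _ _) h))
  | all f ih =>
    intro N ρ σ
    obtain ⟨k, hk⟩ := ih (N + 1) (fun i => (ρ i).castSucc)
      (snc (fun i => (σ i).castSucc) (Fin.last N))
    refine ⟨k + 1, fun P Q _ _ _ _ c d h => ?_⟩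
    have h1 : ∀ (R : Type) [PartialOrder R] (e : Fin N → R),
        ((let _ := Language.orderStructure R;
          f.all.Realize (fun i => e (ρ i)) (fun i => e (σ i))) ↔
        ∀ x : R, (let _ := Language.orderStructure R;
          f.Realize (fun i => snc e x ((ρ i).castSucc))
            (fun i => snc e x (snc (fun i => (σ i).castSucc) (Fin.last N) i)))) := by
      intro R _ e
      let _ := Language.orderStructure R
      refine forall_congr' fun x => ?_
      have h2 : (fun i => snc e x ((ρ i).castSucc)) = fun i => e (ρ i) :=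
        funext fun i => snc_castSucc _ _ _
      have h3 : (fun i => snc e x (snc (fun i => (σ i).castSucc) (Fin.last N) i)) =
          Fin.snoc (fun i => e (σ i)) x := by
        rw [map_snc]
        have h4 : (fun i => snc e x ((σ i).castSucc)) = fun i => e (σ i) :=
          funext fun i => snc_castSucc _ _ _
        rw [h4, snc_last]
        rfl
      rw [h2, h3]
    have key : ∀ (P Q : Type) [PartialOrder P] [PartialOrder Q] [Nonempty P] [Nonempty Q]
        (c : Fin N → P) (d : Fin N → Q), tpk (k + 1) N c = tpk (k + 1) N d →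
        (∀ x : P, (let _ := Language.orderStructure P;
          f.Realize (fun i => snc c x ((ρ i).castSucc))
            (fun i => snc c x (snc (fun i => (σ i).castSucc) (Fin.last N) i)))) →
        (∀ x : Q, (let _ := Language.orderStructure Q;
          f.Realize (fun i => snc d x ((ρ i).castSucc))
            (fun i => snc d x (snc (fun i => (σ i).castSucc) (Fin.last N) i)))) := by
      intro P Q _ _ _ _ c d h hc x
      have h5 : tpk k (N + 1) (snc d x) ∈ hasT (tpk (k + 1) N d) := ⟨x, rfl⟩
      rw [← h] at h5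
      obtain ⟨y, hy⟩ := h5
      exact (hk P Q _ _ hy).mp (hc y)
    rw [h1 P c, h1 Q d]
    exact ⟨key P Q c d h, key Q P d c h.symm⟩

/-- Ehrenfeucht–Fraïssé: two tuples satisfy the same first-order formulas if and only if they have
the same types of all finite depths. -/
theorem sameType_iff {P Q : Type} [PartialOrder P] [PartialOrder Q] [Nonempty P] [Nonempty Q]
    {n : ℕ} (a : Fin n → P) (b : Fin n → Q) :
    SameType a b ↔ ∀ k, tpk k n a = tpk k n b := by
  constructor
  · intro h k
    exact (((isFO_tpk k n (tpk k n b)).iff h).mpr rfl)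
  · intro h φ
    obtain ⟨k, hk⟩ := exists_depth φ n (fun i => i) Fin.elim0
    have h1 := hk P Q a b (h k)
    have h2 : ∀ (R : Type) (e : Fin n → R), (fun i : Fin 0 => e (Fin.elim0 i)) = default :=
      fun R e => funext fun i => i.elim0
    rw [h2, h2] at h1
    exact h1

end Pool.Agent.Work.MP_f1d084_lc
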