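import Mathlib
import Pool.Agent.Work.MP_f1d084_lc.BackForth
import Pool.Agent.Work.MP_f1d084_lc.Grp1

set_option autoImplicit false

namespace Pool.Agent.Work.MP_f1d084_lc

open FirstOrder

/-- The split of `P`: a lower copy `(p, false)` and an upper copy `(p, true)` of each element. -/
@[ext] structure Spl (P : Type) where
  pt : P
  up : Bool

/-- `(p, false)` is below `(q, true)` if and only if `p ≤ q`; there are no other relations between
different elements. -/
instance {P : Type} [LE P] : LE (Spl P) :=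
  ⟨fun a b => a = b ∨ (a.up = false ∧ b.up = true ∧ a.pt ≤ b.pt)⟩

section le

variable {P : Type} [LE P]

theorem spl_le_iff (a b : Spl P) : a ≤ b ↔ a = b ∨ (a.up = false ∧ b.up = true ∧ a.pt ≤ b.pt) :=
  Iff.rfl

theorem spl_refl (a : Spl P) : a ≤ a := Or.inl rfl

theorem spl_ft (p q : P) : (⟨p, false⟩ : Spl P) ≤ ⟨q, true⟩ ↔ p ≤ q := by
  rw [spl_le_iff]
  simp

theorem spl_le_lower (a b : Spl P) (hb : b.up = false) : a ≤ b ↔ a = b := by
  rw [spl_le_iff]
  simp [hb]

theorem spl_upper_le (a b : Spl P) (ha : a.up = true) : a ≤ b ↔ a = b := by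
  rw [spl_le_iff]
  simp [ha]

theorem spl_antisymm (a b : Spl P) (h1 : a ≤ b) (h2 : b ≤ a) : a = b := by
  rcases h1 with h1 | ⟨-, h1, -⟩
  · exact h1
  · exact ((spl_upper_le b a h1).mp h2).symm

theorem spl_trans (a b c : Spl P) (h1 : a ≤ b) (h2 : b ≤ c) : a ≤ c := by
  rcases h1 with rfl | ⟨h3, h4, h5⟩
  · exact h2
  · rw [← (spl_upper_le b c h4).mp h2]
    exact Or.inr ⟨h3, h4, h5⟩

theorem spl_height (a b c : Spl P) (h1 : a ≤ b) (h2 : b ≤ c) : a = b ∨ b = c := by
  rcases h1 with rfl | ⟨h3, h4, h5⟩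
  · exact Or.inl rfl
  · exact Or.inr ((spl_upper_le b c h4).mp h2)

section iso

variable {Q : Type} [LE Q]

/-- The map of splits induced by an isomorphism. -/
def splIso (g : P ≃o Q) : Spl P ≃o Spl Q where
  toFun a := ⟨g a.pt, a.up⟩
  invFun a := ⟨g.symm a.pt, a.up⟩
  left_inv a := by simp
  right_inv a := by simp
  map_rel_iff' := by
    intro a b
    change (⟨g a.pt, a.up⟩ : Spl Q) ≤ ⟨g b.pt, b.up⟩ ↔ _
    rw [spl_le_iff, spl_le_iff]
    simp only [g.le_iff_le]
    constructor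
    · rintro (h | h)
      · left
        have h1 := congrArg Spl.pt h
        have h2 := congrArg Spl.up h
        exact Spl.ext (g.injective h1) h2
      · exact Or.inr h
    · rintro (h | h)
      · rw [h]
        exact Or.inl rfl
      · exact Or.inr h

end iso

end le

section po

variable {P Q : Type} [PartialOrder P] [PartialOrder Q]

theorem spl_mn (a : Spl P) : mn (Spl P) a ↔ a.up = false := by
  constructor
  · intro h
    by_contra h1
    have h1 : a.up = true := by simpa using h1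
    have h2 : (⟨a.pt, false⟩ : Spl P) ≤ a := Or.inr ⟨rfl, h1, le_rfl⟩
    have h3 := (spl_upper_le _ _ h1).mp (h _ h2)
    rw [h3] at h1
    simp at h1
  · intro h w hw
    rw [(spl_le_lower _ _ h).mp hw]
    exact spl_refl _

theorem spl_up_of_iso (f : Spl P ≃o Spl Q) (a : Spl P) : (f a).up = a.up := by
  have h := SameType.of_iso f (fun _ : Fin 1 => a)
  have h2 := (isFO_mn (0 : Fin 1)).iff h
  rw [spl_mn, spl_mn] at h2
  cases h3 : a.up
  · exact h2.mp h3
  · by_contra h4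
    have h4 : (f a).up = false := by simpa using h4
    have h5 := h2.mpr h4
    rw [h5] at h3
    simp at h3

/-- Every isomorphism between splits is induced by an isomorphism. -/
theorem spl_iso (f : Spl P ≃o Spl Q) : ∃ g : P ≃o Q, f = splIso g := by
  -- the two maps
  have hA : ∀ p : P, f ⟨p, false⟩ = ⟨(f ⟨p, false⟩).pt, false⟩ := fun p =>
    Spl.ext rfl (spl_up_of_iso f ⟨p, false⟩)
  have hB : ∀ p : P, f ⟨p, true⟩ = ⟨(f ⟨p, true⟩).pt, true⟩ := fun p =>
    Spl.ext rfl (spl_up_of_iso f ⟨p, true⟩)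
  have hA' : ∀ q : Q, f.symm ⟨q, false⟩ = ⟨(f.symm ⟨q, false⟩).pt, false⟩ := fun q =>
    Spl.ext rfl (spl_up_of_iso f.symm ⟨q, false⟩)
  have hB' : ∀ q : Q, f.symm ⟨q, true⟩ = ⟨(f.symm ⟨q, true⟩).pt, true⟩ := fun q =>
    Spl.ext rfl (spl_up_of_iso f.symm ⟨q, true⟩)
  have key : ∀ p q : P, p ≤ q ↔ (f ⟨p, false⟩).pt ≤ (f ⟨q, true⟩).pt := by
    intro p q
    rw [← spl_ft, ← f.le_iff_le, hA, hB, spl_ft]
  have surjA : ∀ q : Q, ∃ p : P, (f ⟨p, false⟩).pt = q := by
    intro q
    refine ⟨(f.symm ⟨q, false⟩).pt, ?_⟩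
    rw [← hA', OrderIso.apply_symm_apply]
  have injB : ∀ p q : P, (f ⟨p, true⟩).pt = (f ⟨q, true⟩).pt → p = q := by
    intro p q h
    have h1 : f ⟨p, true⟩ = f ⟨q, true⟩ := by rw [hB p, hB q, h]
    exact congrArg Spl.pt (f.injective h1)
  have injA : ∀ p q : P, (f ⟨p, false⟩).pt = (f ⟨q, false⟩).pt → p = q := by
    intro p q h
    have h1 : f ⟨p, false⟩ = f ⟨q, false⟩ := by rw [hA p, hA q, h]
    exact congrArg Spl.pt (f.injective h1)
  -- the upper map preserves the order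
  have monB : ∀ p q : P, p ≤ q → (f ⟨p, true⟩).pt ≤ (f ⟨q, true⟩).pt := by
    intro p q hpq
    obtain ⟨r, hr⟩ := surjA (f ⟨p, true⟩).pt
    have h1 : r ≤ p := (key r p).mpr hr.le
    rw [← hr]
    exact (key r q).mp (h1.trans hpq)
  have same : ∀ p : P, (f ⟨p, false⟩).pt = (f ⟨p, true⟩).pt := by
    intro p
    obtain ⟨r, hr⟩ := surjA (f ⟨p, true⟩).pt
    have h1 : r ≤ p := (key r p).mpr hr.le
    have h2 : (f ⟨p, true⟩).pt ≤ (f ⟨r, true⟩).pt := by
      rw [← hr]
      exact (key r r).mp le_rfl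
    have h3 : (f ⟨r, true⟩).pt = (f ⟨p, true⟩).pt := le_antisymm (monB r p h1) h2
    have h4 : r = p := injB r p h3
    rw [← hr, h4]
  have hle : ∀ p q : P, p ≤ q ↔ (f ⟨p, false⟩).pt ≤ (f ⟨q, false⟩).pt := by
    intro p q
    rw [key, same q]
  let g : P ≃o Q :=
    { toEquiv := Equiv.ofBijective (fun p => (f ⟨p, false⟩).pt)
        ⟨fun p q h => injA p q h, surjA⟩
      map_rel_iff' := fun {a b} => (hle a b).symm }
  refine ⟨g, ?_⟩
  refine DFunLike.ext _ _ fun a => ?_
  obtain ⟨p, u⟩ := a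
  cases u
  · exact hA p
  · refine (hB p).trans ?_
    rw [← same p]
    rfl

end po

end Pool.Agent.Work.MP_f1d084_lc
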