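import Mathlib
import Pool.Agent.Work.MP_f1d084_lc.Upper
import Pool.Agent.Work.MP_f1d084_lc.Spl1

set_option autoImplicit false

namespace Pool.Agent.Work.MP_f1d084_lc

open FirstOrder

/-- The order of `P` seen in the split of `P`, for lower elements. -/
def ple (P : Type) [LE P] (x y : P) : Prop := ∀ w : P, y ≤ w → ¬ w ≤ y → x ≤ w

theorem isFO_ple {α : Type} (i j : α) :
    IsFO (fun (P : Type) [LE P] (v : α → P) => ple P (v i) (v j)) :=
  IsFO.all (Q := fun P _ v => v (Sum.inl j) ≤ v (Sum.inr ()) →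
    ¬ v (Sum.inr ()) ≤ v (Sum.inl j) → v (Sum.inl i) ≤ v (Sum.inr ()))
    ((isFO_le _ _).imp ((isFO_le _ _).not.imp (isFO_le _ _)))

theorem spl_ple {P : Type} [PartialOrder P] (p q : P) :
    ple (Spl P) ⟨p, false⟩ ⟨q, false⟩ ↔ p ≤ q := by
  constructor
  · intro h
    have h1 := h ⟨q, true⟩ ((spl_ft _ _).mpr le_rfl) (by
      rw [spl_le_lower _ _ rfl]
      simp)
    exact (spl_ft _ _).mp h1
  · intro h w h1 h2
    rcases h1 with rfl | ⟨-, h3, h4⟩
    · exact absurd (spl_refl _) h2
    · exact Or.inr ⟨rfl, h3, h.trans h4⟩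

/-- First-order formulas about `P` can be read in the split of `P`. -/
theorem transl {α : Type} {n : ℕ} (φ : Language.order.BoundedFormula α n) :
    ∃ Q : ∀ (P : Type) [LE P], (α ⊕ Fin n → P) → Prop, IsFO Q ∧
      ∀ (P : Type) [PartialOrder P] (v : α → P) (xs : Fin n → P),
        Q (Spl P) (fun i => ⟨Sum.elim v xs i, false⟩) ↔
          (letI := Language.orderStructure P; φ.Realize v xs) := by
  induction φ with
  | falsum =>
    refine ⟨fun P _ v => False, isFO_false, fun P _ v xs => ?_⟩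
    exact Iff.rfl
  | equal t₁ t₂ =>
    obtain ⟨i, rfl⟩ := term_eq t₁
    obtain ⟨j, rfl⟩ := term_eq t₂
    refine ⟨fun P _ v => v i ≤ v j, isFO_le i j, fun P _ v xs => ?_⟩
    change (⟨Sum.elim v xs i, false⟩ : Spl P) ≤ ⟨Sum.elim v xs j, false⟩ ↔ _
    rw [spl_le_lower _ _ rfl]
    simp [Language.BoundedFormula.Realize, Spl.ext_iff]
  | rel r ts =>
    cases r
    obtain ⟨i, hi⟩ := term_eq (ts 0)
    obtain ⟨j, hj⟩ := term_eq (ts 1)
    refine ⟨fun P _ v => ple P (v i) (v j), isFO_ple i j, fun P _ v xs => ?_⟩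
    have h0 := spl_ple (Sum.elim v xs i) (Sum.elim v xs j)
    refine Iff.trans h0 ?_
    let _ := Language.orderStructure P
    have h1 : (Language.BoundedFormula.rel Language.orderRel.le ts).Realize v xs ↔
        (ts 0).realize (Sum.elim v xs) ≤ (ts 1).realize (Sum.elim v xs) := Iff.rfl
    rw [hi, hj] at h1
    exact h1.symm
  | imp f₁ f₂ ih₁ ih₂ =>
    obtain ⟨Q1, h1, h2⟩ := ih₁
    obtain ⟨Q2, h3, h4⟩ := ih₂
    refine ⟨fun P _ v => Q1 P v → Q2 P v, h1.imp h3, fun P _ v xs => ?_⟩
    let _ := Language.orderStructure P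
    rw [Language.BoundedFormula.realize_imp]
    exact imp_congr (h2 P v xs) (h4 P v xs)
  | all f ih =>
    obtain ⟨Q1, h1, h2⟩ := ih
    rename_i n
    let ρ : α ⊕ Fin (n + 1) → (α ⊕ Fin n) ⊕ Unit :=
      Sum.elim (fun a => Sum.inl (Sum.inl a))
        (Fin.snoc (α := fun _ => (α ⊕ Fin n) ⊕ Unit) (fun j => Sum.inl (Sum.inr j)) (Sum.inr ()))
    refine ⟨fun P _ v => ∀ w : P, mn P w → Q1 P (fun i => Sum.elim v (fun _ => w) (ρ i)),
      IsFO.all (Q := fun P _ v => mn P (v (Sum.inr ())) → Q1 P (fun i => v (ρ i)))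
        ((isFO_mn _).imp (h1.relabel ρ)), fun P _ v xs => ?_⟩
    let _ := Language.orderStructure P
    rw [Language.BoundedFormula.realize_all]
    have key : ∀ x : P, (fun i => (Sum.elim (fun i => (⟨Sum.elim v xs i, false⟩ : Spl P))
        (fun _ => ⟨x, false⟩) (ρ i))) =
        fun i => ⟨Sum.elim v (Fin.snoc (α := fun _ => P) xs x) i, false⟩ := by
      intro x
      funext i
      rcases i with i | i
      · rfl
      · refine Fin.lastCases ?_ (fun j => ?_) i
        · simp [ρ]
        · simp [ρ]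
    constructor
    · intro h x
      rw [← h2 P v (Fin.snoc xs x), ← key]
      exact h ⟨x, false⟩ ((spl_mn _).mpr rfl)
    · rintro h ⟨x, u⟩ hw
      have hu : u = false := (spl_mn _).mp hw
      subst hu
      rw [key]
      exact (h2 P v (Fin.snoc xs x)).mpr (h x)

/-- `x` is the lower partner of `y`, where `u` says whether `y` is an upper element. -/
def prt (u : Bool) (P : Type) [LE P] (x y : P) : Prop :=
  if u = true then mn P x ∧ ∀ z : P, mn P z → (z ≤ y → ple P z x) ∧ (ple P z x → z ≤ y)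
  else x ≤ y ∧ y ≤ x

theorem isFO_prt (u : Bool) {α : Type} (i j : α) :
    IsFO (fun (P : Type) [LE P] (v : α → P) => prt u P (v i) (v j)) := by
  cases u
  · exact (isFO_le _ _).and (isFO_le _ _)
  · refine (isFO_mn i).and ?_
    exact IsFO.all (Q := fun P _ v => mn P (v (Sum.inr ())) →
      ((v (Sum.inr ()) ≤ v (Sum.inl j) → ple P (v (Sum.inr ())) (v (Sum.inl i))) ∧
        (ple P (v (Sum.inr ())) (v (Sum.inl i)) → v (Sum.inr ()) ≤ v (Sum.inl j))))
      ((isFO_mn _).imp (((isFO_le _ _).imp (isFO_ple _ _)).and ((isFO_ple _ _).imp (isFO_le _ _))))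

theorem spl_prt {P : Type} [PartialOrder P] (x y : Spl P) :
    prt y.up (Spl P) x y ↔ x = ⟨y.pt, false⟩ := by
  obtain ⟨q, u⟩ := y
  cases u
  · constructor
    · rintro ⟨h1, h2⟩
      exact spl_antisymm _ _ h1 h2
    · rintro rfl
      exact ⟨spl_refl _, spl_refl _⟩
  · constructor
    · rintro ⟨h1, h2⟩
      obtain ⟨p, u'⟩ := x
      have hu : u' = false := (spl_mn _).mp h1
      subst hu
      have h3 : ∀ z : P, z ≤ q ↔ z ≤ p := by
        intro z
        have h4 := h2 ⟨z, false⟩ ((spl_mn _).mpr rfl)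
        rw [spl_ft, spl_ple] at h4
        exact ⟨h4.1, h4.2⟩
      have h5 : p = q := le_antisymm ((h3 p).mpr le_rfl) ((h3 q).mp le_rfl)
      rw [h5]
    · rintro rfl
      refine ⟨(spl_mn _).mpr rfl, ?_⟩
      rintro ⟨z, u'⟩ hz
      have hu : u' = false := (spl_mn _).mp hz
      subst hu
      rw [spl_ft, spl_ple]
      exact ⟨id, id⟩

theorem spl_sameType {P : Type} [PartialOrder P] {n : ℕ} (a b : Fin n → Spl P)
    (hab : SameType a b) :
    (∀ i, (a i).up = (b i).up) ∧ SameType (fun i => (a i).pt) (fun i => (b i).pt) := by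
  have hup : ∀ i, (a i).up = (b i).up := by
    intro i
    have h2 := (isFO_mn i).iff hab
    rw [spl_mn, spl_mn] at h2
    cases h3 : (a i).up
    · exact (h2.mp h3).symm
    · by_contra h4
      have h4 : (b i).up = false := by
        cases h5 : (b i).up
        · rfl
        · exact absurd h5.symm h4
      have h5 := h2.mpr h4
      rw [h5] at h3
      simp at h3
  refine ⟨hup, fun φ => ?_⟩
  obtain ⟨Q, h1, h2⟩ := transl (α := Fin n) (n := 0) φ
  have hfo : IsFO (fun (P : Type) [LE P] (v : Fin n → P) => ∃ x : Fin n → P,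
      (∀ i, prt (a i).up P (x i) (v i)) ∧
        Q P (fun i => Sum.elim (fun j => x j) (fun j : Fin 0 => j.elim0) i)) := by
    refine IsFO.exs (Q := fun P _ v => (∀ i, prt (a i).up P (v (Sum.inr i)) (v (Sum.inl i))) ∧
      Q P (fun i => v (Sum.elim (fun j => Sum.inr j) (fun j : Fin 0 => j.elim0) i))) ?_ |>.congr ?_
    · exact (IsFO.forall_fin n fun i => isFO_prt _ _ _).and (h1.relabel _)
    · intro P _ v
      refine exists_congr fun x => and_congr Iff.rfl ?_
      have : (fun i : Fin n ⊕ Fin 0 => (Sum.elim v x : Fin n ⊕ Fin n → P)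
          (Sum.elim (fun j => Sum.inr j) (fun j : Fin 0 => j.elim0) i)) =
          fun i => Sum.elim (fun j => x j) (fun j : Fin 0 => j.elim0) i := by
        funext i
        rcases i with i | i
        · rfl
        · exact i.elim0
      rw [this]
  have key : ∀ d : Fin n → Spl P, (∀ i, (a i).up = (d i).up) →
      ((∃ x : Fin n → Spl P, (∀ i, prt (a i).up (Spl P) (x i) (d i)) ∧
        Q (Spl P) (fun i => Sum.elim (fun j => x j) (fun j : Fin 0 => j.elim0) i)) ↔
      (let _ := Language.orderStructure P; φ.Realize fun i => (d i).pt)) := by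
    intro d hd
    have h3 := h2 P (fun i => (d i).pt) (fun j : Fin 0 => j.elim0)
    have h4 : (fun i : Fin n ⊕ Fin 0 => (⟨Sum.elim (fun i => (d i).pt)
        (fun j : Fin 0 => j.elim0) i, false⟩ : Spl P)) =
        fun i => Sum.elim (fun j => (⟨(d j).pt, false⟩ : Spl P)) (fun j : Fin 0 => j.elim0) i := by
      funext i
      rcases i with i | i
      · rfl
      · exact i.elim0
    rw [h4] at h3
    have h5 : (fun j : Fin 0 => (j.elim0 : P)) = default := Subsingleton.elim _ _
    rw [h5] at h3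
    refine Iff.trans ?_ h3
    constructor
    · rintro ⟨x, hx1, hx2⟩
      have h6 : x = fun j => ⟨(d j).pt, false⟩ := by
        funext j
        have := hx1 j
        rw [hd j, spl_prt] at this
        exact this
      rw [h6] at hx2
      exact hx2
    · intro h6
      refine ⟨fun j => ⟨(d j).pt, false⟩, fun i => ?_, h6⟩
      rw [hd i, spl_prt]
  exact (key a fun _ => rfl).symm.trans ((hfo.iff hab).trans (key b hup))

/-- The split of an elementarily homogeneous poset is elementarily homogeneous. -/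
theorem spl_elemHomog {P : Type} [PartialOrder P] (h : ElemHomog P) : ElemHomog (Spl P) := by
  intro n a b hab
  obtain ⟨h1, h2⟩ := spl_sameType a b hab
  obtain ⟨g, hg⟩ := h n _ _ h2
  refine ⟨splIso g, fun i => ?_⟩
  exact Spl.ext (hg i) (h1 i)

end Pool.Agent.Work.MP_f1d084_lc
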