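import Mathlib
import Pool.Agent.Work.MP_f1d084_lc.Grp3

set_option autoImplicit false

namespace Pool.Agent.Work.MP_f1d084_lc

open FirstOrder

variable {c c' : List ℕ → ℕ}

open GE

/-- Permutations which carry one colouring to another one. -/
def Pres2 (c c' : List ℕ → ℕ) (g : Equiv.Perm ℕ) : Prop :=
  ∀ s : List ℕ, s.Nodup → s ≠ [] → c' (s.map g) = c s

theorem Pres2.symm {g : Equiv.Perm ℕ} (h : Pres2 c c' g) : Pres2 c' c g.symm := by
  intro s h1 h2
  have h3 := h (s.map g.symm) (h1.map g.symm.injective) (by simpa using h2)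
  rw [List.map_map] at h3
  have h4 : (g ∘ g.symm : ℕ → ℕ) = id := by funext x; simp
  rw [h4, List.map_id] at h3
  exact h3.symm

theorem Pres2.nod {g : Equiv.Perm ℕ} (h : Pres2 c c' g) {s : List ℕ} {k : ℕ}
    (hs : s.Nodup ∧ s ≠ [] ∧ k ≤ c s + 1) :
    (s.map g).Nodup ∧ s.map g ≠ [] ∧ k ≤ c' (s.map g) + 1 :=
  ⟨hs.1.map g.injective, by simpa using hs.2.1, by rw [h s hs.1 hs.2.1]; exact hs.2.2⟩

/-- The map of posets induced by a permutation which carries one colouring to the other. -/
def gact2 (g : Equiv.Perm ℕ) (h : Pres2 c c' g) : GE c → GE c'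
  | base x => base (g x)
  | nod s k hs => nod (s.map g) k (h.nod hs)

/-- The isomorphism induced by a permutation which carries one colouring to the other. -/
def gIso2 (g : Equiv.Perm ℕ) (h : Pres2 c c' g) : GE c ≃o GE c' where
  toFun := gact2 g h
  invFun := gact2 g.symm h.symm
  left_inv a := by
    cases a with
    | base x => simp [gact2]
    | nod s k hs =>
      refine nod_congr ?_ rfl
      rw [List.map_map]
      have h4 : (g.symm ∘ g : ℕ → ℕ) = id := by funext x; simp
      rw [h4, List.map_id]
  right_inv a := by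
    cases a with
    | base x => simp [gact2]
    | nod s k hs =>
      refine nod_congr ?_ rfl
      rw [List.map_map]
      have h4 : (g ∘ g.symm : ℕ → ℕ) = id := by funext x; simp
      rw [h4, List.map_id]
  map_rel_iff' := by
    intro a b
    have hsuf : ∀ s t : List ℕ, s.map g <:+ t.map g ↔ s <:+ t := by
      intro s t
      constructor
      · intro h1
        have h2 := h1.map g.symm
        rw [List.map_map, List.map_map] at h2
        have h4 : (g.symm ∘ g : ℕ → ℕ) = id := by funext x; simp
        rwa [h4, List.map_id, List.map_id] at h2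
      · intro h1
        exact h1.map g
    cases a with
    | base x =>
      cases b with
      | base y =>
        change base (g x) ≤ base (g y) ↔ _
        rw [g_bb, g_bb, g.injective.eq_iff]
      | nod t m ht =>
        change base (g x) ≤ nod (t.map g) m _ ↔ _
        rw [g_bn, g_bn]
        exact List.mem_map_of_injective g.injective
    | nod s k hs =>
      cases b with
      | base y => exact iff_of_false (g_nb _ _ _ _) (g_nb _ _ _ _)
      | nod t m ht =>
        change nod (s.map g) k _ ≤ nod (t.map g) m _ ↔ _
        rw [g_nn, g_nn, hsuf, (List.map_injective_iff.mpr g.injective).eq_iff]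

/-- An isomorphism induces a bijection between the minimal elements. -/
theorem g_base2 (f : GE c ≃o GE c') : ∃ g : Equiv.Perm ℕ, ∀ x, f (base x) = base (g x) := by
  have h1 : ∀ (c c' : List ℕ → ℕ) (f : GE c ≃o GE c'), ∀ x, ∃ y, f (base x) = base y := by
    intro c c' f x
    have h := SameType.of_iso f (fun _ : Fin 1 => (base x : GE c))
    have h2 := ((isFO_mn (0 : Fin 1)).iff h).mp (g_mn_base x)
    exact (g_mn_iff _).mp h2
  choose g hg using h1 c c' f
  choose g' hg' using h1 c' c f.symm
  refine ⟨⟨g, g', fun x => ?_, fun x => ?_⟩, hg⟩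
  · have h2 := hg' (g x)
    rw [← hg, OrderIso.symm_apply_apply] at h2
    injection h2 with h2
    exact h2.symm
  · have h2 := hg (g' x)
    rw [← hg', OrderIso.apply_symm_apply] at h2
    injection h2 with h2
    exact h2.symm

theorem g_dk2 (f : GE c ≃o GE c') (g : Equiv.Perm ℕ) (hf : ∀ x, f (base x) = base (g x))
    (s : List ℕ) (k : ℕ) (h) : ∃ h', f (nod s k h) = nod (s.map g) k h' := by
  let a : Fin (s.length + 1) → GE c := Fin.cons (nod s k h) fun j => base (s.get j)
  have h1 := SameType.of_iso f a
  have h2 := isFO_Dk k ((List.finRange s.length).map Fin.succ) (0 : Fin (s.length + 1))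
  have e1 : ((List.finRange s.length).map Fin.succ).map a = s.map base := by
    rw [List.map_map]
    have : (a ∘ Fin.succ) = base ∘ s.get := by
      funext j
      rfl
    rw [this, ← List.map_map, List.map_get_finRange]
  have e2 : ((List.finRange s.length).map Fin.succ).map (fun i => f (a i)) =
      (s.map g).map base := by
    have : (fun i => f (a i)) = f ∘ a := rfl
    rw [this, ← List.map_map, e1, List.map_map, List.map_map]
    apply List.map_congr_left
    intro x _
    exact hf x
  have h3 := (h2.iff h1).mp (by
    rw [e1]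
    exact (g_Dk_iff _ _ _).mpr ⟨s, h, rfl, rfl⟩)
  rw [e2, g_Dk_iff] at h3
  obtain ⟨t, ht, h4, h5⟩ := h3
  have h6 : s.map g = t := (List.map_injective_iff.mpr fun x y h => by injection h) h4
  subst h6
  exact ⟨ht, h5⟩

theorem g_pres2 (f : GE c ≃o GE c') (g : Equiv.Perm ℕ) (hf : ∀ x, f (base x) = base (g x)) :
    Pres2 c c' g := by
  intro s h1 h2
  let a : Fin s.length → GE c := fun j => base (s.get j)
  have h3 := SameType.of_iso f a
  have h4 := isFO_cde (c s) (List.finRange s.length)
  have e1 : (List.finRange s.length).map a = s.map base := by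
    have : a = base ∘ s.get := rfl
    rw [this, ← List.map_map, List.map_get_finRange]
  have e2 : (List.finRange s.length).map (fun i => f (a i)) = (s.map g).map base := by
    have : (fun i => f (a i)) = f ∘ a := rfl
    rw [this, ← List.map_map, e1, List.map_map, List.map_map]
    apply List.map_congr_left
    intro x _
    exact hf x
  have h5 := (h4.iff h3).mp (by
    rw [e1]
    exact (g_cde_iff _ _).mpr ⟨s, ⟨h1, h2⟩, rfl, rfl⟩)
  rw [e2, g_cde_iff] at h5
  obtain ⟨t, ht, h6, h7⟩ := h5
  have h8 : s.map g = t := (List.map_injective_iff.mpr fun x y h => by injection h) h6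
  subst h8
  exact h7.symm

theorem g_eq2 (f : GE c ≃o GE c') (g : Equiv.Perm ℕ) (hf : ∀ x, f (base x) = base (g x)) :
    f = gIso2 g (g_pres2 f g hf) := by
  ext a
  cases a with
  | base x => exact hf x
  | nod s k h =>
    obtain ⟨h', h1⟩ := g_dk2 f g hf s k h
    rw [h1]
    rfl

theorem gIso2_base (g : Equiv.Perm ℕ) (h : Pres2 c c' g) (x : ℕ) :
    gIso2 g h (base x) = base (g x) := rfl

/-- Two isomorphisms which agree on the coordinates of an element agree at this element. -/
theorem g_agree (f f' : GE c ≃o GE c') (p : GE c)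
    (h : ∀ x ∈ crd p, f (base x) = f' (base x)) : f p = f' p := by
  cases p with
  | base x => exact h x (by simp [crd])
  | nod s k hs =>
    obtain ⟨g, hg⟩ := g_base2 f
    obtain ⟨g', hg'⟩ := g_base2 f'
    obtain ⟨h1, h2⟩ := g_dk2 f g hg s k hs
    obtain ⟨h3, h4⟩ := g_dk2 f' g' hg' s k hs
    rw [h2, h4]
    refine nod_congr ?_ rfl
    apply List.map_congr_left
    intro x hx
    have h5 := h x hx
    rw [hg, hg'] at h5
    exact base_inj h5

end Pool.Agent.Work.MP_f1d084_lc
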