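import Mathlib
import Pool.Agent.Work.MP_f1d084_lc.Uni1
import Pool.Agent.Work.MP_f1d084_lc.Uni2

set_option autoImplicit false

namespace Pool.Agent.Work.MP_f1d084_lc

open FirstOrder

variable {c : List ℕ → ℕ}

open GE

/-- One formula determines an element from its coordinates, and the coordinates from the
element. -/
theorem g_shape2 (L : List ℕ) (hLnd : L.Nodup) (a : GE c) (hL : ∀ x ∈ crd a, x ∈ L) :
    ∃ Q : ∀ (P : Type) [LE P], (Fin L.length ⊕ Unit → P) → Prop, IsFO Q ∧
      Q (GE c) (Sum.elim (fun j => base (L.get j)) (fun _ => a)) ∧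
      (∀ (b : GE c) (g : Equiv.Perm ℕ) (hg : Pres2 c c g),
        Q (GE c) (Sum.elim (fun j => base (g (L.get j))) (fun _ => b)) → b = gact2 g hg a) ∧
      ∀ (b : GE c) (x x' : Fin L.length → GE c), Q (GE c) (Sum.elim x (fun _ => b)) →
        Q (GE c) (Sum.elim x' (fun _ => b)) → ∀ j, L.get j ∈ crd a → x j = x' j := by
  cases a with
  | base x =>
    obtain ⟨j, hj⟩ := List.get_of_mem (hL x (by simp [crd]))
    refine ⟨fun P _ v => v (Sum.inr ()) ≤ v (Sum.inl j) ∧ v (Sum.inl j) ≤ v (Sum.inr ()),
      (isFO_le _ _).and (isFO_le _ _), ?_, ?_, ?_⟩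
    · simp only [Sum.elim_inl, Sum.elim_inr, hj]
      exact ⟨le_rfl, le_rfl⟩
    · intro b g hg h
      simp only [Sum.elim_inl, Sum.elim_inr, hj] at h
      exact le_antisymm h.1 h.2
    · intro b y y' h h' j' hj'
      simp only [Sum.elim_inl, Sum.elim_inr] at h h'
      have h1 : L.get j' = x := by simpa [crd] using hj'
      have h2 : j' = j := (List.nodup_iff_injective_get.mp hLnd) (h1.trans hj.symm)
      subst h2
      exact (le_antisymm h.2 h.1).trans (le_antisymm h'.1 h'.2)
  | nod s k hs =>
    obtain ⟨I, hI⟩ := exists_index L s hL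
    refine ⟨fun P _ v => Dk k P ((I.map Sum.inl).map v) (v (Sum.inr ())), isFO_Dk k _ _,
      ?_, ?_, ?_⟩
    · refine (g_Dk_iff k _ _).mpr ⟨s, hs, ?_, rfl⟩
      rw [List.map_map]
      have h3 : s.map (base : ℕ → GE c) = (I.map L.get).map base := by rw [hI]
      rw [h3, List.map_map]
      rfl
    · intro b g hg h
      obtain ⟨t, ht, h1, h2⟩ := (g_Dk_iff k _ _).mp h
      simp only [Sum.elim_inr] at h2
      rw [h2]
      refine nod_congr ?_ rfl
      rw [List.map_map] at h1
      have h3 : (I.map ((Sum.elim (fun j => (base (g (L.get j)) : GE c)) fun _ : Unit => b) ∘ Sum.inl)) =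
          (s.map g).map base := by
        rw [← hI, List.map_map, List.map_map]
        rfl
      rw [h3] at h1
      exact ((List.map_injective_iff.mpr fun x y h => by injection h) h1).symm
    · intro b y y' h h' j hj
      obtain ⟨t, ht, h1, h2⟩ := (g_Dk_iff k _ _).mp h
      obtain ⟨t', ht', h1', h2'⟩ := (g_Dk_iff k _ _).mp h'
      simp only [Sum.elim_inr] at h2 h2'
      have h3 : t = t' := by
        rw [h2] at h2'
        injection h2'
      subst h3
      rw [← h1', List.map_map, List.map_map] at h1
      have h4 := List.map_inj_left.mp h1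
      have hj' : L.get j ∈ I.map L.get := by rw [hI]; exact hj
      obtain ⟨j', hj1, hj2⟩ := List.mem_map.mp hj'
      have h5 : j' = j := (List.nodup_iff_injective_get.mp hLnd) hj2
      subst h5
      exact h4 j' hj1

theorem exists_long (L : List ℕ) (hL : L.Nodup) (k : ℕ) :
    ∃ Y : List ℕ, Y.length = k ∧ (Y ++ L).Nodup := by
  induction k with
  | zero => exact ⟨[], rfl, by simpa using hL⟩
  | succ k ih =>
    obtain ⟨Y, h1, h2⟩ := ih
    obtain ⟨x, y, hx, -, -⟩ := exists_fresh (Y ++ L)
    refine ⟨x :: Y, by simp [h1], ?_⟩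
    rw [List.cons_append, List.nodup_cons]
    exact ⟨hx, h2⟩

/-- The index list of the concatenation. -/
def jlist (k m : ℕ) : List (Fin k ⊕ Fin m) :=
  (List.finRange k).map Sum.inl ++ (List.finRange m).map Sum.inr

theorem mem_jlist {k m : ℕ} (z : Fin k ⊕ Fin m) : z ∈ jlist k m := by
  rcases z with z | z
  · exact List.mem_append_left _ (List.mem_map.mpr ⟨z, List.mem_finRange z, rfl⟩)
  · exact List.mem_append_right _ (List.mem_map.mpr ⟨z, List.mem_finRange z, rfl⟩)

theorem jlist_getD {k m : ℕ} (x : Fin k ⊕ Fin m → ℕ) (j : Fin m) :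
    ((jlist k m).map x).getD (k + j.1) 0 = x (Sum.inr j) := by
  unfold jlist
  rw [List.map_append, List.getD_append_right _ _ _ _ (by simp)]
  simp

section

variable {I : Type} {ar : I → ℕ}

/-- The poset of the colouring attached to an ultrahomogeneous structure is elementarily
homogeneous. -/
theorem elemHomog_of_UH (M : Str ar) (e : I → ℕ) (hc : ∀ s t : List ℕ, c s = c t →
      s.length = t.length ∧ ∀ i, e i < s.length → ∀ h : Fin (ar i) → Fin s.length,
        M i (fun j => s.getD (h j).1 0) = M i (fun j => t.getD (h j).1 0))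
    (hpres : ∀ g, IsIso M M g → Pres2 c c g) (hM : UH M) : ElemHomog (GE c) := by
  classical
  intro n a b hab
  set L : List ℕ := ((List.finRange n).flatMap fun i => crd (a i)).dedup with hL
  have hLmem : ∀ i, ∀ x ∈ crd (a i), x ∈ L := by
    intro i x hx
    rw [hL, List.mem_dedup, List.mem_flatMap]
    exact ⟨i, List.mem_finRange i, hx⟩
  have hLmem' : ∀ x ∈ L, ∃ i, x ∈ crd (a i) := by
    intro x hx
    rw [hL, List.mem_dedup, List.mem_flatMap] at hx
    obtain ⟨i, -, hi⟩ := hx
    exact ⟨i, hi⟩
  have hLnd : L.Nodup := List.nodup_dedup _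
  choose Q hQ1 hQ2 hQ3 hQ4 using fun i => g_shape2 L hLnd (a i) (hLmem i)
  -- the coordinates for `b` found at stage `k`
  have hstage : ∀ k : ℕ, ∃ y : Fin L.length → ℕ, Function.Injective y ∧
      (∀ i, Q i (GE c) (Sum.elim (fun j => base (y j)) fun _ => b i)) ∧
      ∀ i, e i < k → ∀ h : Fin (ar i) → Fin L.length,
        M i (fun j => L.get (h j)) = M i (fun j => y (h j)) := by
    intro k
    obtain ⟨Y, hY1, hY2⟩ := exists_long L hLnd (k + 1)
    have hfo : IsFO (fun (P : Type) [LE P] (v : Fin n → P) =>
        ∃ z : Fin Y.length ⊕ Fin L.length → P,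
          cde (c (Y ++ L)) P ((jlist Y.length L.length).map z) ∧
          ∀ i, Q i P (Sum.elim (fun j => z (Sum.inr j)) fun _ => v i)) := by
      refine IsFO.exs (Q := fun P _ v =>
        (cde (c (Y ++ L)) P ((jlist Y.length L.length).map fun j => v (Sum.inr j))) ∧
        ∀ i, Q i P (Sum.elim (fun j => v (Sum.inr (Sum.inr j))) fun _ => v (Sum.inl i))) ?_
      refine IsFO.and ?_ ?_
      · refine (isFO_cde (c (Y ++ L)) ((jlist Y.length L.length).map Sum.inr)).congr
          fun P _ v => ?_
        rw [List.map_map]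
        rfl
      · refine IsFO.forall_fin n fun i => ?_
        refine ((hQ1 i).relabel (Sum.elim (fun j => Sum.inr (Sum.inr j))
          fun _ => Sum.inl i)).congr fun P _ v => ?_
        have : (fun z : Fin L.length ⊕ Unit => v (Sum.elim (fun j => Sum.inr (Sum.inr j))
            (fun _ => Sum.inl i) z)) =
            Sum.elim (fun j => v (Sum.inr (Sum.inr j))) (fun _ => v (Sum.inl i)) := by
          funext z
          rcases z with z | z <;> rfl
        rw [this]
    have e1 : (jlist Y.length L.length).map (Sum.elim Y.get L.get) = Y ++ L := by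
      unfold jlist
      rw [List.map_append, List.map_map, List.map_map]
      have e2 : (Sum.elim Y.get L.get : Fin Y.length ⊕ Fin L.length → ℕ) ∘ Sum.inl = Y.get := rfl
      have e3 : (Sum.elim Y.get L.get : Fin Y.length ⊕ Fin L.length → ℕ) ∘ Sum.inr = L.get := rfl
      rw [e2, e3, List.map_get_finRange, List.map_get_finRange]
    have hne : Y ++ L ≠ [] := by
      intro h
      have := congrArg List.length h
      rw [List.length_append, hY1] at this
      simp at this
    obtain ⟨z, h2, h3⟩ := (hfo.iff hab).mp ⟨fun w => base (Sum.elim Y.get L.get w), by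
      rw [g_cde_iff]
      refine ⟨Y ++ L, ⟨hY2, hne⟩, ?_, rfl⟩
      rw [← e1, List.map_map]
      rfl, fun i => hQ2 i⟩
    rw [g_cde_iff] at h2
    obtain ⟨t, ⟨ht1, ht2⟩, h4, h5⟩ := h2
    have h6 : ∀ w, ∃ x, z w = base x := by
      intro w
      have : z w ∈ t.map (base : ℕ → GE c) := by
        rw [← h4]
        exact List.mem_map.mpr ⟨w, mem_jlist w, rfl⟩
      obtain ⟨x, -, hx⟩ := List.mem_map.mp this
      exact ⟨x, hx.symm⟩
    choose x hx using h6
    have h7 : t = (jlist Y.length L.length).map x := by
      have hbi : Function.Injective (List.map (base : ℕ → GE c)) :=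
        List.map_injective_iff.mpr base_inj
      apply hbi
      rw [← h4, List.map_map]
      apply List.map_congr_left
      intro w _
      exact hx w
    obtain ⟨h8, h9⟩ := hc _ _ h5
    refine ⟨fun j => x (Sum.inr j), ?_, ?_, ?_⟩
    · intro j j' hjj
      rw [h7] at ht1
      have h10 := List.inj_on_of_nodup_map ht1 (mem_jlist (Sum.inr j)) (mem_jlist (Sum.inr j')) hjj
      exact Sum.inr_injective h10
    · intro i
      have h10 := h3 i
      have h11 : (fun j => z (Sum.inr j)) = fun j => (base (x (Sum.inr j)) : GE c) := by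
        funext j
        exact hx _
      rw [h11] at h10
      exact h10
    · intro i hi h
      have h10 := h9 i (by rw [List.length_append, hY1]; omega)
        (fun j => ⟨Y.length + (h j).1, by rw [List.length_append]; have := (h j).2; omega⟩)
      have h11 : (fun j => (Y ++ L).getD (Y.length + (h j).1) 0) = fun j => L.get (h j) := by
        funext j
        rw [← e1, jlist_getD]
        rfl
      have h12 : (fun j => t.getD (Y.length + (h j).1) 0) = fun j => x (Sum.inr (h j)) := by
        funext j
        rw [h7, jlist_getD]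
      simp only at h10
      rw [h11, h12] at h10
      exact h10
  choose y hy1 hy2 hy3 using hstage
  have hyk : ∀ k, y k = y 0 := by
    intro k
    funext j
    obtain ⟨i, hi⟩ := hLmem' (L.get j) (List.get_mem L j)
    exact base_inj (hQ4 i (b i) _ _ (hy2 k i) (hy2 0 i) j hi)
  obtain ⟨g, hg1, hg2⟩ := hM L.length L.get (y 0) (by
      intro j k
      rw [(hy1 0).eq_iff, (List.nodup_iff_injective_get.mp hLnd).eq_iff]) (by
      intro i h
      have := hy3 (e i + 1) i (Nat.lt_succ_self _) h
      rw [hyk] at this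
      exact this)
  refine ⟨gIso2 g (hpres g hg1), fun i => ?_⟩
  have h8 := hy2 0 i
  have h9 : (fun j => (base (y 0 j) : GE c)) = fun j => base (g (L.get j)) := by
    funext j
    rw [hg2]
  rw [h9] at h8
  exact (hQ3 i (b i) g (hpres g hg1) h8).symm

/-- Isomorphisms of structures carry one colouring to the other. -/
theorem pres_of_isIso {c c' : List ℕ → ℕ} (M N : Str ar) (e : I → ℕ)
    (hc : ∀ s t : List ℕ, c s = c' t ↔ s.length = t.length ∧ ∀ i, e i < s.length →
      ∀ h : Fin (ar i) → Fin s.length,
        M i (fun j => s.getD (h j).1 0) = N i (fun j => t.getD (h j).1 0))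
    (g : Equiv.Perm ℕ) (hg : IsIso M N g) : Pres2 c c' g := by
  intro s _ _
  symm
  rw [hc]
  refine ⟨by simp, fun i _ h => ?_⟩
  rw [← hg i]
  congr 1
  funext j
  rw [List.getD_eq_getElem _ _ (h j).2, List.getD_eq_getElem _ _ (by simp), List.getElem_map]

/-- Conversely, a permutation which carries one colouring to the other is an isomorphism. -/
theorem isIso_of_pres {c c' : List ℕ → ℕ} (M N : Str ar) (e : I → ℕ)
    (hc : ∀ s t : List ℕ, c s = c' t ↔ s.length = t.length ∧ ∀ i, e i < s.length →
      ∀ h : Fin (ar i) → Fin s.length,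
        M i (fun j => s.getD (h j).1 0) = N i (fun j => t.getD (h j).1 0))
    (g : Equiv.Perm ℕ) (hg : Pres2 c c' g) : IsIso M N g := by
  classical
  intro i x
  set L : List ℕ := (List.ofFn x).dedup with hL
  have hLnd : L.Nodup := List.nodup_dedup _
  have hx : ∀ j, x j ∈ L := by
    intro j
    rw [hL, List.mem_dedup]
    exact List.mem_ofFn.mpr ⟨j, rfl⟩
  obtain ⟨Y, hY1, hY2⟩ := exists_long L hLnd (e i + 1)
  have hne : Y ++ L ≠ [] := by
    intro h
    have := congrArg List.length h
    rw [List.length_append, hY1] at this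
    simp at this
  have h1 := hg (Y ++ L) hY2 hne
  obtain ⟨-, h2⟩ := (hc (Y ++ L) ((Y ++ L).map g)).mp h1.symm
  have h3 : ∀ j, ∃ p : Fin (Y ++ L).length, (Y ++ L).get p = x j := fun j =>
    List.get_of_mem (List.mem_append_right _ (hx j))
  choose p hp using h3
  have h4 := h2 i (by rw [List.length_append, hY1]; omega) p
  have h5 : (fun j => (Y ++ L).getD (p j).1 0) = x := by
    funext j
    rw [List.getD_eq_getElem _ _ (p j).2]
    exact hp j
  have h6 : (fun j => ((Y ++ L).map g).getD (p j).1 0) = fun j => g (x j) := by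
    funext j
    rw [List.getD_eq_getElem _ _ (by rw [List.length_map]; exact (p j).2), List.getElem_map]
    exact congrArg g (hp j)
  rw [h5, h6] at h4
  exact h4.symm

end

end Pool.Agent.Work.MP_f1d084_lc
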