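import Mathlib
import Pool.Agent.Work.MP_f1d084_lc.BackForth
import Pool.Agent.Work.MP_f1d084_lc.Uni2

set_option autoImplicit false

namespace Pool.Agent.Work.MP_f1d084_lc

open FirstOrder

/-- The `a`-th element of a varying infinite set of natural numbers is a continuous function of
the set. -/
theorem continuous_nth {X : Type} [TopologicalSpace X] (D : X → ℕ → Prop)
    (hD : ∀ n, IsClopen {x | D x n}) (hinf : ∀ x, (Set.ofPred (D x)).Infinite) (a : ℕ) :
    Continuous fun x => Nat.nth (D x) a := by
  classical
  refine IsLocallyConstant.continuous ?_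
  rw [IsLocallyConstant.iff_eventually_eq]
  intro x
  have h1 : ∀ n, ∀ᶠ y in nhds x, (D y n ↔ D x n) := by
    intro n
    by_cases h : D x n
    · filter_upwards [(hD n).isOpen.mem_nhds h] with y hy
      exact iff_of_true hy h
    · filter_upwards [(hD n).compl.isOpen.mem_nhds h] with y hy
      exact iff_of_false hy h
  have h2 : ∀ᶠ y in nhds x, ∀ n ∈ Finset.range (Nat.nth (D x) a + 1), (D y n ↔ D x n) := by
    rw [Filter.eventually_all_finset]
    intro n _
    exact h1 n
  filter_upwards [h2] with y hy
  set n₀ := Nat.nth (D x) a with hn₀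
  have h3 : D x n₀ := Nat.nth_mem_of_infinite (hinf x) a
  have h4 : D y n₀ := (hy n₀ (by simp)).mpr h3
  have h5 : Nat.count (D x) n₀ = a := Nat.count_nth_of_infinite (hinf x) a
  have h6 : Nat.count (D y) n₀ = Nat.count (D x) n₀ := by
    rw [Nat.count_eq_card_filter_range, Nat.count_eq_card_filter_range]
    congr 1
    apply Finset.filter_congr
    intro n hn
    exact hy n (by
      rw [Finset.mem_range] at hn ⊢
      omega)
  rw [← h5, ← h6]
  exact Nat.nth_count h4

/-- Raw elements. -/
abbrev Raw : Type := ℕ ⊕ (List ℕ × ℕ)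

/-- An enumeration of the raw nodes. -/
noncomputable def rawEnum : ℕ ≃ List ℕ × ℕ := (Denumerable.eqv _).symm

/-- The raw elements which are elements of the poset of the colouring `c`. -/
def Valid (c : List ℕ → ℕ) : Raw → Prop
  | Sum.inl _ => True
  | Sum.inr p => p.1.Nodup ∧ p.1 ≠ [] ∧ p.2 ≤ c p.1 + 1

/-- The order of raw elements. -/
def rawLe : Raw → Raw → Prop
  | Sum.inl x, Sum.inl y => x = y
  | Sum.inl x, Sum.inr q => x ∈ q.1
  | Sum.inr p, Sum.inr q => (p.1 = q.1 ∧ p.2 ≤ q.2) ∨ (p.2 = 0 ∧ p.1 <:+ q.1)
  | Sum.inr _, Sum.inl _ => False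

open GE

/-- The element given by a valid raw element. -/
def toGE (c : List ℕ → ℕ) : (u : Raw) → Valid c u → GE c
  | Sum.inl x, _ => base x
  | Sum.inr p, h => nod p.1 p.2 h

/-- The raw element of an element. -/
def ofGE {c : List ℕ → ℕ} : GE c → Raw
  | base x => Sum.inl x
  | nod s k _ => Sum.inr (s, k)

theorem valid_ofGE {c : List ℕ → ℕ} (a : GE c) : Valid c (ofGE a) := by
  cases a with
  | base x => exact trivial
  | nod s k h => exact h

theorem toGE_ofGE {c : List ℕ → ℕ} (a : GE c) : toGE c (ofGE a) (valid_ofGE a) = a := by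
  cases a with
  | base x => rfl
  | nod s k h => rfl

theorem ofGE_toGE {c : List ℕ → ℕ} (u : Raw) (h : Valid c u) : ofGE (toGE c u h) = u := by
  rcases u with x | p
  · rfl
  · rfl

theorem toGE_le {c : List ℕ → ℕ} (u v : Raw) (hu : Valid c u) (hv : Valid c v) :
    toGE c u hu ≤ toGE c v hv ↔ rawLe u v := by
  rcases u with x | p <;> rcases v with y | q <;> exact Iff.rfl

/-- The set of the numbers of the nodes. -/
def Dset (c : List ℕ → ℕ) (n : ℕ) : Prop := Valid c (Sum.inr (rawEnum n))

theorem dset_infinite (c : List ℕ → ℕ) : (Set.ofPred (Dset c)).Infinite := by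
  refine Set.infinite_of_injective_forall_mem (f := fun x : ℕ => rawEnum.symm ([x], 0)) ?_ ?_
  · intro x y h
    have h1 := rawEnum.symm.injective h
    simpa using h1
  · intro x
    change Valid c (Sum.inr (rawEnum (rawEnum.symm ([x], 0))))
    rw [Equiv.apply_symm_apply]
    exact ⟨List.nodup_singleton x, by simp, Nat.zero_le _⟩

/-- The enumeration of the raw elements of the poset of the colouring `c`. -/
noncomputable def enuS (c : List ℕ → ℕ) : ℕ ⊕ ℕ → Raw
  | Sum.inl x => Sum.inl x
  | Sum.inr n => Sum.inr (rawEnum (Nat.nth (Dset c) n))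

/-- The enumeration of the raw elements of the poset of the colouring `c` by the natural
numbers. -/
noncomputable def enu (c : List ℕ → ℕ) (n : ℕ) : Raw := enuS c (Equiv.natSumNatEquivNat.symm n)

theorem valid_enuS (c : List ℕ → ℕ) (n : ℕ ⊕ ℕ) : Valid c (enuS c n) := by
  rcases n with x | n
  · exact trivial
  · exact Nat.nth_mem_of_infinite (dset_infinite c) n

theorem valid_enu (c : List ℕ → ℕ) (n : ℕ) : Valid c (enu c n) := valid_enuS c _

open Classical in
/-- The code of the poset of the colouring `c`. -/
noncomputable def gcode (c : List ℕ → ℕ) : Code := fun a b => decide (rawLe (enu c a) (enu c b))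

theorem enuS_injective (c : List ℕ → ℕ) : Function.Injective (enuS c) := by
  intro n m h
  rcases n with x | n <;> rcases m with y | m
  · exact congrArg Sum.inl (Sum.inl_injective (β := List ℕ × ℕ) h)
  · simp [enuS] at h
  · simp [enuS] at h
  · have h1 := rawEnum.injective (Sum.inr_injective h)
    rw [Nat.nth_injective (dset_infinite c) h1]

theorem enu_bij (c : List ℕ → ℕ) :
    Function.Bijective fun n : ℕ => toGE c (enu c n) (valid_enu c n) := by
  classical
  constructor
  · intro n m h
    have h1 := congrArg ofGE h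
    simp only [ofGE_toGE] at h1
    exact Equiv.natSumNatEquivNat.symm.injective (enuS_injective c h1)
  · intro a
    have h1 : ∃ n, enuS c n = ofGE a := by
      cases a with
      | base x => exact ⟨Sum.inl x, rfl⟩
      | nod s k h =>
        have h1 : Dset c (rawEnum.symm (s, k)) := by
          unfold Dset
          rw [Equiv.apply_symm_apply]
          exact h
        refine ⟨Sum.inr (Nat.count (Dset c) (rawEnum.symm (s, k))), ?_⟩
        change Sum.inr (rawEnum (Nat.nth (Dset c) _)) = Sum.inr (s, k)
        rw [Nat.nth_count h1, Equiv.apply_symm_apply]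
    obtain ⟨n, hn⟩ := h1
    refine ⟨Equiv.natSumNatEquivNat n, ?_⟩
    have h2 : enu c (Equiv.natSumNatEquivNat n) = ofGE a := by
      unfold enu
      rw [Equiv.symm_apply_apply, hn]
    have h3 : ∀ (u : Raw) (hu : Valid c u), u = ofGE a → toGE c u hu = a := by
      rintro u hu rfl
      exact toGE_ofGE a
    exact h3 _ _ h2

/-- The code codes the poset. -/
noncomputable def gcodeIso (c : List ℕ → ℕ) : OfCode (gcode c) ≃o GE c where
  toEquiv := Equiv.ofBijective (fun n : OfCode (gcode c) => toGE c (enu c n) (valid_enu c n))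
    (enu_bij c)
  map_rel_iff' := by
    intro a b
    change toGE c (enu c a) (valid_enu c a) ≤ toGE c (enu c b) (valid_enu c b) ↔
      gcode c a b = true
    rw [toGE_le]
    simp [gcode]

theorem gcodeIso_apply (c : List ℕ → ℕ) (n : ℕ) :
    gcodeIso c n = toGE c (enu c n) (valid_enu c n) := rfl

theorem gcodeIso_base (c : List ℕ → ℕ) (y : ℕ) :
    gcodeIso c (Equiv.natSumNatEquivNat (Sum.inl y) : ℕ) = base y := by
  have h6 : ∀ (u : Raw) (hu : Valid c u), u = Sum.inl y → toGE c u hu = base y := by
    rintro u hu rfl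
    rfl
  rw [gcodeIso_apply]
  refine h6 _ _ ?_
  unfold enu
  rw [Equiv.symm_apply_apply]
  rfl

theorem isLocallyConstant_enu {X : Type} [TopologicalSpace X] (c : X → List ℕ → ℕ)
    (hc : ∀ s, Continuous fun x => c x s) (a : ℕ) : IsLocallyConstant fun x => enu (c x) a := by
  unfold enu
  rcases Equiv.natSumNatEquivNat.symm a with y | n
  · exact IsLocallyConstant.const _
  · have h1 : Continuous fun x => Nat.nth (Dset (c x)) n := by
      refine continuous_nth _ ?_ (fun x => dset_infinite (c x)) n
      intro m
      have : {x : X | Dset (c x) m} = (fun x => c x (rawEnum m).1) ⁻¹'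
          {k | (rawEnum m).1.Nodup ∧ (rawEnum m).1 ≠ [] ∧ (rawEnum m).2 ≤ k + 1} := rfl
      rw [this]
      exact (isClopen_discrete _).preimage (hc _)
    exact ((IsLocallyConstant.iff_continuous _).mpr h1).comp
      (fun m => (Sum.inr (rawEnum m) : Raw))

theorem continuous_gcode {X : Type} [TopologicalSpace X] (c : X → List ℕ → ℕ)
    (hc : ∀ s, Continuous fun x => c x s) : Continuous fun x => gcode (c x) := by
  classical
  refine continuous_pi fun a => continuous_pi fun b => ?_
  exact (IsLocallyConstant.comp₂ (isLocallyConstant_enu c hc a) (isLocallyConstant_enu c hc b)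
    fun u v => decide (rawLe u v)).continuous.congr fun x => decide_eq_decide.mpr Iff.rfl

end Pool.Agent.Work.MP_f1d084_lc
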