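import Mathlib
import Pool.Agent.Work.MP_f1d084_lc.Uni3
import Pool.Agent.Work.MP_f1d084_lc.Uni4
import Pool.Agent.Work.MP_f1d084_lc.Spl2

set_option autoImplicit false

namespace Pool.Agent.Work.MP_f1d084_lc

open FirstOrder

/-- The relation between the elements of the split, numbered by `ℕ ⊕ ℕ`. -/
def brel (R : Code) : ℕ ⊕ ℕ → ℕ ⊕ ℕ → Bool
  | Sum.inl a, Sum.inl b => decide (a = b)
  | Sum.inr a, Sum.inr b => decide (a = b)
  | Sum.inl a, Sum.inr b => R a b
  | Sum.inr _, Sum.inl _ => false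

/-- The code of the split: the even number `2 * a` is the lower copy of `a`, the odd number
`2 * a + 1` the upper copy. -/
def bcode (R : Code) : Code := fun n m =>
  brel R (Equiv.natSumNatEquivNat.symm n) (Equiv.natSumNatEquivNat.symm m)

theorem continuous_bcode : Continuous bcode := by
  refine continuous_pi fun n => continuous_pi fun m => ?_
  unfold bcode
  rcases Equiv.natSumNatEquivNat.symm n with a | a <;>
    rcases Equiv.natSumNatEquivNat.symm m with b | b
  · exact continuous_const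
  · exact (continuous_apply b).comp (continuous_apply a)
  · exact continuous_const
  · exact continuous_const

/-- The element of the split with a given number. -/
def bel (R : Code) : ℕ ⊕ ℕ → Spl (OfCode R)
  | Sum.inl a => ⟨a, false⟩
  | Sum.inr a => ⟨a, true⟩

/-- The inverse. -/
def leb {R : Code} (x : Spl (OfCode R)) : ℕ ⊕ ℕ :=
  match x with
  | ⟨a, false⟩ => Sum.inl a
  | ⟨a, true⟩ => Sum.inr a

theorem bel_le (R : Code) (n m : ℕ ⊕ ℕ) : bel R n ≤ bel R m ↔ brel R n m = true := by
  rcases n with a | a <;> rcases m with b | b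
  · change (⟨a, false⟩ : Spl (OfCode R)) ≤ ⟨b, false⟩ ↔ decide (a = b) = true
    rw [spl_le_lower _ _ rfl, decide_eq_true_iff, Spl.ext_iff]
    exact ⟨fun h => h.1, fun h => ⟨h, rfl⟩⟩
  · exact spl_ft _ _
  · change (⟨a, true⟩ : Spl (OfCode R)) ≤ ⟨b, false⟩ ↔ false = true
    rw [spl_le_lower _ _ rfl, Spl.ext_iff]
    simp
  · change (⟨a, true⟩ : Spl (OfCode R)) ≤ ⟨b, true⟩ ↔ decide (a = b) = true
    rw [spl_upper_le _ _ rfl, decide_eq_true_iff, Spl.ext_iff]
    exact ⟨fun h => h.1, fun h => ⟨h, rfl⟩⟩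

/-- The code codes the split. -/
def bcodeIso (R : Code) : OfCode (bcode R) ≃o Spl (OfCode R) where
  toFun n := bel R (Equiv.natSumNatEquivNat.symm n)
  invFun x := Equiv.natSumNatEquivNat (leb x)
  left_inv n := by
    have h : ∀ u : ℕ ⊕ ℕ, leb (bel R u) = u := by
      intro u
      rcases u with a | a <;> rfl
    exact (congrArg Equiv.natSumNatEquivNat (h _)).trans
      (Equiv.natSumNatEquivNat.apply_symm_apply (n : ℕ))
  right_inv x := by
    have h : ∀ u : Spl (OfCode R), bel R (leb u) = u := by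
      intro u
      obtain ⟨a, b⟩ := u
      cases b <;> rfl
    change bel R (Equiv.natSumNatEquivNat.symm (Equiv.natSumNatEquivNat (leb x))) = x
    rw [Equiv.symm_apply_apply, h]
  map_rel_iff' := by
    intro a b
    exact bel_le R _ _

/-- The code of the split of the poset of a colouring. -/
noncomputable def fcode (c : List ℕ → ℕ) : Code := bcode (gcode c)

/-- The code codes the split of the poset of the colouring. -/
noncomputable def fIso (c : List ℕ → ℕ) : OfCode (fcode c) ≃o Spl (GE c) :=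
  (bcodeIso (gcode c)).trans (splIso (gcodeIso c))

/-- The numbers of the lower copies of the base points. -/
def iota (x : ℕ) : ℕ := 2 * (2 * x)

theorem iota_injective : Function.Injective iota := by
  intro x y h
  unfold iota at h
  omega

open GE

theorem fIso_iota (c : List ℕ → ℕ) (x : ℕ) : fIso c (iota x) = ⟨base x, false⟩ := by
  have h1 : bcodeIso (gcode c) (iota x) = ⟨(2 * x : ℕ), false⟩ := by
    change bel (gcode c) (Equiv.natSumNatEquivNat.symm (2 * (2 * x))) = _
    have h2 : (2 * (2 * x) : ℕ) = Equiv.natSumNatEquivNat (Sum.inl (2 * x)) := by simp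
    rw [h2, Equiv.symm_apply_apply]
    rfl
  have h3 : gcodeIso c (2 * x : ℕ) = base x := by
    have h4 : (2 * x : ℕ) = Equiv.natSumNatEquivNat (Sum.inl x) := by simp
    rw [h4]
    exact gcodeIso_base c x
  change splIso (gcodeIso c) (bcodeIso (gcode c) (iota x)) = _
  rw [h1]
  exact Spl.ext h3 rfl

theorem isPO_fcode (c : List ℕ → ℕ) : IsPO (fcode c) := by
  refine ⟨fun a => ?_, fun a b h1 h2 => ?_, fun a b d h1 h2 => ?_⟩
  · rw [← (fIso c).le_iff_le]
    exact spl_refl _
  · apply (fIso c).injective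
    exact spl_antisymm _ _ ((fIso c).le_iff_le.mpr h1) ((fIso c).le_iff_le.mpr h2)
  · rw [← (fIso c).le_iff_le] at h1 h2 ⊢
    exact spl_trans _ _ _ h1 h2

theorem height_fcode (c : List ℕ → ℕ) (a b d : OfCode (fcode c)) (h1 : a ≤ b) (h2 : b ≤ d) :
    a = b ∨ b = d := by
  rcases spl_height _ _ _ ((fIso c).le_iff_le.mpr h1) ((fIso c).le_iff_le.mpr h2) with h | h
  · exact Or.inl ((fIso c).injective h)
  · exact Or.inr ((fIso c).injective h)

variable {c c' : List ℕ → ℕ}

/-- Isomorphisms come from permutations carrying one colouring to the other. -/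
theorem f_iso (f : OfCode (fcode c) ≃o OfCode (fcode c')) : ∃ (g : Equiv.Perm ℕ)
    (h : Pres2 c c' g), f = (fIso c).trans ((splIso (gIso2 g h)).trans (fIso c').symm) := by
  obtain ⟨f1, hf1⟩ := spl_iso ((fIso c).symm.trans (f.trans (fIso c')))
  obtain ⟨g, hg⟩ := g_base2 f1
  refine ⟨g, g_pres2 f1 g hg, ?_⟩
  rw [← g_eq2 f1 g hg, ← hf1]
  refine DFunLike.ext _ _ fun a => ?_
  simp only [OrderIso.trans_apply, OrderIso.symm_apply_apply]

theorem f_iota (g : Equiv.Perm ℕ) (h : Pres2 c c' g) (x : ℕ) :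
    ((fIso c).trans ((splIso (gIso2 g h)).trans (fIso c').symm)) (iota x) = iota (g x) := by
  apply (fIso c').injective
  rw [fIso_iota]
  change fIso c' ((fIso c').symm (splIso (gIso2 g h) (fIso c (iota x)))) = _
  rw [OrderIso.apply_symm_apply, fIso_iota]
  rfl

theorem f_agree (c : List ℕ → ℕ) (p : OfCode (fcode c)) : ∃ F : Finset ℕ,
    ∀ (c' : List ℕ → ℕ) (f f' : OfCode (fcode c) ≃o OfCode (fcode c')),
      (∀ x ∈ F, f (iota x) = f' (iota x)) → f p = f' p := by
  refine ⟨(crd (fIso c p).pt).toFinset, fun c' f f' hff => ?_⟩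
  obtain ⟨g, h, rfl⟩ := f_iso f
  obtain ⟨g', h', rfl⟩ := f_iso f'
  simp only [OrderIso.trans_apply]
  apply congrArg
  have h1 : gIso2 g h (fIso c p).pt = gIso2 g' h' (fIso c p).pt := by
    apply g_agree
    intro x hx
    have h2 := hff x (by simpa using hx)
    rw [f_iota, f_iota] at h2
    rw [gIso2_base, gIso2_base, iota_injective h2]
  exact Spl.ext h1 rfl

theorem elemHomog_fcode (h : ElemHomog (GE c)) : ElemHomog (OfCode (fcode c)) :=
  ElemHomog.of_iso (fIso c).symm (spl_elemHomog h)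

/-- The universality part. -/
theorem universal (I : Type) [Countable I] (ar : I → ℕ) :
    ∃ (Φ : Str ar → Code) (ι : ℕ → ℕ), Continuous Φ ∧ Function.Injective ι ∧
      (∀ M, IsPO (Φ M)) ∧
      (∀ M, ∀ a b d : OfCode (Φ M), a ≤ b → b ≤ d → a = b ∨ b = d) ∧
      (∀ M, UH M → ElemHomog (OfCode (Φ M))) ∧
      (∀ (M N : Str ar) (g : Equiv.Perm ℕ), IsIso M N g ↔
        ∃ f : OfCode (Φ M) ≃o OfCode (Φ N), ∀ x, f (ι x) = ι (g x)) ∧
      (∀ (M N : Str ar) (f : OfCode (Φ M) ≃o OfCode (Φ N)),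
        ∃ g : Equiv.Perm ℕ, ∀ x, f (ι x) = ι (g x)) ∧
      (∀ (M : Str ar) (p : OfCode (Φ M)), ∃ F : Finset ℕ,
        ∀ (N : Str ar) (f f' : OfCode (Φ M) ≃o OfCode (Φ N)),
          (∀ x ∈ F, f (ι x) = f' (ι x)) → f p = f' p) := by
  obtain ⟨e, c, hc1, hc2⟩ := exists_colr ar
  refine ⟨fun M => fcode (c M), iota, ?_, iota_injective, fun M => isPO_fcode _,
    fun M => height_fcode _, fun M hM => ?_, fun M N g => ?_, fun M N f => ?_, fun M p => ?_⟩
  · exact continuous_bcode.comp (continuous_gcode c hc1)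
  · exact elemHomog_fcode (elemHomog_of_UH M e (fun s t h => (hc2 M M s t).mp h)
      (fun g hg => pres_of_isIso M M e (fun s t => hc2 M M s t) g hg) hM)
  · constructor
    · intro hg
      exact ⟨_, f_iota g (pres_of_isIso M N e (fun s t => hc2 M N s t) g hg)⟩
    · rintro ⟨f, hf⟩
      obtain ⟨g', h', rfl⟩ := f_iso f
      have h1 : g = g' := by
        ext x
        have h2 := hf x
        rw [f_iota] at h2
        exact (iota_injective h2).symm
      rw [h1]
      exact isIso_of_pres M N e (fun s t => hc2 M N s t) g' h'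
  · obtain ⟨g, h, rfl⟩ := f_iso f
    exact ⟨g, f_iota g h⟩
  · obtain ⟨F, hF⟩ := f_agree (c M) p
    exact ⟨F, fun N f f' => hF (c N) f f'⟩

end Pool.Agent.Work.MP_f1d084_lc
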