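import Mathlib
import Pool.Agent.Work.MP_f1d084_lc.Uni1
import Pool.Agent.Work.MP_f1d084_lc.Lim

set_option autoImplicit false

namespace Pool.Agent.Work.MP_f1d084_lc

/-- Back and forth between two countable sets; every finite set of points is in a good list. -/
theorem bf_finite {P Q : Type} [Countable P] [Countable Q] [Nonempty P] [Nonempty Q]
    (E : List (P × Q) → Prop)
    (hforth : ∀ l, E l → ∀ p, ∃ q, E ((p, q) :: l))
    (hback : ∀ l, E l → ∀ q, ∃ p, E ((p, q) :: l))
    (heq : ∀ l, E l → ∀ x ∈ l, ∀ y ∈ l, (x.1 = y.1 ↔ x.2 = y.2))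
    (l0 : List (P × Q)) (h0 : E l0) : ∃ f : P ≃ Q, (∀ x ∈ l0, f x.1 = x.2) ∧
      ∀ (n : ℕ) (x : Fin n → P), ∃ l, E l ∧ ∀ i, (x i, f (x i)) ∈ l := by
  classical
  obtain ⟨eP, heP⟩ := exists_surjective_nat P
  obtain ⟨eQ, heQ⟩ := exists_surjective_nat Q
  choose F hF using hforth
  choose B hB using hback
  let step : ℕ → {l // E l} → {l // E l} := fun k l =>
    let l1 : {l // E l} := ⟨(eP k, F l.1 l.2 (eP k)) :: l.1, hF l.1 l.2 (eP k)⟩
    ⟨(B l1.1 l1.2 (eQ k), eQ k) :: l1.1, hB l1.1 l1.2 (eQ k)⟩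
  let s : ℕ → {l // E l} := fun n => Nat.rec ⟨l0, h0⟩ (fun k l => step k l) n
  have hs : ∀ k, s (k + 1) = step k (s k) := fun k => rfl
  have hsub : ∀ k, (s k).1 ⊆ (s (k + 1)).1 := by
    intro k x hx
    rw [hs]
    exact List.mem_cons_of_mem _ (List.mem_cons_of_mem _ hx)
  have hmono : ∀ k m, k ≤ m → (s k).1 ⊆ (s m).1 := by
    intro k m hkm
    induction hkm with
    | refl => exact fun _ h => h
    | step _ ih => exact fun x hx => hsub _ (ih hx)
  have hP : ∀ p, ∃ q k, (p, q) ∈ (s k).1 := by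
    intro p
    obtain ⟨k, rfl⟩ := heP p
    refine ⟨F (s k).1 (s k).2 (eP k), k + 1, ?_⟩
    rw [hs]
    exact List.mem_cons_of_mem _ List.mem_cons_self
  have hQ : ∀ q, ∃ p k, (p, q) ∈ (s k).1 := by
    intro q
    obtain ⟨k, rfl⟩ := heQ q
    refine ⟨B ((eP k, F (s k).1 (s k).2 (eP k)) :: (s k).1) (hF (s k).1 (s k).2 (eP k)) (eQ k),
      k + 1, ?_⟩
    rw [hs]
    exact List.mem_cons_self
  choose f kf hf using hP
  choose g kg hg using hQ
  have hcomp : ∀ {p q p' q' k k'}, (p, q) ∈ (s k).1 → (p', q') ∈ (s k').1 →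
      (p = p' ↔ q = q') := by
    intro p q p' q' k k' h h'
    have h1 := hmono k (max k k') (le_max_left _ _) h
    have h2 := hmono k' (max k k') (le_max_right _ _) h'
    exact heq _ (s (max k k')).2 _ h1 _ h2
  refine ⟨{ toFun := f, invFun := g, left_inv := ?_, right_inv := ?_}, ?_, ?_⟩
  · intro p
    exact (hcomp (hg (f p)) (hf p)).mpr rfl
  · intro q
    exact (hcomp (hf (g q)) (hg q)).mp rfl
  · intro x hx
    have h1 : (x.1, x.2) ∈ (s 0).1 := hx
    exact (hcomp (k' := 0) (hf x.1) h1).mp rfl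
  · intro n x
    refine ⟨_, (s (Finset.univ.sup fun i => kf (x i))).2, fun i => ?_⟩
    exact hmono _ _ (Finset.le_sup (f := fun i => kf (x i)) (Finset.mem_univ i)) (hf (x i))

section

variable {I : Type} {ar : I → ℕ}

/-- The maps `j ↦ a j` and `j ↦ b j` define the same structure on `Fin n`. -/
def SamePat (M N : Str ar) {n : ℕ} (a b : Fin n → ℕ) : Prop :=
  (∀ j k, a j = a k ↔ b j = b k) ∧
    ∀ (i : I) (h : Fin (ar i) → Fin n), M i (fun j => a (h j)) = N i (fun j => b (h j))

theorem SamePat.symm {M N : Str ar} {n : ℕ} {a b : Fin n → ℕ} (h : SamePat M N a b) :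
    SamePat N M b a := ⟨fun j k => (h.1 j k).symm, fun i x => (h.2 i x).symm⟩

theorem SamePat.trans {M N L : Str ar} {n : ℕ} {a b c : Fin n → ℕ} (h : SamePat M N a b)
    (h' : SamePat N L b c) : SamePat M L a c :=
  ⟨fun j k => (h.1 j k).trans (h'.1 j k), fun i x => (h.2 i x).trans (h'.2 i x)⟩

theorem SamePat.relabel {M N : Str ar} {m n : ℕ} {a b : Fin n → ℕ} (h : SamePat M N a b)
    (f : Fin m → Fin n) : SamePat M N (fun i => a (f i)) (fun i => b (f i)) :=
  ⟨fun j k => h.1 (f j) (f k), fun i x => h.2 i (fun j => f (x j))⟩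

theorem SamePat.of_iso {M N : Str ar} {n : ℕ} {g : Equiv.Perm ℕ} (hg : IsIso M N g)
    (a : Fin n → ℕ) : SamePat M N a (fun i => g (a i)) :=
  ⟨fun _ _ => (g.injective.eq_iff).symm, fun i x => (hg i (fun j => a (x j))).symm⟩

/-- One-point extensions of pairs of tuples with the same pattern. -/
def PatExt (M N : Str ar) : Prop :=
  ∀ (n : ℕ) (a b : Fin n → ℕ), SamePat M N a b → ∀ c, ∃ d, SamePat M N (snc a c) (snc b d)

theorem samePat_cons {M N : Str ar} {n : ℕ} {a b : Fin n → ℕ} {c d : ℕ}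
    (h : SamePat M N (snc a c) (snc b d)) :
    SamePat M N (Fin.cons c a : Fin (n + 1) → ℕ) (Fin.cons d b : Fin (n + 1) → ℕ) := by
  have h1 := h.relabel (Fin.cons (Fin.last n) (fun i => i.castSucc) : Fin (n + 1) → Fin (n + 1))
  have h2 : ∀ (a : Fin n → ℕ) (c : ℕ),
      (fun i => snc a c ((Fin.cons (Fin.last n) (fun i => i.castSucc) :
        Fin (n + 1) → Fin (n + 1)) i)) = (Fin.cons c a : Fin (n + 1) → ℕ) := by
    intro a c
    funext i
    refine Fin.cases ?_ (fun i => ?_) i
    · simp [snc_last]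
    · simp [snc_castSucc]
  rw [h2, h2] at h1
  exact h1

/-- Back and forth for structures. -/
theorem iso_of_patExt {M N : Str ar} (h1 : PatExt M N) (h2 : PatExt N M) {n : ℕ}
    (a b : Fin n → ℕ) (h : SamePat M N a b) :
    ∃ g : Equiv.Perm ℕ, IsIso M N g ∧ ∀ j, g (a j) = b j := by
  let E : List (ℕ × ℕ) → Prop := fun l =>
    SamePat M N (fun i : Fin l.length => (l.get i).1) (fun i : Fin l.length => (l.get i).2)
  have hcg : ∀ (l : List (ℕ × ℕ)) (p q : ℕ),
      (fun i : Fin ((p, q) :: l).length => (((p, q) :: l).get i).1) =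
        (Fin.cons p (fun i : Fin l.length => (l.get i).1) : Fin (l.length + 1) → ℕ) ∧
      (fun i : Fin ((p, q) :: l).length => (((p, q) :: l).get i).2) =
        (Fin.cons q (fun i : Fin l.length => (l.get i).2) : Fin (l.length + 1) → ℕ) := by
    intro l p q
    constructor <;>
    · funext i
      refine Fin.cases ?_ (fun i => ?_) i
      · rfl
      · rfl
  set l0 : List (ℕ × ℕ) := List.ofFn (fun i => (a i, b i)) with hl0
  have hlen : l0.length = n := by simp [hl0]
  have hget : ∀ i : Fin l0.length, l0.get i = (a (i.cast hlen), b (i.cast hlen)) := by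
    intro i
    rw [List.get_eq_getElem, ← List.getElem_ofFn (f := fun i => (a i, b i))]
    rfl
  have hE0 : E l0 := by
    have h3 := h.relabel (fun i : Fin l0.length => i.cast hlen)
    have h4 : (fun i : Fin l0.length => (l0.get i).1) = fun i => a (i.cast hlen) := by
      funext i
      rw [hget]
    have h5 : (fun i : Fin l0.length => (l0.get i).2) = fun i => b (i.cast hlen) := by
      funext i
      rw [hget]
    show SamePat M N _ _
    rw [h4, h5]
    exact h3
  obtain ⟨g, hg1, hg2⟩ := bf_finite (P := ℕ) (Q := ℕ) E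
    (by
      intro l hl p
      obtain ⟨q, hq⟩ := h1 _ _ _ hl p
      refine ⟨q, ?_⟩
      show SamePat M N _ _
      rw [(hcg l p q).1, (hcg l p q).2]
      exact samePat_cons hq)
    (by
      intro l hl q
      obtain ⟨p, hp⟩ := h2 _ _ _ hl.symm q
      refine ⟨p, ?_⟩
      show SamePat M N _ _
      rw [(hcg l p q).1, (hcg l p q).2]
      exact (samePat_cons hp).symm)
    (by
      intro l hl x hx y hy
      obtain ⟨i, rfl⟩ := List.get_of_mem hx
      obtain ⟨j, rfl⟩ := List.get_of_mem hy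
      exact hl.1 i j) l0 hE0
  refine ⟨g, ?_, ?_⟩
  · intro i x
    obtain ⟨l, hl, hx⟩ := hg2 (ar i) x
    choose pos hpos using fun j => List.get_of_mem (hx j)
    have h3 := hl.2 i pos
    have h4 : (fun j => (l.get (pos j)).1) = x := by
      funext j
      rw [hpos]
    have h5 : (fun j => (l.get (pos j)).2) = fun j => g (x j) := by
      funext j
      rw [hpos]
    rw [h4, h5] at h3
    exact h3.symm
  · intro j
    refine hg1 (a j, b j) ?_
    rw [hl0, List.mem_ofFn]
    exact ⟨j, rfl⟩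

theorem uh_iff_patExt {M : Str ar} : UH M ↔ PatExt M M := by
  constructor
  · intro h n a b hab c
    obtain ⟨g, hg1, hg2⟩ := h n a b hab.1 hab.2
    refine ⟨g c, ?_⟩
    have h1 := SamePat.of_iso hg1 (snc a c)
    have h2 : (fun i => g (snc a c i)) = snc b (g c) := by
      rw [map_snc]
      congr 1
      funext i
      exact hg2 i
    rw [h2] at h1
    exact h1
  · intro h n a b h1 h2
    exact iso_of_patExt h h a b ⟨h1, h2⟩

end

end Pool.Agent.Work.MP_f1d084_lc
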