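import Mathlib
import Pool.Agent.Work.MP_f1d084_lc.FrBF

set_option autoImplicit false

namespace Pool.Agent.Work.MP_f1d084_lc

/-- The structures on `Fin n` in the relational language with symbols indexed by `I` and arities
`ar`. -/
abbrev StrF {I : Type} (ar : I → ℕ) (n : ℕ) : Type := (i : I) → (Fin (ar i) → Fin n) → Bool

section

variable {I : Type} {ar : I → ℕ}

/-- The structure on `Fin m` induced by `f` from the structure `A` on `Fin n`. -/
def pull {m n : ℕ} (f : Fin m → Fin n) (A : StrF ar n) : StrF ar m := fun i x => A i fun j => f (x j)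

/-- The structure on `Fin m` induced by `a` from the structure `M` on `ℕ`. -/
def pullN {m : ℕ} (a : Fin m → ℕ) (M : Str ar) : StrF ar m := fun i x => M i fun j => a (x j)

/-- `K` is a Fraïssé class of finite structures with members of every size; `K n` is the set of
the members of `K` on `Fin n`. It contains countably many structures of each size, and exactly one
on the empty set; it is closed under substructures, and any two embeddings `f : A₀ → A`,
`g : A₀ → B` in `K` can be completed to a commutative square of embeddings in `K`. -/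
structure IsFr (K : ∀ n, Set (StrF ar n)) : Prop where
  cnt : ∀ n, (K n).Countable
  zero : (K 0).Subsingleton
  ne : ∀ n, (K n).Nonempty
  her : ∀ (m n : ℕ) (f : Fin m → Fin n), Function.Injective f → ∀ A ∈ K n, pull f A ∈ K m
  amal : ∀ (l m n : ℕ) (f : Fin l → Fin m) (g : Fin l → Fin n), Function.Injective f →
    Function.Injective g → ∀ A ∈ K m, ∀ B ∈ K n, pull f A = pull g B →
      ∃ (p : ℕ) (f' : Fin m → Fin p) (g' : Fin n → Fin p) (C : StrF ar p), C ∈ K p ∧
        Function.Injective f' ∧ Function.Injective g' ∧ (∀ i, f' (f i) = g' (g i)) ∧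
        pull f' C = A ∧ pull g' C = B

/-- The finite structures on `Fin n` which embed in `M`. -/
def age (M : Str ar) (n : ℕ) : Set (StrF ar n) :=
  {A | ∃ a : Fin n → ℕ, Function.Injective a ∧ pullN a M = A}

/-- Factorization of a map on `Fin k`. -/
theorem exists_factor {α : Type} {k : ℕ} (φ : Fin k → α) :
    ∃ (r : ℕ) (s : Fin k → Fin r) (t : Fin r → Fin k), (∀ j, s (t j) = j) ∧
      ∀ i i', s i = s i' ↔ φ i = φ i' := by
  classical
  have hf : Finite (Set.range φ) := inferInstance
  obtain ⟨r, ⟨e⟩⟩ := Finite.exists_equiv_fin (Set.range φ)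
  have hch : ∀ j : Fin r, ∃ i : Fin k, φ i = (e.symm j).1 := fun j => (e.symm j).2
  choose t ht using hch
  refine ⟨r, fun i => e ⟨φ i, Set.mem_range_self i⟩, t, ?_, ?_⟩
  · intro j
    have h : e ⟨φ (t j), Set.mem_range_self (t j)⟩ = e (e.symm j) :=
      congrArg e (Subtype.ext (ht j))
    exact h.trans (e.apply_symm_apply j)
  · intro i i'
    constructor
    · intro h
      exact congrArg Subtype.val (e.injective h)
    · intro h
      exact congrArg e (Subtype.ext h)

/-- The patterns of tuples: the equality pattern and the induced structure. -/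
abbrev Pt (ar : I → ℕ) (n : ℕ) : Type := (Fin n → Fin n → Prop) × StrF ar n

/-- Patterns of the tuples in members of `K`. -/
def patK (K : ∀ n, Set (StrF ar n)) (n : ℕ) : Set (Pt ar n) :=
  {x | ∃ (m : ℕ) (f : Fin n → Fin m) (B : StrF ar m), B ∈ K m ∧
    x = (fun i j => f i = f j, pull f B)}

theorem patK_countable {K : ∀ n, Set (StrF ar n)} (hK : ∀ n, (K n).Countable) (n : ℕ) :
    (patK K n).Countable := by
  have : patK K n = ⋃ m : ℕ, ⋃ f : Fin n → Fin m,
      (fun B : StrF ar m => ((fun i j => f i = f j, pull f B) : Pt ar n)) '' K m := by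
    ext x
    simp only [patK, Set.mem_ofPred_eq, Set.mem_iUnion, Set.mem_image]
    constructor
    · rintro ⟨m, f, B, hB, rfl⟩
      exact ⟨m, f, B, hB, rfl⟩
    · rintro ⟨m, f, B, hB, rfl⟩
      exact ⟨m, f, B, hB, rfl⟩
  rw [this]
  exact Set.countable_iUnion fun m => Set.countable_iUnion fun f => (hK m).image _

/-- Pullback of patterns. -/
def actP (m n : ℕ) (f : Fin m → Fin n) (x : Pt ar n) : Pt ar m :=
  (fun i j => x.1 (f i) (f j), pull f x.2)

theorem patK_amal {K : ∀ n, Set (StrF ar n)} (hK : IsFr K) (m n : ℕ) (g : Fin m → Fin n)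
    (p : Pt ar n) (hp : p ∈ patK K n) (q : Pt ar (m + 1)) (hq : q ∈ patK K (m + 1))
    (h : actP m (m + 1) Fin.castSucc q = actP m n g p) :
    ∃ p' ∈ patK K (n + 1), actP n (n + 1) Fin.castSucc p' = p ∧
      actP (m + 1) (n + 1) (ext g) p' = q := by
  obtain ⟨m1, f, B, hB, rfl⟩ := hp
  obtain ⟨l, k, C, hC, rfl⟩ := hq
  have hker : ∀ i j : Fin m, k i.castSucc = k j.castSucc ↔ f (g i) = f (g j) := by
    intro i j
    have := congrFun (congrFun (congrArg Prod.fst h) i) j
    exact Iff.of_eq this
  have hstr : pull (fun i : Fin m => k i.castSucc) C = pull (fun i => f (g i)) B :=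
    congrArg Prod.snd h
  obtain ⟨r, s, t, hst, hs⟩ := exists_factor fun i => f (g i)
  have hi1 : Function.Injective fun j => f (g (t j)) := by
    intro j j' hjj
    have := (hs (t j) (t j')).mpr hjj
    rwa [hst, hst] at this
  have hi2 : Function.Injective fun j => k (t j).castSucc := by
    intro j j' hjj
    exact hi1 ((hker _ _).mp hjj)
  obtain ⟨p, f', g', D, hD, hf', hg', hcomm, hDB, hDC⟩ := hK.amal r m1 l (fun j => f (g (t j)))
    (fun j => k (t j).castSucc) hi1 hi2 B hB C hC (by
      have := congrArg (pull t) hstr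
      exact this.symm)
  have hcomm' : ∀ i, f' (f (g i)) = g' (k i.castSucc) := by
    intro i
    have h1 : f (g (t (s i))) = f (g i) := (hs _ _).mp (hst _)
    have h2 : k (t (s i)).castSucc = k i.castSucc := (hker _ _).mpr h1
    rw [← h1, ← h2]
    exact hcomm (s i)
  refine ⟨(fun i j => snc (fun i => f' (f i)) (g' (k (Fin.last m))) i =
      snc (fun i => f' (f i)) (g' (k (Fin.last m))) j,
    pull (snc (fun i => f' (f i)) (g' (k (Fin.last m)))) D), ⟨p, _, D, hD, rfl⟩, ?_, ?_⟩
  · refine Prod.ext ?_ ?_
    · funext i j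
      show (snc (fun i => f' (f i)) (g' (k (Fin.last m))) i.castSucc =
        snc (fun i => f' (f i)) (g' (k (Fin.last m))) j.castSucc) = (f i = f j)
      rw [snc_castSucc, snc_castSucc, hf'.eq_iff]
    · have h1 : pull (fun i : Fin n => snc (fun i => f' (f i)) (g' (k (Fin.last m))) i.castSucc) D =
          pull f B := by
        rw [snc_comp_castSucc, ← hDB]
        rfl
      exact h1
  · have h2 : (fun i => snc (fun i => f' (f i)) (g' (k (Fin.last m))) (ext g i)) =
        fun i => g' (k i) := by
      rw [snc_ext]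
      have h3 : (fun i => f' (f (g i))) = fun i : Fin m => g' (k i.castSucc) := by
        funext i
        exact hcomm' i
      rw [h3]
      exact snc_init (fun i => g' (k i))
    refine Prod.ext ?_ ?_
    · funext i j
      have h4 := congrFun h2 i
      have h5 := congrFun h2 j
      show (snc (fun i => f' (f i)) (g' (k (Fin.last m))) (ext g i) =
        snc (fun i => f' (f i)) (g' (k (Fin.last m))) (ext g j)) = (k i = k j)
      rw [h4, h5, hg'.eq_iff]
    · have h6 : pull (fun i => snc (fun i => f' (f i)) (g' (k (Fin.last m))) (ext g i)) D =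
          pull k C := by
        rw [h2, ← hDC]
        rfl
      exact h6

/-- Fraïssé's theorem, existence of the limit on `ℕ`. -/
theorem exists_fraisse_limit {K : ∀ n, Set (StrF ar n)} (hK : IsFr K) :
    ∃ M : Str ar, UH M ∧ ∀ n, age M n = K n := by
  classical
  obtain ⟨τ, hτ1, hτ2, hτ3⟩ := exists_limit (X := Pt ar) actP (fun _ _ _ _ _ _ => rfl)
    (fun _ _ => rfl) (patK K) (patK_countable hK.cnt)
    (by
      rintro x ⟨m, f, B, hB, rfl⟩ y ⟨m', f', B', hB', rfl⟩
      refine Prod.ext ?_ ?_
      · funext i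
        exact i.elim0
      · exact hK.zero (hK.her _ _ _ (fun i => i.elim0) _ hB)
          (hK.her _ _ _ (fun i => i.elim0) _ hB'))
    (by
      obtain ⟨B, hB⟩ := hK.ne 1
      exact ⟨_, ⟨1, id, B, hB, rfl⟩⟩)
    (by
      rintro m n f x ⟨l, g, B, hB, rfl⟩
      exact ⟨l, fun i => g (f i), B, hB, rfl⟩)
    (patK_amal hK)
  -- the equivalence relation
  let R : ℕ → ℕ → Prop := fun x y => (τ 2 ![x, y]).1 0 1
  have hR : ∀ (n : ℕ) (a : Fin n → ℕ) (i j : Fin n), (τ n a).1 i j ↔ R (a i) (a j) := by
    intro n a i j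
    have h1 := hτ2 2 n ![i, j] a
    have h2 : (fun k => a (![i, j] k)) = ![a i, a j] := by
      funext k
      refine Fin.cases rfl (fun k => ?_) k
      refine Fin.cases rfl (fun k => k.elim0) k
    rw [h2] at h1
    show _ ↔ (τ 2 ![a i, a j]).1 0 1
    rw [← h1]
    exact Iff.rfl
  have hrefl : ∀ x, R x x := by
    intro x
    obtain ⟨m, f, B, hB, h⟩ := hτ1 1 ![x]
    have h1 := hR 1 ![x] 0 0
    rw [h] at h1
    exact h1.mp rfl
  have hsymm : ∀ x y, R x y → R y x := by
    intro x y hxy
    obtain ⟨m, f, B, hB, h⟩ := hτ1 2 ![x, y]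
    have h1 := hR 2 ![x, y] 0 1
    have h2 := hR 2 ![x, y] 1 0
    rw [h] at h1 h2
    exact h2.mp (h1.mpr hxy : f 0 = f 1).symm
  have htrans : ∀ x y z, R x y → R y z → R x z := by
    intro x y z hxy hyz
    obtain ⟨m, f, B, hB, h⟩ := hτ1 3 ![x, y, z]
    have h1 := hR 3 ![x, y, z] 0 1
    have h2 := hR 3 ![x, y, z] 1 2
    have h3 := hR 3 ![x, y, z] 0 2
    rw [h] at h1 h2 h3
    exact h3.mp ((h1.mpr hxy : f 0 = f 1).trans (h2.mpr hyz : f 1 = f 2))
  have hinv : ∀ (n : ℕ) (a b : Fin n → ℕ), (∀ i, R (a i) (b i)) → τ n a = τ n b := by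
    intro n a b hab
    obtain ⟨m, f, B, hB, h⟩ := hτ1 (n + n) (Fin.append a b)
    have h1 := hτ2 n (n + n) (Fin.castAdd n) (Fin.append a b)
    have h2 := hτ2 n (n + n) (Fin.natAdd n) (Fin.append a b)
    have h3 : (fun i => Fin.append a b (Fin.castAdd n i)) = a := by
      funext i
      exact Fin.append_left a b i
    have h4 : (fun i => Fin.append a b (Fin.natAdd n i)) = b := by
      funext i
      exact Fin.append_right a b i
    rw [h3] at h1
    rw [h4] at h2
    have h5 : ∀ i, f (Fin.castAdd n i) = f (Fin.natAdd n i) := by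
      intro i
      have h6 := hR (n + n) (Fin.append a b) (Fin.castAdd n i) (Fin.natAdd n i)
      rw [h] at h6
      have h7 : R (Fin.append a b (Fin.castAdd n i)) (Fin.append a b (Fin.natAdd n i)) := by
        rw [Fin.append_left, Fin.append_right]
        exact hab i
      exact h6.mpr h7
    have h8 : (fun i => f (Fin.castAdd n i)) = fun i => f (Fin.natAdd n i) := funext h5
    rw [← h1, ← h2, h]
    show ((fun i j => f (Fin.castAdd n i) = f (Fin.castAdd n j)),
      pull (fun i => f (Fin.castAdd n i)) B) = ((fun i j => f (Fin.natAdd n i) = f (Fin.natAdd n j)),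
      pull (fun i => f (Fin.natAdd n i)) B)
    rw [h8]
    simp only [h5]
  -- realization of all patterns
  have hreal : ∀ (n : ℕ) (p : Pt ar n), p ∈ patK K n → ∃ a : Fin n → ℕ, τ n a = p := by
    intro n
    induction n with
    | zero =>
      intro p hp
      refine ⟨Fin.elim0, ?_⟩
      obtain ⟨m, f, B, hB, h⟩ := hτ1 0 Fin.elim0
      obtain ⟨m', f', B', hB', rfl⟩ := hp
      rw [h]
      refine Prod.ext ?_ ?_
      · funext i
        exact i.elim0
      · exact hK.zero (hK.her _ _ _ (fun i => i.elim0) _ hB)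
          (hK.her _ _ _ (fun i => i.elim0) _ hB')
    | succ n ih =>
      intro p hp
      obtain ⟨m, f, B, hB, rfl⟩ := hp
      obtain ⟨a, ha⟩ := ih (fun i j => f i.castSucc = f j.castSucc, pull (fun i => f i.castSucc) B)
        ⟨m, _, B, hB, rfl⟩
      obtain ⟨x, hx⟩ := hτ3 n a (fun i j => f i = f j, pull f B) ⟨m, f, B, hB, rfl⟩ ha.symm
      exact ⟨_, hx⟩
  let st : Setoid ℕ := ⟨R, hrefl, fun {x y} => hsymm x y, fun {x y z} => htrans x y z⟩
  have hinf : Infinite (Quotient st) := by
    by_contra hfin
    rw [not_infinite_iff_finite] at hfin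
    obtain ⟨B, hB⟩ := hK.ne (Nat.card (Quotient st) + 1)
    obtain ⟨a, ha⟩ := hreal _ (fun i j => id i = id j, pull id B) ⟨_, id, B, hB, rfl⟩
    have hinj : Function.Injective fun i => (Quotient.mk st (a i)) := by
      intro i j hij
      have h1 : R (a i) (a j) := Quotient.exact hij
      have h2 := (hR _ a i j).mpr h1
      rw [ha] at h2
      exact h2
    have := Nat.card_le_card_of_injective _ hinj
    rw [Nat.card_fin] at this
    omega
  obtain ⟨hden⟩ : Nonempty (Denumerable (Quotient st)) := nonempty_denumerable _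
  let e : ℕ ≃ Quotient st := (Denumerable.eqv (Quotient st)).symm
  let u : ℕ → ℕ := fun k => (e k).out
  have hu1 : ∀ k l, R (u k) (u l) ↔ k = l := by
    intro k l
    constructor
    · intro h
      have h1 : Quotient.mk st (e k).out = Quotient.mk st (e l).out := Quotient.sound h
      rw [Quotient.out_eq, Quotient.out_eq] at h1
      exact e.injective h1
    · rintro rfl
      exact hrefl _
  have hu2 : ∀ x, ∃ k, R (u k) x := by
    intro x
    refine ⟨e.symm (Quotient.mk st x), ?_⟩
    have h1 : Quotient.mk st (e (e.symm (Quotient.mk st x))).out = Quotient.mk st x := by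
      rw [Quotient.out_eq, Equiv.apply_symm_apply]
    exact Quotient.exact h1
  let M : Str ar := fun i x => (τ (ar i) (fun j => u (x j))).2 i id
  have hM : ∀ (n : ℕ) (a : Fin n → ℕ) (i : I) (h : Fin (ar i) → Fin n),
      M i (fun j => a (h j)) = (τ n (fun j => u (a j))).2 i h := by
    intro n a i h
    have h1 := hτ2 (ar i) n h (fun j => u (a j))
    show (τ (ar i) (fun j => u (a (h j)))).2 i id = _
    rw [← h1]
    rfl
  have hE : ∀ (n : ℕ) (a : Fin n → ℕ) (i j : Fin n),
      (τ n (fun j => u (a j))).1 i j ↔ a i = a j := by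
    intro n a i j
    rw [hR, hu1]
  have hpat : ∀ (n : ℕ) (a b : Fin n → ℕ), SamePat M M a b ↔
      τ n (fun j => u (a j)) = τ n (fun j => u (b j)) := by
    intro n a b
    constructor
    · rintro ⟨h1, h2⟩
      refine Prod.ext ?_ ?_
      · funext i j
        have := ((hE n a i j).trans (h1 i j)).trans (hE n b i j).symm
        exact propext this
      · funext i h
        rw [← hM, ← hM]
        exact h2 i h
    · intro h
      refine ⟨fun i j => ?_, fun i k => ?_⟩
      · rw [← hE n a i j, ← hE n b i j, h]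
      · rw [hM, hM, h]
  refine ⟨M, ?_, ?_⟩
  · rw [uh_iff_patExt]
    intro n a b hab c
    have h1 := (hpat n a b).mp hab
    have hq := hτ1 (n + 1) (snc (fun j => u (a j)) (u c))
    obtain ⟨x, hx⟩ := hτ3 n (fun j => u (b j)) _ hq (by
      rw [hτ2, snc_comp_castSucc]
      exact h1)
    obtain ⟨d, hd⟩ := hu2 x
    refine ⟨d, (hpat _ _ _).mpr ?_⟩
    rw [map_snc, map_snc, ← hx]
    refine hinv _ _ _ fun i => ?_
    refine Fin.lastCases ?_ (fun i => ?_) i
    · rw [snc_last, snc_last]
      exact hsymm _ _ hd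
    · rw [snc_castSucc, snc_castSucc]
      exact hrefl _
  · intro n
    ext A
    constructor
    · rintro ⟨a, ha, rfl⟩
      obtain ⟨m, f, B, hB, h⟩ := hτ1 n (fun j => u (a j))
      have hf : Function.Injective f := by
        intro i j hij
        have h1 := hE n a i j
        rw [h] at h1
        exact ha (h1.mp hij)
      have h2 : pullN a M = pull f B := by
        funext i x
        have h3 := hM n a i x
        rw [h] at h3
        exact h3
      rw [h2]
      exact hK.her _ _ f hf B hB
    · intro hA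
      obtain ⟨x, hx⟩ := hreal n (fun i j => id i = id j, pull id A) ⟨n, id, A, hA, rfl⟩
      choose a ha using fun j => hu2 (x j)
      have h1 : τ n (fun j => u (a j)) = τ n x := hinv _ _ _ ha
      refine ⟨a, ?_, ?_⟩
      · intro i j hij
        have h2 := (hE n a i j).mpr hij
        rw [h1, hx] at h2
        exact h2
      · funext i k
        have h3 := hM n a i k
        rw [h1, hx] at h3
        exact h3

end

end Pool.Agent.Work.MP_f1d084_lc
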