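import Mathlib
import Pool.Agent.Work.MP_f1d084_lc.FrA

set_option autoImplicit false

namespace Pool.Agent.Work.MP_f1d084_lc

section

variable {I : Type} {ar : I → ℕ}

theorem age_of_iso {M N : Str ar} {g : Equiv.Perm ℕ} (h : IsIso M N g) (n : ℕ) :
    age M n = age N n := by
  have key : ∀ {M N : Str ar} {g : Equiv.Perm ℕ}, IsIso M N g → age M n ⊆ age N n := by
    rintro M N g h A ⟨a, ha, rfl⟩
    refine ⟨fun i => g (a i), g.injective.comp ha, ?_⟩
    funext i x
    exact h i _
  refine Set.Subset.antisymm (key h) (key (g := g.symm) ?_)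
  intro i x
  have h1 := h i (fun j => g.symm (x j))
  simp only [Equiv.apply_symm_apply] at h1
  exact h1.symm

/-- The age of an ultrahomogeneous structure is a Fraïssé class. -/
theorem age_isFr {M : Str ar} (hM : UH M) : IsFr (age M) := by
  classical
  refine ⟨?_, ?_, ?_, ?_, ?_⟩
  · intro n
    have : age M n = (fun a : Fin n → ℕ => pullN a M) '' {a | Function.Injective a} := rfl
    rw [this]
    exact (Set.to_countable _).image _
  · rintro A ⟨a, ha, rfl⟩ B ⟨b, hb, rfl⟩
    have : a = b := by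
      funext i
      exact i.elim0
    rw [this]
  · intro n
    exact ⟨_, fun i => i.1, Fin.val_injective, rfl⟩
  · rintro m n f hf A ⟨a, ha, rfl⟩
    exact ⟨fun i => a (f i), ha.comp hf, rfl⟩
  · rintro l m n f g hf hg A ⟨a, ha, rfl⟩ B ⟨b, hb, rfl⟩ hAB
    obtain ⟨σ, hσ, hσ2⟩ := hM l (fun i => b (g i)) (fun i => a (f i))
      (fun j k => by rw [hb.eq_iff, hg.eq_iff, ha.eq_iff, hf.eq_iff])
      (fun i h => (congrFun (congrFun hAB i) h).symm)
    have hfin : Finite (Set.range a ∪ Set.range (fun j => σ (b j)) : Set ℕ) :=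
      ((Set.finite_range a).union (Set.finite_range _)).to_subtype
    obtain ⟨p, ⟨e⟩⟩ := Finite.exists_equiv_fin
      (Set.range a ∪ Set.range (fun j => σ (b j)) : Set ℕ)
    have hval : ∀ (x : ℕ) (hx : x ∈ (Set.range a ∪ Set.range (fun j => σ (b j)) : Set ℕ)),
        (e.symm (e ⟨x, hx⟩)).1 = x := by
      intro x hx
      rw [Equiv.symm_apply_apply]
    refine ⟨p, fun i => e ⟨a i, Or.inl ⟨i, rfl⟩⟩, fun j => e ⟨σ (b j), Or.inr ⟨j, rfl⟩⟩,
      pullN (fun k => (e.symm k).1) M, ⟨_, ?_, rfl⟩, ?_, ?_, ?_, ?_, ?_⟩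
    · intro i j hij
      exact e.symm.injective (Subtype.ext hij)
    · intro i j hij
      exact ha (congrArg Subtype.val (e.injective hij))
    · intro i j hij
      exact hb (σ.injective (congrArg Subtype.val (e.injective hij)))
    · intro i
      exact congrArg e (Subtype.ext (hσ2 i).symm)
    · funext i x
      exact congrArg (M i) (funext fun j => hval (a (x j)) (Or.inl ⟨x j, rfl⟩))
    · funext i x
      refine Eq.trans ?_ (hσ i (fun j => b (x j)))
      exact congrArg (M i) (funext fun j => hval (σ (b (x j))) (Or.inr ⟨x j, rfl⟩))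

theorem patExt_of_age {M N : Str ar} (hN : UH N) (h : ∀ n, age M n = age N n) : PatExt M N := by
  intro n a b hab c
  obtain ⟨r, s, t, hst, hs⟩ := exists_factor (snc a c)
  have hinj : Function.Injective fun j => snc a c (t j) := by
    intro j j' hjj
    have := (hs (t j) (t j')).mpr hjj
    rwa [hst, hst] at this
  have h1 : pullN (fun j => snc a c (t j)) M ∈ age M r := ⟨_, hinj, rfl⟩
  rw [h] at h1
  obtain ⟨b', hb', hpb⟩ := h1
  have hts : ∀ i, snc a c (t (s i)) = snc a c i := fun i => (hs _ _).mp (hst _)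
  have h2 : SamePat M N (snc a c) (fun i => b' (s i)) := by
    refine ⟨fun j k => ?_, fun i x => ?_⟩
    · rw [hb'.eq_iff, hs]
    · have h3 := congrFun (congrFun hpb i) (fun j => s (x j))
      have h4 : N i (fun j => b' (s (x j))) = M i (fun j => snc a c (t (s (x j)))) := h3
      rw [h4]
      simp only [hts]
  have h5 := h2.relabel (Fin.castSucc : Fin n → Fin (n + 1))
  have h6 : (fun i : Fin n => snc a c i.castSucc) = a := snc_comp_castSucc a c
  rw [h6] at h5
  have h7 : SamePat N N (fun i : Fin n => b' (s i.castSucc)) b := h5.symm.trans hab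
  obtain ⟨σ, hσ, hσ2⟩ := hN n _ b h7.1 h7.2
  refine ⟨σ (b' (s (Fin.last n))), ?_⟩
  have h8 := h2.trans (SamePat.of_iso hσ (fun i => b' (s i)))
  have h9 : (fun i => σ (b' (s i))) = snc b (σ (b' (s (Fin.last n)))) := by
    rw [← snc_init (fun i => σ (b' (s i)))]
    have h10 : (fun i : Fin n => σ (b' (s i.castSucc))) = b := by
      funext i
      exact hσ2 i
    rw [h10]
  rw [h9] at h8
  exact h8

/-- Ultrahomogeneous structures with the same age are isomorphic. -/
theorem iso_of_age {M N : Str ar} (hM : UH M) (hN : UH N) (h : ∀ n, age M n = age N n) :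
    ∃ g : Equiv.Perm ℕ, IsIso M N g := by
  have h0 : SamePat M N (Fin.elim0 : Fin 0 → ℕ) (Fin.elim0 : Fin 0 → ℕ) := by
    refine ⟨fun j => j.elim0, fun i x => ?_⟩
    have h1 : pullN (Fin.elim0 : Fin 0 → ℕ) M ∈ age M 0 :=
      ⟨Fin.elim0, fun i => i.elim0, rfl⟩
    rw [h] at h1
    obtain ⟨b, hb, hpb⟩ := h1
    have h2 : b = Fin.elim0 := by
      funext i
      exact i.elim0
    rw [h2] at hpb
    exact (congrFun (congrFun hpb i) x).symm
  obtain ⟨g, hg, -⟩ := iso_of_patExt (patExt_of_age hN h)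
    (patExt_of_age hM fun n => (h n).symm) _ _ h0
  exact ⟨g, hg⟩

end

end Pool.Agent.Work.MP_f1d084_lc
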