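import Mathlib
import Pool.Agent.Work.MP_f1d084_lc.FrB

set_option autoImplicit false

namespace Pool.Agent.Work.MP_f1d084_lc

section

variable {I : Type} {ar : I → ℕ}

/-- The class of finite structures enumerated by `s`: the pair `(n, A)` codes the structure induced
by `A` on the numbers below `n`. -/
def KS (s : ℕ → ℕ × Str ar) (n : ℕ) : Set (StrF ar n) :=
  {A | ∃ k, (s k).1 = n ∧ pullN (fun i : Fin n => i.1) (s k).2 = A}

/-- `z` extends `y`. -/
def Ex (y z : ℕ × Str ar) : Prop :=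
  y.1 ≤ z.1 ∧ ∀ (i : I) (x : Fin (ar i) → ℕ), (∀ r, x r < y.1) → z.2 i x = y.2 i x

/-- The maps `f` and `g` are embeddings of the same structure in `y` and `b`. -/
def Vld {l : ℕ} (f g : Fin l → ℕ) (y b : ℕ × Str ar) : Prop :=
  ((∀ r, f r < y.1) ∧ (∀ r, g r < b.1)) ∧ (Function.Injective f ∧ Function.Injective g) ∧
    ∀ (i : I) (x : Fin (ar i) → Fin l), y.2 i (fun j => f (x j)) = b.2 i (fun j => g (x j))

/-- Some embedding `h` of `b` in `z` satisfies `h (g r) = f r`. -/
def Sol {l : ℕ} (f g : Fin l → ℕ) (z b : ℕ × Str ar) : Prop :=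
  ∃ (k : ℕ) (h : Fin k → ℕ), b.1 = k ∧ (∀ r, h r < z.1) ∧ Function.Injective h ∧
    (∀ (r : Fin l) (hr : g r < k), h ⟨g r, hr⟩ = f r) ∧
    ∀ (i : I) (x : Fin (ar i) → Fin k), z.2 i (fun j => h (x j)) = b.2 i (fun j => (x j).1)

/-- The condition on a step of the construction. -/
def Gd {l : ℕ} (f g : Fin l → ℕ) (y z b : ℕ × Str ar) : Prop := Ex y z ∧ (Vld f g y b → Sol f g z b)

theorem Ex.refl (y : ℕ × Str ar) : Ex y y := ⟨le_rfl, fun _ _ _ => rfl⟩

theorem Ex.trans {y z w : ℕ × Str ar} (h : Ex y z) (h' : Ex z w) : Ex y w :=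
  ⟨h.1.trans h'.1, fun i x hx =>
    (h'.2 i x fun r => (hx r).trans_le h.1).trans (h.2 i x hx)⟩

theorem mem_KS (s : ℕ → ℕ × Str ar) (j : ℕ) :
    pullN (fun i : Fin (s j).1 => i.1) (s j).2 ∈ KS s (s j).1 := ⟨j, rfl, rfl⟩

/-- Extension of an injection to a permutation. -/
theorem exists_perm_extend {m p : ℕ} (hmp : m ≤ p) (f : Fin m → Fin p)
    (hf : Function.Injective f) : ∃ π : Equiv.Perm (Fin p), ∀ i, π (Fin.castLE hmp i) = f i := by
  classical
  let F : Fin p → Fin p := fun i => if h : i.1 < m then f ⟨i.1, h⟩ else i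
  have hF : ∀ i : Fin m, F (Fin.castLE hmp i) = f i := by
    intro i
    have h : (Fin.castLE hmp i).1 < m := i.2
    simp only [F, dif_pos h]
    rfl
  obtain ⟨g, hg⟩ := Finset.exists_equiv_extend_of_card_eq (α := Fin p) (β := Fin p)
    (t := Finset.univ) (by simp) (s := Finset.univ.filter fun i => i.1 < m) (f := F)
    (by simp) (by
      intro i hi j hj hij
      have hi' : i.1 < m := by simpa using hi
      have hj' : j.1 < m := by simpa using hj
      have h1 : F i = f ⟨i.1, hi'⟩ := by simp only [F, dif_pos hi']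
      have h2 : F j = f ⟨j.1, hj'⟩ := by simp only [F, dif_pos hj']
      rw [h1, h2] at hij
      have h3 := congrArg Fin.val (hf hij)
      exact Fin.ext h3)
  refine ⟨g.trans (Equiv.subtypeUnivEquiv (fun x => Finset.mem_univ x)), fun i => ?_⟩
  have h1 := hg (Fin.castLE hmp i) (by simp)
  rw [hF] at h1
  exact h1

/-- A good step exists in a Fraïssé class. -/
theorem exists_good {s : ℕ → ℕ × Str ar} (hK : IsFr (KS s)) {l : ℕ} (f g : Fin l → ℕ) (j k : ℕ) :
    ∃ j', Gd f g (s j) (s j') (s k) := by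
  by_cases hv : Vld f g (s j) (s k)
  · obtain ⟨⟨hf1, hg1⟩, ⟨hf2, hg2⟩, hfg⟩ := hv
    obtain ⟨p, f', g', C, hC, hf', hg', hcomm, hCA, hCB⟩ := hK.amal l (s j).1 (s k).1
      (fun r => ⟨f r, hf1 r⟩) (fun r => ⟨g r, hg1 r⟩)
      (fun r r' h => hf2 (congrArg Fin.val h)) (fun r r' h => hg2 (congrArg Fin.val h))
      _ (mem_KS s j) _ (mem_KS s k) (by
        funext i x
        exact hfg i x)
    have hmp : (s j).1 ≤ p := by
      have := Fintype.card_le_of_injective f' hf'
      simpa using this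
    obtain ⟨π, hπ⟩ := exists_perm_extend hmp f' hf'
    obtain ⟨j', hj1, hj2⟩ := hK.her p p π π.injective C hC
    subst hj1
    have hjr : ∀ (i : I) (x : Fin (ar i) → Fin (s j').1),
        (s j').2 i (fun r => (x r).1) = C i (fun r => π (x r)) := fun i x =>
      congrFun (congrFun hj2 i) x
    refine ⟨j', ⟨hmp, ?_⟩, fun _ => ⟨(s k).1, fun r => (π.symm (g' r)).1, rfl, fun r => (π.symm (g' r)).2,
      ?_, ?_, ?_⟩⟩
    · intro i x hx
      have h1 := hjr i (fun r => Fin.castLE hmp ⟨x r, hx r⟩)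
      have h2 := congrFun (congrFun hCA i) (fun r => ⟨x r, hx r⟩)
      refine h1.trans (Eq.trans ?_ h2)
      exact congrArg (C i) (funext fun r => hπ _)
    · intro r r' h
      exact hg' (π.symm.injective (Fin.ext h))
    · intro r hr
      have h1 : g' ⟨g r, hr⟩ = π (Fin.castLE hmp ⟨f r, hf1 r⟩) := by
        rw [hπ]
        exact (hcomm r).symm
      show (π.symm (g' ⟨g r, hr⟩)).1 = f r
      rw [h1, Equiv.symm_apply_apply]
      rfl
    · intro i x
      have h1 := hjr i (fun r => π.symm (g' (x r)))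
      have h2 := congrFun (congrFun hCB i) x
      refine h1.trans (Eq.trans ?_ h2)
      exact congrArg (C i) (funext fun r => π.apply_symm_apply _)
  · exact ⟨j, Ex.refl _, fun h => absurd h hv⟩

open Classical in
/-- The least number with the property, or `0`. -/
noncomputable def lst (p : ℕ → Prop) : ℕ := if h : ∃ n, p n then Nat.find h else 0

theorem lst_spec {p : ℕ → Prop} (h : ∃ n, p n) : p (lst p) := by
  classical
  unfold lst
  rw [dif_pos h]
  exact Nat.find_spec h

theorem lst_eq_iff (p : ℕ → Prop) (c : ℕ) :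
    lst p = c ↔ (p c ∧ ∀ d < c, ¬ p d) ∨ ((∀ d, ¬ p d) ∧ c = 0) := by
  classical
  unfold lst
  by_cases h : ∃ n, p n
  · rw [dif_pos h, Nat.find_eq_iff]
    constructor
    · exact fun h1 => Or.inl h1
    · rintro (h1 | ⟨h1, -⟩)
      · exact h1
      · obtain ⟨n, hn⟩ := h
        exact absurd hn (h1 n)
  · rw [dif_neg h]
    constructor
    · rintro rfl
      exact Or.inr ⟨fun d hd => h ⟨d, hd⟩, rfl⟩
    · rintro (⟨h1, -⟩ | ⟨-, rfl⟩)
      · exact absurd ⟨c, h1⟩ h
      · rfl

theorem measurable_lst {X : Type} [MeasurableSpace X] {p : X → ℕ → Prop}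
    (hp : ∀ n, MeasurableSet {x | p x n}) : Measurable fun x => lst (p x) := by
  refine measurable_to_countable' fun c => ?_
  have : (fun x => lst (p x)) ⁻¹' {c} =
      ({x | p x c} ∩ ⋂ d : ℕ, ⋂ _ : d < c, {x | p x d}ᶜ) ∪ ((⋂ d, {x | p x d}ᶜ) ∩ {_x | c = 0}) := by
    ext x
    simp only [Set.mem_preimage, Set.mem_singleton_iff, lst_eq_iff, Set.mem_union, Set.mem_inter_iff,
      Set.mem_iInter, Set.mem_compl_iff, Set.mem_ofPred_eq]
  rw [this]
  refine MeasurableSet.union ?_ ?_
  · exact (hp c).inter (MeasurableSet.iInter fun d => MeasurableSet.iInter fun _ => (hp d).compl)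
  · exact (MeasurableSet.iInter fun d => (hp d).compl).inter (MeasurableSet.const _)

theorem measurable_index {X Y : Type} [MeasurableSpace X] [MeasurableSpace Y] {F : X → ℕ → Y}
    (hF : ∀ n, Measurable fun x => F x n) {u : X → ℕ} (hu : Measurable u) :
    Measurable fun x => F x (u x) := by
  intro A hA
  have : (fun x => F x (u x)) ⁻¹' A = ⋃ n, (u ⁻¹' {n} ∩ (fun x => F x n) ⁻¹' A) := by
    ext x
    simp only [Set.mem_preimage, Set.mem_iUnion, Set.mem_inter_iff, Set.mem_singleton_iff]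
    constructor
    · intro h
      exact ⟨u x, rfl, h⟩
    · rintro ⟨n, rfl, h⟩
      exact h
  rw [this]
  exact MeasurableSet.iUnion fun n => (hu (measurableSet_singleton n)).inter (hF n hA)

end

end Pool.Agent.Work.MP_f1d084_lc
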