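import Mathlib
import Pool.Agent.Work.MP_f1d084_lc.BLa

set_option autoImplicit false

namespace Pool.Agent.Work.MP_f1d084_lc

section meas

variable {I : Type} {ar : I → ℕ} {X : Type} [MeasurableSpace X]

theorem meas_le {u v : X → ℕ} (hu : Measurable u) (hv : Measurable v) :
    Measurable fun x => u x ≤ v x :=
  (measurable_of_countable (fun p : ℕ × ℕ => p.1 ≤ p.2)).comp (hu.prodMk hv)

theorem meas_beq {u v : X → Bool} (hu : Measurable u) (hv : Measurable v) :
    Measurable fun x => u x = v x :=
  (measurable_of_countable (fun p : Bool × Bool => p.1 = p.2)).comp (hu.prodMk hv)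

theorem meas_rel {U : X → ℕ × Str ar} (hU : Measurable U) (i : I) (y : Fin (ar i) → ℕ) :
    Measurable fun x => (U x).2 i y :=
  (measurable_pi_apply y).comp ((measurable_pi_apply i).comp (measurable_snd.comp hU))

theorem meas_Ex [Countable I] {U V : X → ℕ × Str ar} (hU : Measurable U) (hV : Measurable V) :
    Measurable fun x => Ex (U x) (V x) := by
  unfold Ex
  refine (meas_le (measurable_fst.comp hU) (measurable_fst.comp hV)).and ?_
  refine Measurable.forall fun i => Measurable.forall fun y => ?_
  refine Measurable.imp ?_ (meas_beq (meas_rel hV i y) (meas_rel hU i y))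
  exact Measurable.forall fun r => (measurable_of_countable (fun n : ℕ => y r < n)).comp
    (measurable_fst.comp hU)

theorem meas_Vld [Countable I] {l : ℕ} (f g : Fin l → ℕ) {U W : X → ℕ × Str ar}
    (hU : Measurable U) (hW : Measurable W) : Measurable fun x => Vld f g (U x) (W x) := by
  unfold Vld
  refine Measurable.and (Measurable.and ?_ ?_) (Measurable.and measurable_const ?_)
  · exact Measurable.forall fun r => (measurable_of_countable (fun n : ℕ => f r < n)).comp
      (measurable_fst.comp hU)
  · exact Measurable.forall fun r => (measurable_of_countable (fun n : ℕ => g r < n)).comp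
      (measurable_fst.comp hW)
  · exact Measurable.forall fun i => Measurable.forall fun y =>
      meas_beq (meas_rel hU i _) (meas_rel hW i _)

theorem meas_Sol [Countable I] {l : ℕ} (f g : Fin l → ℕ) {V W : X → ℕ × Str ar}
    (hV : Measurable V) (hW : Measurable W) : Measurable fun x => Sol f g (V x) (W x) := by
  unfold Sol
  refine Measurable.exists fun k => Measurable.exists fun h => ?_
  refine Measurable.and ?_ (Measurable.and ?_ (Measurable.and measurable_const (Measurable.and
    measurable_const ?_)))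
  · exact (measurable_of_countable (fun n : ℕ => n = k)).comp (measurable_fst.comp hW)
  · exact Measurable.forall fun r => (measurable_of_countable (fun n : ℕ => h r < n)).comp
      (measurable_fst.comp hV)
  · exact Measurable.forall fun i => Measurable.forall fun y =>
      meas_beq (meas_rel hV i _) (meas_rel hW i _)

theorem meas_Gd [Countable I] {l : ℕ} (f g : Fin l → ℕ) {U V W : X → ℕ × Str ar}
    (hU : Measurable U) (hV : Measurable V) (hW : Measurable W) :
    Measurable fun x => Gd f g (U x) (V x) (W x) :=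
  (meas_Ex hU hV).and ((meas_Vld f g hU hW).imp (meas_Sol f g hV hW))

end meas

/-- The tasks of the construction. -/
abbrev Tsk : Type := Σ l : ℕ, (Fin l → ℕ) × (Fin l → ℕ) × ℕ

section lim

variable {I : Type} {ar : I → ℕ}

/-- The indices of the members of the chain. -/
noncomputable def jj (e : ℕ → Tsk) (s : ℕ → ℕ × Str ar) : ℕ → ℕ
  | 0 => 0
  | n + 1 => lst fun j' => Gd (e n.unpair.1).2.1 (e n.unpair.1).2.2.1 (s (jj e s n)) (s j')
      (s (e n.unpair.1).2.2.2)

open Classical in
/-- The limit of the chain. -/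
noncomputable def blim (e : ℕ → Tsk) (s : ℕ → ℕ × Str ar) : Str ar := fun i x =>
  decide (∃ N, (∀ r, x r < (s (jj e s N)).1) ∧ (s (jj e s N)).2 i x = true)

theorem measurable_jj [Countable I] (e : ℕ → Tsk) (n : ℕ) :
    Measurable fun s : ℕ → ℕ × Str ar => jj e s n := by
  induction n with
  | zero => exact measurable_const
  | succ n ih =>
    refine measurable_lst (X := ℕ → ℕ × Str ar) fun j' => measurableSet_setOfPred.mpr ?_
    have h1 : Measurable fun s : ℕ → ℕ × Str ar => s (jj e s n) :=
      measurable_index (F := fun (s : ℕ → ℕ × Str ar) n => s n) (fun n => measurable_pi_apply n) ih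
    exact meas_Gd _ _ h1 (measurable_pi_apply _) (measurable_pi_apply _)

theorem measurable_blim [Countable I] (e : ℕ → Tsk) :
    Measurable fun s : ℕ → ℕ × Str ar => blim e s := by
  classical
  refine measurable_pi_lambda _ fun i => measurable_pi_lambda _ fun x => ?_
  refine measurable_to_bool ?_
  have h0 : (fun s : ℕ → ℕ × Str ar => blim e s i x) ⁻¹' {true} =
      {s | ∃ N, (∀ r, x r < (s (jj e s N)).1) ∧ (s (jj e s N)).2 i x = true} := by
    ext s
    simp only [blim, Set.mem_preimage, Set.mem_singleton_iff, decide_eq_true_eq, Set.mem_ofPred_eq]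
  rw [h0]
  refine measurableSet_setOfPred.mpr (Measurable.exists fun N => ?_)
  have h1 : Measurable fun s : ℕ → ℕ × Str ar => s (jj e s N) :=
    measurable_index (F := fun (s : ℕ → ℕ × Str ar) n => s n) (fun n => measurable_pi_apply n)
      (measurable_jj e N)
  refine Measurable.and ?_ (meas_beq (meas_rel h1 i x) measurable_const)
  exact Measurable.forall fun r => (measurable_of_countable (fun n : ℕ => x r < n)).comp
    (measurable_fst.comp h1)

variable {e : ℕ → Tsk} {s : ℕ → ℕ × Str ar}

theorem good_step (hK : IsFr (KS s)) (n : ℕ) : Gd (e n.unpair.1).2.1 (e n.unpair.1).2.2.1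
    (s (jj e s n)) (s (jj e s (n + 1))) (s (e n.unpair.1).2.2.2) :=
  lst_spec (exists_good hK _ _ _ _)

theorem ex_chain (hK : IsFr (KS s)) {n m : ℕ} (h : n ≤ m) : Ex (s (jj e s n)) (s (jj e s m)) := by
  induction h with
  | refl => exact Ex.refl _
  | step _ ih => exact ih.trans (good_step hK _).1

theorem blim_eq (hK : IsFr (KS s)) {N : ℕ} {i : I} {x : Fin (ar i) → ℕ}
    (hx : ∀ r, x r < (s (jj e s N)).1) : blim e s i x = (s (jj e s N)).2 i x := by
  classical
  have h1 : (blim e s i x = true) ↔ (s (jj e s N)).2 i x = true := by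
    unfold blim
    rw [decide_eq_true_eq]
    constructor
    · rintro ⟨M, hM, hM2⟩
      rcases le_total N M with h | h
      · rw [← (ex_chain hK h).2 i x hx]
        exact hM2
      · rw [(ex_chain hK h).2 i x hM]
        exact hM2
    · intro h
      exact ⟨N, hx, h⟩
  exact Bool.eq_iff_iff.mpr h1

theorem task_at (hK : IsFr (KS s)) (he : Function.Surjective e) {l : ℕ} (f g : Fin l → ℕ) (k N : ℕ)
    (hv : ∀ M, N ≤ M → Vld f g (s (jj e s M)) (s k)) :
    ∃ M, N ≤ M ∧ Sol f g (s (jj e s M)) (s k) := by
  obtain ⟨c, hc⟩ := he ⟨l, f, g, k⟩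
  have h1 : N ≤ Nat.pair c N := Nat.right_le_pair _ _
  have h2 := good_step (e := e) hK (Nat.pair c N)
  rw [Nat.unpair_pair, hc] at h2
  exact ⟨Nat.pair c N + 1, h1.trans (Nat.le_succ _), h2.2 (hv _ h1)⟩

theorem vld_zero (hK : IsFr (KS s)) (f g : Fin 0 → ℕ) (j k : ℕ) : Vld f g (s j) (s k) := by
  refine ⟨⟨fun r => r.elim0, fun r => r.elim0⟩, ⟨fun r => r.elim0, fun r => r.elim0⟩, ?_⟩
  intro i x
  have h1 := hK.zero (hK.her 0 _ Fin.elim0 (fun r => r.elim0) _ (mem_KS s j))
    (hK.her 0 _ Fin.elim0 (fun r => r.elim0) _ (mem_KS s k))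
  have h2 := congrFun (congrFun h1 i) x
  have h3 : (fun j => f (x j)) = fun r => ((Fin.elim0 (x r) : Fin (s j).1)).1 := by
    funext r
    exact (x r).elim0
  have h4 : (fun j => g (x j)) = fun r => ((Fin.elim0 (x r) : Fin (s k).1)).1 := by
    funext r
    exact (x r).elim0
  rw [h3, h4]
  exact h2

theorem unbounded (hK : IsFr (KS s)) (he : Function.Surjective e) (n : ℕ) :
    ∃ N, n ≤ (s (jj e s N)).1 := by
  obtain ⟨B, k, hk, -⟩ := hK.ne n
  obtain ⟨M, -, l, h, h1, h2, h3, -⟩ := task_at hK he Fin.elim0 Fin.elim0 k 0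
    (fun M _ => vld_zero hK _ _ _ _)
  refine ⟨M, ?_⟩
  have h4 : n = l := hk.symm.trans h1
  subst h4
  have h5 : Function.Injective fun i : Fin n => (⟨h i, h2 i⟩ : Fin (s (jj e s M)).1) :=
    fun i j hij => h3 (congrArg Fin.val hij)
  have := Fintype.card_le_of_injective _ h5
  simpa using this

theorem exists_bound (hK : IsFr (KS s)) (he : Function.Surjective e) {n : ℕ} (a : Fin n → ℕ) :
    ∃ N, ∀ M, N ≤ M → ∀ i, a i < (s (jj e s M)).1 := by
  obtain ⟨N, hN⟩ := unbounded (e := e) hK he (Finset.univ.sup a + 1)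
  refine ⟨N, fun M hM i => ?_⟩
  have h1 := (ex_chain (e := e) hK hM).1
  have h2 : a i ≤ Finset.univ.sup a := Finset.le_sup (Finset.mem_univ i)
  omega

theorem age_blim_sub (hK : IsFr (KS s)) (he : Function.Surjective e) (n : ℕ) (a : Fin n → ℕ)
    (ha : Function.Injective a) : pullN a (blim e s) ∈ KS s n := by
  obtain ⟨N, hN⟩ := exists_bound (e := e) hK he a
  have h1 := hN N le_rfl
  have h2 := hK.her n _ (fun i => (⟨a i, h1 i⟩ : Fin (s (jj e s N)).1))
    (fun i j hij => ha (congrArg Fin.val hij)) _ (mem_KS s (jj e s N))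
  have h3 : pullN a (blim e s) = pull (fun i => (⟨a i, h1 i⟩ : Fin (s (jj e s N)).1))
      (pullN (fun i : Fin (s (jj e s N)).1 => i.1) (s (jj e s N)).2) := by
    funext i x
    exact blim_eq hK fun r => h1 (x r)
  rw [h3]
  exact h2

theorem age_blim (hK : IsFr (KS s)) (he : Function.Surjective e) (n : ℕ) :
    age (blim e s) n = KS s n := by
  refine Set.Subset.antisymm ?_ ?_
  · rintro A ⟨a, ha, rfl⟩
    exact age_blim_sub hK he n a ha
  · rintro B ⟨k, rfl, rfl⟩
    obtain ⟨M, -, l, h, h1, h2, h3, -, h4⟩ := task_at hK he Fin.elim0 Fin.elim0 k 0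
      (fun M _ => vld_zero hK _ _ _ _)
    subst h1
    refine ⟨h, h3, ?_⟩
    funext i x
    refine Eq.trans ?_ (h4 i x)
    exact blim_eq hK fun r => h2 (x r)

theorem uh_blim (hK : IsFr (KS s)) (he : Function.Surjective e) : UH (blim e s) := by
  rw [uh_iff_patExt]
  intro n a b hab c
  obtain ⟨r, σ, t, hst, hσ⟩ := exists_factor (snc a c)
  obtain ⟨r', σ', t', hst', hσ'⟩ := exists_factor a
  have hinj : Function.Injective fun j => snc a c (t j) := by
    intro j j' hjj
    have := (hσ (t j) (t j')).mpr hjj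
    rwa [hst, hst] at this
  obtain ⟨k, hk, hk2⟩ := age_blim_sub (e := e) hK he r _ hinj
  have hB : ∀ (i : I) (x : Fin (ar i) → Fin r),
      (s k).2 i (fun q => (x q).1) = blim e s i (fun q => snc a c (t (x q))) := by
    intro i x
    exact congrFun (congrFun hk2 i) x
  have hts : ∀ i, snc a c (t (σ i)) = snc a c i := fun i => (hσ _ _).mp (hst _)
  have hts' : ∀ i, a (t' (σ' i)) = a i := fun i => (hσ' _ _).mp (hst' _)
  -- the task
  let f : Fin r' → ℕ := fun i => b (t' i)
  let g : Fin r' → ℕ := fun i => (σ (t' i).castSucc).1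
  have hf : Function.Injective f := by
    intro i j hij
    have h1 := (hab.1 (t' i) (t' j)).mpr hij
    have h2 := (hσ' _ _).mpr h1
    rwa [hst', hst'] at h2
  have hg : Function.Injective g := by
    intro i j hij
    have h1 := (hσ _ _).mp (Fin.ext hij)
    rw [snc_castSucc, snc_castSucc] at h1
    have h2 := (hσ' _ _).mpr h1
    rwa [hst', hst'] at h2
  obtain ⟨N, hN⟩ := exists_bound (e := e) hK he b
  have hv : ∀ M, N ≤ M → Vld f g (s (jj e s M)) (s k) := by
    intro M hM
    refine ⟨⟨fun i => hN M hM _, fun i => ?_⟩, ⟨hf, hg⟩, fun i x => ?_⟩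
    · rw [hk]
      exact (σ (t' i).castSucc).2
    · have h1 := hB i (fun q => σ (t' (x q)).castSucc)
      have h2 : (fun q => snc a c (t (σ (t' (x q)).castSucc))) = fun q => a (t' (x q)) := by
        funext q
        rw [hts, snc_castSucc]
      rw [h2] at h1
      have h3 := hab.2 i (fun q => t' (x q))
      have h4 : blim e s i (fun q => f (x q)) = (s (jj e s M)).2 i (fun q => f (x q)) :=
        blim_eq hK fun q => hN M hM _
      exact h4.symm.trans (h3.symm.trans h1.symm)
  obtain ⟨M, hM, l, h, h1, h2, h3, h4, h5⟩ := task_at hK he f g k N hv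
  have hrl : r = l := hk.symm.trans h1
  subst hrl
  have h6 : SamePat (blim e s) (blim e s) (fun j => snc a c (t j)) h := by
    refine ⟨fun j j' => ?_, fun i x => ?_⟩
    · constructor
      · intro hjj
        rw [hinj hjj]
      · intro hjj
        rw [h3 hjj]
    · rw [← hB i x, ← h5 i x]
      exact (blim_eq hK fun q => h2 (x q)).symm
  have h7 := h6.relabel σ
  have h8 : (fun i => snc a c (t (σ i))) = snc a c := funext hts
  rw [h8] at h7
  refine ⟨h (σ (Fin.last n)), ?_⟩
  have h9 : snc b (h (σ (Fin.last n))) = fun i => h (σ i) := by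
    rw [← snc_init (fun i => h (σ i))]
    have h10 : (fun i : Fin n => h (σ i.castSucc)) = b := by
      funext i
      have h11 := h4 (σ' i) (σ (t' (σ' i)).castSucc).2
      have h12 : σ (t' (σ' i)).castSucc = σ i.castSucc := by
        rw [hσ, snc_castSucc, snc_castSucc]
        exact hts' i
      have h13 : (⟨g (σ' i), (σ (t' (σ' i)).castSucc).2⟩ : Fin r) = σ i.castSucc := h12
      rw [h13] at h11
      rw [h11]
      exact (hab.1 _ _).mp (hts' i)
    rw [h10]
  rw [h9]
  exact h7

end lim

/-- A Borel version of the theorem of Fraïssé: the limit of a class is a Borel function of an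
enumeration of the class. -/
theorem exists_borel_limit {I : Type} [Countable I] (ar : I → ℕ) :
    ∃ L : (ℕ → ℕ × Str ar) → Str ar, Measurable L ∧
      ∀ s, IsFr (KS s) → UH (L s) ∧ ∀ n, age (L s) n = KS s n := by
  have : Nonempty Tsk := ⟨⟨0, Fin.elim0, Fin.elim0, 0⟩⟩
  obtain ⟨e, he⟩ := exists_surjective_nat Tsk
  exact ⟨blim e, measurable_blim e, fun s hs => ⟨uh_blim hs he, fun n => age_blim hs he n⟩⟩

end Pool.Agent.Work.MP_f1d084_lc
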