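import Mathlib
import Pool.Agent.Work.MP_f1d084_lc.BLb
import Pool.Agent.Work.MP_f1d084_lc.B.Csb

set_option autoImplicit false

namespace Pool.Agent.Work.MP_f1d084_lc

section code

variable {I : Type} {ar : I → ℕ}

open Classical in
/-- The canonical code of a finite structure. -/
noncomputable def ofF (n : ℕ) (A : StrF ar n) : ℕ × Str ar :=
  (n, fun i x => if h : ∀ j, x j < n then A i (fun j => ⟨x j, h j⟩) else false)

theorem pullN_ofF (n : ℕ) (A : StrF ar n) :
    pullN (fun i : Fin n => i.1) (ofF n A).2 = A := by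
  classical
  funext i x
  unfold pullN ofF
  have h : ∀ j, (x j).1 < n := fun j => (x j).2
  simp only
  rw [dif_pos h]

/-- Enumeration of all finite tuples without repetitions. -/
theorem exists_enJ : ∃ e : ℕ → Σ n : ℕ, {a : Fin n → ℕ // Function.Injective a},
    Function.Surjective e := by
  have : Nonempty (Σ n : ℕ, {a : Fin n → ℕ // Function.Injective a}) :=
    ⟨⟨0, Fin.elim0, fun i => i.elim0⟩⟩
  exact exists_surjective_nat _

/-- A fixed enumeration. -/
noncomputable def enJ : ℕ → Σ n : ℕ, {a : Fin n → ℕ // Function.Injective a} := exists_enJ.choose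

theorem enJ_surj : Function.Surjective enJ := exists_enJ.choose_spec

/-- Enumeration of the codes of the members of the age. -/
noncomputable def ageC (M : Str ar) : ℕ → ℕ × Str ar := fun k =>
  ofF (enJ k).1 (pullN (enJ k).2.1 M)

theorem range_ageC (M : Str ar) : Set.range (ageC M) = {z | ∃ n, ∃ A ∈ age M n, z = ofF n A} := by
  ext z
  constructor
  · rintro ⟨k, rfl⟩
    exact ⟨_, _, ⟨(enJ k).2.1, (enJ k).2.2, rfl⟩, rfl⟩
  · rintro ⟨n, A, ⟨a, ha, rfl⟩, rfl⟩
    obtain ⟨k, hk⟩ := enJ_surj ⟨n, a, ha⟩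
    refine ⟨k, ?_⟩
    unfold ageC
    rw [hk]

theorem KS_congr {s t : ℕ → ℕ × Str ar} (h : Set.range s = Set.range t) (n : ℕ) :
    KS s n = KS t n := by
  have key : ∀ {s t : ℕ → ℕ × Str ar}, Set.range s = Set.range t → KS s n ⊆ KS t n := by
    rintro s t h A ⟨k, rfl, rfl⟩
    have h1 : s k ∈ Set.range t := h ▸ ⟨k, rfl⟩
    obtain ⟨l, hl⟩ := h1
    refine ⟨l, by rw [hl], ?_⟩
    rw [hl]
  exact Set.Subset.antisymm (key h) (key h.symm)

theorem KS_ageC (M : Str ar) (n : ℕ) : KS (ageC M) n = age M n := by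
  ext A
  constructor
  · rintro ⟨k, hk, rfl⟩
    subst hk
    refine ⟨(enJ k).2.1, (enJ k).2.2, ?_⟩
    exact (pullN_ofF _ _).symm
  · rintro ⟨a, ha, rfl⟩
    obtain ⟨k, hk⟩ := enJ_surj ⟨n, a, ha⟩
    have h1 : ageC M k = ofF n (pullN a M) := by
      unfold ageC
      rw [hk]
    refine ⟨k, by rw [h1]; rfl, ?_⟩
    rw [h1]
    exact pullN_ofF _ _

theorem range_ageC_iff {M N : Str ar} :
    Set.range (ageC M) = Set.range (ageC N) ↔ ∀ n, age M n = age N n := by
  constructor
  · intro h n
    rw [← KS_ageC, ← KS_ageC, KS_congr h]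
  · intro h
    rw [range_ageC, range_ageC]
    simp only [h]

theorem measurable_ageC : Measurable (ageC : Str ar → ℕ → ℕ × Str ar) := by
  classical
  refine measurable_pi_lambda _ fun k => ?_
  refine Measurable.prodMk measurable_const ?_
  refine measurable_pi_lambda _ fun i => measurable_pi_lambda _ fun x => ?_
  by_cases h : ∀ j, x j < (enJ k).1
  · have : (fun M : Str ar => (ofF (enJ k).1 (pullN (enJ k).2.1 M)).2 i x) =
        fun M : Str ar => M i (fun j => (enJ k).2.1 ⟨x j, h j⟩) := by
      funext M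
      show (if h : ∀ j, x j < (enJ k).1 then _ else false) = _
      rw [dif_pos h]
      rfl
    exact this ▸ (measurable_pi_apply _).comp (measurable_pi_apply i)
  · have : (fun M : Str ar => (ofF (enJ k).1 (pullN (enJ k).2.1 M)).2 i x) =
        fun M : Str ar => false := by
      funext M
      show (if h : ∀ j, x j < (enJ k).1 then _ else false) = _
      rw [dif_neg h]
    exact this ▸ measurable_const

end code

/-- The structure with the unary predicates given by the sequence of reals `s`, each real being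
realized infinitely often. -/
def MU (s : ℕ → ℕ → Bool) : Str arU := fun p x =>
  if h : p.1 = 1 then s (Nat.unpair (x ⟨0, by rw [show arU p = 1 from h]; exact Nat.one_pos⟩)).1 p.2
    else false

/-- The unary types of the points. -/
def un (M : Str arU) : ℕ → ℕ → Bool := fun x k => M (1, k) (fun _ => x)

theorem un_MU (s : ℕ → ℕ → Bool) (x : ℕ) : un (MU s) x = s (Nat.unpair x).1 := by
  funext k
  unfold un MU
  rw [dif_pos rfl]

theorem range_un_MU (s : ℕ → ℕ → Bool) : Set.range (un (MU s)) = Set.range s := by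
  ext z
  constructor
  · rintro ⟨x, rfl⟩
    exact ⟨_, (un_MU s x).symm⟩
  · rintro ⟨i, rfl⟩
    refine ⟨Nat.pair i 0, ?_⟩
    rw [un_MU, Nat.unpair_pair]

theorem un_iso {M N : Str arU} {g : Equiv.Perm ℕ} (h : IsIso M N g) (x : ℕ) :
    un N (g x) = un M x := by
  funext k
  exact h (1, k) (fun _ => x)

theorem range_un_iso {M N : Str arU} {g : Equiv.Perm ℕ} (h : IsIso M N g) :
    Set.range (un M) = Set.range (un N) := by
  ext z
  constructor
  · rintro ⟨x, rfl⟩
    exact ⟨g x, un_iso h x⟩
  · rintro ⟨x, rfl⟩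
    refine ⟨g.symm x, ?_⟩
    rw [← un_iso h, Equiv.apply_symm_apply]

/-- The structures `MU s` have no other relations. -/
theorem MU_congr {s t : ℕ → ℕ → Bool} {n : ℕ} {a b : Fin n → ℕ}
    (h : ∀ j, un (MU s) (a j) = un (MU t) (b j)) (p : ℕ × ℕ) (x : Fin (arU p) → Fin n) :
    MU s p (fun j => a (x j)) = MU t p (fun j => b (x j)) := by
  unfold MU
  by_cases hp : p.1 = 1
  · rw [dif_pos hp, dif_pos hp]
    have h1 := congrFun (h (x ⟨0, by rw [show arU p = 1 from hp]; exact Nat.one_pos⟩)) p.2
    rw [un_MU, un_MU] at h1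
    exact h1
  · rw [dif_neg hp, dif_neg hp]

theorem patExt_MU {s t : ℕ → ℕ → Bool} (h : Set.range s = Set.range t) : PatExt (MU s) (MU t) := by
  intro n a b hab c
  have hun : ∀ j, un (MU s) (a j) = un (MU t) (b j) := by
    intro j
    funext k
    exact hab.2 (1, k) (fun _ => j)
  have key : ∀ d, (∀ j, a j = c ↔ b j = d) → un (MU s) c = un (MU t) d →
      SamePat (MU s) (MU t) (snc a c) (snc b d) := by
    intro d hd hcd
    refine ⟨fun j k => ?_, fun p x => MU_congr (fun j => ?_) p x⟩
    · refine Fin.lastCases ?_ (fun j => ?_) j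
      · refine Fin.lastCases ?_ (fun k => ?_) k
        · rw [snc_last, snc_last]
          exact iff_of_true rfl rfl
        · rw [snc_last, snc_last, snc_castSucc, snc_castSucc, eq_comm, hd, eq_comm]
      · refine Fin.lastCases ?_ (fun k => ?_) k
        · rw [snc_last, snc_last, snc_castSucc, snc_castSucc, hd]
        · rw [snc_castSucc, snc_castSucc, snc_castSucc, snc_castSucc]
          exact hab.1 j k
    · refine Fin.lastCases ?_ (fun j => ?_) j
      · rw [snc_last, snc_last]
        exact hcd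
      · rw [snc_castSucc, snc_castSucc]
        exact hun j
  by_cases hc : ∃ j, a j = c
  · obtain ⟨j, rfl⟩ := hc
    exact ⟨b j, key _ (fun k => hab.1 k j) (hun j)⟩
  · have h1 : s (Nat.unpair c).1 ∈ Set.range t := h ▸ ⟨_, rfl⟩
    obtain ⟨i, hi⟩ := h1
    refine ⟨Nat.pair i (Finset.univ.sup b + 1), key _ (fun k => ?_) ?_⟩
    · refine iff_of_false (fun h2 => hc ⟨k, h2⟩) (fun h2 => ?_)
      have h3 : b k ≤ Finset.univ.sup b := Finset.le_sup (Finset.mem_univ k)
      have h4 : Finset.univ.sup b + 1 ≤ Nat.pair i (Finset.univ.sup b + 1) := Nat.right_le_pair _ _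
      omega
    · rw [un_MU, un_MU, Nat.unpair_pair, hi]

theorem uh_MU (s : ℕ → ℕ → Bool) : UH (MU s) := uh_iff_patExt.mpr (patExt_MU rfl)

theorem MU_iso_iff (s t : ℕ → ℕ → Bool) :
    (∃ g, IsIso (MU s) (MU t) g) ↔ Set.range s = Set.range t := by
  constructor
  · rintro ⟨g, hg⟩
    rw [← range_un_MU s, ← range_un_MU t]
    exact range_un_iso hg
  · intro h
    obtain ⟨g, hg, -⟩ := iso_of_patExt (patExt_MU h) (patExt_MU h.symm)
      (Fin.elim0 : Fin 0 → ℕ) Fin.elim0 ⟨fun j => j.elim0, fun p x => MU_congr (fun j => j.elim0) p x⟩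
    exact ⟨g, hg⟩

theorem measurable_MU : Measurable MU := by
  refine measurable_pi_lambda _ fun p => measurable_pi_lambda _ fun x => ?_
  unfold MU
  by_cases hp : p.1 = 1
  · simp only [dif_pos hp]
    exact (measurable_pi_apply _).comp (measurable_pi_apply _)
  · simp only [dif_neg hp]
    exact measurable_const

theorem measurable_un : Measurable un := by
  refine measurable_pi_lambda _ fun x => measurable_pi_lambda _ fun k => ?_
  exact (measurable_pi_apply _).comp (measurable_pi_apply _)

end Pool.Agent.Work.MP_f1d084_lc
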