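import Mathlib
import Pool.Agent.Work.MP_f1d084_lc.RealA
import Pool.Agent.Work.MP_f1d084_lc.B.Abs

set_option autoImplicit false

namespace Pool.Agent.Work.MP_f1d084_lc

/-- Isomorphism of codes. -/
def CIso (R S : Code) : Prop := Nonempty (OfCode R ≃o OfCode S)

theorem equivalence_CIso : Equivalence CIso :=
  ⟨fun _ => ⟨OrderIso.refl _⟩, fun ⟨f⟩ => ⟨f.symm⟩, fun ⟨f⟩ ⟨g⟩ => ⟨f.trans g⟩⟩

/-- The sequences `s` and `t` enumerate the same set of reals. -/
def SameR (s t : ℕ → ℕ → Bool) : Prop := Set.range s = Set.range t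

theorem equivalence_SameR : Equivalence SameR :=
  ⟨fun _ => rfl, fun h => h.symm, fun h h' => h.trans h'⟩

theorem measurableSet_sameR {X : Type} [MeasurableSpace X] {u v : X → ℕ → ℕ → Bool}
    (hu : Measurable u) (hv : Measurable v) : MeasurableSet {x | SameR (u x) (v x)} := by
  have h1 : ∀ {u v : X → ℕ → ℕ → Bool}, Measurable u → Measurable v →
      Measurable fun x => ∀ i, ∃ j, ∀ k, v x j k = u x i k := by
    intro u v hu hv
    refine Measurable.forall fun i => Measurable.exists fun j => Measurable.forall fun k => ?_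
    exact meas_beq ((measurable_pi_apply k).comp ((measurable_pi_apply j).comp hv))
      ((measurable_pi_apply k).comp ((measurable_pi_apply i).comp hu))
  have h2 : ∀ x, SameR (u x) (v x) ↔
      (∀ i, ∃ j, ∀ k, v x j k = u x i k) ∧ (∀ i, ∃ j, ∀ k, u x j k = v x i k) := by
    intro x
    unfold SameR
    constructor
    · intro h
      constructor
      · intro i
        have h3 : u x i ∈ Set.range (v x) := h ▸ ⟨i, rfl⟩
        obtain ⟨j, hj⟩ := h3
        exact ⟨j, fun k => congrFun hj k⟩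
      · intro i
        have h3 : v x i ∈ Set.range (u x) := h.symm ▸ ⟨i, rfl⟩
        obtain ⟨j, hj⟩ := h3
        exact ⟨j, fun k => congrFun hj k⟩
    · rintro ⟨h3, h4⟩
      refine Set.Subset.antisymm ?_ ?_
      · rintro _ ⟨i, rfl⟩
        obtain ⟨j, hj⟩ := h3 i
        exact ⟨j, funext hj⟩
      · rintro _ ⟨i, rfl⟩
        obtain ⟨j, hj⟩ := h4 i
        exact ⟨j, funext hj⟩
  have h5 : {x | SameR (u x) (v x)} = {x | (∀ i, ∃ j, ∀ k, v x j k = u x i k) ∧
      (∀ i, ∃ j, ∀ k, u x j k = v x i k)} := by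
    ext x
    exact h2 x
  rw [h5]
  exact measurableSet_setOfPred.mpr ((h1 hu hv).and (h1 hv hu))

theorem not_countable_nat_bool : ¬ Countable (ℕ → Bool) := by
  intro h
  obtain ⟨f, hf⟩ := exists_surjective_nat (ℕ → Bool)
  obtain ⟨n, hn⟩ := hf fun k => !(f k k)
  have h1 := congrFun hn n
  cases h2 : f n n <;> simp [h2] at h1

/-- A measurable identification of the codes of finite structures with reals. -/
theorem exists_real_code : Nonempty ((ℕ × Str arU) ≃ᵐ (ℕ → Bool)) := by
  have h1 : ¬ Countable (ℕ × Str arU) := by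
    intro h
    refine not_countable_nat_bool ?_
    have h2 : Function.Injective fun s : ℕ → Bool => ((0, fun p _ => s p.2) : ℕ × Str arU) := by
      intro s t hst
      funext k
      have h3 := congrFun (congrFun (congrArg Prod.snd hst) (0, k)) Fin.elim0
      exact h3
    exact h2.countable
  exact ⟨PolishSpace.measurableEquivNatBoolOfNotCountable h1⟩

/-- **Classification by countable sets of reals.** -/
theorem classReals {E : Set Code} (hE : Cls E) :
    ∃ (F : Code → ℕ → ℕ → Bool) (G : (ℕ → ℕ → Bool) → Code), Measurable F ∧ Measurable G ∧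
      (∀ s, G s ∈ E) ∧
      (∀ R ∈ E, ∀ S ∈ E, (Nonempty (OfCode R ≃o OfCode S) ↔ Set.range (F R) = Set.range (F S))) ∧
      (∀ s t, (Nonempty (OfCode (G s) ≃o OfCode (G t)) ↔ Set.range s = Set.range t)) ∧
      (∀ R ∈ E, Nonempty (OfCode (G (F R)) ≃o OfCode R)) ∧
      ∀ s, Set.range (F (G s)) = Set.range s := by
  classical
  obtain ⟨ε⟩ := exists_real_code
  obtain ⟨L, hL, hL2⟩ := exists_borel_limit arU
  let f : Code → ℕ → ℕ → Bool := fun R k => ε (ageC (Psi R) k)
  let f' : (ℕ → ℕ → Bool) → Code := fun s => red (L fun k => ε.symm (s k))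
  let g : (ℕ → ℕ → Bool) → Code := fun s => Phi (MU s)
  let g' : Code → ℕ → ℕ → Bool := fun R => un (Del R)
  have hrange : ∀ s t : ℕ → ℕ × Str arU,
      Set.range (fun k => ε (s k)) = Set.range (fun k => ε (t k)) ↔ Set.range s = Set.range t := by
    intro s t
    have h1 : ∀ u : ℕ → ℕ × Str arU, Set.range (fun k => ε (u k)) = ε '' Set.range u :=
      fun u => Set.range_comp ε u
    rw [h1, h1]
    exact ε.injective.image_injective.eq_iff
  have hback : ∀ (s : ℕ → ℕ → Bool) (u : ℕ → ℕ × Str arU),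
      Set.range (fun k => ε (u k)) = Set.range s → Set.range u = Set.range fun k => ε.symm (s k) := by
    intro s u h
    rw [← hrange, h]
    congr 1
    funext k
    exact (ε.apply_symm_apply _).symm
  have hmf : Measurable f := by
    refine measurable_pi_lambda _ fun k => ?_
    exact ε.measurable.comp ((measurable_pi_apply k).comp (measurable_ageC.comp measurable_Psi))
  have hmf' : Measurable f' := by
    refine measurable_red.comp (hL.comp (measurable_pi_lambda _ fun k => ?_))
    exact ε.symm.measurable.comp (measurable_pi_apply k)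
  have hmg : Measurable g := continuous_Phi.measurable.comp measurable_MU
  have hmg' : Measurable g' := measurable_un.comp measurable_Del
  have hred : ∀ R ∈ E, ∀ S ∈ E, (CIso R S ↔ SameR (f R) (f S)) := by
    intro R hR S hS
    have hUR : UH (Psi R) := (uh_Psi_iff R).mpr (hE.sub hR).2
    have hUS : UH (Psi S) := (uh_Psi_iff S).mpr (hE.sub hS).2
    show _ ↔ Set.range (fun k => ε (ageC (Psi R) k)) = Set.range (fun k => ε (ageC (Psi S) k))
    rw [hrange, range_ageC_iff]
    constructor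
    · rintro ⟨φ⟩ n
      have h1 : IsIso (Psi R) (Psi S) φ.toEquiv := (isIso_Psi_iff' R S _).mpr ⟨φ, fun _ => rfl⟩
      exact age_of_iso h1 n
    · intro h
      obtain ⟨h1, hh⟩ := iso_of_age hUR hUS h
      obtain ⟨φ, -⟩ := (isIso_Psi_iff' R S _).mp hh
      exact ⟨φ⟩
  have hinv : ∀ R ∈ E, ∀ s, SameR (f R) s → f' s ∈ E ∧ CIso (f' s) R := by
    intro R hR s hs
    have hUR : UH (Psi R) := (uh_Psi_iff R).mpr (hE.sub hR).2
    have h1 := hback s (ageC (Psi R)) hs
    have h2 : ∀ n, KS (fun k => ε.symm (s k)) n = age (Psi R) n := by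
      intro n
      rw [← KS_congr h1, KS_ageC]
    have h3 : IsFr (KS fun k => ε.symm (s k)) := by
      have h4 : KS (fun k => ε.symm (s k)) = age (Psi R) := funext h2
      rw [h4]
      exact age_isFr hUR
    obtain ⟨h5, h6⟩ := hL2 _ h3
    obtain ⟨h7, hh⟩ := iso_of_age hUR h5 fun n => by rw [h6, h2]
    obtain ⟨h8, h9⟩ := Psi_image hh
    obtain ⟨φ, -⟩ := (isIso_Psi_iff' R _ _).mp h9
    exact ⟨hE.inv R hR _ ⟨φ⟩, ⟨φ.symm⟩⟩
  have hgE : ∀ s, g s ∈ E := fun s => hE.two _ (Phi_EH (uh_MU s)) (Phi_height _)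
  have hgred : ∀ s t, SameR s t ↔ CIso (g s) (g t) := by
    intro s t
    constructor
    · intro h
      obtain ⟨h1, hh⟩ := (MU_iso_iff s t).mpr h
      obtain ⟨φ, -⟩ := (Phi_iff _ _ _).mp hh
      exact ⟨φ⟩
    · rintro ⟨φ⟩
      obtain ⟨h1, hh⟩ := Phi_all _ _ φ
      exact (MU_iso_iff s t).mp ⟨h1, (Phi_iff _ _ _).mpr ⟨φ, hh⟩⟩
  have hginv : ∀ s R, CIso (g s) R → SameR (g' R) s := by
    rintro s R ⟨φ⟩
    obtain ⟨h1, -, hh⟩ := decode (MU s) R φ.symm
    show Set.range (un (Del R)) = Set.range s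
    rw [range_un_iso hh, range_un_MU]
  have hf : Emb CIso SameR E Set.univ f f' := by
    refine ⟨hmf, hmf', fun _ _ => Set.mem_univ _, hred, hinv, ?_⟩
    have h1 : {s : ℕ → ℕ → Bool | s ∈ Set.univ ∧ f' s ∈ E ∧ SameR (f (f' s)) s} =
        f' ⁻¹' E ∩ {s | SameR (f (f' s)) s} := by
      ext s
      simp only [Set.mem_univ, true_and, Set.mem_ofPred_eq, Set.mem_inter_iff, Set.mem_preimage]
    rw [h1]
    exact (hmf' hE.meas).inter (measurableSet_sameR (hmf.comp hmf') measurable_id)
  have hg : Emb SameR CIso Set.univ E g g' := by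
    refine ⟨hmg, hmg', fun s _ => hgE s, fun s _ t _ => hgred s t,
      fun s _ R h => ⟨Set.mem_univ _, hginv s R h⟩, ?_⟩
    have h1 : {R : Code | R ∈ E ∧ g' R ∈ Set.univ ∧ CIso (g (g' R)) R} =
        E ∩ {R | g (g' R) ∈ EH ∧ R ∈ EH ∧ Nonempty (OfCode (g (g' R)) ≃o OfCode R)} := by
      ext R
      constructor
      · rintro ⟨h2, -, h3⟩
        exact ⟨h2, hE.sub (hgE _), hE.sub h2, h3⟩
      · rintro ⟨h2, -, -, h3⟩
        exact ⟨h2, Set.mem_univ _, h3⟩
    rw [h1]
    exact hE.meas.inter (meas_iso _ _ (hmg.comp hmg') measurable_id)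
  obtain ⟨F, G, h1, h2, h3, h4, h5, h6, h7, h8⟩ := cantor_bernstein equivalence_CIso
    equivalence_SameR hE.meas (fun R hR S h => hE.inv R hR S h) (fun _ _ _ _ => Set.mem_univ _) hf hg
  exact ⟨F, G, h1, h2, fun s => h4 s (Set.mem_univ _), h5,
    fun s t => (h6 s (Set.mem_univ _) t (Set.mem_univ _)).symm, h7,
    fun s => h8 s (Set.mem_univ _)⟩

end Pool.Agent.Work.MP_f1d084_lc
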