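import Mathlib
import Pool.Agent.Work.MP_f1d084_lc.Sp1

set_option autoImplicit false

namespace Pool.Agent.Work.MP_f1d084_lc

/-- Substitution in sequences of types. -/
def subS (m n : ℕ) (f : Fin m → Fin n) (x : ∀ k, TT k n) : ∀ k, TT k m :=
  fun k => subT k m n f (x k)

/-- The sequence of the types of all depths of a tuple. -/
def tpS {P : Type} [LE P] (n : ℕ) (a : Fin n → P) : ∀ k, TT k n := fun k => tpk k n a

/-- The sequences of types realized in `P`. -/
def spec (P : Type) [LE P] (n : ℕ) : Set (∀ k, TT k n) := {x | ∃ a : Fin n → P, tpS n a = x}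

/-- The closure properties of the family of all sequences of types realized in a countably
infinite elementarily homogeneous partial order. -/
structure IsSpec (S : ∀ n, Set (∀ k, TT k n)) : Prop where
  cnt : ∀ n, (S n).Countable
  zero : (S 0).Subsingleton
  sub : ∀ (m n : ℕ) (f : Fin m → Fin n), ∀ p ∈ S n, subS m n f p ∈ S m
  truth : ∀ n, ∀ p ∈ S n, ∀ k,
    hasT (p (k + 1)) = {t | ∃ q ∈ S (n + 1), subS n (n + 1) Fin.castSucc q = p ∧ q k = t}
  amal : ∀ (m n : ℕ) (f : Fin m → Fin n), ∀ p ∈ S n, ∀ q ∈ S (m + 1),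
    subS m (m + 1) Fin.castSucc q = subS m n f p →
      ∃ r ∈ S (n + 1), subS n (n + 1) Fin.castSucc r = p ∧ subS (m + 1) (n + 1) (ext f) r = q
  refl : ∀ n, ∀ p ∈ S n, ∀ i, (p 0 : Fin n → Fin n → Prop) i i
  trans : ∀ n, ∀ p ∈ S n, ∀ i j k, (p 0 : Fin n → Fin n → Prop) i j →
    (p 0 : Fin n → Fin n → Prop) j k → (p 0 : Fin n → Fin n → Prop) i k
  inf : ∀ n, ∃ p ∈ S n, ∀ i j, (p 0 : Fin n → Fin n → Prop) i j →
    (p 0 : Fin n → Fin n → Prop) j i → i = j

theorem subS_tpS {P : Type} [LE P] (m n : ℕ) (f : Fin m → Fin n) (a : Fin n → P) :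
    subS m n f (tpS n a) = tpS m fun i => a (f i) :=
  funext fun k => subT_tpk k m n f a

theorem tpk_map {A B : Type} [LE A] [LE B] (π : A → B) (hπ : Function.Surjective π)
    (hle : ∀ x y, π x ≤ π y ↔ x ≤ y) (k : ℕ) : ∀ (n : ℕ) (a : Fin n → A),
    tpk k n (fun i => π (a i)) = tpk k n a := by
  induction k with
  | zero =>
    intro n a
    exact funext fun i => funext fun j => propext (hle _ _)
  | succ k ih =>
    intro n a
    refine Set.ext fun t => ?_
    constructor
    · rintro ⟨y, rfl⟩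
      obtain ⟨x, rfl⟩ := hπ y
      refine ⟨x, ?_⟩
      rw [← ih, map_snc]
    · rintro ⟨x, rfl⟩
      refine ⟨π x, ?_⟩
      rw [← map_snc, ih]

theorem tpS_map {A B : Type} [LE A] [LE B] (π : A → B) (hπ : Function.Surjective π)
    (hle : ∀ x y, π x ≤ π y ↔ x ≤ y) (n : ℕ) (a : Fin n → A) :
    tpS n (fun i => π (a i)) = tpS n a :=
  funext fun k => tpk_map π hπ hle k n a

theorem tpS_iso {A B : Type} [LE A] [LE B] (f : A ≃o B) (n : ℕ) (a : Fin n → A) :
    tpS n (fun i => f (a i)) = tpS n a :=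
  tpS_map f f.surjective (fun _ _ => f.le_iff_le) n a

theorem sameType_iff_tpS {P Q : Type} [PartialOrder P] [PartialOrder Q] [Nonempty P] [Nonempty Q]
    {n : ℕ} (a : Fin n → P) (b : Fin n → Q) : SameType a b ↔ tpS n a = tpS n b := by
  rw [sameType_iff]
  exact ⟨fun h => funext h, fun h k => congrFun h k⟩

theorem sameType_cons {P Q : Type} [LE P] [LE Q] {n : ℕ} {a : Fin n → P} {b : Fin n → Q}
    {c : P} {d : Q} (h : SameType (snc a c) (snc b d)) :
    SameType (Fin.cons c a : Fin (n + 1) → P) (Fin.cons d b : Fin (n + 1) → Q) := by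
  have h1 := h.relabel (Fin.cons (Fin.last n) (fun i => i.castSucc) : Fin (n + 1) → Fin (n + 1))
  have h2 : ∀ (R : Type) (a : Fin n → R) (c : R),
      (fun i => snc a c ((Fin.cons (Fin.last n) (fun i => i.castSucc) :
        Fin (n + 1) → Fin (n + 1)) i)) = (Fin.cons c a : Fin (n + 1) → R) := by
    intro R a c
    funext i
    refine Fin.cases ?_ (fun i => ?_) i
    · simp [snc_last]
    · simp [snc_castSucc]
  rw [h2, h2] at h1
  exact h1

/-- The spectrum of a countably infinite elementarily homogeneous partial order. -/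
theorem spec_isSpec {P : Type} [PartialOrder P] [Countable P] [Infinite P] (h : ElemHomog P) :
    IsSpec (spec P) := by
  refine ⟨?_, ?_, ?_, ?_, ?_, ?_, ?_, ?_⟩
  · intro n
    have : spec P n = Set.range (tpS n) := rfl
    rw [this]
    exact Set.countable_range _
  · rintro _ ⟨a, rfl⟩ _ ⟨b, rfl⟩
    have : a = b := funext fun i => i.elim0
    rw [this]
  · rintro m n f _ ⟨a, rfl⟩
    exact ⟨_, (subS_tpS m n f a).symm⟩
  · rintro n _ ⟨a, rfl⟩ k
    refine Set.ext fun t => ?_
    constructor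
    · rintro ⟨x, rfl⟩
      refine ⟨_, ⟨snc a x, rfl⟩, ?_, rfl⟩
      rw [subS_tpS, snc_comp_castSucc]
    · rintro ⟨_, ⟨b, rfl⟩, h1, rfl⟩
      rw [subS_tpS] at h1
      obtain ⟨f, hf⟩ := h n _ a ((sameType_iff_tpS _ _).mpr h1)
      refine ⟨f (b (Fin.last n)), ?_⟩
      have h2 : snc a (f (b (Fin.last n))) = fun i => f (b i) := by
        rw [← snc_init (fun i => f (b i))]
        have h3 : (fun i : Fin n => f (b i.castSucc)) = a := funext fun i => hf i
        rw [h3]
      rw [h2]
      exact congrFun (tpS_iso f (n + 1) b) k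
  · rintro m n f _ ⟨a, rfl⟩ _ ⟨b, rfl⟩ h1
    rw [subS_tpS, subS_tpS] at h1
    obtain ⟨g, hg⟩ := h m _ _ ((sameType_iff_tpS _ _).mpr h1)
    refine ⟨_, ⟨snc a (g (b (Fin.last m))), rfl⟩, ?_, ?_⟩
    · rw [subS_tpS, snc_comp_castSucc]
    · rw [subS_tpS, snc_ext]
      have h2 : snc (fun i => a (f i)) (g (b (Fin.last m))) = fun i => g (b i) := by
        rw [← snc_init (fun i => g (b i))]
        have h3 : (fun i : Fin m => g (b i.castSucc)) = fun i => a (f i) := funext fun i => hg i
        rw [h3]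
      rw [h2]
      exact tpS_iso g (m + 1) b
  · rintro n _ ⟨a, rfl⟩ i
    exact le_refl (a i)
  · rintro n _ ⟨a, rfl⟩ i j k
    exact fun h1 h2 => le_trans (α := P) h1 h2
  · intro n
    obtain ⟨a, ha⟩ : ∃ a : Fin n → P, Function.Injective a := by
      obtain ⟨s, hs⟩ := Infinite.exists_subset_card_eq P n
      exact ⟨fun i => (s.equivFinOfCardEq hs).symm i,
        fun i j hij => (s.equivFinOfCardEq hs).symm.injective (Subtype.ext hij)⟩
    refine ⟨_, ⟨a, rfl⟩, fun i j h1 h2 => ha ?_⟩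
    exact le_antisymm (α := P) h1 h2

/-- Elementarily homogeneous partial orders are determined by their spectrum. -/
theorem iso_iff_spec {P Q : Type} [PartialOrder P] [PartialOrder Q] [Countable P] [Countable Q]
    [Nonempty P] [Nonempty Q] (hP : ElemHomog P) (hQ : ElemHomog Q) :
    Nonempty (P ≃o Q) ↔ ∀ n, spec P n = spec Q n := by
  constructor
  · rintro ⟨f⟩ n
    refine Set.ext fun x => ?_
    constructor
    · rintro ⟨a, rfl⟩
      exact ⟨fun i => f (a i), tpS_iso f n a⟩
    · rintro ⟨a, rfl⟩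
      exact ⟨fun i => f.symm (a i), tpS_iso f.symm n a⟩
  · intro h
    have key : ∀ {P Q : Type} [PartialOrder P] [PartialOrder Q] [Nonempty P] [Nonempty Q],
        ElemHomog Q → (∀ n, spec P n = spec Q n) → ExtProp P Q := by
      intro P Q _ _ _ _ hQ h n a b hab c
      have h1 : tpS (n + 1) (snc a c) ∈ spec P (n + 1) := ⟨_, rfl⟩
      rw [h] at h1
      obtain ⟨b', hb'⟩ := h1
      have h2 := congrArg (subS n (n + 1) Fin.castSucc) hb'
      rw [subS_tpS, subS_tpS, snc_comp_castSucc, ← sameType_iff_tpS] at h2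
      obtain ⟨f, hf⟩ := hQ n _ b (h2.trans hab)
      refine ⟨f (b' (Fin.last n)), sameType_cons ?_⟩
      rw [sameType_iff_tpS]
      have h4 : snc b (f (b' (Fin.last n))) = fun i => f (b' i) := by
        rw [← snc_init (fun i => f (b' i))]
        have h3 : (fun i : Fin n => f (b' i.castSucc)) = b := funext fun i => hf i
        rw [h3]
      rw [h4, tpS_iso, hb']
    have h0 : SameType (Fin.elim0 : Fin 0 → P) (Fin.elim0 : Fin 0 → Q) := by
      rw [sameType_iff_tpS]
      have h1 : tpS 0 (Fin.elim0 : Fin 0 → P) ∈ spec P 0 := ⟨_, rfl⟩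
      rw [h] at h1
      obtain ⟨b, hb⟩ := h1
      have h2 : b = Fin.elim0 := funext fun i => i.elim0
      rw [h2] at hb
      exact hb.symm
    obtain ⟨f, -⟩ := iso_of_ext_tuple (key hQ h) (key hP fun n => (h n).symm) _ _ h0
    exact ⟨f⟩

/-- `ℕ` with the relation `r`. -/
def NR (_ : ℕ → ℕ → Prop) : Type := ℕ

instance (r : ℕ → ℕ → Prop) : LE (NR r) := ⟨r⟩

/-- Every family with the closure properties is the spectrum of a countably infinite elementarily
homogeneous partial order. -/
theorem exists_of_isSpec {S : ∀ n, Set (∀ k, TT k n)} (hS : IsSpec S) :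
    ∃ (P : Type) (_ : PartialOrder P), Countable P ∧ Infinite P ∧ ElemHomog P ∧
      ∀ n, spec P n = S n := by
  classical
  obtain ⟨τ, hτ1, hτ2, hτ3⟩ := exists_limit (X := fun n => ∀ k, TT k n) subS
    (fun l m n f g x => funext fun k => subT_comp k l m n f g (x k))
    (fun n x => funext fun k => subT_id k n (x k)) S hS.cnt hS.zero
    (by
      obtain ⟨p, hp, -⟩ := hS.inf 1
      exact ⟨p, hp⟩) hS.sub hS.amal
  let r : ℕ → ℕ → Prop := fun x y => (τ 2 ![x, y] 0 : Fin 2 → Fin 2 → Prop) 0 1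
  have hr : ∀ (n : ℕ) (a : Fin n → ℕ) (i j : Fin n),
      (τ n a 0 : Fin n → Fin n → Prop) i j ↔ r (a i) (a j) := by
    intro n a i j
    have h1 := hτ2 2 n ![i, j] a
    have h2 : (fun k => a (![i, j] k)) = ![a i, a j] := by
      funext k
      refine Fin.cases rfl (fun k => ?_) k
      refine Fin.cases rfl (fun k => k.elim0) k
    rw [h2] at h1
    show _ ↔ (τ 2 ![a i, a j] 0 : Fin 2 → Fin 2 → Prop) 0 1
    rw [← h1]
    exact Iff.rfl
  have htp : ∀ (k n : ℕ) (a : Fin n → ℕ), tpk (P := NR r) k n a = τ n a k := by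
    intro k
    induction k with
    | zero =>
      intro n a
      exact funext fun i => funext fun j => propext (hr n a i j).symm
    | succ k ih =>
      intro n a
      apply hasT_inj
      rw [hS.truth n (τ n a) (hτ1 n a) k]
      refine Set.ext fun t => ?_
      constructor
      · rintro ⟨x, rfl⟩
        refine ⟨τ (n + 1) (snc a x), hτ1 _ _, ?_, (ih (n + 1) (snc a x)).symm⟩
        rw [hτ2]
        exact congrArg (τ n) (snc_comp_castSucc a x)
      · rintro ⟨q, hq, h1, rfl⟩
        obtain ⟨x, hx⟩ := hτ3 n a q hq h1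
        exact ⟨x, (ih (n + 1) (snc a x)).trans (congrFun hx k)⟩
  have htS : ∀ (n : ℕ) (a : Fin n → ℕ), tpS (P := NR r) n a = τ n a :=
    fun n a => funext fun k => htp k n a
  have hrefl : ∀ x, r x x := by
    intro x
    have h1 := hS.refl 1 _ (hτ1 1 ![x]) 0
    exact (hr 1 ![x] 0 0).mp h1
  have htrans : ∀ x y z, r x y → r y z → r x z := by
    intro x y z hxy hyz
    have h1 := hS.trans 3 _ (hτ1 3 ![x, y, z]) 0 1 2 ((hr 3 ![x, y, z] 0 1).mpr hxy)
      ((hr 3 ![x, y, z] 1 2).mpr hyz)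
    exact (hr 3 ![x, y, z] 0 2).mp h1
  let _ : Preorder (NR r) := { le := r, le_refl := hrefl, le_trans := htrans }
  have hreal : ∀ n, ∀ p ∈ S n, ∃ a : Fin n → ℕ, τ n a = p := by
    intro n
    induction n with
    | zero =>
      intro p hp
      exact ⟨Fin.elim0, hS.zero (hτ1 0 _) hp⟩
    | succ n ih =>
      intro p hp
      obtain ⟨a, ha⟩ := ih (subS n (n + 1) Fin.castSucc p) (hS.sub _ _ _ p hp)
      obtain ⟨x, hx⟩ := hτ3 n a p hp ha.symm
      exact ⟨_, hx⟩
  let Q := Antisymmetrization (NR r) (· ≤ ·)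
  let π : NR r → Q := toAntisymmetrization (· ≤ ·)
  have hπ : Function.Surjective π := by
    intro y
    exact ⟨ofAntisymmetrization (· ≤ ·) y, toAntisymmetrization_ofAntisymmetrization _ _⟩
  have hle : ∀ x y, π x ≤ π y ↔ x ≤ y := fun x y => Iff.rfl
  have htQ : ∀ (n : ℕ) (a : Fin n → ℕ), tpS n (fun i => π (a i)) = τ n a :=
    fun n a => (tpS_map π hπ hle n a).trans (htS n a)
  have hcN : Countable (NR r) := inferInstanceAs (Countable ℕ)
  have hnN : Nonempty (NR r) := inferInstanceAs (Nonempty ℕ)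
  have hcQ : Countable Q := hπ.countable
  have hnQ : Nonempty Q := hnN.map π
  have hlift : ∀ (n : ℕ) (b : Fin n → Q), ∃ a : Fin n → ℕ, (fun i => π (a i)) = b := by
    intro n b
    choose a ha using fun i => hπ (b i)
    exact ⟨a, funext ha⟩
  refine ⟨Q, inferInstance, hcQ, ?_, ?_, ?_⟩
  · by_contra hfin
    rw [not_infinite_iff_finite] at hfin
    obtain ⟨p, hp, hpi⟩ := hS.inf (Nat.card Q + 1)
    obtain ⟨a, ha⟩ := hreal _ p hp
    have hinj : Function.Injective fun i => π (a i) := by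
      intro i j hij
      have h1 : r (a i) (a j) := (hle _ _).mp hij.le
      have h2 : r (a j) (a i) := (hle _ _).mp hij.ge
      have h3 := (hr _ a i j).mpr h1
      have h4 := (hr _ a j i).mpr h2
      rw [ha] at h3 h4
      exact hpi i j h3 h4
    have := Nat.card_le_card_of_injective _ hinj
    rw [Nat.card_fin] at this
    omega
  · rw [elemHomog_iff]
    intro n a b hab c
    obtain ⟨a', rfl⟩ := hlift n a
    obtain ⟨b', rfl⟩ := hlift n b
    obtain ⟨c', rfl⟩ := hπ c
    rw [sameType_iff_tpS, htQ, htQ] at hab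
    obtain ⟨x, hx⟩ := hτ3 n b' (τ (n + 1) (snc a' c')) (hτ1 _ _) (by
      rw [hτ2]
      exact (congrArg (τ n) (snc_comp_castSucc a' c')).trans hab)
    have h9 : ∀ (a : Fin n → ℕ) (x : ℕ),
        tpS (n + 1) (snc (fun i => π (a i)) (π x)) = τ (n + 1) (snc a x) := by
      intro a x
      have h10 : snc (fun i => π (a i)) (π x) = fun i => π (snc a x i) :=
        (map_snc (P := NR r) π a x).symm
      rw [h10]
      exact htQ _ _
    refine ⟨π x, sameType_cons ?_⟩
    rw [sameType_iff_tpS]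
    exact (h9 a' c').trans (hx.symm.trans (h9 b' x).symm)
  · intro n
    refine Set.ext fun p => ?_
    constructor
    · rintro ⟨b, rfl⟩
      obtain ⟨a, rfl⟩ := hlift n b
      rw [htQ]
      exact hτ1 n a
    · intro hp
      obtain ⟨a, ha⟩ := hreal n p hp
      exact ⟨fun i => π (a i), (htQ n a).trans ha⟩

end Pool.Agent.Work.MP_f1d084_lc
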