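import Mathlib
import Pool.Agent.Work.MP_f1d084_lc.RealB
import Pool.Agent.Work.MP_f1d084_lc.Sp2

set_option autoImplicit false

namespace Pool.Agent.Work.MP_f1d084_lc

/-- Exactly which families are spectra. -/
theorem spec_iff (S : ∀ n, Set (∀ k, TT k n)) :
    (∃ (P : Type) (_ : PartialOrder P), Countable P ∧ Infinite P ∧ ElemHomog P ∧ spec P = S) ↔
      IsSpec S := by
  constructor
  · rintro ⟨P, _, _, _, h, rfl⟩
    exact spec_isSpec h
  · intro h
    obtain ⟨P, i, h1, h2, h3, h4⟩ := exists_of_isSpec h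
    exact ⟨P, i, h1, h2, h3, funext h4⟩

/-- **Classification by Fraïssé classes.** -/
theorem classFraisse {E : Set Code} (hE : Cls E) :
    ∃ (F : Code → Str arU) (u : Code → ℕ → ℕ) (G : (ℕ → ℕ × Str arU) → Code),
      Measurable F ∧ Measurable u ∧ Measurable G ∧
      (∀ R ∈ E, UH (F R) ∧ IsFr (age (F R))) ∧
      (∀ R ∈ E, ∀ S ∈ E, (Nonempty (OfCode R ≃o OfCode S) ↔ age (F R) = age (F S))) ∧
      (∀ K, IsFr K → ∃ R ∈ E, age (F R) = K) ∧
      (∀ s, IsFr (KS s) → G s ∈ E ∧ age (F (G s)) = KS s) ∧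
      (∀ R ∈ E, Function.Injective (u R)) ∧
      (∀ R ∈ E, ∀ S ∈ E, ∀ g : Equiv.Perm ℕ, IsIso (F R) (F S) g ↔
        ∃ f : OfCode R ≃o OfCode S, ∀ x, f (u R x) = u S (g x)) ∧
      (∀ R ∈ E, ∀ S ∈ E, ∀ f : OfCode R ≃o OfCode S,
        ∃ g : Equiv.Perm ℕ, ∀ x, f (u R x) = u S (g x)) ∧
      ∀ R ∈ E, ∀ p : OfCode R, ∃ K : Finset ℕ, ∀ (S : Code) (f f' : OfCode R ≃o OfCode S),
        (∀ x ∈ K, f (u R x) = f' (u R x)) → f p = f' p := by
  obtain ⟨F, G, u, hF, hG, hu, h1, h2, h3, h4, h5, h6, h7, h8⟩ := equivB hE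
  obtain ⟨L, hL, hL2⟩ := exists_borel_limit arU
  refine ⟨F, u, fun s => G (L s), hF, hu, hG.comp hL, fun R hR => ⟨h1 R hR, age_isFr (h1 R hR)⟩,
    ?_, ?_, ?_, h5, h6, h7, h8⟩
  · intro R hR S hS
    constructor
    · rintro ⟨f⟩
      obtain ⟨g, hg⟩ := h7 R hR S hS f
      have h9 : IsIso (F R) (F S) g := (h6 R hR S hS g).mpr ⟨f, hg⟩
      exact funext fun n => age_of_iso h9 n
    · intro h
      obtain ⟨g, hg⟩ := iso_of_age (h1 R hR) (h1 S hS) fun n => congrFun h n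
      obtain ⟨f, -⟩ := (h6 R hR S hS g).mp hg
      exact ⟨f⟩
  · intro K hK
    obtain ⟨M, h9, h10⟩ := exists_fraisse_limit hK
    refine ⟨_, h2 _ h9, ?_⟩
    obtain ⟨g, hg⟩ := h4 _ h9
    exact funext fun n => (age_of_iso hg n).trans (h10 n)
  · intro s hs
    obtain ⟨h9, h10⟩ := hL2 s hs
    refine ⟨h2 _ h9, ?_⟩
    obtain ⟨g, hg⟩ := h4 _ h9
    exact funext fun n => (age_of_iso hg n).trans (h10 n)

/-- The class of all elementarily homogeneous posets. -/
theorem cls_EH : Cls EH := by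
  refine ⟨subset_rfl, measurableSet_EH, ?_, fun R hR _ => hR⟩
  rintro R ⟨⟨h1, h2, h3⟩, h4⟩ S ⟨f⟩
  refine ⟨⟨fun a => ?_, fun a b => ?_, fun a b c => ?_⟩, ElemHomog.of_iso f h4⟩
  · rw [← f.symm.le_iff_le]
    exact h1 _
  · intro hab hba
    have := h2 _ _ (f.symm.le_iff_le.mpr hab) (f.symm.le_iff_le.mpr hba)
    exact f.symm.injective this
  · intro hab hbc
    rw [← f.symm.le_iff_le]
    exact h3 _ _ _ (f.symm.le_iff_le.mpr hab) (f.symm.le_iff_le.mpr hbc)

/-- The class of the elementarily homogeneous posets of height at most two. -/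
def EH2 : Set Code := {R | R ∈ EH ∧ ∀ a b d : OfCode R, a ≤ b → b ≤ d → a = b ∨ b = d}

theorem cls_EH2 : Cls EH2 := by
  refine ⟨fun R hR => hR.1, ?_, ?_, fun R hR h => ⟨hR, h⟩⟩
  · have h1 : EH2 = EH ∩ {R | ∀ a b d : ℕ, R a b = true → R b d = true → a = b ∨ b = d} := rfl
    rw [h1]
    refine measurableSet_EH.inter (measurableSet_setOfPred.mpr ?_)
    have h2 : ∀ a b : ℕ, Measurable fun R : Code => R a b := fun a b =>
      (measurable_pi_apply b).comp (measurable_pi_apply a)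
    refine Measurable.forall fun a => Measurable.forall fun b => Measurable.forall fun d => ?_
    exact (meas_beq (h2 a b) measurable_const).imp
      ((meas_beq (h2 b d) measurable_const).imp measurable_const)
  · rintro R ⟨hR, h⟩ S ⟨f⟩
    refine ⟨cls_EH.inv R hR S ⟨f⟩, fun a b d h1 h2 => ?_⟩
    rcases h _ _ _ (f.symm.le_iff_le.mpr h1) (f.symm.le_iff_le.mpr h2) with h3 | h3
    · exact Or.inl (f.symm.injective h3)
    · exact Or.inr (f.symm.injective h3)

end Pool.Agent.Work.MP_f1d084_lc
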