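import Mathlib
import Pool.Agent.Work.MP_f1d084_lc.Lin1

set_option autoImplicit false

namespace Pool.Agent.Work.MP_f1d084_lc

open FirstOrder

variable {s t : ℕ → ℕ → Bool}

theorem lin_lt_of_idx {a b : Lin s} (h : a.idx < b.idx) : a < b := (lin_lt_iff a b).mpr (Or.inl h)

theorem lin_cov_iff (u v : Lin s) : cov (Lin s) u v ↔ ∃ (q : ℚ) (j : ℕ) (e : ℕ)
    (h : e + 1 < j + 2), u = ⟨q, Sum.inl ⟨j, ⟨e, by omega⟩⟩⟩ ∧
      v = ⟨q, Sum.inl ⟨j, ⟨e + 1, h⟩⟩⟩ := by
  constructor
  · rintro ⟨⟨h1, h2⟩, h3⟩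
    have hlt : u < v := lt_of_le_not_ge h1 h2
    have hno : ∀ w : Lin s, u < w → ¬ w < v := fun w hw hw' =>
      absurd (h3 w (not_le.mpr hw)) (not_le.mpr hw')
    obtain ⟨q, c⟩ := u
    obtain ⟨q', d⟩ := v
    rcases (lin_lt_iff _ _).mp hlt with h4 | ⟨h4, h5⟩
    · exfalso
      obtain ⟨r, hr1, hr2⟩ := exists_between h4
      exact hno ⟨r, c⟩ (lin_lt_of_idx hr1) (lin_lt_of_idx hr2)
    · have h4' : q = q' := h4
      subst h4'
      simp only at h5
      rcases h5 with h5 | ⟨h5, h6⟩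
      · exfalso
        rcases c with ⟨j, e⟩ | ⟨i, y⟩
        · rcases d with ⟨j', e'⟩ | ⟨i', y'⟩
          · -- two blocks
            simp only [rk] at h5
            refine hno ⟨q, Sum.inr (sw (s (col q)) j, 0)⟩ ?_ ?_
            · rw [lin_lt_iff]
              right
              refine ⟨rfl, Or.inl ?_⟩
              simp only [rk]
              omega
            · rw [lin_lt_iff]
              right
              refine ⟨rfl, Or.inl ?_⟩
              simp only [rk]
              omega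
          · -- block, dense piece
            simp only [rk] at h5
            refine hno ⟨q, Sum.inr (i', y' - 1)⟩ ?_ ?_
            · rw [lin_lt_iff]
              right
              refine ⟨rfl, Or.inl ?_⟩
              simp only [rk]
              omega
            · rw [lin_lt_iff]
              right
              refine ⟨rfl, Or.inr ⟨rfl, ?_⟩⟩
              simp only [inner]
              linarith
        · -- dense piece
          refine hno ⟨q, Sum.inr (i, y + 1)⟩ ?_ ?_
          · rw [lin_lt_iff]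
            right
            refine ⟨rfl, Or.inr ⟨rfl, ?_⟩⟩
            simp only [inner]
            linarith
          · rw [lin_lt_iff]
            right
            exact ⟨rfl, Or.inl h5⟩
      · rcases c with ⟨j, e⟩ | ⟨i, y⟩ <;> rcases d with ⟨j', e'⟩ | ⟨i', y'⟩
        · simp only [rk, inner] at h5 h6
          have h7 : j = j' := sw_inj (s (col q)) (by omega)
          subst h7
          have h8 : (e : ℕ) < (e' : ℕ) := by exact_mod_cast h6
          have h9 : (e' : ℕ) = e + 1 := by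
            by_contra h10
            have h11 : (e : ℕ) + 1 < j + 2 := by have := e'.2; omega
            refine hno ⟨q, Sum.inl ⟨j, ⟨e + 1, h11⟩⟩⟩ ?_ ?_
            · rw [lin_lt_iff]
              right
              refine ⟨rfl, Or.inr ⟨rfl, ?_⟩⟩
              simp only [inner]
              push_cast
              linarith
            · rw [lin_lt_iff]
              right
              refine ⟨rfl, Or.inr ⟨rfl, ?_⟩⟩
              simp only [inner]
              have : (e : ℕ) + 1 < e' := by omega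
              exact_mod_cast this
          refine ⟨q, j, e, by have := e'.2; omega, rfl, ?_⟩
          exact congrArg (fun z : Fin (j + 2) => (⟨q, Sum.inl ⟨j, z⟩⟩ : Lin s)) (Fin.ext h9)
        · simp only [rk] at h5; omega
        · simp only [rk] at h5; omega
        · exfalso
          simp only [rk, inner] at h5 h6
          have h7 : i = i' := by omega
          subst h7
          obtain ⟨z, hz1, hz2⟩ := exists_between h6
          refine hno ⟨q, Sum.inr (i, z)⟩ ?_ ?_
          · rw [lin_lt_iff]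
            right
            exact ⟨rfl, Or.inr ⟨rfl, hz1⟩⟩
          · rw [lin_lt_iff]
            right
            exact ⟨rfl, Or.inr ⟨rfl, hz2⟩⟩
  · rintro ⟨q, j, e, h, rfl, rfl⟩
    have hlt : (⟨q, Sum.inl ⟨j, ⟨e, by omega⟩⟩⟩ : Lin s) < ⟨q, Sum.inl ⟨j, ⟨e + 1, h⟩⟩⟩ := by
      rw [lin_lt_iff]
      right
      refine ⟨rfl, Or.inr ⟨rfl, ?_⟩⟩
      simp only [inner]
      push_cast
      linarith
    refine ⟨⟨hlt.le, not_le.mpr hlt⟩, fun w hw => ?_⟩
    rw [not_le] at hw
    by_contra hw'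
    rw [not_le] at hw'
    obtain ⟨q', c⟩ := w
    rw [lin_lt_iff] at hw hw'
    rcases hw with hw | ⟨hw1, hw2⟩
    · rcases hw' with hw' | ⟨hw'1, -⟩
      · exact absurd (hw.trans hw') (lt_irrefl _)
      · simp only at hw hw'1
        rw [hw'1] at hw
        exact lt_irrefl _ hw
    · simp only at hw1
      subst hw1
      rcases hw' with hw' | ⟨-, hw'2⟩
      · exact lt_irrefl _ hw'
      · simp only at hw2 hw'2
        rcases c with ⟨j', e'⟩ | ⟨i', y'⟩
        · simp only [rk, inner] at hw2 hw'2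
          rcases hw2 with hw2 | ⟨hw2, hw3⟩
          · rcases hw'2 with hw'2 | ⟨hw'2, -⟩ <;> omega
          · rcases hw'2 with hw'2 | ⟨hw'2, hw'3⟩
            · omega
            · have h1 : e < (e' : ℕ) := by exact_mod_cast hw3
              have h2 : (e' : ℕ) < e + 1 := by exact_mod_cast hw'3
              omega
        · simp only [rk] at hw2 hw'2
          rcases hw2 with hw2 | ⟨hw2, -⟩
          · rcases hw'2 with hw'2 | ⟨hw'2, -⟩ <;> omega
          · omega

theorem lin_pre_inr (k : ℕ) (q : ℚ) (i : ℕ) (y : ℚ) :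
    pre k (Lin s) ⟨q, Sum.inr (i, y)⟩ ↔ k = 0 := by
  cases k with
  | zero =>
    simp only [pre, iff_true]
    intro w hw
    rw [lin_cov_iff] at hw
    obtain ⟨q', j, e, h, -, h2⟩ := hw
    have := congrArg Lin.pc h2
    simp at this
  | succ k =>
    simp only [pre, Nat.succ_ne_zero, iff_false]
    rintro ⟨w, hw, -⟩
    rw [lin_cov_iff] at hw
    obtain ⟨q', j, e, h, -, h2⟩ := hw
    have := congrArg Lin.pc h2
    simp at this

theorem lin_suc_inr (k : ℕ) (q : ℚ) (i : ℕ) (y : ℚ) :
    suc k (Lin s) ⟨q, Sum.inr (i, y)⟩ ↔ k = 0 := by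
  cases k with
  | zero =>
    simp only [suc, iff_true]
    intro w hw
    rw [lin_cov_iff] at hw
    obtain ⟨q', j, e, h, h2, -⟩ := hw
    have := congrArg Lin.pc h2
    simp at this
  | succ k =>
    simp only [suc, Nat.succ_ne_zero, iff_false]
    rintro ⟨w, hw, -⟩
    rw [lin_cov_iff] at hw
    obtain ⟨q', j, e, h, h2, -⟩ := hw
    have := congrArg Lin.pc h2
    simp at this

theorem lin_mk_eq {q q' : ℚ} {j j' : ℕ} {e : Fin (j + 2)} {e' : Fin (j' + 2)}
    (h : (⟨q, Sum.inl ⟨j, e⟩⟩ : Lin s) = ⟨q', Sum.inl ⟨j', e'⟩⟩) : q = q' ∧ j = j' ∧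
      (e : ℕ) = e' := by
  have h1 := congrArg Lin.idx h
  have h2 := congrArg Lin.pc h
  have h3 := Sum.inl.inj h2
  have h4 : j = j' := congrArg Sigma.fst h3
  subst h4
  have h5 : e = e' := by simpa using h3
  exact ⟨h1, rfl, congrArg _ h5⟩

theorem lin_pre_inl (k : ℕ) : ∀ (q : ℚ) (j : ℕ) (e : Fin (j + 2)),
    pre k (Lin s) ⟨q, Sum.inl ⟨j, e⟩⟩ ↔ k = (e : ℕ) := by
  induction k with
  | zero =>
    intro q j e
    constructor
    · intro h
      by_contra he
      refine h ⟨q, Sum.inl ⟨j, ⟨e - 1, by have := e.2; omega⟩⟩⟩ ?_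
      rw [lin_cov_iff]
      refine ⟨q, j, e - 1, by have := e.2; omega, rfl, ?_⟩
      have : e = ⟨e - 1 + 1, by have := e.2; omega⟩ := Fin.ext (by simp only; omega)
      rw [← this]
    · intro h w hw
      rw [lin_cov_iff] at hw
      obtain ⟨q', j', e', h', -, h2⟩ := hw
      have := (lin_mk_eq h2).2.2
      simp only at this
      omega
  | succ k ih =>
    intro q j e
    constructor
    · rintro ⟨w, hw, hw'⟩
      rw [lin_cov_iff] at hw
      obtain ⟨q', j', e', h', rfl, h2⟩ := hw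
      rw [ih] at hw'
      have := (lin_mk_eq h2).2.2
      simp only at this hw'
      omega
    · intro h
      refine ⟨⟨q, Sum.inl ⟨j, ⟨k, by have := e.2; omega⟩⟩⟩, ?_, ?_⟩
      · rw [lin_cov_iff]
        refine ⟨q, j, k, by have := e.2; omega, rfl, ?_⟩
        have : e = ⟨k + 1, by have := e.2; omega⟩ := Fin.ext (by simp only; omega)
        rw [← this]
      · rw [ih]

theorem lin_suc_inl (k : ℕ) : ∀ (q : ℚ) (j : ℕ) (e : Fin (j + 2)),
    suc k (Lin s) ⟨q, Sum.inl ⟨j, e⟩⟩ ↔ k + (e : ℕ) = j + 1 := by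
  induction k with
  | zero =>
    intro q j e
    constructor
    · intro h
      by_contra he
      refine h ⟨q, Sum.inl ⟨j, ⟨e + 1, by have := e.2; omega⟩⟩⟩ ?_
      rw [lin_cov_iff]
      exact ⟨q, j, e, by have := e.2; omega, rfl, rfl⟩
    · intro h w hw
      rw [lin_cov_iff] at hw
      obtain ⟨q', j', e', h', h2, -⟩ := hw
      have h3 := (lin_mk_eq h2).2.2
      have h4 := (lin_mk_eq h2).2.1
      simp only at h3
      omega
  | succ k ih =>
    intro q j e
    constructor
    · rintro ⟨w, hw, hw'⟩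
      rw [lin_cov_iff] at hw
      obtain ⟨q', j', e', h', h2, rfl⟩ := hw
      rw [ih] at hw'
      have h3 := (lin_mk_eq h2).2.2
      have h4 := (lin_mk_eq h2).2.1
      simp only at h3 hw'
      omega
    · intro h
      refine ⟨⟨q, Sum.inl ⟨j, ⟨e + 1, by omega⟩⟩⟩, ?_, ?_⟩
      · rw [lin_cov_iff]
        exact ⟨q, j, e, by omega, rfl, rfl⟩
      · rw [ih]
        simp only
        omega

theorem lin_fst_iff (j : ℕ) (u : Lin s) : fst j (Lin s) u ↔ u.pc = Sum.inl ⟨j, 0⟩ := by
  obtain ⟨q, c⟩ := u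
  rcases c with ⟨j', e⟩ | ⟨i, y⟩
  · unfold fst
    rw [lin_pre_inl, lin_suc_inl]
    constructor
    · rintro ⟨h1, h2⟩
      have h3 : j' = j := by omega
      subst h3
      have h4 : e = 0 := Fin.ext h1.symm
      rw [h4]
    · intro h
      have h1 := Sum.inl.inj h
      have h2 : j' = j := congrArg Sigma.fst h1
      subst h2
      have h3 : e = 0 := by simpa using h1
      subst h3
      simp
  · unfold fst
    rw [lin_pre_inr, lin_suc_inr]
    simp

theorem lin_sc_iff (u v : Lin s) : sc (Lin s) u v ↔ u.idx = v.idx := by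
  have hbet : ∀ u v a : Lin s, (¬ (u ≤ a ∧ a ≤ v) → (v ≤ a ∧ a ≤ u)) ↔
      ((u ≤ a ∧ a ≤ v) ∨ (v ≤ a ∧ a ≤ u)) := by
    intro u v a
    tauto
  constructor
  · intro h
    by_contra hne
    have key : ∀ u v : Lin s, u.idx < v.idx → ¬ sc (Lin s) u v := by
      intro u v huv h
      obtain ⟨q1, h1, h2⟩ := exists_between huv
      obtain ⟨q2, h3, h4⟩ := exists_between h2
      have h5 := h ⟨q1, Sum.inl ⟨0, 0⟩⟩ ⟨q2, Sum.inl ⟨0, 0⟩⟩
        (fun h => absurd ⟨(lin_lt_of_idx h1).le, (lin_lt_of_idx h2).le⟩ h)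
        (fun h => absurd ⟨(lin_lt_of_idx (h1.trans h3)).le, (lin_lt_of_idx h4).le⟩ h)
        ((lin_fst_iff _ _).mpr rfl) ((lin_fst_iff _ _).mpr rfl)
      exact absurd h5.2 (not_le.mpr (lin_lt_of_idx h3))
    rcases lt_or_gt_of_ne hne with h1 | h1
    · exact key u v h1 h
    · refine key v u h1 ?_
      intro a b ha hb
      exact h a b (fun h' => by
        by_contra h''
        exact h' (ha h'')) (fun h' => by
        by_contra h''
        exact h' (hb h''))
  · intro h a b ha hb hfa hfb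
    rw [hbet] at ha hb
    rw [lin_fst_iff] at hfa hfb
    have hidx : ∀ a : Lin s, ((u ≤ a ∧ a ≤ v) ∨ (v ≤ a ∧ a ≤ u)) → a.idx = u.idx := by
      intro a ha
      have mono : ∀ {x y : Lin s}, x ≤ y → x.idx ≤ y.idx := by
        intro x y hxy
        rcases (lin_le_iff _ _).mp hxy with h1 | ⟨h1, -⟩
        · exact h1.le
        · exact h1.le
      rcases ha with ⟨h1, h2⟩ | ⟨h1, h2⟩
      · exact le_antisymm (h ▸ mono h2) (mono h1)
      · exact le_antisymm (mono h2) (h ▸ mono h1)
    have h1 : a = b := Lin.ext ((hidx a ha).trans (hidx b hb).symm) (hfa.trans hfb.symm)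
    rw [h1]
    exact ⟨le_rfl, le_rfl⟩

theorem lin_blw_iff (j : ℕ) (u : Lin s) :
    blw j (Lin s) u ↔ 2 * sw (s (col u.idx)) j ≤ rk (s (col u.idx)) u.pc := by
  obtain ⟨q, c⟩ := u
  constructor
  · rintro ⟨⟨q', d⟩, ⟨h1, h2⟩, h3⟩
    rw [lin_sc_iff] at h1
    rw [lin_fst_iff] at h2
    simp only at h1 h2
    subst h1 h2
    rcases (lin_le_iff _ _).mp h3 with h4 | ⟨-, h4⟩
    · exact absurd h4 (lt_irrefl _)
    · simp only [rk] at h4 ⊢
      rcases h4 with h4 | ⟨h4, -⟩
      · exact h4.le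
      · exact h4.le
  · intro h
    refine ⟨⟨q, Sum.inl ⟨j, 0⟩⟩, ⟨(lin_sc_iff _ _).mpr rfl, (lin_fst_iff _ _).mpr rfl⟩, ?_⟩
    rw [lin_le_iff]
    right
    refine ⟨rfl, ?_⟩
    simp only at h
    rcases h.lt_or_eq with h1 | h1
    · left
      simp only [rk] at h1 ⊢
      exact h1
    · right
      refine ⟨by simp only [rk] at h1 ⊢; exact h1, ?_⟩
      rcases c with ⟨j', e⟩ | ⟨i, y⟩
      · simp [inner]
      · simp only [rk] at h1
        omega

theorem lin_lbit_iff (k : ℕ) (u : Lin s) : lbit k (Lin s) u ↔ s (col u.idx) k = true := by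
  obtain ⟨q, c⟩ := u
  have hsw : ∀ x : ℕ → Bool, (sw x (2 * k + 1) < sw x (2 * k)) ↔ x k = true := by
    intro x
    unfold sw
    rw [show (2 * k + 1) / 2 = k by omega, show 2 * k / 2 = k by omega]
    by_cases h : x k = true
    · rw [if_pos h, if_pos h, if_neg (by omega), if_pos (by omega)]
      simp only [h, iff_true]
      omega
    · rw [if_neg h, if_neg h]
      exact iff_of_false (by omega) h
  constructor
  · rintro ⟨⟨q', d⟩, ⟨h1, h2⟩, ⟨q'', d'⟩, ⟨h3, h4⟩, h5⟩
    rw [lin_sc_iff] at h1 h3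
    rw [lin_fst_iff] at h2 h4
    simp only at h1 h2 h3 h4
    subst h1 h3 h2 h4
    rcases (lin_le_iff _ _).mp h5 with h6 | ⟨-, h6⟩
    · exact absurd h6 (lt_irrefl _)
    · simp only [rk] at h6 ⊢
      rw [← hsw]
      rcases h6 with h6 | ⟨h6, -⟩
      · omega
      · exfalso
        have := sw_inj (s (col q)) (by omega : sw (s (col q)) (2 * k + 1) = sw (s (col q)) (2 * k))
        omega
  · intro h
    refine ⟨⟨q, Sum.inl ⟨2 * k, 0⟩⟩, ⟨(lin_sc_iff _ _).mpr rfl, (lin_fst_iff _ _).mpr rfl⟩,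
      ⟨q, Sum.inl ⟨2 * k + 1, 0⟩⟩, ⟨(lin_sc_iff _ _).mpr rfl, (lin_fst_iff _ _).mpr rfl⟩, ?_⟩
    rw [lin_le_iff]
    right
    refine ⟨rfl, Or.inl ?_⟩
    simp only [rk] at h ⊢
    rw [← hsw] at h
    omega

end Pool.Agent.Work.MP_f1d084_lc
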