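import Mathlib
import Pool.Agent.Work.MP_f1d084_lc.Lin2

set_option autoImplicit false

namespace Pool.Agent.Work.MP_f1d084_lc

open FirstOrder

variable {s t : ℕ → ℕ → Bool}

/-- The same block element or the same dense piece. -/
def PcSame : (Σ j : ℕ, Fin (j + 2)) ⊕ (ℕ × ℚ) → (Σ j : ℕ, Fin (j + 2)) ⊕ (ℕ × ℚ) → Prop
  | .inl u, .inl v => u = v
  | .inr u, .inr v => u.1 = v.1
  | _, _ => False

theorem lin_same {n : ℕ} {a : Fin n → Lin s} {b : Fin n → Lin t} (h : SameType a b) (i : Fin n) :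
    s (col (a i).idx) = t (col (b i).idx) ∧ PcSame (a i).pc (b i).pc := by
  have h1 : s (col (a i).idx) = t (col (b i).idx) := by
    funext k
    have := (isFO_lbit k i).iff h
    rw [lin_lbit_iff, lin_lbit_iff] at this
    rw [Bool.eq_iff_iff]
    exact this
  refine ⟨h1, ?_⟩
  have hp := fun k => (isFO_pre k i).iff h
  have hs := fun k => (isFO_suc k i).iff h
  have hb := fun k => (isFO_blw k i).iff h
  generalize a i = u at *
  generalize b i = w at *
  obtain ⟨q, c⟩ := u
  obtain ⟨q', d⟩ := w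
  rcases c with ⟨j, e⟩ | ⟨m, y⟩ <;> rcases d with ⟨j', e'⟩ | ⟨m', y'⟩
  · have h2 := (hp e).mp ((lin_pre_inl _ _ _ _).mpr rfl)
    rw [lin_pre_inl] at h2
    have h3 := (hs (j + 1 - e)).mp ((lin_suc_inl _ _ _ _).mpr (by have := e.2; omega))
    rw [lin_suc_inl] at h3
    have h4 : j = j' := by have := e.2; omega
    subst h4
    have h5 : e = e' := Fin.ext h2
    subst h5
    rfl
  · exfalso
    have h2 := (hp e).mp ((lin_pre_inl _ _ _ _).mpr rfl)
    rw [lin_pre_inr] at h2
    have h3 := (hs (j + 1 - e)).mp ((lin_suc_inl _ _ _ _).mpr (by have := e.2; omega))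
    rw [lin_suc_inr] at h3
    omega
  · exfalso
    have h2 := (hp e').mpr ((lin_pre_inl _ _ _ _).mpr rfl)
    rw [lin_pre_inr] at h2
    have h3 := (hs (j' + 1 - e')).mpr ((lin_suc_inl _ _ _ _).mpr (by have := e'.2; omega))
    rw [lin_suc_inr] at h3
    omega
  · simp only at h1
    have h2 : ∀ k, sw (s (col q)) k ≤ m ↔ sw (s (col q)) k ≤ m' := by
      intro k
      have := hb k
      rw [lin_blw_iff, lin_blw_iff] at this
      simp only [rk, ← h1] at this
      omega
    have h3 := h2 (sw (s (col q)) m)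
    have h4 := h2 (sw (s (col q)) m')
    rw [sw_sw] at h3 h4
    change m = m'
    omega

/-- Back and forth for coloured rationals. -/
theorem col_forth {X : Type} (c c' : ℚ → X) (h1 : ∀ p a b, a < b → ∃ q, a < q ∧ q < b ∧ c' q = c p)
    (l : List (ℚ × ℚ)) (hl : ∀ x ∈ l, c x.1 = c' x.2)
    (hl' : ∀ x ∈ l, ∀ y ∈ l, (x.1 ≤ y.1 ↔ x.2 ≤ y.2)) (p : ℚ) : ∃ q,
      (∀ x ∈ (p, q) :: l, c x.1 = c' x.2) ∧
      ∀ x ∈ (p, q) :: l, ∀ y ∈ (p, q) :: l, (x.1 ≤ y.1 ↔ x.2 ≤ y.2) := by
  classical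
  by_cases hp : ∃ x ∈ l, x.1 = p
  · obtain ⟨x, hx, rfl⟩ := hp
    have hx' : (x.1, x.2) ∈ l := hx
    refine ⟨x.2, ?_, ?_⟩
    · intro y hy
      rcases List.mem_cons.mp hy with rfl | hy
      · exact hl x hx
      · exact hl y hy
    · intro y hy z hz
      rcases List.mem_cons.mp hy with rfl | hy <;> rcases List.mem_cons.mp hz with rfl | hz
      · simp
      · exact hl' _ hx' _ hz
      · exact hl' _ hy _ hx'
      · exact hl' _ hy _ hz
  · push Not at hp
    set lo : Finset ℚ := ((l.filter fun x => x.1 < p).map Prod.snd).toFinset with hlo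
    set hi : Finset ℚ := ((l.filter fun x => p < x.1).map Prod.snd).toFinset with hhi
    have hlomem : ∀ z, z ∈ lo ↔ ∃ x ∈ l, x.1 < p ∧ x.2 = z := by
      intro z
      rw [hlo, List.mem_toFinset, List.mem_map]
      constructor
      · rintro ⟨x, hx, rfl⟩
        rw [List.mem_filter] at hx
        exact ⟨x, hx.1, by simpa using hx.2, rfl⟩
      · rintro ⟨x, hx, hx', rfl⟩
        exact ⟨x, by rw [List.mem_filter]; exact ⟨hx, by simpa using hx'⟩, rfl⟩
    have hhimem : ∀ z, z ∈ hi ↔ ∃ x ∈ l, p < x.1 ∧ x.2 = z := by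
      intro z
      rw [hhi, List.mem_toFinset, List.mem_map]
      constructor
      · rintro ⟨x, hx, rfl⟩
        rw [List.mem_filter] at hx
        exact ⟨x, hx.1, by simpa using hx.2, rfl⟩
      · rintro ⟨x, hx, hx', rfl⟩
        exact ⟨x, by rw [List.mem_filter]; exact ⟨hx, by simpa using hx'⟩, rfl⟩
    have hlh : ∀ x ∈ lo, ∀ y ∈ hi, x < y := by
      intro x hx y hy
      obtain ⟨x1, hx1, hx1', rfl⟩ := (hlomem _).mp hx
      obtain ⟨y1, hy1, hy1', rfl⟩ := (hhimem _).mp hy
      rw [← not_le, ← hl' y1 hy1 x1 hx1, not_le]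
      exact hx1'.trans hy1'
    obtain ⟨m, hm1, hm2⟩ := Order.exists_between_finsets lo hi hlh
    obtain ⟨m', hm'1, hm'2⟩ := Order.exists_between_finsets (insert m lo) hi (by
      intro x hx y hy
      rcases Finset.mem_insert.mp hx with rfl | hx
      · exact hm2 y hy
      · exact hlh x hx y hy)
    obtain ⟨q, hq1, hq2, hq3⟩ := h1 p m m' (hm'1 m (Finset.mem_insert_self _ _))
    have hb : ∀ x ∈ l, (x.1 < p → x.2 < q) ∧ (p < x.1 → q < x.2) := by
      intro x hx
      constructor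
      · intro h
        exact (hm1 _ ((hlomem _).mpr ⟨x, hx, h, rfl⟩)).trans hq1
      · intro h
        exact hq2.trans (hm'2 _ ((hhimem _).mpr ⟨x, hx, h, rfl⟩))
    refine ⟨q, ?_, ?_⟩
    · intro y hy
      rcases List.mem_cons.mp hy with rfl | hy
      · exact hq3.symm
      · exact hl y hy
    · intro y hy z hz
      rcases List.mem_cons.mp hy with rfl | hy <;> rcases List.mem_cons.mp hz with rfl | hz
      · simp
      · rcases lt_or_gt_of_ne (hp z hz) with h | h
        · exact iff_of_false (not_le.mpr h) (not_le.mpr ((hb z hz).1 h))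
        · exact iff_of_true h.le ((hb z hz).2 h).le
      · rcases lt_or_gt_of_ne (hp y hy) with h | h
        · exact iff_of_true h.le ((hb y hy).1 h).le
        · exact iff_of_false (not_le.mpr h) (not_le.mpr ((hb y hy).2 h))
      · exact hl' _ hy _ hz

theorem col_iso {X : Type} (c c' : ℚ → X)
    (h1 : ∀ p a b, a < b → ∃ q, a < q ∧ q < b ∧ c' q = c p)
    (h2 : ∀ p a b, a < b → ∃ q, a < q ∧ q < b ∧ c q = c' p)
    (l : List (ℚ × ℚ)) (hl : ∀ x ∈ l, c x.1 = c' x.2)
    (hl' : ∀ x ∈ l, ∀ y ∈ l, (x.1 ≤ y.1 ↔ x.2 ≤ y.2)) :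
    ∃ f : ℚ ≃o ℚ, (∀ x ∈ l, f x.1 = x.2) ∧ ∀ q, c q = c' (f q) := by
  obtain ⟨f, hf1, hf2⟩ := back_forth_equiv
    (fun l : List (ℚ × ℚ) => (∀ x ∈ l, c x.1 = c' x.2) ∧
      ∀ x ∈ l, ∀ y ∈ l, (x.1 ≤ y.1 ↔ x.2 ≤ y.2))
    (fun l hl p => col_forth c c' h1 l hl.1 hl.2 p)
    (fun l hl q => by
      obtain ⟨p, hp1, hp2⟩ := col_forth c' c h2 (l.map Prod.swap) (by
        intro x hx
        obtain ⟨y, hy, rfl⟩ := List.mem_map.mp hx
        exact (hl.1 y hy).symm) (by
        intro x hx y hy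
        obtain ⟨x', hx', rfl⟩ := List.mem_map.mp hx
        obtain ⟨y', hy', rfl⟩ := List.mem_map.mp hy
        exact (hl.2 x' hx' y' hy').symm) q
      have hm : ∀ x ∈ (p, q) :: l, x.swap ∈ (q, p) :: l.map Prod.swap := by
        intro x hx
        rcases List.mem_cons.mp hx with rfl | hx
        · exact List.mem_cons_self
        · exact List.mem_cons_of_mem _ (List.mem_map.mpr ⟨x, hx, rfl⟩)
      exact ⟨p, fun x hx => (hp1 _ (hm x hx)).symm, fun x hx y hy =>
        (hp2 _ (hm x hx) _ (hm y hy)).symm⟩)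
    (fun l hl x hx y hy => by
      rw [le_antisymm_iff, le_antisymm_iff, hl.2 x hx y hy, hl.2 y hy x hx]) l ⟨hl, hl'⟩
  refine ⟨⟨f, fun {p p'} => ?_⟩, hf1, fun q => ?_⟩
  · obtain ⟨l', h3, h4, h5⟩ := hf2 p p'
    exact (h3.2 _ h4 _ h5).symm
  · obtain ⟨l', h3, h4, -⟩ := hf2 q q
    exact h3.1 _ h4

/-- The action of an automorphism on the pieces. -/
def pcMap (θ : ℕ → (ℚ ≃o ℚ)) : (Σ j : ℕ, Fin (j + 2)) ⊕ (ℕ × ℚ) → (Σ j : ℕ, Fin (j + 2)) ⊕ (ℕ × ℚ)
  | .inl u => .inl u
  | .inr u => .inr (u.1, θ u.1 u.2)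

theorem pcMap_symm (θ : ℕ → (ℚ ≃o ℚ)) (u : (Σ j : ℕ, Fin (j + 2)) ⊕ (ℕ × ℚ)) :
    pcMap (fun i => (θ i).symm) (pcMap θ u) = u := by
  rcases u with u | ⟨i, y⟩ <;> simp [pcMap]

theorem pcMap_symm' (θ : ℕ → (ℚ ≃o ℚ)) (u : (Σ j : ℕ, Fin (j + 2)) ⊕ (ℕ × ℚ)) :
    pcMap θ (pcMap (fun i => (θ i).symm) u) = u := by
  rcases u with u | ⟨i, y⟩ <;> simp [pcMap]

theorem rk_pcMap (x : ℕ → Bool) (θ : ℕ → (ℚ ≃o ℚ)) (u : (Σ j : ℕ, Fin (j + 2)) ⊕ (ℕ × ℚ)) :
    rk x (pcMap θ u) = rk x u := by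
  rcases u with u | ⟨i, y⟩ <;> rfl

theorem inner_pcMap (x : ℕ → Bool) (θ : ℕ → (ℚ ≃o ℚ))
    (u v : (Σ j : ℕ, Fin (j + 2)) ⊕ (ℕ × ℚ)) (h : rk x u = rk x v) :
    inner (pcMap θ u) ≤ inner (pcMap θ v) ↔ inner u ≤ inner v := by
  rcases u with u | ⟨i, y⟩ <;> rcases v with v | ⟨i', y'⟩
  · rfl
  · simp only [rk] at h; omega
  · simp only [rk] at h; omega
  · simp only [rk] at h
    have h1 : i = i' := by omega
    subst h1
    simp [pcMap, inner]

/-- Isomorphisms between the linear orders. -/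
def linIso (π : ℚ ≃o ℚ) (hπ : ∀ q, s (col q) = t (col (π q))) (θ : ℚ → ℕ → (ℚ ≃o ℚ)) :
    Lin s ≃o Lin t where
  toFun a := ⟨π a.idx, pcMap (θ a.idx) a.pc⟩
  invFun a := ⟨π.symm a.idx, pcMap (fun i => (θ (π.symm a.idx) i).symm) a.pc⟩
  left_inv a := by
    ext1
    · simp
    · simp only [OrderIso.symm_apply_apply]
      exact pcMap_symm _ _
  right_inv a := by
    ext1
    · simp
    · exact pcMap_symm' _ _
  map_rel_iff' := by
    intro a b
    simp only [Equiv.coe_fn_mk, lin_le_iff, OrderIso.lt_iff_lt, rk_pcMap, ← hπ]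
    by_cases h : a.idx = b.idx
    · by_cases h' : rk (s (col a.idx)) a.pc = rk (s (col b.idx)) b.pc
      · rw [h] at h' ⊢
        have := inner_pcMap (s (col b.idx)) (θ b.idx) a.pc b.pc h'
        simp only [h', lt_irrefl, true_and, false_or, this]
      · rw [h] at h' ⊢
        simp [h']
    · simp [h]

theorem lin_elemHomog (s : ℕ → ℕ → Bool) : ElemHomog (Lin s) := by
  classical
  intro n a b hab
  have hsame := fun i => lin_same hab i
  have hidx : ∀ i j, (a i).idx = (a j).idx ↔ (b i).idx = (b j).idx := by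
    intro i j
    have := (isFO_sc i j).iff hab
    rwa [lin_sc_iff, lin_sc_iff] at this
  have hle : ∀ i j, a i ≤ a j ↔ b i ≤ b j := fun i j => hab.iff_le i j
  have hidxle : ∀ i j, (a i).idx ≤ (a j).idx ↔ (b i).idx ≤ (b j).idx := by
    intro i j
    rcases lt_trichotomy (a i).idx (a j).idx with h | h | h
    · have h1 : ¬ a j ≤ a i := not_le.mpr (lin_lt_of_idx h)
      rw [hle, not_le, lin_lt_iff] at h1
      refine iff_of_true h.le ?_
      rcases h1 with h1 | ⟨h1, -⟩
      · exact h1.le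
      · exact h1.le
    · exact iff_of_true h.le ((hidx i j).mp h).le
    · have h1 : ¬ a i ≤ a j := not_le.mpr (lin_lt_of_idx h)
      rw [hle, not_le, lin_lt_iff] at h1
      refine iff_of_false (not_le.mpr h) (not_le.mpr ?_)
      rcases h1 with h1 | ⟨h1, -⟩
      · exact h1
      · exact absurd ((hidx j i).mpr h1) h.ne
  have hdense : ∀ p a b, a < b → ∃ q, a < q ∧ q < b ∧
      (fun q => s (col q)) q = (fun q => s (col q)) p := by
    intro p a b h
    obtain ⟨q, h1, h2, h3⟩ := col_dense a b h (col p)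
    exact ⟨q, h1, h2, by simp only [h3]⟩
  obtain ⟨π, hπ1, hπ2⟩ := col_iso (fun q => s (col q)) (fun q => s (col q)) hdense hdense
    (List.ofFn fun i => ((a i).idx, (b i).idx)) (by
      intro x hx
      obtain ⟨i, rfl⟩ := (List.mem_ofFn' _ _).mp hx
      exact (hsame i).1) (by
      intro x hx y hy
      obtain ⟨i, rfl⟩ := (List.mem_ofFn' _ _).mp hx
      obtain ⟨j, rfl⟩ := (List.mem_ofFn' _ _).mp hy
      exact hidxle i j)
  have hθ : ∀ (q : ℚ) (m : ℕ), ∃ θ : ℚ ≃o ℚ, ∀ i y y', (a i).idx = q → (a i).pc = Sum.inr (m, y) →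
      (b i).pc = Sum.inr (m, y') → θ y = y' := by
    intro q m
    have hd : ∀ p a b : ℚ, a < b → ∃ q, a < q ∧ q < b ∧
        (fun _ : ℚ => ()) q = (fun _ : ℚ => ()) p := by
      intro p a b h
      obtain ⟨q, h1, h2⟩ := exists_between h
      exact ⟨q, h1, h2, rfl⟩
    obtain ⟨θ, hθ1, -⟩ := col_iso (fun _ => ()) (fun _ => ()) hd hd
      (((List.finRange n).filter fun i => (a i).idx = q ∧ ∃ y, (a i).pc = Sum.inr (m, y)).map
        fun i => (inner (a i).pc, inner (b i).pc)) (fun _ _ => rfl) (by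
        intro x hx y hy
        obtain ⟨i, hi, rfl⟩ := List.mem_map.mp hx
        obtain ⟨j, hj, rfl⟩ := List.mem_map.mp hy
        rw [List.mem_filter] at hi hj
        simp only [decide_eq_true_eq] at hi hj
        obtain ⟨-, hi1, yi, hi2⟩ := hi
        obtain ⟨-, hj1, yj, hj2⟩ := hj
        have h1 := hle i j
        have h2 : (a i).idx = (a j).idx := hi1.trans hj1.symm
        have h3 : (b i).idx = (b j).idx := (hidx i j).mp h2
        have h4 := (hsame i).2
        have h5 := (hsame j).2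
        rw [lin_le_iff, lin_le_iff] at h1
        rw [hi2] at h4 h1 ⊢
        rw [hj2] at h5 h1 ⊢
        rcases hbi : (b i).pc with u | ⟨m1, y1⟩
        · rw [hbi] at h4
          exact absurd h4 (by simp [PcSame])
        · rcases hbj : (b j).pc with u | ⟨m2, y2⟩
          · rw [hbj] at h5
            exact absurd h5 (by simp [PcSame])
          · rw [hbi] at h4 h1
            rw [hbj] at h5 h1
            have h4' : m = m1 := h4
            have h5' : m = m2 := h5
            subst h4' h5'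
            simpa [h2, h3, rk, inner] using h1)
    refine ⟨θ, fun i y y' h1 h2 h3 => ?_⟩
    have h4 := hθ1 (inner (a i).pc, inner (b i).pc) (List.mem_map.mpr ⟨i, by
      rw [List.mem_filter]
      refine ⟨List.mem_finRange i, ?_⟩
      simp only [decide_eq_true_eq]
      exact ⟨h1, y, h2⟩, rfl⟩)
    rw [h2, h3] at h4
    exact h4
  choose θ hθ using hθ
  refine ⟨linIso π hπ2 θ, fun i => ?_⟩
  have h1 := hπ1 ((a i).idx, (b i).idx) ((List.mem_ofFn' _ _).mpr ⟨i, rfl⟩)
  refine Lin.ext h1 ?_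
  change pcMap (θ (a i).idx) (a i).pc = (b i).pc
  have h2 := (hsame i).2
  rcases ha : (a i).pc with u | ⟨m, y⟩ <;> rcases hb : (b i).pc with v | ⟨m', y'⟩
  · rw [ha, hb] at h2
    have h3 : u = v := h2
    rw [h3]; rfl
  · rw [ha, hb] at h2
    exact absurd h2 (by simp [PcSame])
  · rw [ha, hb] at h2
    exact absurd h2 (by simp [PcSame])
  · rw [ha, hb] at h2
    have h3 : m = m' := h2
    subst h3
    have h4 := hθ (a i).idx m i y y' rfl ha hb
    change Sum.inr (m, θ (a i).idx m y) = Sum.inr (m, y')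
    rw [h4]

theorem lin_iso_iff : Nonempty (Lin s ≃o Lin t) ↔ Set.range s = Set.range t := by
  constructor
  · have key : ∀ {s t : ℕ → ℕ → Bool}, (Lin s ≃o Lin t) → Set.range s ⊆ Set.range t := by
      rintro s t f _ ⟨n, rfl⟩
      obtain ⟨q, -, -, hq⟩ := col_dense 0 1 (by norm_num) n
      have h1 := SameType.of_iso f (fun _ : Fin 1 => (⟨q, Sum.inl ⟨0, 0⟩⟩ : Lin s))
      have h2 := (lin_same h1 0).1
      simp only [hq] at h2
      exact ⟨_, h2.symm⟩
    rintro ⟨f⟩
    exact Set.Subset.antisymm (key f) (key f.symm)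
  · intro h
    have hd : ∀ {s t : ℕ → ℕ → Bool}, Set.range s ⊆ Set.range t → ∀ p a b : ℚ, a < b →
        ∃ q, a < q ∧ q < b ∧ (fun q => t (col q)) q = (fun q => s (col q)) p := by
      intro s t h p a b hab
      obtain ⟨m, hm⟩ : ∃ m, t m = s (col p) := h ⟨col p, rfl⟩
      obtain ⟨q, h1, h2, h3⟩ := col_dense a b hab m
      exact ⟨q, h1, h2, by simp only [h3, hm]⟩
    obtain ⟨π, -, hπ⟩ := col_iso (fun q => s (col q)) (fun q => t (col q)) (hd h.subset)
      (hd h.symm.subset) [] (by simp) (by simp)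
    exact ⟨linIso π hπ fun _ _ => OrderIso.refl ℚ⟩

theorem exists_enumLin :
    Nonempty (ℕ ≃ ℚ × ((Σ j : ℕ, Fin (j + 2)) ⊕ (ℕ × ℚ))) := nonempty_equiv_of_countable

/-- An enumeration of the underlying set. -/
noncomputable def enumLin : ℕ ≃ ℚ × ((Σ j : ℕ, Fin (j + 2)) ⊕ (ℕ × ℚ)) :=
  Classical.choice exists_enumLin

open Classical in
/-- The linear order as a code. -/
noncomputable def linCode (s : ℕ → ℕ → Bool) : Code := fun a b =>
  decide ((⟨(enumLin a).1, (enumLin a).2⟩ : Lin s) ≤ ⟨(enumLin b).1, (enumLin b).2⟩)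

/-- The code codes the linear order. -/
noncomputable def linCodeIso (s : ℕ → ℕ → Bool) : OfCode (linCode s) ≃o Lin s where
  toFun a := ⟨(enumLin a).1, (enumLin a).2⟩
  invFun a := enumLin.symm (a.idx, a.pc)
  left_inv a := by
    change enumLin.symm (enumLin a) = a
    exact enumLin.symm_apply_apply a
  right_inv a := by
    have := enumLin.apply_symm_apply (a.idx, a.pc)
    ext1
    · exact congrArg Prod.fst this
    · exact congrArg Prod.snd this
  map_rel_iff' := by
    intro a b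
    change (⟨(enumLin a).1, (enumLin a).2⟩ : Lin s) ≤ ⟨(enumLin b).1, (enumLin b).2⟩ ↔
      linCode s a b = true
    simp [linCode]

theorem rk_congr (x x' : ℕ → Bool) (u : (Σ j : ℕ, Fin (j + 2)) ⊕ (ℕ × ℚ))
    (h : ∀ j e, u = Sum.inl ⟨j, e⟩ → x (j / 2) = x' (j / 2)) : rk x u = rk x' u := by
  rcases u with ⟨j, e⟩ | ⟨i, y⟩
  · have := h j e rfl
    simp only [rk, sw, this]
  · rfl

/-- The digit of the real on which the rank of a piece depends. -/
def digit : (Σ j : ℕ, Fin (j + 2)) ⊕ (ℕ × ℚ) → ℕ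
  | .inl u => u.1 / 2
  | .inr _ => 0

theorem continuous_linCode : Continuous linCode := by
  classical
  refine continuous_pi fun a => continuous_pi fun b => ?_
  set u := (enumLin a).2 with hu
  set v := (enumLin b).2 with hv
  by_cases h : (enumLin a).1 = (enumLin b).1
  · set n := col (enumLin b).1 with hn
    set H : (ℕ → Bool) → Bool := fun x =>
      decide (rk x u < rk x v ∨ (rk x u = rk x v ∧ inner u ≤ inner v)) with hH
    have h1 : ∀ s : ℕ → ℕ → Bool, linCode s a b =
        H (fun m => if m = digit u then s n (digit u) else s n (digit v)) := by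
      intro s
      have h2 : rk (s n) u = rk (fun m => if m = digit u then s n (digit u) else s n (digit v)) u := by
        apply rk_congr
        intro j e hj
        have hd : digit u = j / 2 := by rw [hj]; rfl
        simp only [hd, if_true]
      have h3 : rk (s n) v = rk (fun m => if m = digit u then s n (digit u) else s n (digit v)) v := by
        apply rk_congr
        intro j e hj
        have hd : digit v = j / 2 := by rw [hj]; rfl
        simp only [hd]
        split_ifs with h4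
        · rw [h4]
        · rfl
      simp only [hH, ← h2, ← h3, linCode]
      congr 1
      rw [lin_le_iff]
      simp only [h, ← hu, ← hv, ← hn, lt_irrefl, true_and, false_or]
    have h4 : (fun s : ℕ → ℕ → Bool => linCode s a b) =
        (fun x : Bool × Bool => H (fun m => if m = digit u then x.1 else x.2)) ∘
          (fun s : ℕ → ℕ → Bool => (s n (digit u), s n (digit v))) := by
      funext s
      exact h1 s
    rw [h4]
    refine continuous_of_discreteTopology.comp ?_
    exact ((continuous_apply _).comp (continuous_apply n)).prodMk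
      ((continuous_apply _).comp (continuous_apply n))
  · have h1 : ∀ s : ℕ → ℕ → Bool, linCode s a b = decide ((enumLin a).1 < (enumLin b).1) := by
      intro s
      simp only [linCode]
      congr 1
      rw [lin_le_iff]
      simp [h]
    simp only [h1]
    exact continuous_const

theorem linear_of_iso {R : Code} (e : OfCode R ≃o Lin s) :
    IsPO R ∧ ∀ a b : OfCode R, a ≤ b ∨ b ≤ a := by
  refine ⟨⟨fun a => ?_, fun a b h1 h2 => ?_, fun a b c h1 h2 => ?_⟩, fun a b => ?_⟩
  · rw [← e.le_iff_le]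
  · apply e.injective
    exact le_antisymm (e.le_iff_le.mpr h1) (e.le_iff_le.mpr h2)
  · rw [← e.le_iff_le] at h1 h2 ⊢
    exact h1.trans h2
  · rw [← e.le_iff_le, ← e.le_iff_le]
    exact le_total _ _

/-- Equality of countable sets of reals is Borel reducible to isomorphism of elementarily
homogeneous linear orders. -/
theorem lower_linear : ∃ g : (ℕ → ℕ → Bool) → Code, Continuous g ∧
    (∀ s, g s ∈ EH ∧ ∀ a b : OfCode (g s), a ≤ b ∨ b ≤ a) ∧
    (∀ s t, (Nonempty (OfCode (g s) ≃o OfCode (g t)) ↔ Set.range s = Set.range t)) := by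
  refine ⟨linCode, continuous_linCode, fun s => ⟨⟨(linear_of_iso (linCodeIso s)).1,
    ElemHomog.of_iso (linCodeIso s).symm (lin_elemHomog s)⟩, (linear_of_iso (linCodeIso s)).2⟩,
    fun s t => ?_⟩
  rw [← lin_iso_iff]
  exact ⟨fun ⟨f⟩ => ⟨(linCodeIso s).symm.trans (f.trans (linCodeIso t))⟩,
    fun ⟨f⟩ => ⟨(linCodeIso s).trans (f.trans (linCodeIso t).symm)⟩⟩

end Pool.Agent.Work.MP_f1d084_lc
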