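import Mathlib
import Pool.Agent.Work.MP_f1d084_lc.RealB
import Pool.Agent.Work.MP_f1d084_lc.Lin3

set_option autoImplicit false

namespace Pool.Agent.Work.MP_f1d084_lc

/-- Classification by countable sets of reals, for a Borel invariant class of elementarily
homogeneous posets and a decodable reduction of the equality of countable sets of reals. -/
theorem classReals_gen {E : Set Code} (hsub : E ⊆ EH) (hmE : MeasurableSet E)
    (hEinv : ∀ R ∈ E, ∀ S, Nonempty (OfCode R ≃o OfCode S) → S ∈ E)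
    {g : (ℕ → ℕ → Bool) → Code} {g' : Code → ℕ → ℕ → Bool} (hmg : Measurable g)
    (hmg' : Measurable g') (hgE : ∀ s, g s ∈ E) (hgred : ∀ s t, SameR s t ↔ CIso (g s) (g t))
    (hginv : ∀ s R, CIso (g s) R → SameR (g' R) s) :
    ∃ (F : Code → ℕ → ℕ → Bool) (G : (ℕ → ℕ → Bool) → Code), Measurable F ∧ Measurable G ∧
      (∀ s, G s ∈ E) ∧
      (∀ R ∈ E, ∀ S ∈ E, (Nonempty (OfCode R ≃o OfCode S) ↔ Set.range (F R) = Set.range (F S))) ∧
      (∀ s t, (Nonempty (OfCode (G s) ≃o OfCode (G t)) ↔ Set.range s = Set.range t)) ∧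
      (∀ R ∈ E, Nonempty (OfCode (G (F R)) ≃o OfCode R)) ∧
      ∀ s, Set.range (F (G s)) = Set.range s := by
  classical
  obtain ⟨ε⟩ := exists_real_code
  obtain ⟨L, hL, hL2⟩ := exists_borel_limit arU
  let f : Code → ℕ → ℕ → Bool := fun R k => ε (ageC (Psi R) k)
  let f' : (ℕ → ℕ → Bool) → Code := fun s => red (L fun k => ε.symm (s k))
  have hrange : ∀ s t : ℕ → ℕ × Str arU,
      Set.range (fun k => ε (s k)) = Set.range (fun k => ε (t k)) ↔ Set.range s = Set.range t := by
    intro s t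
    have h1 : ∀ u : ℕ → ℕ × Str arU, Set.range (fun k => ε (u k)) = ε '' Set.range u :=
      fun u => Set.range_comp ε u
    rw [h1, h1]
    exact ε.injective.image_injective.eq_iff
  have hback : ∀ (s : ℕ → ℕ → Bool) (u : ℕ → ℕ × Str arU),
      Set.range (fun k => ε (u k)) = Set.range s → Set.range u = Set.range fun k => ε.symm (s k) := by
    intro s u h
    rw [← hrange, h]
    congr 1
    funext k
    exact (ε.apply_symm_apply _).symm
  have hmf : Measurable f := by
    refine measurable_pi_lambda _ fun k => ?_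
    exact ε.measurable.comp ((measurable_pi_apply k).comp (measurable_ageC.comp measurable_Psi))
  have hmf' : Measurable f' := by
    refine measurable_red.comp (hL.comp (measurable_pi_lambda _ fun k => ?_))
    exact ε.symm.measurable.comp (measurable_pi_apply k)
  have hred : ∀ R ∈ E, ∀ S ∈ E, (CIso R S ↔ SameR (f R) (f S)) := by
    intro R hR S hS
    have hUR : UH (Psi R) := (uh_Psi_iff R).mpr (hsub hR).2
    have hUS : UH (Psi S) := (uh_Psi_iff S).mpr (hsub hS).2
    show _ ↔ Set.range (fun k => ε (ageC (Psi R) k)) = Set.range (fun k => ε (ageC (Psi S) k))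
    rw [hrange, range_ageC_iff]
    constructor
    · rintro ⟨φ⟩ n
      have h1 : IsIso (Psi R) (Psi S) φ.toEquiv := (isIso_Psi_iff' R S _).mpr ⟨φ, fun _ => rfl⟩
      exact age_of_iso h1 n
    · intro h
      obtain ⟨h1, hh⟩ := iso_of_age hUR hUS h
      obtain ⟨φ, -⟩ := (isIso_Psi_iff' R S _).mp hh
      exact ⟨φ⟩
  have hinv : ∀ R ∈ E, ∀ s, SameR (f R) s → f' s ∈ E ∧ CIso (f' s) R := by
    intro R hR s hs
    have hUR : UH (Psi R) := (uh_Psi_iff R).mpr (hsub hR).2
    have h1 := hback s (ageC (Psi R)) hs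
    have h2 : ∀ n, KS (fun k => ε.symm (s k)) n = age (Psi R) n := by
      intro n
      rw [← KS_congr h1, KS_ageC]
    have h3 : IsFr (KS fun k => ε.symm (s k)) := by
      have h4 : KS (fun k => ε.symm (s k)) = age (Psi R) := funext h2
      rw [h4]
      exact age_isFr hUR
    obtain ⟨h5, h6⟩ := hL2 _ h3
    obtain ⟨h7, hh⟩ := iso_of_age hUR h5 fun n => by rw [h6, h2]
    obtain ⟨h8, h9⟩ := Psi_image hh
    obtain ⟨φ, -⟩ := (isIso_Psi_iff' R _ _).mp h9
    exact ⟨hEinv R hR _ ⟨φ⟩, ⟨φ.symm⟩⟩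
  have hf : Emb CIso SameR E Set.univ f f' := by
    refine ⟨hmf, hmf', fun _ _ => Set.mem_univ _, hred, hinv, ?_⟩
    have h1 : {s : ℕ → ℕ → Bool | s ∈ Set.univ ∧ f' s ∈ E ∧ SameR (f (f' s)) s} =
        f' ⁻¹' E ∩ {s | SameR (f (f' s)) s} := by
      ext s
      simp only [Set.mem_univ, true_and, Set.mem_ofPred_eq, Set.mem_inter_iff, Set.mem_preimage]
    rw [h1]
    exact (hmf' hmE).inter (measurableSet_sameR (hmf.comp hmf') measurable_id)
  have hg : Emb SameR CIso Set.univ E g g' := by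
    refine ⟨hmg, hmg', fun s _ => hgE s, fun s _ t _ => hgred s t,
      fun s _ R h => ⟨Set.mem_univ _, hginv s R h⟩, ?_⟩
    have h1 : {R : Code | R ∈ E ∧ g' R ∈ Set.univ ∧ CIso (g (g' R)) R} =
        E ∩ {R | g (g' R) ∈ EH ∧ R ∈ EH ∧ Nonempty (OfCode (g (g' R)) ≃o OfCode R)} := by
      ext R
      constructor
      · rintro ⟨h2, -, h3⟩
        exact ⟨h2, hsub (hgE _), hsub h2, h3⟩
      · rintro ⟨h2, -, -, h3⟩
        exact ⟨h2, Set.mem_univ _, h3⟩
    rw [h1]
    exact hmE.inter (meas_iso _ _ (hmg.comp hmg') measurable_id)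
  obtain ⟨F, G, h1, h2, h3, h4, h5, h6, h7, h8⟩ := cantor_bernstein equivalence_CIso
    equivalence_SameR hmE (fun R hR S h => hEinv R hR S h) (fun _ _ _ _ => Set.mem_univ _) hf hg
  exact ⟨F, G, h1, h2, fun s => h4 s (Set.mem_univ _), h5,
    fun s t => (h6 s (Set.mem_univ _) t (Set.mem_univ _)).symm, h7,
    fun s => h8 s (Set.mem_univ _)⟩

/-- The codes of the elementarily homogeneous linear orders on `ℕ`. -/
def EHLin : Set Code := {R | R ∈ EH ∧ ∀ a b : OfCode R, a ≤ b ∨ b ≤ a}

open Classical in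
/-- The reals read off at the points of a linear order. -/
noncomputable def rdl (R : Code) : ℕ → ℕ → Bool := fun n k => decide (lbit k (OfCode R) n)

theorem measurable_rdl : Measurable rdl := by
  classical
  refine measurable_pi_lambda _ fun n => measurable_pi_lambda _ fun k => ?_
  refine measurable_to_bool ?_
  have : (fun R : Code => rdl R n k) ⁻¹' {true} = {R : Code | lbit k (OfCode R) n} := by
    ext R
    simp only [rdl, Set.mem_preimage, Set.mem_singleton_iff, decide_eq_true_eq, Set.mem_ofPred_eq]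
  rw [this]
  exact meas_isFO (isFO_lbit k (0 : Fin 1)) fun _ => n

/-- The class of the elementarily homogeneous linear orders. -/
theorem ehlin_meas : MeasurableSet EHLin := by
  have h1 : EHLin = EH ∩ {R | ∀ a b : ℕ, R a b = true ∨ R b a = true} := rfl
  rw [h1]
  refine measurableSet_EH.inter (measurableSet_setOfPred.mpr ?_)
  have h2 : ∀ a b : ℕ, Measurable fun R : Code => R a b := fun a b =>
    (measurable_pi_apply b).comp (measurable_pi_apply a)
  exact Measurable.forall fun a => Measurable.forall fun b =>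
    (meas_beq (h2 a b) measurable_const).or (meas_beq (h2 b a) measurable_const)

theorem eh_inv {R S : Code} (hR : R ∈ EH) (f : OfCode R ≃o OfCode S) : S ∈ EH := by
  obtain ⟨⟨h1, h2, h3⟩, h4⟩ := hR
  refine ⟨⟨fun a => ?_, fun a b => ?_, fun a b c => ?_⟩, ElemHomog.of_iso f h4⟩
  · rw [← f.symm.le_iff_le]
    exact h1 _
  · intro hab hba
    have := h2 _ _ (f.symm.le_iff_le.mpr hab) (f.symm.le_iff_le.mpr hba)
    exact f.symm.injective this
  · intro hab hbc
    rw [← f.symm.le_iff_le]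
    exact h3 _ _ _ (f.symm.le_iff_le.mpr hab) (f.symm.le_iff_le.mpr hbc)

theorem ehlin_inv (R : Code) (hR : R ∈ EHLin) (S : Code) (h : Nonempty (OfCode R ≃o OfCode S)) :
    S ∈ EHLin := by
  obtain ⟨f⟩ := h
  refine ⟨eh_inv hR.1 f, fun a b => ?_⟩
  rcases hR.2 (f.symm a) (f.symm b) with h1 | h1
  · exact Or.inl (f.symm.le_iff_le.mp h1)
  · exact Or.inr (f.symm.le_iff_le.mp h1)

theorem range_rdl {s : ℕ → ℕ → Bool} {R : Code} (f : Lin s ≃o OfCode R) :
    Set.range (rdl R) = Set.range s := by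
  classical
  have h1 : ∀ u : Lin s, rdl R (f u) = s (col u.idx) := by
    intro u
    funext k
    have h2 := (isFO_lbit k (0 : Fin 1)).iff (SameType.of_iso f fun _ : Fin 1 => u)
    rw [lin_lbit_iff] at h2
    unfold rdl
    by_cases h3 : s (col u.idx) k = true
    · rw [h3]
      exact decide_eq_true (h2.mp h3)
    · rw [Bool.not_eq_true] at h3
      rw [h3]
      refine decide_eq_false fun h4 => ?_
      have h5 := h2.mpr h4
      rw [h3] at h5
      exact absurd h5 (by simp)
  refine Set.Subset.antisymm ?_ ?_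
  · rintro _ ⟨n, rfl⟩
    refine ⟨col (f.symm n).idx, ?_⟩
    rw [← h1]
    exact congrArg (rdl R) (f.apply_symm_apply n)
  · rintro _ ⟨i, rfl⟩
    obtain ⟨q, -, -, hq⟩ := col_dense 0 1 (by norm_num) i
    refine ⟨f ⟨q, Sum.inl ⟨0, 0⟩⟩, ?_⟩
    rw [h1, hq]

/-- **Classification of linear orders by countable sets of reals.** -/
theorem classReals_lin :
    ∃ (F : Code → ℕ → ℕ → Bool) (G : (ℕ → ℕ → Bool) → Code), Measurable F ∧ Measurable G ∧
      (∀ s, G s ∈ EHLin) ∧
      (∀ R ∈ EHLin, ∀ S ∈ EHLin,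
        (Nonempty (OfCode R ≃o OfCode S) ↔ Set.range (F R) = Set.range (F S))) ∧
      (∀ s t, (Nonempty (OfCode (G s) ≃o OfCode (G t)) ↔ Set.range s = Set.range t)) ∧
      (∀ R ∈ EHLin, Nonempty (OfCode (G (F R)) ≃o OfCode R)) ∧
      ∀ s, Set.range (F (G s)) = Set.range s := by
  refine classReals_gen (E := EHLin) (fun R hR => hR.1) ehlin_meas ehlin_inv (g := linCode)
    (g' := rdl) continuous_linCode.measurable measurable_rdl ?_ ?_ ?_
  · intro s
    exact ⟨⟨(linear_of_iso (linCodeIso s)).1,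
      ElemHomog.of_iso (linCodeIso s).symm (lin_elemHomog s)⟩, (linear_of_iso (linCodeIso s)).2⟩
  · intro s t
    show Set.range s = Set.range t ↔ Nonempty _
    rw [← lin_iso_iff]
    constructor
    · rintro ⟨f⟩
      exact ⟨(linCodeIso s).trans (f.trans (linCodeIso t).symm)⟩
    · rintro ⟨f⟩
      exact ⟨(linCodeIso s).symm.trans (f.trans (linCodeIso t))⟩
  · rintro s R ⟨f⟩
    exact range_rdl ((linCodeIso s).symm.trans f)

end Pool.Agent.Work.MP_f1d084_lc
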