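import Mathlib
import Pool.Agent.Work.MP_f1d084_lc.Cmb
import Pool.Agent.Work.MP_f1d084_lc.RealC

set_option autoImplicit false

namespace Pool.Agent.Work.MP_f1d084_lc

/-- The isomorphism types of the posets coded by the members of `E` correspond one-to-one, and in a
Borel way in both directions, to ALL nonempty countable sets of reals. A real is a point of
`ℕ → Bool`, and a nonempty countable set of reals is given by an enumeration `ℕ → ℕ → Bool`, of
which only the range matters. -/
def RealClassified (E : Set Code) : Prop :=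
  ∃ (F : Code → ℕ → ℕ → Bool) (G : (ℕ → ℕ → Bool) → Code), Measurable F ∧ Measurable G ∧
    (∀ s, G s ∈ E) ∧
    (∀ R ∈ E, ∀ S ∈ E, (Nonempty (OfCode R ≃o OfCode S) ↔ Set.range (F R) = Set.range (F S))) ∧
    (∀ s t, (Nonempty (OfCode (G s) ≃o OfCode (G t)) ↔ Set.range s = Set.range t)) ∧
    (∀ R ∈ E, Nonempty (OfCode (G (F R)) ≃o OfCode R)) ∧
    ∀ s, Set.range (F (G s)) = Set.range s

/-- The posets coded by the members of `E` correspond to ALL Fraïssé classes of the universal
countable relational language (infinitely many symbols of every arity) with members of every finite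
size: a Borel map `F` sends `R` to an ultrahomogeneous structure `F R` on `ℕ` such that `R` and `S`
are isomorphic if and only if `F R` and `F S` have the same age; every Fraïssé class is the age of
`F R` for some `R` in `E`, which is a Borel function `G` of an enumeration of the class; and the
isomorphisms from `F R` onto `F S` are exactly those from `R` onto `S`, restricted to the points
`u R x`, which determine them continuously. -/
def FraisseClassified (E : Set Code) : Prop :=
  ∃ (F : Code → Str arU) (u : Code → ℕ → ℕ) (G : (ℕ → ℕ × Str arU) → Code),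
    Measurable F ∧ Measurable u ∧ Measurable G ∧
    (∀ R ∈ E, UH (F R) ∧ IsFr (age (F R))) ∧
    (∀ R ∈ E, ∀ S ∈ E, (Nonempty (OfCode R ≃o OfCode S) ↔ age (F R) = age (F S))) ∧
    (∀ K, IsFr K → ∃ R ∈ E, age (F R) = K) ∧
    (∀ s, IsFr (KS s) → G s ∈ E ∧ age (F (G s)) = KS s) ∧
    (∀ R ∈ E, Function.Injective (u R)) ∧
    (∀ R ∈ E, ∀ S ∈ E, ∀ g : Equiv.Perm ℕ, IsIso (F R) (F S) g ↔
      ∃ f : OfCode R ≃o OfCode S, ∀ x, f (u R x) = u S (g x)) ∧
    (∀ R ∈ E, ∀ S ∈ E, ∀ f : OfCode R ≃o OfCode S,
      ∃ g : Equiv.Perm ℕ, ∀ x, f (u R x) = u S (g x)) ∧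
    ∀ R ∈ E, ∀ p : OfCode R, ∃ K : Finset ℕ, ∀ (S : Code) (f f' : OfCode R ≃o OfCode S),
      (∀ x ∈ K, f (u R x) = f' (u R x)) → f p = f' p

theorem classification_main :
    (∀ (P Q : Type) [PartialOrder P] [PartialOrder Q] [Countable P] [Countable Q] [Infinite P]
      [Infinite Q], ElemHomog P → ElemHomog Q → (Nonempty (P ≃o Q) ↔ spec P = spec Q)) ∧
    (∀ S : ∀ n, Set (∀ k, TT k n), (∃ (P : Type) (_ : PartialOrder P), Countable P ∧ Infinite P ∧
      ElemHomog P ∧ spec P = S) ↔ IsSpec S) ∧
    (RealClassified EH ∧ RealClassified EH2 ∧ RealClassified EHLin) ∧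
    FraisseClassified EH ∧ FraisseClassified EH2 :=
  ⟨fun P Q _ _ _ _ _ _ hP hQ => (iso_iff_spec hP hQ).trans
      ⟨fun h => funext h, fun h n => congrFun h n⟩, spec_iff,
    ⟨classReals cls_EH, classReals cls_EH2, classReals_lin⟩, classFraisse cls_EH,
    classFraisse cls_EH2⟩

end Pool.Agent.Work.MP_f1d084_lc
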