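import Mathlib
import Pool.Agent.Work.MP_f1d084_lc.Stmt
import Pool.Agent.Work.MP_f1d084_lc.M.Hrd

set_option autoImplicit false

namespace Pool.Agent.Work.MP_f1d084_lc

/-- The set `E` of codes is complete for the class `Π_(ω+2)` of the Borel hierarchy: it belongs to
this class, and every set of this class in a second countable space with a basis of clopen sets (for
instance in the Cantor space) is the preimage of `E` under a continuous map. -/
def PiComplete (E : Set Code) : Prop :=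
  PiW2 E ∧ ∀ (X : Type) [TopologicalSpace X] [SecondCountableTopology X],
    TopologicalSpace.IsTopologicalBasis {U : Set X | IsClopen U} → ∀ A : Set X, PiW2 A →
      ∃ g : X → Code, Continuous g ∧ ∀ x, (g x ∈ E ↔ x ∈ A)

theorem piComplete_EH : PiComplete EH := by
  refine ⟨piW2_EH, fun X _ _ hX A hA => ?_⟩
  obtain ⟨g, hg, -, -, h⟩ := (M.hard_main hX A hA).1
  exact ⟨g, hg, h⟩

theorem piComplete_EH2 : PiComplete EH2 := by
  refine ⟨piW2_EH2, fun X _ _ hX A hA => ?_⟩
  obtain ⟨g, hg, -, h2, h⟩ := (M.hard_main hX A hA).2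
  exact ⟨g, hg, fun x => ⟨fun h3 => (h x).mp h3.1, fun h3 => ⟨(h x).mpr h3, h2 x⟩⟩⟩

theorem piComplete_EHLin : PiComplete EHLin := by
  refine ⟨piW2_EHL, fun X _ _ hX A hA => ?_⟩
  obtain ⟨g, hg, -, h2, h⟩ := (M.hard_main hX A hA).1
  exact ⟨g, hg, fun x => ⟨fun h3 => (h x).mp h3.1, fun h3 => ⟨(h x).mpr h3, h2 x⟩⟩⟩

end Pool.Agent.Work.MP_f1d084_lc
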