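import Mathlib

set_option autoImplicit false

namespace Pool.Agent.Work.MP_f1d084_lc

open MeasureTheory ProbabilityTheory Filter

/-- The fair coin. -/
noncomputable def coin : Measure Bool := (PMF.uniformOfFintype Bool).toMeasure

noncomputable instance : IsProbabilityMeasure coin := by unfold coin; infer_instance

/-- The fair coin flipping measure on reals. -/
noncomputable def cmu : Measure (ℕ → Bool) := Measure.infinitePi fun _ => coin

noncomputable instance : IsProbabilityMeasure cmu := by unfold cmu; infer_instance

theorem coin_singleton (b : Bool) : coin {b} = 2⁻¹ := by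
  unfold coin
  rw [PMF.toMeasure_apply_singleton _ _ (measurableSet_singleton b)]
  simp

theorem cmu_singleton (x : ℕ → Bool) : cmu {x} = 0 := by
  have h : ∀ n : ℕ, cmu {x} ≤ 2⁻¹ ^ n := by
    intro n
    have h1 : ({x} : Set (ℕ → Bool)) ⊆ Set.pi (Finset.range n : Finset ℕ) (fun i => {x i}) := by
      rintro _ rfl i _
      rfl
    refine (measure_mono h1).trans ?_
    unfold cmu
    rw [Measure.infinitePi_pi _ (fun i _ => measurableSet_singleton _)]
    simp [coin_singleton]
  have h2 : Tendsto (fun n : ℕ => (2⁻¹ : ENNReal) ^ n) atTop (nhds 0) := by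
    apply ENNReal.tendsto_pow_atTop_nhds_zero_of_lt_one
    exact ENNReal.inv_lt_one.mpr (by norm_num)
  exact le_antisymm (ge_of_tendsto' h2 h) bot_le

theorem zero_one (A : Set (ℕ → Bool)) (hA : MeasurableSet A)
    (hinv : ∀ x y : ℕ → Bool, (∀ᶠ n in atTop, x n = y n) → x ∈ A → y ∈ A) :
    cmu A = 0 ∨ cmu A = 1 := by
  let s : ℕ → MeasurableSpace (ℕ → Bool) := fun n => MeasurableSpace.comap (fun x => x n) ⊤
  have hle : ∀ n, s n ≤ (inferInstance : MeasurableSpace (ℕ → Bool)) := by
    intro n
    rw [MeasurableSpace.comap_le_iff_le_map]
    exact fun t _ => (measurable_pi_apply n) (MeasurableSpace.measurableSet_top (s := t))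
  have hind : iIndep s cmu := by
    have := iIndepFun_infinitePi (P := fun _ : ℕ => coin) (X := fun (_ : ℕ) (b : Bool) => b)
      (fun _ => measurable_id)
    rw [iIndepFun_iff_iIndep] at this
    exact this
  refine measure_zero_or_one_of_measurableSet_limsup_atTop hle hind ?_
  rw [limsup_eq_iInf_iSup_of_nat, MeasurableSpace.measurableSet_iInf]
  intro n
  have hT : Measurable[⨆ i ≥ n, s i] (fun x : ℕ → Bool => fun i => if i < n then false else x i) := by
    rw [@measurable_pi_iff]
    intro i
    by_cases hi : i < n
    · simp only [hi, if_true]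
      exact measurable_const
    · simp only [hi, if_false]
      have h1 : Measurable[s i] (fun x : ℕ → Bool => x i) :=
        fun t _ => ⟨t, MeasurableSpace.measurableSet_top, rfl⟩
      exact h1.mono (le_iSup₂_of_le i (not_lt.mp hi) le_rfl) le_rfl
  have h2 : A = (fun x : ℕ → Bool => fun i => if i < n then false else x i) ⁻¹' A := by
    ext x
    have h3 : ∀ᶠ m in atTop, x m = (fun i => if i < n then false else x i) m := by
      filter_upwards [eventually_ge_atTop n] with m hm
      simp [not_lt.mpr hm]
    exact ⟨fun h => hinv _ _ h3 h, fun h => hinv _ _ (h3.mono fun _ h => h.symm) h⟩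
  rw [h2]
  exact hT hA

/-- The countable set of all finite modifications of a real. -/
def modif (x : ℕ → Bool) (n : ℕ) : ℕ → Bool := fun i => xor (x i) (n.testBit i)

theorem range_modif (x : ℕ → Bool) :
    Set.range (modif x) = {y | ∀ᶠ n in atTop, x n = y n} := by
  ext y
  constructor
  · rintro ⟨n, rfl⟩
    filter_upwards [eventually_gt_atTop n] with m hm
    have : n.testBit m = false := Nat.testBit_lt_two_pow (hm.trans (Nat.lt_two_pow_self))
    simp [modif, this]
  · intro h
    obtain ⟨N, hN⟩ := eventually_atTop.mp h
    have key : ∀ N : ℕ, ∀ z : ℕ → Bool, ∃ n : ℕ, ∀ i, n.testBit i = (decide (i < N) && z i) := by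
      intro N
      induction N with
      | zero => intro z; exact ⟨0, by simp⟩
      | succ N ih =>
        intro z
        obtain ⟨n, hn⟩ := ih fun i => z (i + 1)
        refine ⟨Nat.bit (z 0) n, fun i => ?_⟩
        cases i with
        | zero => simp
        | succ i =>
          rw [Nat.testBit_bit_succ, hn]
          simp
    obtain ⟨n, hn⟩ := key N fun i => xor (x i) (y i)
    refine ⟨n, ?_⟩
    funext i
    simp only [modif, hn]
    by_cases hi : i < N
    · simp only [hi, decide_true, Bool.true_and]
      cases x i <;> cases y i <;> rfl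
    · simp only [hi, decide_false, Bool.false_and, Bool.xor_false]
      exact hN i (not_lt.mp hi)

theorem range_modif_eq_iff (x y : ℕ → Bool) :
    Set.range (modif x) = Set.range (modif y) ↔ ∀ᶠ n in atTop, x n = y n := by
  rw [range_modif, range_modif]
  constructor
  · intro h
    have : y ∈ {z : ℕ → Bool | ∀ᶠ n in atTop, x n = z n} := by
      rw [h]
      exact Eventually.of_forall fun _ => rfl
    exact this
  · intro h
    ext z
    exact ⟨fun h' => (h.and h').mono fun n hn => hn.1.symm.trans hn.2,
      fun h' => (h.and h').mono fun n hn => hn.1.trans hn.2⟩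

theorem measurable_modif : Measurable modif := by
  refine measurable_pi_iff.mpr fun n => measurable_pi_iff.mpr fun i => ?_
  exact (measurable_from_top (f := fun b : Bool => xor b (n.testBit i))).comp
    (measurable_pi_apply i)

/-- Equality of countable sets of reals has no Borel complete invariants in a countably separated
space. -/
theorem not_smooth {Y : Type} [MeasurableSpace Y] [MeasurableSpace.CountablySeparated Y]
    (h : (ℕ → ℕ → Bool) → Y) (hm : Measurable h) :
    ¬ ∀ s t, Set.range s = Set.range t ↔ h s = h t := by
  intro hst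
  let H : (ℕ → Bool) → Y := fun x => h (modif x)
  have hH : Measurable H := hm.comp measurable_modif
  have hH' : ∀ x y, H x = H y ↔ ∀ᶠ n in atTop, x n = y n := by
    intro x y
    rw [← range_modif_eq_iff, hst]
  have : Nonempty Y := ⟨H fun _ => false⟩
  obtain ⟨y0, hy0⟩ := exists_eventuallyEq_const_of_forall_separating (l := ae cmu) (f := H)
    MeasurableSet (by
      intro U hU
      rcases zero_one (H ⁻¹' U) (hH hU) (fun x y hxy hx => by
        have := (hH' x y).mpr hxy
        change H y ∈ U
        rw [← this]
        exact hx) with h0 | h1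
      · right
        rw [ae_iff]
        simp only [not_not]
        exact h0
      · left
        exact (prob_compl_eq_zero_iff (hH hU)).mpr h1)
  have hcount : ∀ x : ℕ → Bool, cmu {y | ∀ᶠ n in atTop, x n = y n} = 0 := by
    intro x
    rw [← range_modif]
    rw [← Set.iUnion_singleton_eq_range]
    exact measure_iUnion_null fun n => cmu_singleton _
  have hne : ∃ x, H x = y0 := by
    by_contra hne
    push Not at hne
    have : cmu {x | ¬ H x = y0} = 0 := by
      have := hy0
      rwa [EventuallyEq, ae_iff] at this
    have h2 : {x | ¬ H x = y0} = Set.univ := by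
      ext x
      simp [hne x]
    rw [h2, measure_univ] at this
    exact one_ne_zero this
  obtain ⟨x, hx⟩ := hne
  have h3 : {y | ∀ᶠ n in atTop, x n = y n} ∪ {y | ¬ H y = y0} = Set.univ := by
    ext y
    simp only [Set.mem_union, Set.mem_ofPred_eq, Set.mem_univ, iff_true]
    by_cases hy : H y = y0
    · left
      rw [← hH', hx, hy]
    · right
      exact hy
  have h4 : cmu {y | ¬ H y = y0} = 0 := by
    have := hy0
    rwa [EventuallyEq, ae_iff] at this
  have h5 := measure_union_null (hcount x) h4
  rw [h3, measure_univ] at h5
  exact one_ne_zero h5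

end Pool.Agent.Work.MP_f1d084_lc
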