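import Mathlib
import Pool.Agent.Work.MP_f1d084_lc.BackForth
import Pool.Agent.Work.MP_f1d084_lc.Tool

set_option autoImplicit false

namespace Pool.Agent.Work.MP_f1d084_lc

open FirstOrder

/-- The order of the component of the forest which codes `x`: a chain `inl 0 < inl 1 < ...` and
for every `k` a maximal element `inr k` above exactly the `inl i` with `i ≤ 2 k + x k`. -/
def compLe (x : ℕ → Bool) : ℕ ⊕ ℕ → ℕ ⊕ ℕ → Bool
  | .inl i, .inl j => decide (i ≤ j)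
  | .inl i, .inr k => decide (i ≤ 2 * k + (x k).toNat)
  | .inr k, .inr l => decide (k = l)
  | .inr _, .inl _ => false

/-- The forest which codes a sequence of reals: for each `n` infinitely many components which
code `s n`. -/
@[ext] structure Forest (s : ℕ → ℕ → Bool) : Type where
  /-- the index of the component -/
  comp : ℕ × ℕ
  /-- the position in the component -/
  pos : ℕ ⊕ ℕ

instance (s : ℕ → ℕ → Bool) : LE (Forest s) :=
  ⟨fun a b => a.1 = b.1 ∧ compLe (s a.1.1) a.2 b.2 = true⟩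

variable {s t : ℕ → ℕ → Bool}

theorem forest_le_iff (a b : Forest s) : a ≤ b ↔ a.1 = b.1 ∧ compLe (s a.1.1) a.2 b.2 = true :=
  Iff.rfl

theorem forest_ll (p q : ℕ × ℕ) (i j : ℕ) :
    (⟨p, Sum.inl i⟩ : Forest s) ≤ (⟨q, Sum.inl j⟩ : Forest s) ↔ p = q ∧ i ≤ j := by
  rw [forest_le_iff]; simp [compLe]

theorem forest_lr (p q : ℕ × ℕ) (i k : ℕ) :
    (⟨p, Sum.inl i⟩ : Forest s) ≤ (⟨q, Sum.inr k⟩ : Forest s) ↔
      p = q ∧ i ≤ 2 * k + (s p.1 k).toNat := by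
  rw [forest_le_iff]; simp [compLe]

theorem forest_rr (p q : ℕ × ℕ) (k l : ℕ) :
    (⟨p, Sum.inr k⟩ : Forest s) ≤ (⟨q, Sum.inr l⟩ : Forest s) ↔ p = q ∧ k = l := by
  rw [forest_le_iff]; simp [compLe]

theorem forest_rl (p q : ℕ × ℕ) (k j : ℕ) :
    ¬ (⟨p, Sum.inr k⟩ : Forest s) ≤ (⟨q, Sum.inl j⟩ : Forest s) := by
  rw [forest_le_iff]; simp [compLe]

theorem forest_refl (a : Forest s) : a ≤ a := by
  obtain ⟨p, c⟩ := a
  rcases c with i | k
  · exact (forest_ll _ _ _ _).mpr ⟨rfl, le_rfl⟩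
  · exact (forest_rr _ _ _ _).mpr ⟨rfl, rfl⟩

theorem forest_antisymm (a b : Forest s) (h1 : a ≤ b) (h2 : b ≤ a) : a = b := by
  obtain ⟨p, c⟩ := a
  obtain ⟨q, d⟩ := b
  rcases c with i | k <;> rcases d with j | l
  · obtain ⟨rfl, h⟩ := (forest_ll _ _ _ _).mp h1
    obtain ⟨-, h'⟩ := (forest_ll _ _ _ _).mp h2
    rw [le_antisymm h h']
  · exact absurd h2 (forest_rl _ _ _ _)
  · exact absurd h1 (forest_rl _ _ _ _)
  · obtain ⟨rfl, rfl⟩ := (forest_rr _ _ _ _).mp h1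
    rfl

theorem forest_trans (a b c : Forest s) (h1 : a ≤ b) (h2 : b ≤ c) : a ≤ c := by
  obtain ⟨p, a⟩ := a
  obtain ⟨q, b⟩ := b
  obtain ⟨r, c⟩ := c
  rcases a with i | k <;> rcases b with j | l <;> rcases c with m | n
  · obtain ⟨rfl, h⟩ := (forest_ll _ _ _ _).mp h1
    obtain ⟨rfl, h'⟩ := (forest_ll _ _ _ _).mp h2
    exact (forest_ll _ _ _ _).mpr ⟨rfl, h.trans h'⟩
  · obtain ⟨rfl, h⟩ := (forest_ll _ _ _ _).mp h1
    obtain ⟨rfl, h'⟩ := (forest_lr _ _ _ _).mp h2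
    exact (forest_lr _ _ _ _).mpr ⟨rfl, h.trans h'⟩
  · exact absurd h2 (forest_rl _ _ _ _)
  · obtain ⟨rfl, h⟩ := (forest_lr _ _ _ _).mp h1
    obtain ⟨rfl, rfl⟩ := (forest_rr _ _ _ _).mp h2
    exact (forest_lr _ _ _ _).mpr ⟨rfl, h⟩
  · exact absurd h1 (forest_rl _ _ _ _)
  · exact absurd h1 (forest_rl _ _ _ _)
  · exact absurd h2 (forest_rl _ _ _ _)
  · obtain ⟨rfl, rfl⟩ := (forest_rr _ _ _ _).mp h1
    obtain ⟨rfl, rfl⟩ := (forest_rr _ _ _ _).mp h2
    exact (forest_rr _ _ _ _).mpr ⟨rfl, rfl⟩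

/-- Exactly `k` elements are strictly below `u`, which form a chain. -/
def lev : ℕ → ∀ (P : Type) [LE P], P → Prop
  | 0 => fun P _ u => ∀ w : P, ¬ (w ≤ u ∧ ¬ u ≤ w)
  | k + 1 => fun P _ u => ∃ v : P, (v ≤ u ∧ ¬ u ≤ v) ∧ (∀ w : P, (w ≤ u ∧ ¬ u ≤ w) → w ≤ v) ∧
      lev k P v

theorem isFO_lev (k : ℕ) : ∀ {α : Type} (i : α),
    IsFO (fun (P : Type) [LE P] (v : α → P) => lev k P (v i)) := by
  induction k with
  | zero =>
    intro α i
    exact IsFO.all (Q := fun P _ v => ¬ (v (Sum.inr ()) ≤ v (Sum.inl i) ∧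
      ¬ v (Sum.inl i) ≤ v (Sum.inr ()))) (isFO_lt _ _).not
  | succ k ih =>
    intro α i
    refine IsFO.ex (Q := fun P _ v => (v (Sum.inr ()) ≤ v (Sum.inl i) ∧
      ¬ v (Sum.inl i) ≤ v (Sum.inr ())) ∧
      (∀ w : P, (w ≤ v (Sum.inl i) ∧ ¬ v (Sum.inl i) ≤ w) → w ≤ v (Sum.inr ())) ∧
      lev k P (v (Sum.inr ()))) ((isFO_lt _ _).and (IsFO.and ?_ (ih _)))
    exact IsFO.all (Q := fun P _ v => (v (Sum.inr ()) ≤ v (Sum.inl (Sum.inl i)) ∧
      ¬ v (Sum.inl (Sum.inl i)) ≤ v (Sum.inr ())) → v (Sum.inr ()) ≤ v (Sum.inl (Sum.inr ())))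
      ((isFO_lt _ _).imp (isFO_le _ _))

/-- `u` is maximal. -/
def mx (P : Type) [LE P] (u : P) : Prop := ∀ w : P, u ≤ w → w ≤ u

theorem isFO_mx {α : Type} (i : α) :
    IsFO (fun (P : Type) [LE P] (v : α → P) => mx P (v i)) :=
  IsFO.all (Q := fun P _ v => v (Sum.inl i) ≤ v (Sum.inr ()) → v (Sum.inr ()) ≤ v (Sum.inl i))
    ((isFO_le _ _).imp (isFO_le _ _))

/-- `u` and `v` have a common lower bound. -/
def conn (P : Type) [LE P] (u v : P) : Prop := ∃ w : P, w ≤ u ∧ w ≤ v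

theorem isFO_conn {α : Type} (i j : α) :
    IsFO (fun (P : Type) [LE P] (v : α → P) => conn P (v i) (v j)) :=
  IsFO.ex (Q := fun P _ v => v (Sum.inr ()) ≤ v (Sum.inl i) ∧ v (Sum.inr ()) ≤ v (Sum.inl j))
    ((isFO_le _ _).and (isFO_le _ _))

/-- The `k`-th digit of the real coded by the component of `u` is `1`. -/
def bit (k : ℕ) (P : Type) [LE P] (u : P) : Prop :=
  ∃ d : P, conn P u d ∧ mx P d ∧ lev (2 * k + 2) P d

theorem isFO_bit (k : ℕ) {α : Type} (i : α) :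
    IsFO (fun (P : Type) [LE P] (v : α → P) => bit k P (v i)) :=
  IsFO.ex (Q := fun P _ v => conn P (v (Sum.inl i)) (v (Sum.inr ())) ∧ mx P (v (Sum.inr ())) ∧
    lev (2 * k + 2) P (v (Sum.inr ())))
    ((isFO_conn _ _).and ((isFO_mx _).and (isFO_lev _ _)))

theorem forest_conn (a b : Forest s) : conn (Forest s) a b ↔ a.1 = b.1 := by
  constructor
  · rintro ⟨w, h1, h2⟩
    exact h1.1.symm.trans h2.1
  · intro h
    obtain ⟨p, c⟩ := a
    obtain ⟨q, d⟩ := b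
    have h' : p = q := h
    subst h'
    refine ⟨⟨p, Sum.inl 0⟩, ?_, ?_⟩
    · rcases c with i | k
      · exact (forest_ll _ _ _ _).mpr ⟨rfl, Nat.zero_le _⟩
      · exact (forest_lr _ _ _ _).mpr ⟨rfl, Nat.zero_le _⟩
    · rcases d with i | k
      · exact (forest_ll _ _ _ _).mpr ⟨rfl, Nat.zero_le _⟩
      · exact (forest_lr _ _ _ _).mpr ⟨rfl, Nat.zero_le _⟩

theorem forest_mx_l (p : ℕ × ℕ) (i : ℕ) : ¬ mx (Forest s) ⟨p, Sum.inl i⟩ := by
  intro h
  have h1 := h ⟨p, Sum.inl (i + 1)⟩ ((forest_ll _ _ _ _).mpr ⟨rfl, Nat.le_succ _⟩)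
  have h2 := ((forest_ll _ _ _ _).mp h1).2
  omega

theorem forest_mx_r (p : ℕ × ℕ) (k : ℕ) : mx (Forest s) ⟨p, Sum.inr k⟩ := by
  rintro ⟨q, i | l⟩ h
  · exact absurd h (forest_rl _ _ _ _)
  · obtain ⟨rfl, rfl⟩ := (forest_rr _ _ _ _).mp h
    exact h

theorem forest_lev_l (k : ℕ) : ∀ (p : ℕ × ℕ) (i : ℕ),
    lev k (Forest s) ⟨p, Sum.inl i⟩ ↔ i = k := by
  induction k with
  | zero =>
    intro p i
    constructor
    · intro h
      by_contra hi
      refine h ⟨p, Sum.inl 0⟩ ⟨(forest_ll _ _ _ _).mpr ⟨rfl, Nat.zero_le _⟩, fun h' => ?_⟩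
      have := ((forest_ll _ _ _ _).mp h').2
      omega
    · rintro rfl ⟨q, j | l⟩ ⟨h1, h2⟩
      · obtain ⟨rfl, h⟩ := (forest_ll _ _ _ _).mp h1
        apply h2
        exact (forest_ll _ _ _ _).mpr ⟨rfl, Nat.zero_le _⟩
      · exact absurd h1 (forest_rl _ _ _ _)
  | succ k ih =>
    intro p i
    constructor
    · rintro ⟨⟨q, j | l⟩, ⟨h1, h2⟩, h3, h4⟩
      · obtain ⟨rfl, h⟩ := (forest_ll _ _ _ _).mp h1
        rw [ih] at h4
        subst h4
        have h5 : ¬ i ≤ j := fun h' => h2 ((forest_ll _ _ _ _).mpr ⟨rfl, h'⟩)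
        have h6 := h3 ⟨q, Sum.inl (i - 1)⟩ ⟨(forest_ll _ _ _ _).mpr ⟨rfl, by omega⟩, fun h' => by
          have := ((forest_ll _ _ _ _).mp h').2
          omega⟩
        have := ((forest_ll _ _ _ _).mp h6).2
        omega
      · exact absurd h1 (forest_rl _ _ _ _)
    · rintro rfl
      refine ⟨⟨p, Sum.inl k⟩, ⟨(forest_ll _ _ _ _).mpr ⟨rfl, Nat.le_succ _⟩, fun h' => ?_⟩, ?_, ?_⟩
      · have := ((forest_ll _ _ _ _).mp h').2
        omega
      · rintro ⟨q, j | l⟩ ⟨h1, h2⟩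
        · obtain ⟨rfl, h⟩ := (forest_ll _ _ _ _).mp h1
          refine (forest_ll _ _ _ _).mpr ⟨rfl, ?_⟩
          by_contra h'
          apply h2
          exact (forest_ll _ _ _ _).mpr ⟨rfl, by omega⟩
        · exact absurd h1 (forest_rl _ _ _ _)
      · rw [ih]

theorem forest_lev_r (k : ℕ) (p : ℕ × ℕ) (l : ℕ) :
    lev k (Forest s) ⟨p, Sum.inr l⟩ ↔ k = 2 * l + (s p.1 l).toNat + 1 := by
  cases k with
  | zero =>
    constructor
    · intro h
      exfalso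
      refine h ⟨p, Sum.inl 0⟩ ⟨(forest_lr _ _ _ _).mpr ⟨rfl, Nat.zero_le _⟩, fun h' => ?_⟩
      exact forest_rl _ _ _ _ h'
    · intro h
      omega
  | succ k =>
    constructor
    · rintro ⟨⟨q, j | l'⟩, ⟨h1, h2⟩, h3, h4⟩
      · obtain ⟨rfl, h⟩ := (forest_lr _ _ _ _).mp h1
        rw [forest_lev_l] at h4
        subst h4
        have h6 := h3 ⟨q, Sum.inl (2 * l + (s q.1 l).toNat)⟩
          ⟨(forest_lr _ _ _ _).mpr ⟨rfl, le_rfl⟩, forest_rl _ _ _ _⟩
        have := ((forest_ll _ _ _ _).mp h6).2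
        omega
      · exfalso
        apply h2
        obtain ⟨rfl, rfl⟩ := (forest_rr _ _ _ _).mp h1
        exact h1
    · intro h
      have hk : k = 2 * l + (s p.1 l).toNat := by omega
      refine ⟨⟨p, Sum.inl k⟩, ⟨(forest_lr _ _ _ _).mpr ⟨rfl, hk.le⟩, forest_rl _ _ _ _⟩, ?_, ?_⟩
      · rintro ⟨q, j | l'⟩ ⟨h1, h2⟩
        · obtain ⟨rfl, h⟩ := (forest_lr _ _ _ _).mp h1
          exact (forest_ll _ _ _ _).mpr ⟨rfl, by omega⟩
        · exfalso
          apply h2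
          obtain ⟨rfl, rfl⟩ := (forest_rr _ _ _ _).mp h1
          exact h1
      · rw [forest_lev_l]

theorem forest_bit (k : ℕ) (a : Forest s) : bit k (Forest s) a ↔ s a.1.1 k = true := by
  constructor
  · rintro ⟨⟨q, j | l⟩, h1, h2, h3⟩
    · exact absurd h2 (forest_mx_l _ _)
    · rw [forest_lev_r] at h3
      rw [forest_conn] at h1
      have h4 : a.1 = q := h1
      rw [h4]
      have h5 : (s q.1 l).toNat ≤ 1 := Bool.toNat_le _
      have h6 : l = k := by omega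
      subst h6
      have h7 : (s q.1 l).toNat = 1 := by omega
      cases h8 : s q.1 l
      · rw [h8] at h7; simp at h7
      · rfl
  · intro h
    refine ⟨⟨a.1, Sum.inr k⟩, (forest_conn _ _).mpr rfl, forest_mx_r _ _, ?_⟩
    rw [forest_lev_r, h]
    rfl

/-- Elements of forests which have the same type. -/
theorem forest_same {n : ℕ} {a : Fin n → Forest s} {b : Fin n → Forest t} (h : SameType a b)
    (i : Fin n) : (a i).2 = (b i).2 ∧ s (a i).1.1 = t (b i).1.1 := by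
  have h1 : s (a i).1.1 = t (b i).1.1 := by
    funext k
    have := (isFO_bit k i).iff h
    rw [forest_bit, forest_bit] at this
    rw [Bool.eq_iff_iff]
    exact this
  refine ⟨?_, h1⟩
  have hm := (isFO_mx i).iff h
  have hl := fun k => (isFO_lev k i).iff h
  generalize a i = u at *
  generalize b i = w at *
  obtain ⟨p, c⟩ := u
  obtain ⟨q, d⟩ := w
  rcases c with j | k <;> rcases d with j' | k'
  · have := hl j
    rw [forest_lev_l, forest_lev_l] at this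
    rw [this.mp rfl]
  · exact absurd (hm.mpr (forest_mx_r _ _)) (forest_mx_l _ _)
  · exact absurd (hm.mp (forest_mx_r _ _)) (forest_mx_l _ _)
  · have := hl (2 * k + (s p.1 k).toNat + 1)
    rw [forest_lev_r, forest_lev_r] at this
    have h2 := this.mp rfl
    have h3 : (s p.1 k).toNat ≤ 1 := Bool.toNat_le _
    have h4 : (t q.1 k').toNat ≤ 1 := Bool.toNat_le _
    have h5 : k = k' := by omega
    rw [h5]

end Pool.Agent.Work.MP_f1d084_lc
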