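import Mathlib
import Pool.Agent.Work.MP_f1d084_lc.Lower

set_option autoImplicit false

namespace Pool.Agent.Work.MP_f1d084_lc

open FirstOrder

variable {s t : ℕ → ℕ → Bool}

/-- Finite partial bijections between component indices which respect the coded reals. -/
def GoodL (s t : ℕ → ℕ → Bool) (l : List ((ℕ × ℕ) × (ℕ × ℕ))) : Prop :=
  (∀ x ∈ l, s x.1.1 = t x.2.1) ∧ ∀ x ∈ l, ∀ y ∈ l, (x.1 = y.1 ↔ x.2 = y.2)

theorem GoodL.forth (h : Set.range s ⊆ Set.range t) (l : List ((ℕ × ℕ) × (ℕ × ℕ)))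
    (hl : GoodL s t l) (p : ℕ × ℕ) : ∃ q, GoodL s t ((p, q) :: l) := by
  classical
  by_cases hp : ∃ x ∈ l, x.1 = p
  · obtain ⟨x, hx, rfl⟩ := hp
    refine ⟨x.2, ?_, ?_⟩
    · intro y hy
      rcases List.mem_cons.mp hy with rfl | hy
      · exact hl.1 x hx
      · exact hl.1 y hy
    · intro y hy z hz
      have hx' : (x.1, x.2) ∈ l := hx
      rcases List.mem_cons.mp hy with rfl | hy <;> rcases List.mem_cons.mp hz with rfl | hz
      · simp
      · exact hl.2 _ hx' _ hz
      · exact hl.2 _ hy _ hx'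
      · exact hl.2 _ hy _ hz
  · push Not at hp
    obtain ⟨m, hm⟩ : ∃ m, t m = s p.1 := h ⟨p.1, rfl⟩
    obtain ⟨j, hj⟩ : ∃ j : ℕ, ∀ x ∈ l, x.2 ≠ (m, j) := by
      obtain ⟨j, hj⟩ := Infinite.exists_notMem_finset ((l.map fun x => x.2.2).toFinset)
      refine ⟨j, fun x hx hxj => hj ?_⟩
      rw [List.mem_toFinset, List.mem_map]
      exact ⟨x, hx, by rw [hxj]⟩
    refine ⟨(m, j), ?_, ?_⟩
    · intro y hy
      rcases List.mem_cons.mp hy with rfl | hy
      · exact hm.symm
      · exact hl.1 y hy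
    · intro y hy z hz
      rcases List.mem_cons.mp hy with rfl | hy <;> rcases List.mem_cons.mp hz with rfl | hz
      · simp
      · exact ⟨fun h => absurd h.symm (hp z hz), fun h => absurd h.symm (hj z hz)⟩
      · exact ⟨fun h => absurd h (hp y hy), fun h => absurd h (hj y hy)⟩
      · exact hl.2 _ hy _ hz

theorem GoodL.swap (l : List ((ℕ × ℕ) × (ℕ × ℕ))) (hl : GoodL s t l) :
    GoodL t s (l.map Prod.swap) := by
  constructor
  · intro x hx
    obtain ⟨y, hy, rfl⟩ := List.mem_map.mp hx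
    exact (hl.1 y hy).symm
  · intro x hx y hy
    obtain ⟨x', hx', rfl⟩ := List.mem_map.mp hx
    obtain ⟨y', hy', rfl⟩ := List.mem_map.mp hy
    exact (hl.2 x' hx' y' hy').symm

theorem GoodL.perm (h : Set.range s = Set.range t) (l : List ((ℕ × ℕ) × (ℕ × ℕ)))
    (hl : GoodL s t l) : ∃ π : (ℕ × ℕ) ≃ (ℕ × ℕ), (∀ x ∈ l, π x.1 = x.2) ∧
      ∀ p, s p.1 = t (π p).1 := by
  obtain ⟨π, h1, h2⟩ := back_forth_equiv (GoodL s t) (GoodL.forth h.subset) (fun l hl q => by
    obtain ⟨p, hp⟩ := GoodL.forth h.symm.subset _ hl.swap q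
    refine ⟨p, ?_⟩
    have := hp.swap
    simpa [List.map_map, Function.comp_def] using this) (fun l hl => hl.2) l hl
  refine ⟨π, h1, fun p => ?_⟩
  obtain ⟨l', h3, h4, -⟩ := h2 p p
  exact h3.1 _ h4

/-- The isomorphism of forests induced by a permutation of the components. -/
def forestIso (π : (ℕ × ℕ) ≃ (ℕ × ℕ)) (h : ∀ p, s p.1 = t (π p).1) : Forest s ≃o Forest t where
  toFun a := ⟨π a.1, a.2⟩
  invFun a := ⟨π.symm a.1, a.2⟩
  left_inv a := by simp
  right_inv a := by simp
  map_rel_iff' := by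
    intro a b
    simp only [forest_le_iff, Equiv.coe_fn_mk, ← h, π.injective.eq_iff]

theorem forest_elemHomog (s : ℕ → ℕ → Bool) : ElemHomog (Forest s) := by
  intro n a b hab
  have h1 := fun i => forest_same hab i
  have h2 : ∀ i j, (a i).1 = (a j).1 ↔ (b i).1 = (b j).1 := by
    intro i j
    have := (isFO_conn i j).iff hab
    rwa [forest_conn, forest_conn] at this
  obtain ⟨π, hπ, hπ'⟩ := GoodL.perm (s := s) (t := s) rfl
    (List.ofFn fun i => ((a i).1, (b i).1)) ⟨by
      intro x hx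
      obtain ⟨i, rfl⟩ := (List.mem_ofFn' _ _).mp hx
      exact (h1 i).2, by
      intro x hx y hy
      obtain ⟨i, rfl⟩ := (List.mem_ofFn' _ _).mp hx
      obtain ⟨j, rfl⟩ := (List.mem_ofFn' _ _).mp hy
      exact h2 i j⟩
  refine ⟨forestIso π hπ', fun i => ?_⟩
  have h3 := hπ ((a i).1, (b i).1) ((List.mem_ofFn' _ _).mpr ⟨i, rfl⟩)
  ext
  · exact congrArg Prod.fst h3
  · exact congrArg Prod.snd h3
  · exact (h1 i).1

theorem forest_iso_iff : Nonempty (Forest s ≃o Forest t) ↔ Set.range s = Set.range t := by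
  constructor
  · have key : ∀ {s t : ℕ → ℕ → Bool}, (Forest s ≃o Forest t) → Set.range s ⊆ Set.range t := by
      rintro s t f _ ⟨n, rfl⟩
      have h1 := SameType.of_iso f (fun _ : Fin 1 => (⟨(n, 0), Sum.inl 0⟩ : Forest s))
      exact ⟨_, (forest_same h1 0).2.symm⟩
    rintro ⟨f⟩
    exact Set.Subset.antisymm (key f) (key f.symm)
  · intro h
    obtain ⟨π, -, hπ⟩ := GoodL.perm h [] ⟨by simp, by simp⟩
    exact ⟨forestIso π hπ⟩

/-- Every principal ideal of the forest is a finite chain. -/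
theorem forest_ideal (a : Forest s) : {b : Forest s | b ≤ a}.Finite ∧
    ∀ b c : Forest s, b ≤ a → c ≤ a → (b ≤ c ∨ c ≤ b) := by
  obtain ⟨p, i | k⟩ := a
  · constructor
    · have : {b : Forest s | b ≤ ⟨p, Sum.inl i⟩} ⊆
          (fun j : ℕ => (⟨p, Sum.inl j⟩ : Forest s)) '' Set.Iic i := by
        rintro ⟨q, j | l⟩ h
        · obtain ⟨rfl, h'⟩ := (forest_ll _ _ _ _).mp h
          exact ⟨j, h', rfl⟩
        · exact absurd h (forest_rl _ _ _ _)
      exact ((Set.finite_Iic i).image _).subset this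
    · rintro ⟨q, j | l⟩ ⟨r, m | n⟩ h1 h2
      · obtain ⟨rfl, -⟩ := (forest_ll _ _ _ _).mp h1
        obtain ⟨rfl, -⟩ := (forest_ll _ _ _ _).mp h2
        rcases le_total j m with h | h
        · exact Or.inl ((forest_ll _ _ _ _).mpr ⟨rfl, h⟩)
        · exact Or.inr ((forest_ll _ _ _ _).mpr ⟨rfl, h⟩)
      · exact absurd h2 (forest_rl _ _ _ _)
      · exact absurd h1 (forest_rl _ _ _ _)
      · exact absurd h1 (forest_rl _ _ _ _)
  · constructor
    · have : {b : Forest s | b ≤ ⟨p, Sum.inr k⟩} ⊆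
          (fun j : ℕ => (⟨p, Sum.inl j⟩ : Forest s)) '' Set.Iic (2 * k + (s p.1 k).toNat) ∪
            {⟨p, Sum.inr k⟩} := by
        rintro ⟨q, j | l⟩ h
        · obtain ⟨rfl, h'⟩ := (forest_lr _ _ _ _).mp h
          exact Or.inl ⟨j, h', rfl⟩
        · obtain ⟨rfl, rfl⟩ := (forest_rr _ _ _ _).mp h
          exact Or.inr rfl
      exact (((Set.finite_Iic _).image _).union (Set.finite_singleton _)).subset this
    · rintro ⟨q, j | l⟩ ⟨r, m | n⟩ h1 h2
      · obtain ⟨rfl, -⟩ := (forest_lr _ _ _ _).mp h1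
        obtain ⟨rfl, -⟩ := (forest_lr _ _ _ _).mp h2
        rcases le_total j m with h | h
        · exact Or.inl ((forest_ll _ _ _ _).mpr ⟨rfl, h⟩)
        · exact Or.inr ((forest_ll _ _ _ _).mpr ⟨rfl, h⟩)
      · obtain ⟨rfl, rfl⟩ := (forest_rr _ _ _ _).mp h2
        exact Or.inl h1
      · obtain ⟨rfl, rfl⟩ := (forest_rr _ _ _ _).mp h1
        exact Or.inr h2
      · obtain ⟨rfl, rfl⟩ := (forest_rr _ _ _ _).mp h1
        obtain ⟨rfl, rfl⟩ := (forest_rr _ _ _ _).mp h2
        exact Or.inl h1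

/-- An enumeration of the underlying set. -/
noncomputable def enum : ℕ ≃ (ℕ × ℕ) × (ℕ ⊕ ℕ) := (Denumerable.eqv _).symm

/-- The forest as a code. -/
noncomputable def forestCode (s : ℕ → ℕ → Bool) : Code := fun a b =>
  decide ((enum a).1 = (enum b).1) && compLe (s (enum a).1.1) (enum a).2 (enum b).2

/-- The code codes the forest. -/
noncomputable def forestCodeIso (s : ℕ → ℕ → Bool) : OfCode (forestCode s) ≃o Forest s where
  toFun a := ⟨(enum a).1, (enum a).2⟩
  invFun a := enum.symm (a.1, a.2)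
  left_inv a := by
    change enum.symm (enum a) = a
    exact enum.symm_apply_apply a
  right_inv a := by
    have := enum.apply_symm_apply (a.1, a.2)
    ext
    · exact congrArg (fun x => x.1.1) this
    · exact congrArg (fun x => x.1.2) this
    · exact congrArg Prod.snd this
  map_rel_iff' := by
    intro a b
    change (enum a).1 = (enum b).1 ∧ compLe (s (enum a).1.1) (enum a).2 (enum b).2 = true ↔
      forestCode s a b = true
    simp [forestCode]

theorem continuous_forestCode : Continuous forestCode := by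
  refine continuous_pi fun a => continuous_pi fun b => ?_
  unfold forestCode
  by_cases h : (enum a).1 = (enum b).1
  · simp only [h, decide_true, Bool.true_and]
    rcases (enum a).2 with i | k <;> rcases (enum b).2 with j | l
    · exact continuous_const
    · have h1 : Continuous fun s : ℕ → ℕ → Bool => s (enum b).1.1 l :=
        (continuous_apply l).comp (continuous_apply (enum b).1.1)
      have h2 : Continuous fun x : Bool => decide (i ≤ 2 * l + x.toNat) :=
        continuous_of_discreteTopology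
      exact h2.comp h1
    · exact continuous_const
    · exact continuous_const
  · simp only [h, decide_false, Bool.false_and]
    exact continuous_const

theorem isPO_of_iso {R : Code} (e : OfCode R ≃o Forest s) : IsPO R := by
  refine ⟨fun a => ?_, fun a b h1 h2 => ?_, fun a b c h1 h2 => ?_⟩
  · rw [← e.le_iff_le]
    exact forest_refl _
  · apply e.injective
    exact forest_antisymm _ _ (e.le_iff_le.mpr h1) (e.le_iff_le.mpr h2)
  · rw [← e.le_iff_le] at h1 h2 ⊢
    exact forest_trans _ _ _ h1 h2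

/-- Equality of countable sets of reals is Borel reducible to isomorphism of elementarily
homogeneous posets. -/
theorem lower : ∃ g : (ℕ → ℕ → Bool) → Code, Continuous g ∧ (∀ s, g s ∈ EH) ∧
    (∀ s t, (Nonempty (OfCode (g s) ≃o OfCode (g t)) ↔ Set.range s = Set.range t)) ∧
    ∀ s, ∀ a : OfCode (g s), {b : OfCode (g s) | b ≤ a}.Finite ∧
      ∀ b c : OfCode (g s), b ≤ a → c ≤ a → (b ≤ c ∨ c ≤ b) := by
  refine ⟨forestCode, continuous_forestCode, fun s => ⟨isPO_of_iso (forestCodeIso s),
    ElemHomog.of_iso (forestCodeIso s).symm (forest_elemHomog s)⟩, fun s t => ?_, fun s a => ?_⟩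
  · rw [← forest_iso_iff]
    exact ⟨fun ⟨f⟩ => ⟨(forestCodeIso s).symm.trans (f.trans (forestCodeIso t))⟩,
      fun ⟨f⟩ => ⟨(forestCodeIso s).trans (f.trans (forestCodeIso t).symm)⟩⟩
  · obtain ⟨h1, h2⟩ := forest_ideal (forestCodeIso s a)
    constructor
    · have : {b : OfCode (forestCode s) | b ≤ a} =
          (forestCodeIso s) ⁻¹' {b : Forest s | b ≤ forestCodeIso s a} := by
        ext b
        exact (forestCodeIso s).le_iff_le.symm
      rw [this]
      exact h1.preimage (forestCodeIso s).injective.injOn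
    · intro b c hb hc
      have := h2 (forestCodeIso s b) (forestCodeIso s c) ((forestCodeIso s).le_iff_le.mpr hb)
        ((forestCodeIso s).le_iff_le.mpr hc)
      rwa [(forestCodeIso s).le_iff_le, (forestCodeIso s).le_iff_le] at this

end Pool.Agent.Work.MP_f1d084_lc
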